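import Pool.Agent.L5helper96.NT.Asm

/-!
# Natural time: convergence of the exploration path with its natural parametrisation
-/

set_option autoImplicit false

namespace Pool.Agent.L5helper96.NT
open Y994.KW Pool.Agent.Y290.KW Finset Filter Topology MeasureTheory ProbabilityTheory
open Pool.Agent.Y941.KW (pr_le_one pr_or pr_mono pr_nonneg per_cfg bad S_T1LOC cfg_shift)

theorem Pw_eq (n M : ℕ) (A : (Fin M → Fin (2 * n + 1) → Bool) → Prop) : Pw M A = pr n M A := by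
  classical
  unfold Pw pr
  rw [Ea_eq]

/-- modulus of continuity of the winding -/
theorem modw (hC : S_CRS) (hX : S_XD) (hS : S_SYM) (hM : S_MOM) (hP : S_DPOS)
    (hO : S_OSC) (hMP : S_MODP) {D : ℕ → ℝ} {K : ℝ} (hD : Dif D K) (n M : ℕ → ℕ)
    (hn : ∀ i, 1 ≤ n i) (hM' : Tendsto (fun i => (M i : ℝ) / (2 * n i + 1)) atTop atTop)
    (ε η : ℝ) (hε : 0 < ε) (hη : 0 < η) : ∃ δ : ℝ, 0 < δ ∧ ∀ᶠ i in atTop,
      Pw (M i) (fun c : Fin (M i) → Fin (2 * n i + 1) → Bool => ∃ s t : unitInterval,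
        |(s : ℝ) - t| ≤ δ ∧ ε ≤ |wnd (n i) (M i) c s - wnd (n i) (M i) c t|) ≤ η := by
  classical
  obtain ⟨b, δ0, hb, hδ0, hF⟩ := fam_inst hX hS hM hP hO hD
  have hfam := hF n M hn hM'
  obtain ⟨L, hL⟩ : ∃ L : ℝ, L = √(6 + |K|) := ⟨_, rfl⟩
  have hLp : 0 < L := by rw [hL]; positivity
  obtain ⟨δ, A, hδ, hA, h⟩ := hMP δ0 (ε / L) η hδ0 (by positivity) hη
  refine ⟨δ, hδ, ?_⟩
  filter_upwards [hM'.eventually_ge_atTop A] with i hi
  have hN : (0 : ℝ) < 2 * (n i : ℝ) + 1 := by positivity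
  rw [le_div_iff₀ hN] at hi
  have h1 := h _ (fun M c => (X (n i) M c : ℝ)) _ _ _ (hfam.qa i) (hfam.osc i) (hfam.low i) (M i)
    (by push_cast; exact hi)
  refine le_trans (Pw_mono _ ?_) h1
  rintro c ⟨s, t, hst, hc⟩
  refine ⟨s, t, hst, ?_⟩
  have hDp := D_pos hX hS hP hD (n i) (hn i)
  rw [wnd_eq hC (n i) (M i) (hn i) (D (n i)) hDp c] at hc
  simp only [ContinuousMap.smul_apply, smul_eq_mul] at hc
  rw [← mul_sub, abs_mul, abs_of_nonneg (Real.sqrt_nonneg _)] at hc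
  rw [div_le_iff₀ hLp]
  refine hc.trans ?_
  rw [mul_comm]
  apply mul_le_mul_of_nonneg_left _ (abs_nonneg _)
  rw [hL]
  apply Real.sqrt_le_sqrt
  have h2 := (abs_le.1 (hD.six (n i))).2
  have h3 : K / (2 * (n i : ℝ) + 1) ≤ |K| := by
    rw [div_le_iff₀ hN]
    have h4 : (1 : ℝ) ≤ 2 * (n i : ℝ) + 1 := by
      have : (0 : ℝ) ≤ n i := by positivity
      linarith
    have h5 := le_abs_self K
    nlinarith [abs_nonneg K]
  linarith

/-- the windows -/
theorem Bad_lim (hOS : ∃ C κ : ℝ, 0 < C ∧ 0 < κ ∧ ∀ (n W s s' : ℕ) (x : ℝ), 1 ≤ n → 0 ≤ x → s ≤ s' →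
      s' ≤ s + (2 * n + 1) → s' ≤ W → pr n W (Bad n W s s' x) ≤ C * Real.exp (-κ * √x))
    (n M : ℕ → ℕ) (hn : ∀ i, 1 ≤ n i)
    (hM : Tendsto (fun i => (M i : ℝ) / (2 * n i + 1)) atTop atTop) (θ : ℝ) (hθ : 0 < θ) :
    Tendsto (fun i => Pw (M i) (fun c : Fin (M i) → Fin (2 * n i + 1) → Bool =>
      ∃ j ∈ Finset.range (M i / (2 * n i + 1) + 1), Bad (n i) (M i) (wl (n i) (M i) j)
        (wl (n i) (M i) (j + 1)) (θ * √((M i : ℝ) / (2 * n i + 1))) c)) atTop (𝓝 0) := by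
  obtain ⟨C, κ, hC, hκ, h⟩ := hOS
  -- the bound
  have hup : Tendsto (fun i => (((M i : ℝ) / (2 * n i + 1)) + 1) *
      (C * Real.exp (-κ * √(θ * √((M i : ℝ) / (2 * n i + 1)))))) atTop (𝓝 0) := by
    have h1 : Tendsto (fun z : ℝ => (z + 1) * (C * Real.exp (-κ * √(θ * √z)))) atTop (𝓝 0) := by
      -- substitution `z = y ^ 4 / θ ^ 2`
      have h2 : Tendsto (fun y : ℝ => (y ^ 4 / θ ^ 2 + 1) * (C * Real.exp (-κ * y))) atTop (𝓝 0) := by
        have e : (fun y : ℝ => (y ^ 4 / θ ^ 2 + 1) * (C * Real.exp (-κ * y))) =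
            fun y => C / θ ^ 2 / κ ^ 4 * ((κ * y) ^ 4 * Real.exp (-(κ * y))) +
              C * ((κ * y) ^ 0 * Real.exp (-(κ * y))) := by
          funext y
          have : -κ * y = -(κ * y) := by ring
          rw [this]
          field_simp
        rw [e]
        have h3 : Tendsto (fun y : ℝ => κ * y) atTop atTop := tendsto_id.const_mul_atTop hκ
        have h4 := ((Real.tendsto_pow_mul_exp_neg_atTop_nhds_zero 4).comp h3).const_mul
          (C / θ ^ 2 / κ ^ 4)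
        have h5 := ((Real.tendsto_pow_mul_exp_neg_atTop_nhds_zero 0).comp h3).const_mul C
        have h6 := h4.add h5
        simpa using h6
      have h3 : Tendsto (fun z : ℝ => √(θ * √z)) atTop atTop :=
        Real.tendsto_sqrt_atTop.comp (Real.tendsto_sqrt_atTop.const_mul_atTop hθ)
      refine (h2.comp h3).congr' ?_
      filter_upwards [eventually_ge_atTop (0 : ℝ)] with z hz
      simp only [Function.comp]
      congr 2
      have e1 : √(θ * √z) ^ 4 = (√(θ * √z) ^ 2) ^ 2 := by ring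
      rw [e1, Real.sq_sqrt (by positivity), mul_pow, Real.sq_sqrt hz]
      field_simp
    exact h1.comp hM
  refine squeeze_zero (fun i => Pw_nonneg _ _) (fun i => ?_) hup
  refine (Pw_ex (M i) _ _).trans ?_
  have hN : (0 : ℝ) < 2 * (n i : ℝ) + 1 := by positivity
  have h1 : ∀ j ∈ Finset.range (M i / (2 * n i + 1) + 1), Pw (M i)
      (Bad (n i) (M i) (wl (n i) (M i) j) (wl (n i) (M i) (j + 1)) (θ * √((M i : ℝ) / (2 * n i + 1))))
      ≤ C * Real.exp (-κ * √(θ * √((M i : ℝ) / (2 * n i + 1)))) := by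
    intro j _
    rw [Pw_eq]
    refine h (n i) (M i) _ _ _ (hn i) (by positivity) ?_ ?_ (min_le_right _ _)
    · unfold wl
      exact min_le_min_right _ (Nat.mul_le_mul_right _ (Nat.le_succ j))
    · unfold wl
      rw [Nat.succ_mul]
      omega
  refine (Finset.sum_le_sum h1).trans ?_
  rw [Finset.sum_const, Finset.card_range, nsmul_eq_mul]
  push_cast
  have h2 : ((M i / (2 * n i + 1) : ℕ) : ℝ) ≤ (M i : ℝ) / (2 * n i + 1) := by
    have := Nat.cast_div_le (α := ℝ) (m := M i) (n := 2 * n i + 1)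
    push_cast at this
    exact this
  have h3 : 0 ≤ C * Real.exp (-κ * √(θ * √((M i : ℝ) / (2 * n i + 1)))) := by positivity
  nlinarith

noncomputable instance instCM : MeasurableSpace C(unitInterval, ℂ) := borel _

instance instCB : BorelSpace C(unitInterval, ℂ) := ⟨rfl⟩

/-- the curve is close to the graph of the winding in probability -/
theorem near (hC : S_CRS) (hX : S_XD) (hS : S_SYM) (hMM : S_MOM) (hP : S_DPOS)
    (hO : S_OSC) (hMP : S_MODP) (hH : S_HIT)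
    (hOS : ∃ C κ : ℝ, 0 < C ∧ 0 < κ ∧ ∀ (n W s s' : ℕ) (x : ℝ), 1 ≤ n → 0 ≤ x → s ≤ s' →
      s' ≤ s + (2 * n + 1) → s' ≤ W → pr n W (Bad n W s s' x) ≤ C * Real.exp (-κ * √x))
    {D : ℕ → ℝ} {K : ℝ} (hD : Dif D K) {B v : ℕ → ℝ} (hv : ∀ n, 1 ≤ n → 0 < v n)
    (hL : ∀ n, 1 ≤ n → LL n (B n) (v n)) (n M : ℕ → ℕ) (hn : ∀ i, 1 ≤ n i)
    (hM : Tendsto (fun i => (M i : ℝ) / (2 * n i + 1)) atTop atTop)
    (hB : Tendsto (fun i => B (n i) / (v (n i) * √((2 * n i + 1) * M i))) atTop (𝓝 0))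
    (ε : ℝ) (hε : 0 < ε) :
    Tendsto (fun i => Pw (M i) (fun c : Fin (M i) → Fin (2 * n i + 1) → Bool =>
      ε ≤ dist (curve (n i) (M i) c) (gr (wnd (n i) (M i) c)))) atTop (𝓝 0) := by
  rw [Metric.tendsto_atTop]
  intro η hη
  obtain ⟨δ, hδ, hmod⟩ := modw hC hX hS hMM hP hO hMP hD n M hn hM (ε / 8) (η / 4)
    (by positivity) (by positivity)
  -- parameters
  obtain ⟨δ1, hδ1⟩ : ∃ δ1 : ℝ, δ1 = min (min δ (ε / 8)) 1 := ⟨_, rfl⟩
  have hδ1p : 0 < δ1 := by rw [hδ1]; positivity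
  have hδ1a : δ1 ≤ δ := by rw [hδ1]; exact (min_le_left _ _).trans (min_le_left _ _)
  have hδ1b : δ1 ≤ ε / 8 := by rw [hδ1]; exact (min_le_left _ _).trans (min_le_right _ _)
  have hδ1c : δ1 ≤ 1 := by rw [hδ1]; exact min_le_right _ _
  have hpi := Real.pi_pos
  obtain ⟨θ, hθ⟩ : ∃ θ : ℝ, θ = ε / (8 * √(2 * Real.pi)) := ⟨_, rfl⟩
  have h2pi : 0 < √(2 * Real.pi) := by positivity
  have hθp : 0 < θ := by rw [hθ]; positivity
  have hlln := ulln hH hv hL n M hn hM hB (δ1 / 4) (by positivity)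
  have hbad := Bad_lim hOS n M hn hM θ hθp
  have e1 := (Metric.tendsto_atTop.1 hlln) (η / 4) (by positivity)
  have e2 := (Metric.tendsto_atTop.1 hbad) (η / 4) (by positivity)
  obtain ⟨i1, hi1⟩ := e1
  obtain ⟨i2, hi2⟩ := e2
  -- the scales
  obtain ⟨T0, hT0⟩ : ∃ T0 : ℝ, T0 = 1 + 8 / δ1 + (16 * √(2 * Real.pi) / ε) ^ 2 + (8 * θ / ε) ^ 2 :=
    ⟨_, rfl⟩
  have e3 := hM.eventually_ge_atTop T0
  obtain ⟨i3, hi3⟩ := eventually_atTop.1 (hmod.and e3)
  refine ⟨max i1 (max i2 i3), fun i hi => ?_⟩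
  have a1 := hi1 i ((le_max_left _ _).trans hi)
  have a2 := hi2 i (((le_max_left _ _).trans (le_max_right _ _)).trans hi)
  obtain ⟨a3, a4⟩ := hi3 i (((le_max_right _ _).trans (le_max_right _ _)).trans hi)
  rw [Real.dist_eq, sub_zero, abs_of_nonneg (Pw_nonneg _ _)] at a1 a2 ⊢
  have hN1 : (1 : ℝ) ≤ 2 * (n i : ℝ) + 1 := by
    have : (0 : ℝ) ≤ n i := by positivity
    linarith
  have hNp : (0 : ℝ) < 2 * (n i : ℝ) + 1 := by linarith
  obtain ⟨z, hz⟩ : ∃ z : ℝ, z = (M i : ℝ) / (2 * n i + 1) := ⟨_, rfl⟩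
  rw [← hz] at a2 a4
  have hz1 : 1 ≤ z := by
    refine le_trans ?_ a4
    rw [hT0]
    have : 0 ≤ 8 / δ1 + (16 * √(2 * Real.pi) / ε) ^ 2 + (8 * θ / ε) ^ 2 := by positivity
    linarith
  have hzδ : 8 / δ1 ≤ z := by
    refine le_trans ?_ a4
    rw [hT0]
    have : 0 ≤ (16 * √(2 * Real.pi) / ε) ^ 2 + (8 * θ / ε) ^ 2 := by positivity
    linarith
  have hzε : (16 * √(2 * Real.pi) / ε) ^ 2 ≤ z := by
    refine le_trans ?_ a4
    rw [hT0]
    have : 0 ≤ 8 / δ1 + (8 * θ / ε) ^ 2 := by positivity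
    linarith
  have hzθ : (8 * θ / ε) ^ 2 ≤ z := by
    refine le_trans ?_ a4
    rw [hT0]
    have : 0 ≤ 8 / δ1 + (16 * √(2 * Real.pi) / ε) ^ 2 := by positivity
    linarith
  have hzp : 0 < z := by linarith
  have hMz : (M i : ℝ) = z * (2 * n i + 1) := by rw [hz]; field_simp
  have hMp : (0 : ℝ) < M i := by rw [hMz]; positivity
  have hMn : 2 * n i + 1 ≤ M i := by
    have : (2 * (n i : ℝ) + 1) ≤ M i := by rw [hMz]; nlinarith
    exact_mod_cast this
  have hNM : (2 * (n i : ℝ) + 1) / M i = 1 / z := by rw [hMz]; field_simp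
  have h1z : 1 / z ≤ δ1 / 8 := by
    rw [div_le_div_iff₀ hzp (by norm_num)]
    rw [div_le_iff₀ hδ1p] at hzδ
    linarith
  have h1M : 1 / (M i : ℝ) ≤ 1 / z := by
    apply one_div_le_one_div_of_le hzp
    rw [hMz]
    nlinarith
  have hsz : 0 < √z := Real.sqrt_pos.2 hzp
  have hhsc : hsc (n i) (M i) * (2 * n i + 1) = √(2 * Real.pi) / √z := by
    unfold hsc
    rw [show 2 * Real.pi * (M i : ℝ) / (2 * n i + 1) = (2 * Real.pi) * z by rw [hMz]; field_simp,
      Real.sqrt_mul (by positivity)]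
    rw [div_mul_eq_mul_div, div_mul_cancel₀ _ hNp.ne', div_eq_div_iff (by positivity) (by positivity)]
    have := Real.mul_self_sqrt (show (0 : ℝ) ≤ 2 * Real.pi by positivity)
    calc 2 * Real.pi * √z = (√(2 * Real.pi) * √(2 * Real.pi)) * √z := by rw [this]
      _ = _ := by ring
  refine lt_of_le_of_lt (b := η / 4 + (η / 4 + η / 4)) ?_ (by linarith)
  refine le_trans (Pw_mono (M i) (B := fun c =>
      (∃ s : ℕ, s ≤ M i ∧ δ1 / 4 ≤ |(len (n i) 0 s (cfg (n i) (M i) c) : ℝ) / (v (n i) * M i) - s / M i|) ∨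
      ((∃ j ∈ Finset.range (M i / (2 * n i + 1) + 1), Bad (n i) (M i) (wl (n i) (M i) j)
        (wl (n i) (M i) (j + 1)) (θ * √z) c) ∨
      ∃ s t : unitInterval, |(s : ℝ) - t| ≤ δ ∧
        ε / 8 ≤ |wnd (n i) (M i) c s - wnd (n i) (M i) c t|)) ?_) ?_
  · intro c hc
    by_contra hcon
    rw [not_or, not_or] at hcon
    obtain ⟨b1, b2, b3⟩ := hcon
    push Not at b1 b2 b3
    have hdet := det (n := n i) (M := M i) (hn i) hMn c hH hC (x := θ * √z) (v := v (n i))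
      (ε1 := ε / 2) (ε2 := ε / 8) (ε3 := δ1 / 4) (δ := δ1) (by positivity) (hv (n i) (hn i))
      (by linarith) (fun j hj => b2 j hj) (fun s hs => b1 s hs)
      (fun s t hst => (b3 s t (hst.trans hδ1a)).le) (by rw [hNM]; linarith) ?_
    · linarith
    · -- the spatial scale
      have f1 : hsc (n i) (M i) * ((θ * √z + 1) * (2 * n i + 1)) =
          √(2 * Real.pi) * θ + √(2 * Real.pi) / √z := by
        calc _ = (hsc (n i) (M i) * (2 * n i + 1)) * (θ * √z + 1) := by ring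
          _ = √(2 * Real.pi) / √z * (θ * √z + 1) := by rw [hhsc]
          _ = _ := by field_simp
      have f2 : θ * √z * (2 * n i + 1) / M i = θ / √z := by
        calc θ * √z * (2 * n i + 1) / M i = θ * √z * ((2 * n i + 1) / M i) := by ring
          _ = θ * √z * (1 / z) := by rw [hNM]
          _ = θ / √z := by
            rw [mul_one_div, div_eq_div_iff hzp.ne' hsz.ne']
            have := Real.mul_self_sqrt hzp.le
            calc θ * √z * √z = θ * (√z * √z) := by ring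
              _ = θ * z := by rw [this]
      rw [f1, f2]
      have g1 : √(2 * Real.pi) * θ = ε / 8 := by rw [hθ]; field_simp
      have g2 : √(2 * Real.pi) / √z ≤ ε / 16 := by
        have h5 : 16 * √(2 * Real.pi) / ε ≤ √z := Real.le_sqrt_of_sq_le hzε
        rw [div_le_div_iff₀ hsz (by norm_num)]
        rw [div_le_iff₀ hε] at h5
        linarith
      have g3 : θ / √z ≤ ε / 8 := by
        have h5 : 8 * θ / ε ≤ √z := Real.le_sqrt_of_sq_le hzθ
        rw [div_le_div_iff₀ hsz (by norm_num)]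
        rw [div_le_iff₀ hε] at h5
        linarith
      linarith
  · refine (Pw_or _ _ _).trans ?_
    have h6 := Pw_or (M i) (fun c : Fin (M i) → Fin (2 * n i + 1) → Bool =>
      ∃ j ∈ Finset.range (M i / (2 * n i + 1) + 1), Bad (n i) (M i) (wl (n i) (M i) j)
        (wl (n i) (M i) (j + 1)) (θ * √z) c) (fun c => ∃ s t : unitInterval, |(s : ℝ) - t| ≤ δ ∧
        ε / 8 ≤ |wnd (n i) (M i) c s - wnd (n i) (M i) c t|)
    linarith

/-- **the exploration path with its natural parametrisation converges** -/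
theorem conv (hC : S_CRS) (hX : S_XD) (hS : S_SYM) (hMM : S_MOM) (hP : S_DPOS)
    (hO : S_OSC) (hMP : S_MODP) (hH : S_HIT)
    (hOS : ∃ C κ : ℝ, 0 < C ∧ 0 < κ ∧ ∀ (n W s s' : ℕ) (x : ℝ), 1 ≤ n → 0 ≤ x → s ≤ s' →
      s' ≤ s + (2 * n + 1) → s' ≤ W → pr n W (Bad n W s s' x) ≤ C * Real.exp (-κ * √x))
    {D : ℕ → ℝ} {K : ℝ} (hD : Dif D K) {B v : ℕ → ℝ} (hv : ∀ n, 1 ≤ n → 0 < v n)
    (hL : ∀ n, 1 ≤ n → LL n (B n) (v n)) {W : Measure Pa} (hWp : IsProbabilityMeasure W)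
    (hW : ∀ n M : ℕ → ℕ, Tendsto n atTop atTop →
      Tendsto (fun i => (M i : ℝ) / (2 * n i + 1)) atTop atTop →
      ∀ F : BoundedContinuousFunction Pa ℝ, Tendsto (fun i => H906K.Ex (n i) (M i)
        (fun c => F (wnd (n i) (M i) c))) atTop (𝓝 (∫ w, F (√6 • w) ∂W)))
    (n M : ℕ → ℕ) (hn : ∀ i, 1 ≤ n i) (hnt : Tendsto n atTop atTop)
    (hM : Tendsto (fun i => (M i : ℝ) / (2 * n i + 1)) atTop atTop)
    (hB : Tendsto (fun i => B (n i) / (v (n i) * √((2 * n i + 1) * M i))) atTop (𝓝 0))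
    (F : BoundedContinuousFunction C(unitInterval, ℂ) ℝ) :
    Tendsto (fun i => Ea (M i) (fun c : Fin (M i) → Fin (2 * n i + 1) → Bool =>
      F (curve (n i) (M i) c))) atTop (𝓝 (∫ w, F (gr (√6 • w)) ∂W)) := by
  have hg : Continuous (fun w : Pa => gr (√6 • w)) := gr_cont.comp (continuous_const_smul _)
  have hgm : Measurable (fun w : Pa => gr (√6 • w)) := hg.measurable
  obtain ⟨μ0, hμ0⟩ : ∃ μ0 : ProbabilityMeasure C(unitInterval, ℂ),
      (μ0 : Measure C(unitInterval, ℂ)) = W.map (fun w : Pa => gr (√6 • w)) :=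
    ⟨⟨W.map (fun w : Pa => gr (√6 • w)), Measure.isProbabilityMeasure_map hgm.aemeasurable⟩, rfl⟩
  have hint : ∀ F : BoundedContinuousFunction C(unitInterval, ℂ) ℝ,
      ∫ x, F x ∂(μ0 : Measure C(unitInterval, ℂ)) = ∫ w, F (gr (√6 • w)) ∂W := by
    intro F
    rw [hμ0, integral_map hgm.aemeasurable]
    exact F.continuous.measurable.aestronglyMeasurable
  rw [← hint F]
  refine slutsky μ0 (fun i => Fin (2 * n i + 1) → Bool) M (fun i c => curve (n i) (M i) c)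
    (fun i c => gr (wnd (n i) (M i) c)) ?_ ?_ F
  · intro F
    rw [hint F]
    have h1 := hW n M hnt hM (F.compContinuous ⟨gr, gr_cont⟩)
    refine h1.congr fun i => ?_
    rw [← Ea_eq]
    rfl
  · intro ε hε
    exact near hC hX hS hMM hP hO hMP hH hOS hD hv hL n M hn hM hB ε hε

end Pool.Agent.L5helper96.NT
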