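import Pool.Agent.Y484.KW.Qam

/-!
# A quadratic law of large numbers for almost additive functionals
-/

set_option autoImplicit false

namespace Pool.Agent.L5helper96.NT
open Y994.KW Pool.Agent.Y484.KW Filter Topology

/-- almost additive functionals (second moments) -/
structure Aa {α : Type} [Fintype α] (Y : ∀ M : ℕ, (Fin M → α) → ℝ) (B : ℝ) (m0 : ℕ) : Prop where
  Bpos : 0 < B
  mpos : 1 ≤ m0
  err : ∀ M M' : ℕ, Ea (M + M') (fun c => (Y (M + M') c - Y M (lft M M' c)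
    - Y M' (rgt M M' c)) ^ 2) ≤ B ^ 2
  short : ∀ M : ℕ, M ≤ 2 * m0 → Ea M (fun c => Y M c ^ 2) ≤ B ^ 2

section Hyers

/-- almost additive sequences are almost linear -/
theorem hyers {u : ℕ → ℝ} {B : ℝ} (hB : 0 ≤ B) (h : ∀ M M' : ℕ, |u (M + M') - u M - u M'| ≤ B) :
    ∃ v : ℝ, Tendsto (fun M : ℕ => u M / M) atTop (𝓝 v) ∧ ∀ M : ℕ, |u M - v * M| ≤ B := by
  have hmul : ∀ k M : ℕ, |u ((k + 1) * M) - (k + 1) * u M| ≤ k * B := by
    intro k M
    induction k with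
    | zero => simp
    | succ k ih =>
      have h1 := h ((k + 1) * M) M
      have e : (k + 1) * M + M = (k + 1 + 1) * M := by ring
      rw [e] at h1
      rw [abs_le] at h1 ih ⊢
      push_cast
      constructor <;> linarith
  have hsub : Subadditive (fun M => u M + B) := by
    intro M M'
    have h1 := (abs_le.1 (h M M')).2
    linarith
  have hbdd : BddBelow (Set.range fun M : ℕ => (u M + B) / M) := by
    refine ⟨-(|u 1| + B), ?_⟩
    rintro _ ⟨M, rfl⟩
    rcases Nat.eq_zero_or_pos M with rfl | hM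
    · simp
      have := abs_nonneg (u 1)
      linarith
    · obtain ⟨k, rfl⟩ := Nat.exists_eq_succ_of_ne_zero hM.ne'
      have h1 := (abs_le.1 (hmul k 1)).1
      have hp : (0 : ℝ) < ((k + 1 : ℕ) : ℝ) := by positivity
      simp only [Nat.succ_eq_add_one]
      rw [le_div_iff₀ hp]
      rw [mul_one] at h1
      push_cast
      have h2 := neg_abs_le (u 1)
      have hk : (0 : ℝ) ≤ k := Nat.cast_nonneg k
      nlinarith
  have hlim := hsub.tendsto_lim hbdd
  obtain ⟨v, hv⟩ : ∃ v, v = hsub.lim := ⟨_, rfl⟩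
  rw [← hv] at hlim
  have hlim2 : Tendsto (fun M : ℕ => u M / M) atTop (𝓝 v) := by
    have h1 : Tendsto (fun M : ℕ => B / (M : ℝ)) atTop (𝓝 0) := tendsto_const_div_atTop_nhds_zero_nat B
    have h2 := hlim.sub h1
    rw [sub_zero] at h2
    refine h2.congr fun M => ?_
    rw [← sub_div]
    congr 1
    ring
  refine ⟨v, hlim2, ?_⟩
  intro M
  rcases Nat.eq_zero_or_pos M with rfl | hM
  · have h1 := h 0 0
    simp only [add_zero] at h1
    rw [sub_self, zero_sub, abs_neg] at h1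
    simpa using h1
  · have hMp : (0 : ℝ) < M := by exact_mod_cast hM
    have h1 : Tendsto (fun k : ℕ => (k + 1) * M) atTop atTop := by
      apply tendsto_atTop_mono (fun k => ?_) tendsto_id
      have : (k + 1) * 1 ≤ (k + 1) * M := Nat.mul_le_mul_left _ hM
      simp only [id]
      omega
    have h2 := hlim2.comp h1
    have h3 : ∀ k : ℕ, |u ((k + 1) * M) / (((k + 1) * M : ℕ) : ℝ) - u M / M| ≤ B / M := by
      intro k
      have h4 := hmul k M
      have hk : (0 : ℝ) < (k : ℝ) + 1 := by positivity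
      have e : u ((k + 1) * M) / (((k + 1) * M : ℕ) : ℝ) - u M / M =
          (u ((k + 1) * M) - (k + 1) * u M) / ((k + 1) * M) := by
        push_cast
        field_simp
      rw [e, abs_div, abs_of_pos (mul_pos hk hMp), div_le_div_iff₀ (mul_pos hk hMp) hMp]
      have h5 : (k : ℝ) * B ≤ B * (k + 1) := by nlinarith
      nlinarith [abs_nonneg (u ((k + 1) * M) - (k + 1) * u M)]
    have h4 := ((h2.sub_const (u M / M)).abs)
    have h5 := le_of_tendsto' h4 (fun k => h3 k)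
    rw [abs_sub_comm]
    have e : v - u M / M = (v * M - u M) / M := by field_simp
    rw [e, abs_div, abs_of_pos hMp, div_le_div_iff_of_pos_right hMp] at h5
    exact h5

end Hyers

section Second

variable {α : Type} [Fintype α] [Nonempty α] {Y : ∀ M : ℕ, (Fin M → α) → ℝ} {B : ℝ} {m0 : ℕ}

theorem Ea_sub (M : ℕ) (f g : (Fin M → α) → ℝ) :
    Ea M (fun c => f c - g c) = Ea M f - Ea M g := by
  unfold Ea
  rw [Finset.sum_sub_distrib, sub_div]

/-- Jensen -/
theorem jensen (M : ℕ) (f : (Fin M → α) → ℝ) : (Ea M f) ^ 2 ≤ Ea M (fun c => f c ^ 2) := by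
  have h := Ea_cs M f (fun _ => 1)
  simp only [mul_one, one_pow] at h
  rwa [Ea_one, mul_one] at h

/-- the variance -/
theorem var_le (M : ℕ) (f : (Fin M → α) → ℝ) :
    Ea M (fun c => (f c - Ea M f) ^ 2) ≤ Ea M (fun c => f c ^ 2) := by
  have h : (fun c => (f c - Ea M f) ^ 2) =
      fun c => (f c ^ 2 - (2 * Ea M f) * f c) + (fun _ : Fin M → α => Ea M f ^ 2) c := by
    funext c
    ring
  rw [h, Ea_add, Ea_sub, Ea_mul, Ea_one]
  nlinarith [sq_nonneg (Ea M f)]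

theorem mean_err (hQ : Aa Y B m0) (M M' : ℕ) :
    |Ea (M + M') (Y (M + M')) - Ea M (Y M) - Ea M' (Y M')| ≤ B := by
  have h1 := jensen (M + M') (fun c => Y (M + M') c - Y M (lft M M' c) - Y M' (rgt M M' c))
  rw [Ea_sub, Ea_sub, Ea_lft M M' (Y M), Ea_rgt M M' (Y M')] at h1
  have h2 := h1.trans (hQ.err M M')
  exact abs_le_of_sq_le_sq h2 hQ.Bpos.le

/-- the standard deviation of a sum -/
theorem dev_step (hQ : Aa Y B m0) (M M' : ℕ) :
    √(Ea (M + M') (fun c => (Y (M + M') c - Ea (M + M') (Y (M + M'))) ^ 2)) ≤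
      √(Ea M (fun c => (Y M c - Ea M (Y M)) ^ 2) + Ea M' (fun c => (Y M' c - Ea M' (Y M')) ^ 2))
        + B := by
  obtain ⟨Z, hZ⟩ : ∃ Z : ∀ M : ℕ, (Fin M → α) → ℝ, ∀ M c, Z M c = Y M c - Ea M (Y M) :=
    ⟨fun M c => Y M c - Ea M (Y M), fun _ _ => rfl⟩
  have hZ0 : ∀ M, Ea M (Z M) = 0 := by
    intro M
    have : Z M = fun c => Y M c - (fun _ : Fin M → α => Ea M (Y M)) c := by
      funext c
      exact hZ M c
    rw [this, Ea_sub, Ea_one, sub_self]
  simp only [← hZ]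
  have h1 := mink (M + M') (fun c => Z M (lft M M' c) + Z M' (rgt M M' c))
    (fun c => Z (M + M') c - Z M (lft M M' c) - Z M' (rgt M M' c))
  have e1 : (fun c : Fin (M + M') → α => (Z M (lft M M' c) + Z M' (rgt M M' c) +
      (Z (M + M') c - Z M (lft M M' c) - Z M' (rgt M M' c))) ^ 2) = fun c => Z (M + M') c ^ 2 := by
    funext c
    ring
  have e2 : Ea (M + M') (fun c => (Z M (lft M M' c) + Z M' (rgt M M' c)) ^ 2) =
      Ea M (fun c => Z M c ^ 2) + Ea M' (fun c => Z M' c ^ 2) := by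
    have h : (fun c : Fin (M + M') → α => (Z M (lft M M' c) + Z M' (rgt M M' c)) ^ 2) =
        fun c => (Z M (lft M M' c) ^ 2 + 2 * (Z M (lft M M' c) * Z M' (rgt M M' c))) +
          Z M' (rgt M M' c) ^ 2 := by
      funext c
      ring
    rw [h, Ea_add, Ea_add, Ea_mul, Ea_prod M M' (Z M) (Z M'), hZ0,
      Ea_lft M M' (fun c => Z M c ^ 2), Ea_rgt M M' (fun c => Z M' c ^ 2)]
    ring
  rw [e1, e2] at h1
  refine h1.trans (add_le_add_right ?_ _)
  apply Real.sqrt_le_iff.mpr ⟨hQ.Bpos.le, ?_⟩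
  refine le_trans (le_of_eq ?_) ((var_le (M + M')
    (fun c => Y (M + M') c - Y M (lft M M' c) - Y M' (rgt M M' c))).trans (hQ.err M M'))
  congr 1
  funext c
  rw [Ea_sub, Ea_sub, Ea_lft M M' (Y M), Ea_rgt M M' (Y M'), hZ, hZ, hZ]
  ring

theorem dev_short (hQ : Aa Y B m0) (M : ℕ) (hM : M ≤ 2 * m0) :
    √(Ea M (fun c => (Y M c - Ea M (Y M)) ^ 2)) ≤ B := by
  apply Real.sqrt_le_iff.mpr ⟨hQ.Bpos.le, ?_⟩
  exact (var_le M (Y M)).trans (hQ.short M hM)

theorem sqrt_sum {x y M : ℝ} (hM : 0 ≤ M) (hx : M ≤ 3 * x) (hy : M ≤ 3 * y) (h : x + y = M) :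
    4 / 3 * √M ≤ √x + √y := by
  have hx0 : 0 ≤ x := by linarith
  have hy0 : 0 ≤ y := by linarith
  apply le_of_sq_le_sq _ (by positivity)
  rw [mul_pow, Real.sq_sqrt hM]
  have h1 : 4 / 9 * M ≤ √x * √y := by
    rw [← Real.sqrt_mul hx0]
    apply Real.le_sqrt_of_sq_le
    nlinarith [mul_nonneg (sub_nonneg.mpr hx) (sub_nonneg.mpr hy)]
  have h2 : (√x + √y) ^ 2 = x + y + 2 * (√x * √y) := by
    nlinarith [Real.sq_sqrt hx0, Real.sq_sqrt hy0]
  rw [h2, h]
  nlinarith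

theorem dev (hQ : Aa Y B m0) (M : ℕ) (hM : m0 ≤ M) :
    √(Ea M (fun c => (Y M c - Ea M (Y M)) ^ 2)) + 4 * B ≤ 26 * B / √m0 * √M := by
  obtain ⟨a, ha⟩ : ∃ a : ℕ → ℝ, ∀ m, a m = Ea m (fun c => (Y m c - Ea m (Y m)) ^ 2) :=
    ⟨_, fun _ => rfl⟩
  have han : ∀ m, 0 ≤ a m := fun m => by rw [ha]; exact Ea_nn m _ fun c => sq_nonneg _
  have hstep : ∀ m m', √(a (m + m')) ≤ √(a m + a m') + B := by
    intro m m'
    rw [ha, ha, ha]
    exact dev_step hQ m m'
  have hshort : ∀ m, m ≤ 2 * m0 → √(a m) ≤ B := by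
    intro m hm
    rw [ha]
    exact dev_short hQ m hm
  have hB := hQ.Bpos
  have hm0 : (1 : ℝ) ≤ m0 := by exact_mod_cast hQ.mpos
  have hs0 : 0 < √(m0 : ℝ) := Real.sqrt_pos.mpr (by linarith)
  obtain ⟨A, hA⟩ : ∃ A : ℝ, A = 26 * B / √m0 := ⟨_, rfl⟩
  have hAp : 0 < A := by rw [hA]; positivity
  have hAm : ∀ m : ℕ, m0 ≤ m → 26 * B ≤ A * √m := by
    intro m hm
    have h1 : √(m0 : ℝ) ≤ √(m : ℝ) := Real.sqrt_le_sqrt (by exact_mod_cast hm)
    rw [hA, div_mul_eq_mul_div, le_div_iff₀ hs0]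
    gcongr
  rw [← hA, ← ha]
  induction M using Nat.strong_induction_on with
  | _ M ih =>
    rcases le_or_gt M (2 * m0) with h | h
    · have h1 := hshort M h
      have h2 := hAm M hM
      linarith
    · have h1 : m0 ≤ M / 2 := by omega
      have h2 : m0 ≤ M - M / 2 := by omega
      have h3 := ih (M / 2) (by omega) h1
      have h4 := ih (M - M / 2) (by have := hQ.mpos; omega) h2
      have h5 := hstep (M / 2) (M - M / 2)
      have e : M / 2 + (M - M / 2) = M := by omega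
      rw [e] at h5
      have h6 := hAm M hM
      obtain ⟨x, hx⟩ : ∃ x : ℝ, x = ((M / 2 : ℕ) : ℝ) := ⟨_, rfl⟩
      obtain ⟨y, hy⟩ : ∃ y : ℝ, y = ((M - M / 2 : ℕ) : ℝ) := ⟨_, rfl⟩
      have hxy : x + y = M := by rw [hx, hy, ← Nat.cast_add, e]
      have hx3 : (M : ℝ) ≤ 3 * x := by
        rw [hx]
        have : M ≤ 3 * (M / 2) := by have := hQ.mpos; omega
        exact_mod_cast this
      have hy3 : (M : ℝ) ≤ 3 * y := by
        rw [hy]
        have : M ≤ 3 * (M - M / 2) := by omega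
        exact_mod_cast this
      have h7 := sqrt_sum (Nat.cast_nonneg M) hx3 hy3 hxy
      rw [← hx] at h3
      rw [← hy] at h4
      have hx0 : 0 ≤ x := by rw [hx]; positivity
      have hy0 : 0 ≤ y := by rw [hy]; positivity
      obtain ⟨p, hp⟩ : ∃ p, p = √x := ⟨_, rfl⟩
      obtain ⟨q, hq⟩ : ∃ q, q = √y := ⟨_, rfl⟩
      obtain ⟨w, hw⟩ : ∃ w, w = √(M : ℝ) := ⟨_, rfl⟩
      have hp2 : p ^ 2 = x := by rw [hp]; exact Real.sq_sqrt hx0
      have hq2 : q ^ 2 = y := by rw [hq]; exact Real.sq_sqrt hy0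
      have hw2 : w ^ 2 = M := by rw [hw]; exact Real.sq_sqrt (Nat.cast_nonneg M)
      rw [← hp] at h3 h7
      rw [← hq] at h4 h7
      rw [← hw] at h6 h7 ⊢
      have g1 : a (M / 2) ≤ (A * p - 4 * B) ^ 2 := by
        have := pow_le_pow_left₀ (Real.sqrt_nonneg _) (show √(a (M / 2)) ≤ A * p - 4 * B by linarith) 2
        rwa [Real.sq_sqrt (han _)] at this
      have g2 : a (M - M / 2) ≤ (A * q - 4 * B) ^ 2 := by
        have := pow_le_pow_left₀ (Real.sqrt_nonneg _)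
          (show √(a (M - M / 2)) ≤ A * q - 4 * B by linarith) 2
        rwa [Real.sq_sqrt (han _)] at this
      have g3 : √(a (M / 2) + a (M - M / 2)) ≤ A * w - 5 * B := by
        apply Real.sqrt_le_iff.mpr ⟨by linarith, ?_⟩
        have k1 : (A * p - 4 * B) ^ 2 + (A * q - 4 * B) ^ 2 ≤ (A * w - 5 * B) ^ 2 := by
          have k2 : p ^ 2 + q ^ 2 = w ^ 2 := by rw [hp2, hq2, hw2]; exact hxy
          have k3 : (A * p - 4 * B) ^ 2 + (A * q - 4 * B) ^ 2 =
              A ^ 2 * (p ^ 2 + q ^ 2) - 8 * A * B * (p + q) + 32 * B ^ 2 := by ring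
          have k4 : (A * w - 5 * B) ^ 2 = A ^ 2 * w ^ 2 - 10 * A * B * w + 25 * B ^ 2 := by ring
          rw [k3, k4, k2]
          have k5 : 8 * A * B * (4 / 3 * w) ≤ 8 * A * B * (p + q) := by gcongr
          have k6 : 26 * B * B ≤ A * w * B := by gcongr
          nlinarith
        linarith
      linarith

/-- the quadratic law of large numbers -/
theorem lln (hQ : Aa Y B m0) : ∃ v : ℝ, Tendsto (fun M : ℕ => Ea M (Y M) / M) atTop (𝓝 v) ∧
    (∀ M : ℕ, |Ea M (Y M) - v * M| ≤ B) ∧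
    ∀ M : ℕ, m0 ≤ M → √(Ea M (fun c => (Y M c - v * M) ^ 2)) ≤ 27 * B * √(M / m0) := by
  obtain ⟨v, h1, h2⟩ := hyers (u := fun M => Ea M (Y M)) hQ.Bpos.le (mean_err hQ)
  refine ⟨v, h1, h2, ?_⟩
  intro M hM
  have hB := hQ.Bpos
  have hm0 : (1 : ℝ) ≤ m0 := by exact_mod_cast hQ.mpos
  have h3 := dev hQ M hM
  have h4 := mink M (fun c => Y M c - Ea M (Y M)) (fun _ => Ea M (Y M) - v * M)
  have e1 : (fun c => (Y M c - Ea M (Y M) + (Ea M (Y M) - v * M)) ^ 2) =
      fun c => (Y M c - v * M) ^ 2 := by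
    funext c
    ring
  rw [e1, Ea_one, Real.sqrt_sq_eq_abs] at h4
  have h5 := h2 M
  have h6 : 26 * B / √m0 * √M = 26 * B * √(M / m0) := by
    rw [Real.sqrt_div (Nat.cast_nonneg M)]
    ring
  rw [h6] at h3
  have h7 : (1 : ℝ) ≤ √(M / m0) := by
    rw [Real.one_le_sqrt, one_le_div (by linarith)]
    exact_mod_cast hM
  nlinarith

end Second

end Pool.Agent.L5helper96.NT
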