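import Pool.Agent.Y994.KW.Law

/-!
# Slutsky's theorem for functions of uniform words, and polygonal curves in the plane
-/

set_option autoImplicit false

namespace Pool.Agent.L5helper96.NT
open Y994.KW Filter Topology MeasureTheory ProbabilityTheory

section words

variable {α : Type} [Fintype α] [Nonempty α]

theorem card_pos (M : ℕ) : (0 : ℝ) < (Fintype.card α : ℝ) ^ M := by
  have : 0 < Fintype.card α := Fintype.card_pos
  positivity

theorem Ea_mono' (M : ℕ) {f g : (Fin M → α) → ℝ} (h : ∀ c, f c ≤ g c) : Ea M f ≤ Ea M g := by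
  have hp := card_pos (α := α) M
  unfold Ea
  exact div_le_div_of_nonneg_right (Finset.sum_le_sum (fun c _ => h c)) hp.le

theorem Ea_const' (M : ℕ) (r : ℝ) : Ea M (fun _ : Fin M → α => r) = r := by
  have h := card_pos (α := α) M
  unfold Ea
  rw [Finset.sum_const, Finset.card_univ, Fintype.card_fun, Fintype.card_fin, nsmul_eq_mul]
  push_cast
  field_simp

theorem Ea_abs_le (M : ℕ) (f : (Fin M → α) → ℝ) : |Ea M f| ≤ Ea M (fun c => |f c|) := by
  have hp := card_pos (α := α) M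
  unfold Ea
  rw [abs_div, abs_of_pos hp]
  exact div_le_div_of_nonneg_right (Finset.abs_sum_le_sum_abs _ _) hp.le

theorem Ea_sub' (M : ℕ) (f g : (Fin M → α) → ℝ) :
    Ea M (fun c => f c - g c) = Ea M f - Ea M g := by
  unfold Ea
  rw [Finset.sum_sub_distrib, sub_div]

theorem Ea_add' (M : ℕ) (f g : (Fin M → α) → ℝ) :
    Ea M (fun c => f c + g c) = Ea M f + Ea M g := by
  unfold Ea
  rw [Finset.sum_add_distrib, add_div]

theorem Ea_mul' (M : ℕ) (r : ℝ) (f : (Fin M → α) → ℝ) :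
    Ea M (fun c => r * f c) = r * Ea M f := by
  unfold Ea
  rw [← Finset.mul_sum, mul_div_assoc]

open Classical in
/-- probability for uniform words -/
noncomputable def Pw (M : ℕ) (A : (Fin M → α) → Prop) : ℝ := Ea M (fun c => if A c then (1 : ℝ) else 0)

theorem Pw_nonneg (M : ℕ) (A : (Fin M → α) → Prop) : 0 ≤ Pw M A := by
  classical
  rw [← Ea_const' (α := α) M 0]
  unfold Pw
  exact Ea_mono' M fun c => by split_ifs <;> norm_num

theorem Pw_mono (M : ℕ) {A B : (Fin M → α) → Prop} (h : ∀ c, A c → B c) : Pw M A ≤ Pw M B := by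
  classical
  unfold Pw
  refine Ea_mono' M fun c => ?_
  by_cases h1 : A c
  · rw [if_pos h1, if_pos (h c h1)]
  · rw [if_neg h1]
    split_ifs <;> norm_num

theorem Pw_or (M : ℕ) (A B : (Fin M → α) → Prop) : Pw M (fun c => A c ∨ B c) ≤ Pw M A + Pw M B := by
  classical
  unfold Pw
  rw [← Ea_add']
  refine Ea_mono' M fun c => ?_
  by_cases h1 : A c <;> by_cases h2 : B c <;> simp [h1, h2]

theorem Pw_ex (M : ℕ) {ι : Type} (S : Finset ι) (A : ι → (Fin M → α) → Prop) :
    Pw M (fun c => ∃ i ∈ S, A i c) ≤ ∑ i ∈ S, Pw M (A i) := by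
  classical
  induction S using Finset.induction_on with
  | empty =>
    have : Pw M (fun c : Fin M → α => ∃ i ∈ (∅ : Finset ι), A i c) = 0 := by
      unfold Pw
      simp [Ea]
    rw [this]
    simp
  | insert a S ha ih =>
    rw [Finset.sum_insert ha]
    refine le_trans (Pw_mono M fun c hc => ?_) ((Pw_or M (A a) (fun c => ∃ i ∈ S, A i c)).trans ?_)
    · obtain ⟨i, hi, hc⟩ := hc
      rcases Finset.mem_insert.1 hi with h | h
      · left; rw [h] at hc; exact hc
      · right; exact ⟨i, h, hc⟩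
    · linarith

/-- Chebyshev's inequality -/
theorem cheb (M : ℕ) (f : (Fin M → α) → ℝ) (t : ℝ) (ht : 0 < t) :
    Pw M (fun c => t ≤ |f c|) ≤ Ea M (fun c => f c ^ 2) / t ^ 2 := by
  classical
  rw [le_div_iff₀ (by positivity), mul_comm]
  unfold Pw
  rw [← Ea_mul']
  refine Ea_mono' M fun c => ?_
  split_ifs with h
  · rw [mul_one, ← sq_abs (f c)]
    exact pow_le_pow_left₀ ht.le h 2
  · rw [mul_zero]
    positivity

end words

open Classical in
/-- **Slutsky's theorem** -/
theorem slutsky {E : Type} [PseudoMetricSpace E] [MeasurableSpace E] [BorelSpace E]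
    [MeasurableSingletonClass E] (μ0 : ProbabilityMeasure E) (α : ℕ → Type) [∀ i, Fintype (α i)]
    [∀ i, Nonempty (α i)] (M : ℕ → ℕ) (G H : ∀ i, (Fin (M i) → α i) → E)
    (hH : ∀ F : BoundedContinuousFunction E ℝ,
      Tendsto (fun i => Ea (M i) (fun c => F (H i c))) atTop (𝓝 (∫ x, F x ∂(μ0 : Measure E))))
    (hc : ∀ ε : ℝ, 0 < ε → Tendsto (fun i => Pw (M i) (fun c => ε ≤ dist (G i c) (H i c)))
      atTop (𝓝 0)) (F : BoundedContinuousFunction E ℝ) :
    Tendsto (fun i => Ea (M i) (fun c => F (G i c))) atTop (𝓝 (∫ x, F x ∂(μ0 : Measure E))) := by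
  have h1 : Tendsto (fun i => lwp (M i) (G i)) atTop (𝓝 μ0) := by
    rw [tendsto_iff_forall_lipschitz_integral_tendsto]
    rintro f ⟨C, hC⟩ ⟨L, hL⟩
    have hfc : Continuous f := hL.continuous
    have h2 := hH ⟨⟨f, hfc⟩, C, hC⟩
    have h3 : ∀ i, ∫ x, f x ∂(lwp (M i) (G i) : Measure E) = Ea (M i) (fun c => f (G i c)) :=
      fun i => lw_int (M i) (G i) f
    simp only [h3]
    have h4 : Tendsto (fun i => Ea (M i) (fun c => f (G i c)) - Ea (M i) (fun c => f (H i c)))
        atTop (𝓝 0) := by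
      rw [Metric.tendsto_atTop]
      intro ε hε
      have hC0 : 0 ≤ C := by
        have := (dist_nonneg).trans (hC (Classical.choice (by
          obtain ⟨c⟩ : Nonempty (Fin (M 0) → α 0) := inferInstance
          exact ⟨G 0 c⟩)) (Classical.choice (by
          obtain ⟨c⟩ : Nonempty (Fin (M 0) → α 0) := inferInstance
          exact ⟨G 0 c⟩)))
        exact this
      obtain ⟨δ, hδ⟩ : ∃ δ : ℝ, δ = ε / (4 * ((L : ℝ) + 1)) := ⟨_, rfl⟩
      have hLp : (0 : ℝ) < (L : ℝ) + 1 := by positivity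
      have hδp : 0 < δ := by rw [hδ]; positivity
      have h5 := (Metric.tendsto_atTop.1 (hc δ hδp)) (ε / (4 * (C + 1))) (by positivity)
      obtain ⟨i0, hi0⟩ := h5
      refine ⟨i0, fun i hi => ?_⟩
      have h6 := hi0 i hi
      rw [Real.dist_eq, sub_zero, abs_of_nonneg (Pw_nonneg _ _)] at h6
      rw [Real.dist_eq, sub_zero, ← Ea_sub']
      refine (Ea_abs_le _ _).trans_lt ?_
      have h7 : Ea (M i) (fun c => |f (G i c) - f (H i c)|) ≤
          L * δ + C * Pw (M i) (fun c => δ ≤ dist (G i c) (H i c)) := by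
        have e : L * δ + C * Pw (M i) (fun c => δ ≤ dist (G i c) (H i c)) =
            Ea (M i) (fun c => L * δ + C * (if δ ≤ dist (G i c) (H i c) then (1 : ℝ) else 0)) := by
          rw [Ea_add', Ea_const', Ea_mul']
          rfl
        rw [e]
        refine Ea_mono' _ fun c => ?_
        by_cases h : δ ≤ dist (G i c) (H i c)
        · rw [if_pos h, mul_one, ← Real.dist_eq]
          have := hC (G i c) (H i c)
          have h9 : 0 ≤ (L : ℝ) * δ := by positivity
          linarith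
        · rw [if_neg h, mul_zero, add_zero, ← Real.dist_eq]
          refine (hL.dist_le_mul _ _).trans ?_
          push Not at h
          gcongr
      refine h7.trans_lt ?_
      have h8 : (L : ℝ) * δ ≤ ε / 4 := by
        rw [hδ]
        have : (L : ℝ) * (ε / (4 * (L + 1))) = ε / 4 * (L / (L + 1)) := by
          field_simp
        rw [this]
        have h10 : (L : ℝ) / (L + 1) ≤ 1 := by
          rw [div_le_one hLp]; linarith
        have h11 : 0 ≤ ε / 4 := by positivity
        nlinarith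
      have h9 : C * Pw (M i) (fun c => δ ≤ dist (G i c) (H i c)) ≤ ε / 4 := by
        calc C * Pw (M i) (fun c => δ ≤ dist (G i c) (H i c)) ≤ (C + 1) * (ε / (4 * (C + 1))) := by
              have := Pw_nonneg (M i) (fun c => δ ≤ dist (G i c) (H i c))
              gcongr
              linarith
          _ = ε / 4 := by field_simp
      linarith
    have h5 := h4.add h2
    rw [zero_add] at h5
    refine h5.congr fun i => ?_
    change Ea (M i) (fun c => f (G i c)) - Ea (M i) (fun c => f (H i c)) +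
      Ea (M i) (fun c => f (H i c)) = _
    ring
  rw [ProbabilityMeasure.tendsto_iff_forall_integral_tendsto] at h1
  refine (h1 F).congr fun i => ?_
  exact lw_int (M i) (G i) F

/-! ## polygonal curves -/

/-- the polygonal curve through the points `y 0, …, y I` at equal times -/
noncomputable def poly (y : ℕ → ℂ) (I : ℕ) : C(unitInterval, ℂ) :=
  ⟨fun s => y 0 + ∑ i ∈ Finset.range I,
    (y (i + 1) - y i) * ((max 0 (min 1 ((s : ℝ) * I - i)) : ℝ) : ℂ), by fun_prop⟩

theorem poly_apply (y : ℕ → ℂ) (I : ℕ) (s : unitInterval) : poly y I s = y 0 +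
    ∑ i ∈ Finset.range I, (y (i + 1) - y i) * ((max 0 (min 1 ((s : ℝ) * I - i)) : ℝ) : ℂ) := rfl

/-- the values of a polygonal curve -/
theorem poly_seg (y : ℕ → ℂ) (I : ℕ) (s : unitInterval) (k : ℕ) (hk : k < I)
    (h1 : (k : ℝ) ≤ s * I) (h2 : (s : ℝ) * I ≤ k + 1) :
    poly y I s = y k + (y (k + 1) - y k) * (((s : ℝ) * I - k : ℝ) : ℂ) := by
  rw [poly_apply]
  obtain ⟨j, rfl⟩ := Nat.exists_eq_add_of_le (show k + 1 ≤ I by omega)
  rw [Finset.sum_range_add, Finset.sum_range_succ]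
  have e1 : ∑ i ∈ Finset.range k, (y (i + 1) - y i) *
      ((max 0 (min 1 ((s : ℝ) * ((k + 1 + j : ℕ) : ℝ) - i)) : ℝ) : ℂ) = y k - y 0 := by
    rw [← Finset.sum_range_sub]
    refine Finset.sum_congr rfl fun i hi => ?_
    rw [Finset.mem_range] at hi
    have h3 : (i : ℝ) + 1 ≤ k := by exact_mod_cast hi
    rw [min_eq_left (by linarith), max_eq_right (by norm_num)]
    simp
  have e2 : ∑ x ∈ Finset.range j, (y (k + 1 + x + 1) - y (k + 1 + x)) *
      ((max 0 (min 1 ((s : ℝ) * ((k + 1 + j : ℕ) : ℝ) - ((k + 1 + x : ℕ) : ℝ))) : ℝ) : ℂ) = 0 := by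
    refine Finset.sum_eq_zero fun i _ => ?_
    have h3 : (s : ℝ) * ((k + 1 + j : ℕ) : ℝ) - ((k + 1 + i : ℕ) : ℝ) ≤ 0 := by
      have : (0 : ℝ) ≤ i := by positivity
      push_cast at h2 ⊢
      linarith
    rw [min_eq_right (by linarith), max_eq_left h3]
    simp
  rw [e1, e2, min_eq_right (by linarith), max_eq_right (by linarith)]
  ring

/-- the graph of a path as a curve in the plane: `s ↦ w(s) + i s` -/
noncomputable def gr (w : Pa) : C(unitInterval, ℂ) :=
  ⟨fun s => ((w s : ℝ) : ℂ) + ((s : ℝ) : ℂ) * Complex.I, by fun_prop⟩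

theorem gr_apply (w : Pa) (s : unitInterval) : gr w s = (w s : ℂ) + ((s : ℝ) : ℂ) * Complex.I := rfl

theorem gr_cont : Continuous gr := by
  rw [continuous_iff_continuousAt]
  intro w
  rw [Metric.continuousAt_iff]
  intro ε hε
  refine ⟨ε, hε, fun {w'} h => ?_⟩
  refine lt_of_le_of_lt ?_ h
  rw [ContinuousMap.dist_le dist_nonneg]
  intro s
  have h1 : dist (gr w' s) (gr w s) = dist (w' s) (w s) := by
    rw [gr_apply, gr_apply, dist_add_right, Complex.dist_eq, ← Complex.ofReal_sub,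
      Complex.norm_real, Real.dist_eq, Real.norm_eq_abs]
  rw [h1]
  exact ContinuousMap.dist_apply_le_dist s

/-- a polygonal curve close to a graph -/
theorem close (y : ℕ → ℂ) (I : ℕ) (hI : 1 ≤ I) (w : Pa) (ε1 ε2 δ : ℝ)
    (h1 : ∀ k ≤ I, ∃ t : unitInterval, ‖y k - gr w t‖ ≤ ε1 ∧ |(k : ℝ) / I - t| ≤ δ)
    (h2 : ∀ s t : unitInterval, |(s : ℝ) - t| ≤ δ + 1 / I → |w s - w t| ≤ ε2) :
    dist (poly y I) (gr w) ≤ ε1 + ε2 + δ + 1 / I := by
  have hIp : (0 : ℝ) < I := by exact_mod_cast hI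
  have hpos : ∀ k ≤ I, ∀ s : unitInterval, |(k : ℝ) / I - s| ≤ 1 / I →
      ‖y k - gr w s‖ ≤ ε1 + ε2 + δ + 1 / I := by
    intro k hk s hs
    obtain ⟨t, ht1, ht2⟩ := h1 k hk
    have h3 : |(s : ℝ) - t| ≤ δ + 1 / I := by
      have h4 : (s : ℝ) - t = ((k : ℝ) / I - t) - ((k : ℝ) / I - s) := by ring
      rw [h4]
      refine (abs_sub _ _).trans ?_
      linarith
    have h4 := h2 s t h3
    have h5 : ‖gr w t - gr w s‖ ≤ ε2 + (δ + 1 / I) := by
      rw [gr_apply, gr_apply]
      have e : (w t : ℂ) + ((t : ℝ) : ℂ) * Complex.I - ((w s : ℂ) + ((s : ℝ) : ℂ) * Complex.I) =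
          (((w t - w s : ℝ)) : ℂ) + (((t : ℝ) - s : ℝ) : ℂ) * Complex.I := by
        push_cast
        ring
      rw [e]
      refine (norm_add_le _ _).trans ?_
      rw [norm_mul, Complex.norm_I, mul_one, Complex.norm_real, Complex.norm_real,
        Real.norm_eq_abs, Real.norm_eq_abs, abs_sub_comm (w t), abs_sub_comm (t : ℝ)]
      linarith
    have h6 : y k - gr w s = (y k - gr w t) + (gr w t - gr w s) := by ring
    rw [h6]
    refine (norm_add_le _ _).trans ?_
    linarith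
  have hn : 0 ≤ ε1 + ε2 + δ + 1 / I := by
    refine (norm_nonneg (y 0 - gr w 0)).trans (hpos 0 (Nat.zero_le _) 0 ?_)
    simp
  rw [ContinuousMap.dist_le hn]
  intro s
  have hs0 : (0 : ℝ) ≤ s := s.2.1
  have hs1 : (s : ℝ) ≤ 1 := s.2.2
  obtain ⟨k, hkI, hk1, hk2⟩ : ∃ k : ℕ, k < I ∧ (k : ℝ) ≤ s * I ∧ (s : ℝ) * I ≤ k + 1 := by
    rcases Nat.lt_or_ge ⌊(s : ℝ) * I⌋₊ I with h | h
    · exact ⟨⌊(s : ℝ) * I⌋₊, h, Nat.floor_le (by positivity), (Nat.lt_floor_add_one _).le⟩
    · have h3 : (I : ℝ) ≤ s * I := le_trans (by exact_mod_cast h) (Nat.floor_le (by positivity))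
      have h4 : (s : ℝ) * I ≤ I := by nlinarith
      refine ⟨I - 1, by omega, ?_, ?_⟩
      · have : ((I - 1 : ℕ) : ℝ) ≤ I := by exact_mod_cast Nat.sub_le _ _
        linarith
      · have : ((I - 1 : ℕ) : ℝ) + 1 = I := by
          have : (I - 1) + 1 = I := by omega
          exact_mod_cast this
        linarith
  rw [poly_seg y I s k hkI hk1 hk2]
  have e1 : |(k : ℝ) / I - s| ≤ 1 / I := by
    rw [show (k : ℝ) / I - s = (k - s * I) / I by field_simp, abs_div, abs_of_pos hIp]
    gcongr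
    rw [abs_le]
    constructor <;> linarith
  have e2 : |((k + 1 : ℕ) : ℝ) / I - s| ≤ 1 / I := by
    push_cast
    rw [show ((k : ℝ) + 1) / I - s = (k + 1 - s * I) / I by field_simp, abs_div, abs_of_pos hIp]
    gcongr
    rw [abs_le]
    constructor <;> linarith
  have g1 := hpos k hkI.le s e1
  have g2 := hpos (k + 1) (by omega) s e2
  obtain ⟨θ, hθ⟩ : ∃ θ : ℝ, θ = (s : ℝ) * I - k := ⟨_, rfl⟩
  rw [← hθ, dist_eq_norm]
  have e3 : y k + (y (k + 1) - y k) * (θ : ℂ) - gr w s =
      ((1 - θ : ℝ) : ℂ) * (y k - gr w s) + (θ : ℂ) * (y (k + 1) - gr w s) := by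
    push_cast
    ring
  rw [e3]
  refine (norm_add_le _ _).trans ?_
  have t0 : 0 ≤ θ := by rw [hθ]; linarith
  have t1 : 0 ≤ 1 - θ := by rw [hθ]; linarith
  rw [norm_mul, norm_mul, Complex.norm_real, Complex.norm_real, Real.norm_of_nonneg t0,
    Real.norm_of_nonneg t1]
  have k1 := mul_le_mul_of_nonneg_left g1 t1
  have k2 := mul_le_mul_of_nonneg_left g2 t0
  linarith

end Pool.Agent.L5helper96.NT
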