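import Pool.Agent.L5helper96.NT.Tail
import Pool.Agent.L5helper96.NT.Lln
import Pool.Agent.L5helper96.NT.Slut
import Pool.Agent.Y994.KW.Inst
import Pool.Agent.Y495.KW.Modu

/-!
# Natural time: second moments, and the uniform law of large numbers
-/

set_option autoImplicit false

namespace Pool.Agent.L5helper96.NT
open Y994.KW Pool.Agent.Y290.KW Finset Filter Topology
open Pool.Agent.Y941.KW (pr_le_one pr_or pr_mono pr_nonneg per_cfg bad S_T1LOC cfg_shift)

/-- the number of steps as a function of the whole configuration -/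
theorem Tm_rst (hH : S_HIT) {n : ℕ} (hn : 1 ≤ n) (M s : ℕ) (hs : s ≤ M)
    (c : Fin M → Fin (2 * n + 1) → Bool) : Tm n s (rst s c) = (len n 0 s (cfg n M c) : ℝ) := by
  have h1 := len_loc hH (n := n) (a := 0) (b := s) (h := 0) (σ := cfg n s (rst s c))
    (σ' := cfg n M c) hn (per_cfg n _ _) (by positivity)
    (fun j t h0 h1 => by
      have hk' : (s : ℤ) ≤ M := by exact_mod_cast hs
      have ht : t.toNat < M := by omega
      unfold cfg rst
      rw [add_zero, dif_pos ⟨h0, by linarith⟩, dif_pos ⟨h0, h1⟩]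
      simp only
      rw [dif_pos ht])
  rw [add_zero, add_zero] at h1
  unfold Tm
  rw [h1]

theorem len_mono (hH : S_HIT) {n : ℕ} {a s s' : ℤ} {σ : Cfg} (hn : 1 ≤ n) (hp : Per n σ)
    (has : a ≤ s) (h : s ≤ s') : len n a s σ ≤ len n a s' σ :=
  hit_le has h (hit_len hH hn hp has) (hit_len hH hn hp (has.trans h))

/-- second moments from the tail -/
theorem aa_inst (hV : S_VAL) (hI : S_INJ) (hH : S_HIT) (hMONO : S_T1MONO) (hT : S_T1LOC)
    (hT1P : S_T1P) : ∃ B1 : ℝ, 0 < B1 ∧ ∀ n : ℕ, 1 ≤ n →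
      Aa (Tm n) (B1 * (2 * n + 1) ^ 2) (2 * n + 1) := by
  obtain ⟨C, κ, hC, hκ, h⟩ := ltail hV hI hH hMONO hT hT1P
  obtain ⟨D, hD⟩ : ∃ D : ℝ, D = C * (1 + 32 * (Nat.factorial 12 : ℝ) / κ ^ 12) := ⟨_, rfl⟩
  have hDp : 0 < D := by rw [hD]; positivity
  refine ⟨√D + 5, by positivity, fun n hn => ⟨by positivity, by omega, fun M M' => ?_, fun M hM => ?_⟩⟩
  · have hL : (0 : ℝ) < (2 * (n : ℝ) + 1) ^ 2 := by positivity
    have h1 := Y949.KW.moment n (M + M') ((2 * n + 1) ^ 2) hL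
      (fun c => |Tm n (M + M') c - Tm n M (lft M M' c) - Tm n M' (rgt M M' c)|)
      (fun c => abs_nonneg _) C κ hC hκ (fun x hx => h n M M' x hn hx)
    have h2 := Y484.KW.Ea_42 (M + M') (fun c : Fin (M + M') → Fin (2 * n + 1) → Bool =>
      |Tm n (M + M') c - Tm n M (lft M M' c) - Tm n M' (rgt M M' c)|)
    rw [← hD] at h1
    rw [← Ea_eq] at h1
    have h3 := h2.trans h1
    simp only [sq_abs] at h3
    have h4 : ((2 * (n : ℝ) + 1) ^ 2) ^ 4 * D = (√D * ((2 * (n : ℝ) + 1) ^ 2) ^ 2) ^ 2 := by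
      rw [mul_pow, Real.sq_sqrt hDp.le]
      ring
    rw [h4] at h3
    have h5 := abs_le_of_sq_le_sq' h3 (by positivity)
    refine h5.2.trans ?_
    rw [mul_pow]
    have h6 : √D ≤ (√D + 5) ^ 2 := by nlinarith [Real.sqrt_nonneg D]
    exact mul_le_mul_of_nonneg_right h6 (by positivity)
  · have h1 : ∀ c : Fin M → Fin (2 * n + 1) → Bool,
        Tm n M c ^ 2 ≤ (fun _ => (5 * (2 * (n : ℝ) + 1) ^ 2) ^ 2) c := by
      intro c
      have h2 := len_le hV hI hH hn (per_cfg n M c) (show (0 : ℤ) ≤ M by positivity)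
      have h3 : (len n 0 M (cfg n M c) : ℝ) + 1 ≤ (2 * n + 1) * (2 * (M - 0) + 1) := by
        exact_mod_cast h2
      have hM' : (M : ℝ) ≤ 2 * (2 * n + 1) := by exact_mod_cast hM
      have h4 : Tm n M c ≤ 5 * (2 * (n : ℝ) + 1) ^ 2 := by
        have hn0 : (1 : ℝ) ≤ 2 * n + 1 := by
          have : (0 : ℝ) ≤ n := by positivity
          linarith
        unfold Tm
        have h5 : (2 * (n : ℝ) + 1) * (2 * (M - 0) + 1) ≤ (2 * n + 1) * (5 * (2 * n + 1)) := by
          apply mul_le_mul_of_nonneg_left _ (by linarith)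
          linarith
        nlinarith
      have h5 : 0 ≤ Tm n M c := by unfold Tm; positivity
      exact pow_le_pow_left₀ h5 h4 2
    refine (Ea_mono' M h1).trans ?_
    rw [Ea_const']
    have h6 := Real.sqrt_nonneg D
    apply pow_le_pow_left₀ (by positivity)
    apply mul_le_mul_of_nonneg_right _ (by positivity)
    linarith

/-- the law of large numbers in quadratic mean, with a given speed -/
def LL (n : ℕ) (B v : ℝ) : Prop := ∀ M : ℕ, 2 * n + 1 ≤ M →
  √(Ea M (fun c => (Tm n M c - v * M) ^ 2)) ≤ 27 * B * √(M / (2 * n + 1))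

/-- one level -/
theorem one_lev {n : ℕ} {B v : ℝ} (hL : LL n B v) (M s : ℕ) (hs : s ≤ M) (hs' : 2 * n + 1 ≤ s)
    (t : ℝ) (ht : 0 < t) :
    Pw M (fun c => t ≤ |Tm n s (rst s c) - v * s|) ≤ (27 * B) ^ 2 * (M / (2 * n + 1)) / t ^ 2 := by
  refine (cheb M (fun c => Tm n s (rst s c) - v * s) t ht).trans ?_
  apply div_le_div_of_nonneg_right _ (by positivity)
  rw [Pool.Agent.Y495.KW.Ea_rst hs (fun c => (Tm n s c - v * s) ^ 2)]
  have h1 := hL s hs'
  have h2 : 0 ≤ Ea s (fun c => (Tm n s c - v * s) ^ 2) := by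
    rw [← Ea_const' (α := Fin (2 * n + 1) → Bool) s 0]
    exact Ea_mono' s fun c => sq_nonneg _
  have h3 := pow_le_pow_left₀ (Real.sqrt_nonneg _) h1 2
  rw [Real.sq_sqrt h2, mul_pow (27 * B), Real.sq_sqrt (by positivity)] at h3
  refine h3.trans ?_
  gcongr

/-- **the uniform law of large numbers** -/
theorem ulln (hH : S_HIT) {B v : ℕ → ℝ} (hv : ∀ n, 1 ≤ n → 0 < v n)
    (hL : ∀ n, 1 ≤ n → LL n (B n) (v n)) (n M : ℕ → ℕ) (hn : ∀ i, 1 ≤ n i)
    (hM : Tendsto (fun i => (M i : ℝ) / (2 * n i + 1)) atTop atTop)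
    (hB : Tendsto (fun i => B (n i) / (v (n i) * √((2 * n i + 1) * M i))) atTop (𝓝 0))
    (ε : ℝ) (hε : 0 < ε) :
    Tendsto (fun i => Pw (M i) (fun c : Fin (M i) → Fin (2 * n i + 1) → Bool =>
      ∃ s : ℕ, s ≤ M i ∧ ε ≤ |(len (n i) 0 s (cfg (n i) (M i) c) : ℝ) / (v (n i) * M i) - s / M i|))
      atTop (𝓝 0) := by
  obtain ⟨K, hK⟩ := exists_nat_gt (4 / ε)
  have hKp : (0 : ℝ) < K := lt_trans (by positivity) hK
  have hK0 : 1 ≤ K := by exact_mod_cast hKp
  have hKε : 1 / (K : ℝ) < ε / 4 := by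
    rw [div_lt_div_iff₀ hKp (by norm_num)]
    rw [div_lt_iff₀ hε] at hK
    linarith
  have hup : Tendsto (fun i => (K : ℝ) * ((54 / ε) ^ 2 *
      (B (n i) / (v (n i) * √((2 * n i + 1) * M i))) ^ 2)) atTop (𝓝 0) := by
    have h1 := ((hB.pow 2).const_mul ((54 / ε) ^ 2)).const_mul (K : ℝ)
    simpa using h1
  refine squeeze_zero' (Eventually.of_forall fun i => Pw_nonneg _ _) ?_ hup
  filter_upwards [hM.eventually_ge_atTop (K + 1 : ℝ), hM.eventually_ge_atTop (4 / ε + 1)]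
    with i hi1 hi2
  have hN : (1 : ℝ) ≤ 2 * (n i : ℝ) + 1 := by
    have : (0 : ℝ) ≤ n i := by positivity
    linarith
  have hNp : (0 : ℝ) < 2 * (n i : ℝ) + 1 := by linarith
  rw [le_div_iff₀ hNp] at hi1 hi2
  have hMp : (0 : ℝ) < M i := by nlinarith
  have hM4 : 4 / ε < M i := by
    have h0 : 0 < 4 / ε := by positivity
    nlinarith
  have hMε : 1 / (M i : ℝ) < ε / 4 := by
    rw [div_lt_div_iff₀ hMp (by norm_num)]
    rw [div_lt_iff₀ hε] at hM4
    linarith
  have hvi := hv (n i) (hn i)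
  have hMK : K * (2 * n i + 1) ≤ M i := by
    have h1 : (K : ℝ) * (2 * n i + 1) ≤ M i := by nlinarith
    exact_mod_cast h1
  -- the grid
  have hg : ∀ l : ℕ, l ≤ K → l * M i / K ≤ M i := by
    intro l hl
    calc l * M i / K ≤ K * M i / K := Nat.div_le_div_right (Nat.mul_le_mul_right _ hl)
      _ = M i := Nat.mul_div_cancel_left _ (by omega)
  have hg1 : ∀ l : ℕ, 1 ≤ l → 2 * n i + 1 ≤ l * M i / K := by
    intro l hl
    rw [Nat.le_div_iff_mul_le (by omega)]
    calc (2 * n i + 1) * K = K * (2 * n i + 1) := by ring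
      _ ≤ M i := hMK
      _ = 1 * M i := by ring
      _ ≤ l * M i := Nat.mul_le_mul_right _ hl
  have hp : ∀ l ∈ Finset.Icc 1 K, Pw (M i) (fun c : Fin (M i) → Fin (2 * n i + 1) → Bool =>
      ε / 2 * (v (n i) * M i) ≤ |Tm (n i) (l * M i / K) (rst (l * M i / K) c) -
        v (n i) * ((l * M i / K : ℕ) : ℝ)|) ≤
      (54 / ε) ^ 2 * (B (n i) / (v (n i) * √((2 * n i + 1) * M i))) ^ 2 := by
    intro l hl
    rw [Finset.mem_Icc] at hl
    refine (one_lev (hL (n i) (hn i)) (M i) (l * M i / K) (hg l hl.2) (hg1 l hl.1) _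
      (by positivity)).trans (le_of_eq ?_)
    rw [div_pow, div_pow (B (n i)), mul_pow (v (n i)) (√_), Real.sq_sqrt (by positivity)]
    field_simp
    ring
  have hsum := Pw_ex (M i) (Finset.Icc 1 K) (fun l (c : Fin (M i) → Fin (2 * n i + 1) → Bool) =>
      ε / 2 * (v (n i) * M i) ≤ |Tm (n i) (l * M i / K) (rst (l * M i / K) c) -
        v (n i) * ((l * M i / K : ℕ) : ℝ)|)
  refine le_trans ?_ (hsum.trans ((Finset.sum_le_sum hp).trans (le_of_eq ?_)))
  swap
  · rw [Finset.sum_const, Nat.card_Icc, nsmul_eq_mul]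
    norm_num
  apply Pw_mono
  rintro c ⟨s, hs, hc⟩
  by_contra hcon
  push Not at hcon
  have hper := per_cfg (n i) (M i) c
  have hb : ∀ l : ℕ, 1 ≤ l → l ≤ K → |(len (n i) 0 ((l * M i / K : ℕ) : ℤ) (cfg (n i) (M i) c) : ℝ)
      - v (n i) * ((l * M i / K : ℕ) : ℝ)| < ε / 2 * (v (n i) * M i) := by
    intro l h1 h2
    have := hcon l (Finset.mem_Icc.2 ⟨h1, h2⟩)
    rwa [Tm_rst hH (hn i) (M i) _ (hg l h2)] at this
  -- the interval of the grid which contains `s`
  obtain ⟨l, hl1, hl2, hl3⟩ : ∃ l : ℕ, l < K ∧ l * M i / K ≤ s ∧ s ≤ (l + 1) * M i / K := by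
    have hex : ∃ l : ℕ, s ≤ l * M i / K := ⟨K, by rw [Nat.mul_div_cancel_left _ (by omega)]; exact hs⟩
    classical
    obtain ⟨l0, h0, h0'⟩ : ∃ l0 : ℕ, s ≤ l0 * M i / K ∧ ∀ l < l0, ¬ s ≤ l * M i / K :=
      ⟨Nat.find hex, Nat.find_spec hex, fun l hl => Nat.find_min hex hl⟩
    have hle : l0 ≤ K := by
      by_contra hh
      exact h0' K (by omega) (by rw [Nat.mul_div_cancel_left _ (by omega)]; exact hs)
    rcases Nat.eq_zero_or_pos l0 with hz | hz
    · subst hz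
      have hs0 : s = 0 := by simpa using h0
      exact ⟨0, by omega, by simp, by rw [hs0]; exact Nat.zero_le _⟩
    · refine ⟨l0 - 1, by omega, ?_, ?_⟩
      · have := h0' (l0 - 1) (by omega)
        omega
      · rw [show l0 - 1 + 1 = l0 by omega]
        exact h0
  obtain ⟨g0, hg0⟩ : ∃ g0 : ℕ, g0 = l * M i / K := ⟨_, rfl⟩
  obtain ⟨g1, hg1'⟩ : ∃ g1 : ℕ, g1 = (l + 1) * M i / K := ⟨_, rfl⟩
  rw [← hg0] at hl2
  rw [← hg1'] at hl3
  have hgap : (g1 : ℝ) - g0 ≤ M i / K + 1 := by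
    have h1 : (g1 : ℝ) ≤ ((l : ℝ) + 1) * M i / K := by
      rw [hg1']
      have := Nat.cast_div_le (α := ℝ) (m := (l + 1) * M i) (n := K)
      push_cast at this
      exact this
    have h2 : ((l : ℝ) * M i) / K < g0 + 1 := by
      rw [hg0, div_lt_iff₀ hKp]
      have := Nat.lt_div_mul_add (a := l * M i) (b := K) (by omega)
      have h3 : ((l * M i : ℕ) : ℝ) < ((l * M i / K * K + K : ℕ) : ℝ) := by exact_mod_cast this
      push_cast at h3 ⊢
      linarith
    have h3 : ((l : ℝ) + 1) * M i / K = (l : ℝ) * M i / K + M i / K := by ring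
    linarith
  have hup1 : (len (n i) 0 s (cfg (n i) (M i) c) : ℝ) ≤ len (n i) 0 g1 (cfg (n i) (M i) c) := by
    exact_mod_cast len_mono hH (hn i) hper (by positivity) (by exact_mod_cast hl3)
  have hlo1 : (len (n i) 0 g0 (cfg (n i) (M i) c) : ℝ) ≤ len (n i) 0 s (cfg (n i) (M i) c) := by
    exact_mod_cast len_mono hH (hn i) hper (by positivity) (by exact_mod_cast hl2)
  have hb1 := hb (l + 1) (by omega) (by omega)
  rw [← hg1'] at hb1
  have hb0 : -(ε / 2 * (v (n i) * M i)) < (len (n i) 0 g0 (cfg (n i) (M i) c) : ℝ) - v (n i) * g0 := by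
    rcases Nat.eq_zero_or_pos l with hz | hz
    · have : g0 = 0 := by rw [hg0, hz]; simp
      rw [this]
      have h1 : (0 : ℝ) ≤ len (n i) 0 ((0 : ℕ) : ℤ) (cfg (n i) (M i) c) := by positivity
      have h2 : 0 < ε / 2 * (v (n i) * M i) := by positivity
      simp only [Nat.cast_zero, mul_zero, sub_zero] at h1 ⊢
      linarith
    · have := hb l hz (by omega)
      rw [← hg0] at this
      exact (abs_lt.1 this).1
  have hb1' := (abs_lt.1 hb1).2
  obtain ⟨L, hLdef⟩ : ∃ L : ℝ, L = (len (n i) 0 s (cfg (n i) (M i) c) : ℝ) := ⟨_, rfl⟩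
  rw [← hLdef] at hup1 hlo1 hc
  have hvM : 0 < v (n i) * M i := by positivity
  have hls : (g0 : ℝ) ≤ s := by exact_mod_cast hl2
  have hsl : (s : ℝ) ≤ g1 := by exact_mod_cast hl3
  have hgM : v (n i) * (M i / K + 1) < ε / 2 * (v (n i) * M i) := by
    have h1 : (M i : ℝ) / K + 1 < ε / 2 * M i := by
      have h2 : (M i : ℝ) / K < ε / 4 * M i := by
        rw [div_eq_mul_one_div, mul_comm]
        exact mul_lt_mul_of_pos_right hKε hMp
      have h3 : (1 : ℝ) < ε / 4 * M i := by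
        rw [div_lt_iff₀ hMp] at hMε
        exact hMε
      linarith
    calc v (n i) * (M i / K + 1) < v (n i) * (ε / 2 * M i) := mul_lt_mul_of_pos_left h1 hvi
      _ = _ := by ring
  have key : |L - v (n i) * s| < ε * (v (n i) * M i) := by
    rw [abs_lt]
    have h1 : v (n i) * (g1 : ℝ) ≤ v (n i) * s + v (n i) * (M i / K + 1) := by
      have : (g1 : ℝ) ≤ s + (M i / K + 1) := by linarith
      nlinarith
    have h2 : v (n i) * (s : ℝ) ≤ v (n i) * g0 + v (n i) * (M i / K + 1) := by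
      have : (s : ℝ) ≤ g0 + (M i / K + 1) := by linarith
      nlinarith
    constructor <;> linarith
  have e : L / (v (n i) * M i) - s / M i = (L - v (n i) * s) / (v (n i) * M i) := by
    field_simp
  rw [e, abs_div, abs_of_pos hvM, le_div_iff₀ hvM] at hc
  linarith

end Pool.Agent.L5helper96.NT
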