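import Pool.Agent.L5helper96.NT.Cnt
import Pool.Agent.L5helper96.NT.Inst
import Pool.Agent.L5helper96.NT.Conv
import Pool.Agent.H985R3.TA.STA
import Pool.Agent.Y994.KW.All2

/-!
# The number of steps is almost additive: second moment `N ^ (7/2)`
-/

set_option autoImplicit false

namespace Pool.Agent.L5helper96.NT
open Y994.KW Pool.Agent.Y290.KW H974 Finset
open Pool.Agent.Y941.KW (pr_le_one pr_or pr_mono pr_nonneg bad S_T1LOC cfg_shift)

/-- weighted Cauchy-Schwarz -/
theorem wcs {α : Type} [Fintype α] [Nonempty α] (M J : ℕ) {q A : ℝ} (hq0 : 0 < q) (hq1 : q < 1)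
    (hA : 0 ≤ A) (Y : ℕ → (Fin M → α) → ℝ)
    (hY : ∀ j ∈ range J, Ea M (fun c => Y j c ^ 2) ≤ A * q ^ (4 * j)) :
    Ea M (fun c => (∑ j ∈ range J, Y j c) ^ 2) ≤ A / (1 - q) ^ 2 := by
  have hq2 : 0 < 1 - q := by linarith
  have hgeo : ∑ j ∈ range J, q ^ (2 * j) ≤ 1 / (1 - q) := by
    have h1 : ∑ j ∈ range J, q ^ (2 * j) ≤ ∑ j ∈ range J, q ^ j := by
      refine sum_le_sum fun j _ => ?_
      exact pow_le_pow_of_le_one hq0.le hq1.le (by omega)
    refine h1.trans ?_
    rw [le_div_iff₀ hq2, mul_comm, mul_neg_geom_sum]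
    have := pow_pos hq0 J
    linarith
  have hpt : ∀ c : Fin M → α, (∑ j ∈ range J, Y j c) ^ 2 ≤
      1 / (1 - q) * ∑ j ∈ range J, (Y j c) ^ 2 * (q ^ (2 * j))⁻¹ := by
    intro c
    have h1 := sum_mul_sq_le_sq_mul_sq (range J) (fun j => q ^ j) (fun j => Y j c * (q ^ j)⁻¹)
    have e1 : ∑ j ∈ range J, q ^ j * (Y j c * (q ^ j)⁻¹) = ∑ j ∈ range J, Y j c := by
      refine sum_congr rfl fun j _ => ?_
      have := (pow_pos hq0 j).ne'
      field_simp
    have e2 : ∑ j ∈ range J, (q ^ j) ^ 2 = ∑ j ∈ range J, q ^ (2 * j) := by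
      refine sum_congr rfl fun j _ => ?_
      rw [← pow_mul, mul_comm]
    have e3 : ∑ j ∈ range J, (Y j c * (q ^ j)⁻¹) ^ 2 =
        ∑ j ∈ range J, (Y j c) ^ 2 * (q ^ (2 * j))⁻¹ := by
      refine sum_congr rfl fun j _ => ?_
      rw [mul_pow, inv_pow, ← pow_mul, mul_comm j 2]
    rw [e1, e2, e3] at h1
    refine h1.trans (mul_le_mul_of_nonneg_right hgeo ?_)
    exact sum_nonneg fun j _ => by positivity
  refine (Ea_mono' M hpt).trans ?_
  rw [Ea_mul', Ea_sum']
  have h2 : ∑ j ∈ range J, Ea M (fun c => (Y j c) ^ 2 * (q ^ (2 * j))⁻¹) ≤ A * (1 / (1 - q)) := by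
    calc _ ≤ ∑ j ∈ range J, A * q ^ (2 * j) := by
          refine sum_le_sum fun j hj => ?_
          have e : Ea M (fun c => (Y j c) ^ 2 * (q ^ (2 * j))⁻¹) =
              (q ^ (2 * j))⁻¹ * Ea M (fun c => (Y j c) ^ 2) := by
            rw [← Ea_mul']
            congr 1
            funext c
            ring
          rw [e]
          have hp : 0 < q ^ (2 * j) := pow_pos hq0 _
          rw [inv_mul_le_iff₀ hp]
          refine (hY j hj).trans (le_of_eq ?_)
          rw [show 4 * j = 2 * j + 2 * j by ring, pow_add]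
          ring
      _ = A * ∑ j ∈ range J, q ^ (2 * j) := by rw [mul_sum]
      _ ≤ _ := mul_le_mul_of_nonneg_left hgeo hA
  calc _ ≤ 1 / (1 - q) * (A * (1 / (1 - q))) := mul_le_mul_of_nonneg_left h2 (by positivity)
    _ = _ := by field_simp

/-- no slab of `m` consecutive slabs of height `2n+1` above the level `u` is crossed by one strand -/
def Bv (n W u m : ℕ) (ω : Fin W → Fin (2 * n + 1) → Bool) : Prop :=
  ∀ i : Fin m, ¬ T1 n (cfg n W ω) (((u + i * (2 * n + 1) : ℕ)) : ℤ)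
      (((u + i * (2 * n + 1) : ℕ) : ℤ) + (2 * n + 1))

theorem cfg_rows {n W : ℕ} {ω ω' : Fin W → Fin (2 * n + 1) → Bool} {a b : ℤ}
    (h : ∀ (t : Fin W) j, (a ≤ ((t : ℕ) : ℤ) ∧ ((t : ℕ) : ℤ) < b) → ω t j = ω' t j) :
    ∀ j t : ℤ, a ≤ t → t < b → cfg n W ω j t = cfg n W ω' j t := by
  intro j t h1 h2
  unfold cfg
  by_cases h3 : 0 ≤ t ∧ t < W
  · rw [dif_pos h3, dif_pos h3]
    apply h
    show a ≤ ((t.toNat : ℕ) : ℤ) ∧ ((t.toNat : ℕ) : ℤ) < b
    omega
  · rw [dif_neg h3, dif_neg h3]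

theorem dep_Bv (hT : S_T1LOC) (n W u m : ℕ) :
    Dep {x : Fin W × Fin (2 * n + 1) | (u : ℤ) ≤ ((x.1 : ℕ) : ℤ) ∧
      ((x.1 : ℕ) : ℤ) < ((u + m * (2 * n + 1) : ℕ) : ℤ)}
      (fun ω : Fin W → Fin (2 * n + 1) → Bool => ind (Bv n W u m ω)) := by
  have key : ∀ ω ω' : Fin W → Fin (2 * n + 1) → Bool, (∀ t j, (t, j) ∈
      {x : Fin W × Fin (2 * n + 1) | (u : ℤ) ≤ ((x.1 : ℕ) : ℤ) ∧
      ((x.1 : ℕ) : ℤ) < ((u + m * (2 * n + 1) : ℕ) : ℤ)} → ω t j = ω' t j) →
      Bv n W u m ω → Bv n W u m ω' := by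
    intro ω ω' h hB i hi
    apply hB i
    have h1 := hT n (((u + i * (2 * n + 1) : ℕ)) : ℤ)
      (((u + i * (2 * n + 1) : ℕ) : ℤ) + (2 * n + 1)) 0 (cfg n W ω') (cfg n W ω) ?_ hi
    · rw [add_zero, add_zero] at h1
      exact h1
    · intro j t h2 h3
      rw [add_zero]
      apply cfg_rows (a := (((u + i * (2 * n + 1) : ℕ)) : ℤ))
        (b := (((u + i * (2 * n + 1) : ℕ) : ℤ) + (2 * n + 1))) _ j t h2 h3
      intro t' j' ⟨g1, g2⟩
      apply h
      have g3 := Nat.mul_le_mul_right (2 * n + 1) (Nat.succ_le_of_lt i.2)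
      rw [Nat.succ_mul] at g3
      simp only [Set.mem_ofPred_eq]
      omega
  intro ω ω' h
  beta_reduce
  congr 1
  exact propext ⟨key ω ω' h, key ω' ω fun t j ht => (h t j ht).symm⟩

theorem Ea_ind (n W : ℕ) (A : (Fin W → Fin (2 * n + 1) → Bool) → Prop) :
    Ea W (fun ω => ind (A ω)) = pr n W A := by
  rw [← Pw_eq]
  rfl

/-- the second moment of the number of states of a window, on the event that some slabs away from
the window are bad -/
theorem Q_bad (hT : S_T1LOC) {C c q : ℝ} (hC : 0 < C) (hA : H984N.AnnUp C)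
    (hc : ∀ n : ℕ, 1 ≤ n →
      c ≤ pr n (2 * n + 1) (fun ω => T1 n (cfg n (2 * n + 1) ω) 0 (2 * n + 1))) (hc1 : c ≤ 1)
    (hq : 1 - c ≤ q ^ 4) {n W u h u' m : ℕ} (hn : 1 ≤ n) (hW : u + h ≤ W)
    (hh : h + 1 ≤ 2 * (2 * n + 1)) (hW' : u' + m * (2 * n + 1) ≤ W)
    (hd : u + h ≤ u' ∨ u' + m * (2 * n + 1) ≤ u) :
    Ea W (fun ω : Fin W → Fin (2 * n + 1) → Bool =>
      (Qn n u h (cfg n W ω) * ind (Bv n W u' m ω)) ^ 2) ≤
      (16384 * (2 * C + 2) ^ 2) * (2 * (n : ℝ) + 1) ^ (7 / 2 : ℝ) * q ^ (4 * m) := by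
  have h1 : Ea W (fun ω => ind (Bv n W u' m ω)) ≤ q ^ (4 * m) := by
    rw [Ea_ind]
    refine (bad hT hc n W m u' hn hW').trans ?_
    rw [pow_mul]
    exact pow_le_pow_left₀ (by linarith) hq m
  have h2 := Q_sq hC hA hW hh (g := fun ω => ind (Bv n W u' m ω)) (fun ω => ind_nonneg _) ?_
  · have e : (fun ω : Fin W → Fin (2 * n + 1) → Bool =>
        (Qn n u h (cfg n W ω) * ind (Bv n W u' m ω)) ^ 2) =
        fun ω => Qn n u h (cfg n W ω) ^ 2 * ind (Bv n W u' m ω) := by
      funext ω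
      rw [mul_pow, sq (ind _), ind_sq]
    rw [e]
    exact h2.trans (mul_le_mul_of_nonneg_left h1 (by positivity))
  · refine (dep_Bv hT n W u' m).mono ?_
    rintro ⟨t, j⟩ ht
    simp only [Set.mem_ofPred_eq] at ht ⊢
    omega

/-- the used windows above a level -/
theorem used_up (hMONO : S_T1MONO) {n M W : ℕ} (hn : 1 ≤ n) (hM : M ≤ W)
    (ω : Fin W → Fin (2 * n + 1) → Bool) :
    ∃ j1 : ℕ, 1 ≤ j1 ∧ j1 ≤ (W - M) / (2 * n + 1) + 1 ∧ (∀ i < j1, Bv n W M i ω) ∧
      (min (M + j1 * (2 * n + 1)) W = W ∨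
        T1 n (cfg n W ω) M ((min (M + j1 * (2 * n + 1)) W : ℕ) : ℤ)) := by
  classical
  have hdiv := Nat.div_add_mod (W - M) (2 * n + 1)
  have hmod := Nat.mod_lt (W - M) (show 0 < 2 * n + 1 by omega)
  by_cases hex : ∃ i : ℕ, M + (i + 1) * (2 * n + 1) ≤ W ∧
      T1 n (cfg n W ω) ((M + i * (2 * n + 1) : ℕ) : ℤ)
        (((M + i * (2 * n + 1) : ℕ) : ℤ) + (2 * n + 1))
  · obtain ⟨i0, ⟨h1, h2⟩, h3⟩ : ∃ i0 : ℕ, (M + (i0 + 1) * (2 * n + 1) ≤ W ∧
      T1 n (cfg n W ω) ((M + i0 * (2 * n + 1) : ℕ) : ℤ)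
        (((M + i0 * (2 * n + 1) : ℕ) : ℤ) + (2 * n + 1))) ∧
      ∀ i < i0, ¬ (M + (i + 1) * (2 * n + 1) ≤ W ∧
        T1 n (cfg n W ω) ((M + i * (2 * n + 1) : ℕ) : ℤ)
        (((M + i * (2 * n + 1) : ℕ) : ℤ) + (2 * n + 1))) :=
      ⟨Nat.find hex, Nat.find_spec hex, fun i hi => Nat.find_min hex hi⟩
    refine ⟨i0 + 1, by omega, ?_, ?_, Or.inr ?_⟩
    · have : (i0 + 1) * (2 * n + 1) ≤ W - M := by omega
      have := (Nat.le_div_iff_mul_le (show 0 < 2 * n + 1 by omega)).2 this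
      omega
    · intro i hi i' hT
      have g1 : (i' : ℕ) < i0 := by have := i'.2; omega
      apply h3 i' g1
      refine ⟨?_, hT⟩
      have g2 := Nat.mul_le_mul_right (2 * n + 1) (show (i' : ℕ) + 1 ≤ i0 + 1 by omega)
      omega
    · rw [min_eq_left h1]
      refine hMONO n _ M _ _ _ hn (Pool.Agent.Y941.KW.per_cfg n _ ω) ?_ ?_ ?_ h2
      · push_cast
        have : (0 : ℤ) ≤ (i0 : ℤ) * (2 * n + 1) := by positivity
        linarith
      · linarith
      · rw [Nat.succ_mul]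
        push_cast
        linarith
  · push Not at hex
    refine ⟨(W - M) / (2 * n + 1) + 1, Nat.le_add_left 1 _, le_rfl, ?_, Or.inl ?_⟩
    · intro i hi i' hT
      apply hex i' _ hT
      have g2 := Nat.mul_le_mul_right (2 * n + 1)
        (show (i' : ℕ) + 1 ≤ (W - M) / (2 * n + 1) by have := i'.2; omega)
      have g3 := Nat.div_mul_le_self (W - M) (2 * n + 1)
      omega
    · apply min_eq_right
      rw [Nat.succ_mul, mul_comm]
      omega

/-- the used windows below a level -/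
theorem used_dn (hMONO : S_T1MONO) {n M W : ℕ} (hn : 1 ≤ n)
    (ω : Fin W → Fin (2 * n + 1) → Bool) :
    ∃ j1 : ℕ, 1 ≤ j1 ∧ j1 ≤ M / (2 * n + 1) + 1 ∧
      (∀ i < j1, Bv n W (M - i * (2 * n + 1)) i ω) ∧
      (M - j1 * (2 * n + 1) = 0 ∨
        T1 n (cfg n W ω) ((M - j1 * (2 * n + 1) : ℕ) : ℤ) M) := by
  classical
  have hdiv := Nat.div_add_mod M (2 * n + 1)
  have hmod := Nat.mod_lt M (show 0 < 2 * n + 1 by omega)
  by_cases hex : ∃ i : ℕ, (i + 1) * (2 * n + 1) ≤ M ∧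
      T1 n (cfg n W ω) ((M - (i + 1) * (2 * n + 1) : ℕ) : ℤ)
        (((M - (i + 1) * (2 * n + 1) : ℕ) : ℤ) + (2 * n + 1))
  · obtain ⟨i0, ⟨h1, h2⟩, h3⟩ : ∃ i0 : ℕ, ((i0 + 1) * (2 * n + 1) ≤ M ∧
      T1 n (cfg n W ω) ((M - (i0 + 1) * (2 * n + 1) : ℕ) : ℤ)
        (((M - (i0 + 1) * (2 * n + 1) : ℕ) : ℤ) + (2 * n + 1))) ∧
      ∀ i < i0, ¬ ((i + 1) * (2 * n + 1) ≤ M ∧
        T1 n (cfg n W ω) ((M - (i + 1) * (2 * n + 1) : ℕ) : ℤ)
        (((M - (i + 1) * (2 * n + 1) : ℕ) : ℤ) + (2 * n + 1))) :=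
      ⟨Nat.find hex, Nat.find_spec hex, fun i hi => Nat.find_min hex hi⟩
    refine ⟨i0 + 1, by omega, ?_, ?_, Or.inr ?_⟩
    · have := (Nat.le_div_iff_mul_le (show 0 < 2 * n + 1 by omega)).2 h1
      omega
    · intro i hi i' hT
      obtain ⟨k, hk⟩ : ∃ k : ℕ, k = i - 1 - i' := ⟨_, rfl⟩
      have hi2 := i'.2
      have g1 : k < i0 := by omega
      apply h3 k g1
      have g2 := Nat.mul_le_mul_right (2 * n + 1) (show k + 1 ≤ i0 + 1 by omega)
      have g4 := Nat.mul_le_mul_right (2 * n + 1) (show i ≤ i0 + 1 by omega)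
      refine ⟨by omega, ?_⟩
      have g3 : M - i * (2 * n + 1) + i' * (2 * n + 1) = M - (k + 1) * (2 * n + 1) := by
        have : i = i' + (k + 1) := by omega
        have g5 : i * (2 * n + 1) = i' * (2 * n + 1) + (k + 1) * (2 * n + 1) := by
          rw [← Nat.add_mul, ← this]
        omega
      rw [← g3]
      exact hT
    · refine hMONO n _ _ _ _ _ hn (Pool.Agent.Y941.KW.per_cfg n _ ω) le_rfl ?_ ?_ h2
      · linarith
      · rw [Nat.cast_sub h1, Nat.succ_mul]
        push_cast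
        have : (0 : ℤ) ≤ (i0 : ℤ) * (2 * n + 1) := by positivity
        linarith
  · push Not at hex
    refine ⟨M / (2 * n + 1) + 1, Nat.le_add_left 1 _, le_rfl, ?_, Or.inl ?_⟩
    · intro i hi i' hT
      obtain ⟨k, hk⟩ : ∃ k : ℕ, k = i - 1 - i' := ⟨_, rfl⟩
      have hi2 := i'.2
      have g2 := Nat.mul_le_mul_right (2 * n + 1) (show k + 1 ≤ M / (2 * n + 1) by omega)
      have g3 := Nat.div_mul_le_self M (2 * n + 1)
      have g4 := Nat.mul_le_mul_right (2 * n + 1) (show i ≤ M / (2 * n + 1) by omega)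
      apply hex k (by omega)
      have g6 : M - i * (2 * n + 1) + i' * (2 * n + 1) = M - (k + 1) * (2 * n + 1) := by
        have : i = i' + (k + 1) := by omega
        have g5 : i * (2 * n + 1) = i' * (2 * n + 1) + (k + 1) * (2 * n + 1) := by
          rw [← Nat.add_mul, ← this]
        omega
      rw [← g6]
      exact hT
    · rw [Nat.succ_mul, mul_comm]
      omega

/-- **the pointwise bound of the error** -/
theorem err_pt (hV : S_VAL) (hI : S_INJ) (hH : S_HIT) (hMONO : S_T1MONO) {n : ℕ} (hn : 1 ≤ n)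
    (M M' : ℕ) (ω : Fin (M + M') → Fin (2 * n + 1) → Bool) :
    |Tm n (M + M') ω - Tm n M (lft M M' ω) - Tm n M' (rgt M M' ω)| ≤
      ∑ j ∈ range (M' / (2 * n + 1) + 1),
        Qn n (M + j * (2 * n + 1)) (min (M + (j + 1) * (2 * n + 1)) (M + M') - (M + j * (2 * n + 1)))
          (cfg n (M + M') ω) * ind (Bv n (M + M') M j ω) +
      ∑ j ∈ range (M / (2 * n + 1) + 1),
        Qn n (M - (j + 1) * (2 * n + 1)) (M - j * (2 * n + 1) - (M - (j + 1) * (2 * n + 1)))
          (cfg n (M + M') ω) * ind (Bv n (M + M') (M - j * (2 * n + 1)) j ω) := by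
  have hper := Pool.Agent.Y941.KW.per_cfg n (M + M') ω
  obtain ⟨j1, a1, a2, a3, a4⟩ := used_up hMONO hn (show M ≤ M + M' by omega) ω
  obtain ⟨j2, b1, b2, b3, b4⟩ := used_dn hMONO hn (M := M) ω
  rw [Nat.add_sub_cancel_left] at a2
  obtain ⟨e1, e2, e3⟩ := len_parts hH hn M M' ω
  rw [e1, e2, e3]
  have hN : 0 < 2 * n + 1 := by omega
  -- levels of the full windows
  have hfull : ∀ j < j1, j * (2 * n + 1) ≤ M' := by
    intro j hj
    have g2 := Nat.mul_le_mul_right (2 * n + 1) (show j ≤ M' / (2 * n + 1) by omega)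
    have g3 := Nat.div_mul_le_self M' (2 * n + 1)
    omega
  have hfull2 : ∀ j < j2, j * (2 * n + 1) ≤ M := by
    intro j hj
    have g2 := Nat.mul_le_mul_right (2 * n + 1) (show j ≤ M / (2 * n + 1) by omega)
    have g3 := Nat.div_mul_le_self M (2 * n + 1)
    omega
  have h := err_Q hV hI hH (n := n) (a := 0) (lo := ((M - j2 * (2 * n + 1) : ℕ) : ℤ)) (s := M)
    (hi := ((min (M + j1 * (2 * n + 1)) (M + M') : ℕ) : ℤ)) (b := ((M + M' : ℕ) : ℤ))
    (σ := cfg n (M + M') ω) hn hper (by positivity) (by omega)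
    (by exact_mod_cast le_min (by omega) (by omega)) (by exact_mod_cast min_le_right _ _)
    (b4.imp (fun h => by rw [h]; rfl) (fun h => h)) (a4.imp (fun h => by rw [h]) (fun h => h))
    (range j1) (range j2) (fun j => M + j * (2 * n + 1))
    (fun j => min (M + (j + 1) * (2 * n + 1)) (M + M') - (M + j * (2 * n + 1)))
    (fun j => M - (j + 1) * (2 * n + 1))
    (fun j => M - j * (2 * n + 1) - (M - (j + 1) * (2 * n + 1))) ?_ ?_ ?_ ?_
  · refine h.trans (add_le_add ?_ ?_)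
    · calc _ = ∑ j ∈ range j1, Qn n (M + j * (2 * n + 1))
            (min (M + (j + 1) * (2 * n + 1)) (M + M') - (M + j * (2 * n + 1)))
            (cfg n (M + M') ω) * ind (Bv n (M + M') M j ω) := by
            refine sum_congr rfl fun j hj => ?_
            rw [ind_of (a3 j (mem_range.1 hj)), mul_one]
        _ ≤ _ := by
            apply sum_le_sum_of_subset_of_nonneg
            · exact range_subset_range.2 a2
            · intro j _ _
              exact mul_nonneg (Qn_nonneg _ _ _ _) (ind_nonneg _)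
    · calc _ = ∑ j ∈ range j2, Qn n (M - (j + 1) * (2 * n + 1))
            (M - j * (2 * n + 1) - (M - (j + 1) * (2 * n + 1)))
            (cfg n (M + M') ω) * ind (Bv n (M + M') (M - j * (2 * n + 1)) j ω) := by
            refine sum_congr rfl fun j hj => ?_
            rw [ind_of (b3 j (mem_range.1 hj)), mul_one]
        _ ≤ _ := by
            apply sum_le_sum_of_subset_of_nonneg
            · exact range_subset_range.2 b2
            · intro j _ _
              exact mul_nonneg (Qn_nonneg _ _ _ _) (ind_nonneg _)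
  · intro j hj
    rw [mem_range] at hj
    have g1 := hfull j hj
    have g2 := Nat.mul_le_mul_right (2 * n + 1) (show j + 1 ≤ j1 by omega)
    have es : (j + 1) * (2 * n + 1) = j * (2 * n + 1) + (2 * n + 1) := Nat.succ_mul _ _
    rw [es] at g2 ⊢
    push_cast
    constructor
    · have : (0 : ℤ) ≤ (j : ℤ) * (2 * n + 1) := by positivity
      linarith
    · have g3 : M + j * (2 * n + 1) + (min (M + (j * (2 * n + 1) + (2 * n + 1))) (M + M') -
          (M + j * (2 * n + 1))) ≤ min (M + j1 * (2 * n + 1)) (M + M') := by omega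
      exact_mod_cast g3
  · intro y hy1 hy2
    obtain ⟨t, ht⟩ : ∃ t : ℕ, y = M + t := ⟨(y - M).toNat, by omega⟩
    have hdiv := Nat.div_add_mod t (2 * n + 1)
    have hmod := Nat.mod_lt t hN
    rcases Nat.lt_or_ge (t / (2 * n + 1)) j1 with h | h
    · refine ⟨t / (2 * n + 1), mem_range.2 h, ?_⟩
      have e : t / (2 * n + 1) * (2 * n + 1) = (2 * n + 1) * (t / (2 * n + 1)) := mul_comm _ _
      have es : (t / (2 * n + 1) + 1) * (2 * n + 1) = t / (2 * n + 1) * (2 * n + 1) + (2 * n + 1) :=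
        Nat.succ_mul _ _
      rw [es, e]
      have g1 : M + (2 * n + 1) * (t / (2 * n + 1)) ≤ M + t := by omega
      have g2 : M + t ≤ M + (2 * n + 1) * (t / (2 * n + 1)) +
        (min (M + ((2 * n + 1) * (t / (2 * n + 1)) + (2 * n + 1))) (M + M') -
          (M + (2 * n + 1) * (t / (2 * n + 1)))) := by omega
      rw [ht]
      exact ⟨by exact_mod_cast g1, by exact_mod_cast g2⟩
    · refine ⟨j1 - 1, mem_range.2 (by omega), ?_⟩
      have g2 := Nat.mul_le_mul_right (2 * n + 1) h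
      have e : t / (2 * n + 1) * (2 * n + 1) = (2 * n + 1) * (t / (2 * n + 1)) := mul_comm _ _
      rw [e] at g2
      have g4 : j1 * (2 * n + 1) = (j1 - 1) * (2 * n + 1) + (2 * n + 1) := by
        rw [← Nat.succ_mul]
        congr 1
        omega
      have g5 : M + t ≤ min (M + j1 * (2 * n + 1)) (M + M') := by
        rw [ht] at hy2
        exact_mod_cast hy2
      have g6 := hfull (j1 - 1) (by omega)
      have es : (j1 - 1 + 1) * (2 * n + 1) = (j1 - 1) * (2 * n + 1) + (2 * n + 1) := Nat.succ_mul _ _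
      rw [es]
      have k1 : M + (j1 - 1) * (2 * n + 1) ≤ M + t := by omega
      have k2 : M + t ≤ M + (j1 - 1) * (2 * n + 1) +
        (min (M + ((j1 - 1) * (2 * n + 1) + (2 * n + 1))) (M + M') -
          (M + (j1 - 1) * (2 * n + 1))) := by omega
      rw [ht]
      exact ⟨by exact_mod_cast k1, by exact_mod_cast k2⟩
  · intro j hj
    rw [mem_range] at hj
    have g1 := hfull2 j hj
    have g2 := Nat.mul_le_mul_right (2 * n + 1) (show j + 1 ≤ j2 by omega)
    have g3 : M - j2 * (2 * n + 1) ≤ M - (j + 1) * (2 * n + 1) := by omega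
    have g4 : M - (j + 1) * (2 * n + 1) + (M - j * (2 * n + 1) - (M - (j + 1) * (2 * n + 1))) ≤ M := by
      have es : (j + 1) * (2 * n + 1) = j * (2 * n + 1) + (2 * n + 1) := Nat.succ_mul _ _
      omega
    exact ⟨by exact_mod_cast g3, by exact_mod_cast g4⟩
  · intro y hy1 hy2
    obtain ⟨t, ht, htM⟩ : ∃ t : ℕ, y = ((M - t : ℕ) : ℤ) ∧ t ≤ M :=
      ⟨(M - y).toNat, by omega, by omega⟩
    have hdiv := Nat.div_add_mod t (2 * n + 1)
    have hmod := Nat.mod_lt t hN
    have htj : t ≤ j2 * (2 * n + 1) := by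
      rw [ht] at hy1
      have : M - j2 * (2 * n + 1) ≤ M - t := by exact_mod_cast hy1
      omega
    rcases Nat.lt_or_ge (t / (2 * n + 1)) j2 with h | h
    · refine ⟨t / (2 * n + 1), mem_range.2 h, ?_⟩
      have e : t / (2 * n + 1) * (2 * n + 1) = (2 * n + 1) * (t / (2 * n + 1)) := mul_comm _ _
      have es : (t / (2 * n + 1) + 1) * (2 * n + 1) = t / (2 * n + 1) * (2 * n + 1) + (2 * n + 1) :=
        Nat.succ_mul _ _
      rw [es, e, ht]
      have g1 : M - ((2 * n + 1) * (t / (2 * n + 1)) + (2 * n + 1)) ≤ M - t := by omega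
      have g2 : M - t ≤ M - ((2 * n + 1) * (t / (2 * n + 1)) + (2 * n + 1)) +
        (M - (2 * n + 1) * (t / (2 * n + 1)) - (M - ((2 * n + 1) * (t / (2 * n + 1)) + (2 * n + 1)))) := by
        omega
      exact ⟨by exact_mod_cast g1, by exact_mod_cast g2⟩
    · refine ⟨j2 - 1, mem_range.2 (by omega), ?_⟩
      have g2 := Nat.mul_le_mul_right (2 * n + 1) h
      have e : t / (2 * n + 1) * (2 * n + 1) = (2 * n + 1) * (t / (2 * n + 1)) := mul_comm _ _
      rw [e] at g2
      have g4 : j2 * (2 * n + 1) = (j2 - 1) * (2 * n + 1) + (2 * n + 1) := by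
        rw [← Nat.succ_mul]
        congr 1
        omega
      have es : (j2 - 1 + 1) * (2 * n + 1) = (j2 - 1) * (2 * n + 1) + (2 * n + 1) := Nat.succ_mul _ _
      rw [es, ht]
      have k1 : M - ((j2 - 1) * (2 * n + 1) + (2 * n + 1)) ≤ M - t := by omega
      have k2 : M - t ≤ M - ((j2 - 1) * (2 * n + 1) + (2 * n + 1)) +
        (M - (j2 - 1) * (2 * n + 1) - (M - ((j2 - 1) * (2 * n + 1) + (2 * n + 1)))) := by omega
      exact ⟨by exact_mod_cast k1, by exact_mod_cast k2⟩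

/-- **the number of steps is almost additive, with the right order of the errors** -/
theorem aa_new (hV : S_VAL) (hI : S_INJ) (hH : S_HIT) (hMONO : S_T1MONO) (hT : S_T1LOC)
    (hT1P : S_T1P) {C : ℝ} (hC : 0 < C) (hA : H984N.AnnUp C) : ∃ B1 : ℝ, 0 < B1 ∧ ∀ n : ℕ, 1 ≤ n →
      Aa (Tm n) (B1 * (2 * (n : ℝ) + 1) ^ (7 / 4 : ℝ)) (2 * n + 1) := by
  obtain ⟨c, hc0, hc⟩ := hT1P
  have hc1 : c ≤ 1 := (hc 1 le_rfl).trans (pr_le_one _)
  obtain ⟨q, hq⟩ : ∃ q : ℝ, q = 1 - c / 4 := ⟨_, rfl⟩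
  have hq0 : 0 < q := by rw [hq]; linarith
  have hq1 : q < 1 := by rw [hq]; linarith
  have hq4 : 1 - c ≤ q ^ 4 := by
    have := one_add_mul_le_pow (a := -(c / 4)) (by linarith) 4
    rw [hq]
    calc 1 - c = 1 + ((4 : ℕ) : ℝ) * -(c / 4) := by push_cast; ring
      _ ≤ _ := this
      _ = _ := by ring
  obtain ⟨A0, hA0⟩ : ∃ A0 : ℝ, A0 = 16384 * (2 * C + 2) ^ 2 := ⟨_, rfl⟩
  have hA0p : 0 < A0 := by rw [hA0]; positivity
  have hq2 : 0 < 1 - q := by linarith
  refine ⟨√(4 * A0) / (1 - q), by positivity, fun n hn => ⟨by positivity, by omega, ?_, ?_⟩⟩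
  · intro M M'
    obtain ⟨N, hN⟩ : ∃ N : ℝ, N = 2 * n + 1 := ⟨_, rfl⟩
    have hNp : 0 < N := by rw [hN]; positivity
    have hB : (√(4 * A0) / (1 - q) * N ^ (7 / 4 : ℝ)) ^ 2 = 4 * (A0 * N ^ (7 / 2 : ℝ) / (1 - q) ^ 2) := by
      rw [mul_pow, div_pow, Real.sq_sqrt (by positivity), ← Real.rpow_natCast (N ^ (7 / 4 : ℝ)),
        ← Real.rpow_mul hNp.le]
      norm_num
      ring
    rw [← hN, hB]
    have hNN : 0 < 2 * n + 1 := by omega
    have h1 := wcs (α := Fin (2 * n + 1) → Bool) (M + M') (M' / (2 * n + 1) + 1) hq0 hq1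
      (A := A0 * N ^ (7 / 2 : ℝ)) (by positivity)
      (fun j ω => Qn n (M + j * (2 * n + 1))
        (min (M + (j + 1) * (2 * n + 1)) (M + M') - (M + j * (2 * n + 1)))
          (cfg n (M + M') ω) * ind (Bv n (M + M') M j ω)) ?_
    · have h2 := wcs (α := Fin (2 * n + 1) → Bool) (M + M') (M / (2 * n + 1) + 1) hq0 hq1
        (A := A0 * N ^ (7 / 2 : ℝ)) (by positivity)
        (fun j ω => Qn n (M - (j + 1) * (2 * n + 1))
          (M - j * (2 * n + 1) - (M - (j + 1) * (2 * n + 1)))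
          (cfg n (M + M') ω) * ind (Bv n (M + M') (M - j * (2 * n + 1)) j ω)) ?_
      · have h3 : ∀ ω : Fin (M + M') → Fin (2 * n + 1) → Bool,
            (Tm n (M + M') ω - Tm n M (lft M M' ω) - Tm n M' (rgt M M' ω)) ^ 2 ≤
            2 * (∑ j ∈ range (M' / (2 * n + 1) + 1), Qn n (M + j * (2 * n + 1))
              (min (M + (j + 1) * (2 * n + 1)) (M + M') - (M + j * (2 * n + 1)))
              (cfg n (M + M') ω) * ind (Bv n (M + M') M j ω)) ^ 2 +
            2 * (∑ j ∈ range (M / (2 * n + 1) + 1), Qn n (M - (j + 1) * (2 * n + 1))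
              (M - j * (2 * n + 1) - (M - (j + 1) * (2 * n + 1)))
              (cfg n (M + M') ω) * ind (Bv n (M + M') (M - j * (2 * n + 1)) j ω)) ^ 2 := by
          intro ω
          have h4 := err_pt hV hI hH hMONO hn M M' ω
          rw [← sq_abs]
          refine (pow_le_pow_left₀ (abs_nonneg _) h4 2).trans ?_
          nlinarith [sq_nonneg ((∑ j ∈ range (M' / (2 * n + 1) + 1), Qn n (M + j * (2 * n + 1))
              (min (M + (j + 1) * (2 * n + 1)) (M + M') - (M + j * (2 * n + 1)))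
              (cfg n (M + M') ω) * ind (Bv n (M + M') M j ω)) -
            (∑ j ∈ range (M / (2 * n + 1) + 1), Qn n (M - (j + 1) * (2 * n + 1))
              (M - j * (2 * n + 1) - (M - (j + 1) * (2 * n + 1)))
              (cfg n (M + M') ω) * ind (Bv n (M + M') (M - j * (2 * n + 1)) j ω)))]
        refine (Ea_mono' _ h3).trans ?_
        rw [Ea_add', Ea_mul', Ea_mul']
        linarith
      · intro j hj
        rw [mem_range] at hj
        have g2 := Nat.mul_le_mul_right (2 * n + 1) (show j ≤ M / (2 * n + 1) by omega)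
        have g3 := Nat.div_mul_le_self M (2 * n + 1)
        have es : (j + 1) * (2 * n + 1) = j * (2 * n + 1) + (2 * n + 1) := Nat.succ_mul _ _
        rw [hA0, hN]
        refine Q_bad hT hC hA hc hc1 hq4 hn ?_ ?_ ?_ ?_
        · omega
        · omega
        · omega
        · left
          omega
    · intro j hj
      rw [mem_range] at hj
      have g2 := Nat.mul_le_mul_right (2 * n + 1) (show j ≤ M' / (2 * n + 1) by omega)
      have g3 := Nat.div_mul_le_self M' (2 * n + 1)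
      have es : (j + 1) * (2 * n + 1) = j * (2 * n + 1) + (2 * n + 1) := Nat.succ_mul _ _
      rw [hA0, hN]
      refine Q_bad hT hC hA hc hc1 hq4 hn ?_ ?_ ?_ ?_
      · omega
      · omega
      · omega
      · right
        omega
  · intro M hM
    obtain ⟨N, hN⟩ : ∃ N : ℝ, N = 2 * n + 1 := ⟨_, rfl⟩
    have hNp : 0 < N := by rw [hN]; positivity
    have hB : (√(4 * A0) / (1 - q) * N ^ (7 / 4 : ℝ)) ^ 2 = 4 * (A0 * N ^ (7 / 2 : ℝ) / (1 - q) ^ 2) := by
      rw [mul_pow, div_pow, Real.sq_sqrt (by positivity), ← Real.rpow_natCast (N ^ (7 / 4 : ℝ)),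
        ← Real.rpow_mul hNp.le]
      norm_num
      ring
    rw [← hN, hB]
    have hpt : ∀ ω : Fin M → Fin (2 * n + 1) → Bool, Tm n M ω ^ 2 ≤
        2 * (Qn n 0 (M / 2) (cfg n M ω) ^ 2 * 1) + 2 * (Qn n (M / 2) (M - M / 2) (cfg n M ω) ^ 2 * 1) := by
      intro ω
      have hper := Pool.Agent.Y941.KW.per_cfg n M ω
      have Hb := hit_len hH hn hper (show (0 : ℤ) ≤ (M : ℤ) by positivity)
      have Gs : Hit n 0 0 (cfg n M ω) 0 0 := by
        refine ⟨?_, fun k hk => absurd hk (Nat.not_lt_zero k)⟩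
        rw [orb_zero, add_zero]
      have h1 := cnt_all hI hn hper Hb (range 2) (fun j => if j = 0 then 0 else M / 2)
        (fun j => if j = 0 then M / 2 else M - M / 2) ?_ ?_
        (lev_btw hV hI hn hper le_rfl le_rfl (by positivity) (Or.inl rfl) Gs Hb)
      · rw [sum_range_succ, sum_range_one, if_pos rfl, if_pos rfl, if_neg (by norm_num),
          if_neg (by norm_num), Nat.cast_zero, sub_zero] at h1
        have h2 : 0 ≤ Tm n M ω := by unfold Tm; positivity
        have h3 : Tm n M ω ≤ Qn n 0 (M / 2) (cfg n M ω) + Qn n (M / 2) (M - M / 2) (cfg n M ω) := h1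
        nlinarith [sq_nonneg (Qn n 0 (M / 2) (cfg n M ω) - Qn n (M / 2) (M - M / 2) (cfg n M ω))]
      · intro j hj
        rw [mem_range] at hj
        rcases Nat.eq_zero_or_pos j with h | h
        · subst h
          rw [if_pos rfl, if_pos rfl]
          constructor
          · simp
          · have : 0 + M / 2 ≤ M := by omega
            exact_mod_cast this
        · rw [if_neg (by omega), if_neg (by omega)]
          constructor
          · positivity
          · have : M / 2 + (M - M / 2) ≤ M := by omega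
            exact_mod_cast this
      · intro y hy1 hy2
        rcases le_total y ((M / 2 : ℕ) : ℤ) with h | h
        · refine ⟨0, by simp, ?_⟩
          rw [if_pos rfl, if_pos rfl]
          constructor
          · simpa using hy1
          · simpa using h
        · refine ⟨1, by simp, ?_⟩
          rw [if_neg (by norm_num), if_neg (by norm_num)]
          refine ⟨h, ?_⟩
          have : M / 2 + (M - M / 2) = M := by omega
          have h5 : ((M / 2 : ℕ) : ℤ) + ((M - M / 2 : ℕ) : ℤ) = M := by exact_mod_cast this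
          rw [h5]
          exact hy2
    refine (Ea_mono' _ hpt).trans ?_
    rw [Ea_add', Ea_mul', Ea_mul']
    have hone : ∀ D : Set (Fin M × Fin (2 * n + 1)), Dep D (fun _ : Fin M → Fin (2 * n + 1) → Bool =>
        (1 : ℝ)) := fun D c c' _ => rfl
    have b1 := Q_sq hC hA (n := n) (M := M) (u := 0) (h := M / 2) (by omega) (by omega)
      (fun _ => zero_le_one) (hone _)
    have b2 := Q_sq hC hA (n := n) (M := M) (u := M / 2) (h := M - M / 2) (by omega) (by omega)
      (fun _ => zero_le_one) (hone _)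
    rw [Ea_const', mul_one, ← hA0, ← hN] at b1 b2
    have b3 : A0 * N ^ (7 / 2 : ℝ) ≤ A0 * N ^ (7 / 2 : ℝ) / (1 - q) ^ 2 := by
      rw [le_div_iff₀ (by positivity)]
      have h6 : 0 ≤ A0 * N ^ (7 / 2 : ℝ) := by positivity
      have h7 : (1 - q) ^ 2 ≤ 1 := by nlinarith
      nlinarith
    linarith

/-- the same without hypotheses -/
theorem aa_fin : ∃ B1 : ℝ, 0 < B1 ∧ ∀ n : ℕ, 1 ≤ n →
      Aa (Tm n) (B1 * (2 * (n : ℝ) + 1) ^ (7 / 4 : ℝ)) (2 * n + 1) := by
  obtain ⟨C, hC, h⟩ := H985T.st_A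
  exact aa_new All.VAL All.INJ All.HIT All.T1MONO All.T1LOC All.T1P hC
    (fun r R hr hR c1 c2 S => h r R hr hR c1 c2 S)

end Pool.Agent.L5helper96.NT
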