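import Pool.Agent.L5helper96.NT.Ind
import Pool.Agent.Y290.KW.C

/-!
# Two arms around a state of the walker (deterministic part)
-/

set_option autoImplicit false

namespace Pool.Agent.L5helper96.NT
open Y994.KW Pool.Agent.Y290.KW

/-- the tiles of the box of radius `r` around the corner `p` -/
def TB (p : Pt) (r : ℤ) : Set Pt :=
  {τ | p.1 - r ≤ τ.1 ∧ τ.1 < p.1 + r ∧ p.2 - r ≤ τ.2 ∧ τ.2 < p.2 + r}

/-- a step over the open diagonal of a tile of `T` -/
def OT (σ : Cfg) (T : Set Pt) (x y : Pt) : Prop :=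
  (y = x + (1, 1) ∧ x ∈ T ∧ σ x.1 x.2 = false) ∨ (x = y + (1, 1) ∧ y ∈ T ∧ σ y.1 y.2 = false) ∨
  (y = x + (-1, 1) ∧ (y.1, x.2) ∈ T ∧ σ y.1 x.2 = true) ∨
  (x = y + (-1, 1) ∧ (x.1, y.2) ∈ T ∧ σ x.1 y.2 = true)

/-- the corner `x` is at distance at least `r` of `p` -/
def Far (p : Pt) (r : ℤ) (x : Pt) : Prop := r ≤ |x.1 - p.1| ∨ r ≤ |x.2 - p.2|

/-- two arms from the state `s` to distance `r` -/
def AE (σ : Cfg) (s : St) (r : ℤ) : Prop :=
  (∃ x, Far s.1 r x ∧ Relation.ReflTransGen (OT σ (TB s.1 (r + 1))) s.1 x) ∧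
  ∃ y, Far s.1 r y ∧ Relation.ReflTransGen (OT σ (TB s.1 (r + 1))) s.2 y

theorem AE_zero (σ : Cfg) (s : St) : AE σ s 0 :=
  ⟨⟨s.1, Or.inl (abs_nonneg _), Relation.ReflTransGen.refl⟩,
    ⟨s.2, Or.inl (abs_nonneg _), Relation.ReflTransGen.refl⟩⟩

/-- one step of the walker -/
theorem nxt_OT {σ : Cfg} {T : Set Pt} {s : St} (hs : Kd s) (ht : tl s ∈ T) :
    (OT σ T s.1 (nxt σ s).1 ∧ (nxt σ s).2 = s.2) ∨ ((nxt σ s).1 = s.1 ∧ OT σ T s.2 (nxt σ s).2) := by
  cases hs with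
  | up q t =>
    have h1 : tl (up q t) = (q, t) := by simp [tl, up, rot]
    rw [h1] at ht
    rw [Pool.Agent.Y290.KW.nxt_up]
    split_ifs with h
    · left
      refine ⟨Or.inl ⟨?_, ht, h⟩, rfl⟩
      simp [rt, up]
    · right
      refine ⟨rfl, Or.inr (Or.inr (Or.inl ⟨?_, ?_, ?_⟩))⟩
      · simp [lf, up]
      · exact ht
      · show σ q t = true
        simpa using h
  | dn q t =>
    have h1 : tl (dn q t) = (q, t - 1) := by
      simp [tl, dn, rot]
      try omega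
    rw [h1] at ht
    rw [Pool.Agent.Y290.KW.nxt_dn]
    split_ifs with h
    · left
      refine ⟨Or.inr (Or.inl ⟨?_, ht, h⟩), ?_⟩
      · simp [lf, dn]
      · simp [lf, dn]
    · right
      refine ⟨?_, Or.inr (Or.inr (Or.inr ⟨?_, ?_, ?_⟩))⟩
      · simp [rt, dn]
      · simp [rt, dn]
      · exact ht
      · show σ q (t - 1) = true
        simpa using h
  | rt q t =>
    have h1 : tl (rt q t) = (q, t) := by simp [tl, rt, rot]
    rw [h1] at ht
    rw [Pool.Agent.Y290.KW.nxt_rt]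
    split_ifs with h
    · left
      refine ⟨Or.inr (Or.inr (Or.inr ⟨?_, ?_, ?_⟩)), ?_⟩
      · simp [rt, dn]
      · exact ht
      · exact h
      · simp [rt, dn]
    · right
      refine ⟨?_, Or.inl ⟨?_, ?_, ?_⟩⟩
      · simp [rt, up]
      · simp [rt, up]
      · exact ht
      · show σ q t = false
        simpa using h
  | lf q t =>
    have h1 : tl (lf q t) = (q - 1, t) := by
      simp [tl, lf, rot]
      try omega
    rw [h1] at ht
    rw [Pool.Agent.Y290.KW.nxt_lf]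
    split_ifs with h
    · left
      refine ⟨Or.inr (Or.inr (Or.inl ⟨?_, ?_, ?_⟩)), ?_⟩
      · simp [lf, up]
        try omega
      · exact ht
      · exact h
      · simp [lf, up]
    · right
      refine ⟨?_, Or.inr (Or.inl ⟨?_, ?_, ?_⟩)⟩
      · simp [lf, dn]
      · simp [lf, dn]
      · exact ht
      · show σ (q - 1) t = false
        simpa using h

/-- the tile in front of a state near `p` -/
theorem tl_TB {s : St} (hs : Kd s) {p : Pt} {r : ℤ} (h1 : ¬ Far p r s.1) (h2 : ¬ Far p r s.2) :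
    tl s ∈ TB p r := by
  unfold Far at h1 h2
  rw [not_or, not_le, not_le, abs_lt, abs_lt] at h1 h2
  cases hs with
  | up q t =>
    have h3 : tl (up q t) = (q, t) := by simp [tl, up, rot]
    rw [h3]
    simp only [up] at h1 h2
    simp only [TB, Set.mem_ofPred_eq]
    omega
  | dn q t =>
    have h3 : tl (dn q t) = (q, t - 1) := by
      simp [tl, dn, rot]
      try omega
    rw [h3]
    simp only [dn] at h1 h2
    simp only [TB, Set.mem_ofPred_eq]
    omega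
  | rt q t =>
    have h3 : tl (rt q t) = (q, t) := by simp [tl, rt, rot]
    rw [h3]
    simp only [rt] at h1 h2
    simp only [TB, Set.mem_ofPred_eq]
    omega
  | lf q t =>
    have h3 : tl (lf q t) = (q - 1, t) := by
      simp [tl, lf, rot]
      try omega
    rw [h3]
    simp only [lf] at h1 h2
    simp only [TB, Set.mem_ofPred_eq]
    omega

theorem far_both {s : St} (hs : Kd s) {p : Pt} {r : ℤ} (h : Far p (r + 1) s.1 ∨ Far p (r + 1) s.2) :
    Far p r s.1 ∧ Far p r s.2 := by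
  have key : ∀ x y : Pt, |x.1 - y.1| ≤ 1 → |x.2 - y.2| ≤ 1 → Far p (r + 1) x → Far p r y := by
    intro x y h1 h2 h3
    unfold Far at h3 ⊢
    rcases h3 with h3 | h3
    · left
      have := abs_sub_abs_le_abs_sub (x.1 - p.1) (y.1 - p.1)
      rw [sub_sub_sub_cancel_right] at this
      linarith
    · right
      have := abs_sub_abs_le_abs_sub (x.2 - p.2) (y.2 - p.2)
      rw [sub_sub_sub_cancel_right] at this
      linarith
  have h12 : |s.1.1 - s.2.1| ≤ 1 ∧ |s.1.2 - s.2.2| ≤ 1 := by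
    rw [abs_le, abs_le]
    cases hs with
    | up q t => simp only [up]; omega
    | dn q t => simp only [dn]; omega
    | rt q t => simp only [rt]; omega
    | lf q t => simp only [lf]; omega
  have h21 : |s.2.1 - s.1.1| ≤ 1 ∧ |s.2.2 - s.1.2| ≤ 1 := by
    rw [abs_sub_comm, abs_sub_comm s.2.2]
    exact h12
  have self : ∀ x : Pt, Far p (r + 1) x → Far p r x := fun x hx => key x x (by simp) (by simp) hx
  rcases h with h | h
  · exact ⟨self _ h, key _ _ h12.1 h12.2 h⟩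
  · exact ⟨key _ _ h21.1 h21.2 h, self _ h⟩

/-- **a walk which leaves the box produces two arms** -/
theorem arms {σ : Cfg} {s : ℕ → St} {r : ℤ} {m : ℕ} (hk : ∀ i, Kd (s i))
    (hs : ∀ i < m, ¬ Far (s 0).1 (r + 1) (s i).1 → ¬ Far (s 0).1 (r + 1) (s i).2 →
      s (i + 1) = nxt σ (s i))
    (hm : Far (s 0).1 (r + 1) (s m).1 ∨ Far (s 0).1 (r + 1) (s m).2) : AE σ (s 0) r := by
  classical
  have hex : ∃ i, Far (s 0).1 (r + 1) (s i).1 ∨ Far (s 0).1 (r + 1) (s i).2 := ⟨m, hm⟩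
  obtain ⟨j, hj, hj'⟩ : ∃ j, (Far (s 0).1 (r + 1) (s j).1 ∨ Far (s 0).1 (r + 1) (s j).2) ∧
      ∀ i < j, ¬ (Far (s 0).1 (r + 1) (s i).1 ∨ Far (s 0).1 (r + 1) (s i).2) :=
    ⟨Nat.find hex, Nat.find_spec hex, fun i hi => Nat.find_min hex hi⟩
  have hjm : j ≤ m := by
    by_contra h
    exact hj' m (by omega) hm
  have key : ∀ i ≤ j, Relation.ReflTransGen (OT σ (TB (s 0).1 (r + 1))) (s 0).1 (s i).1 ∧
      Relation.ReflTransGen (OT σ (TB (s 0).1 (r + 1))) (s 0).2 (s i).2 := by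
    intro i
    induction i with
    | zero => exact fun _ => ⟨Relation.ReflTransGen.refl, Relation.ReflTransGen.refl⟩
    | succ i ih =>
      intro hi
      obtain ⟨h1, h2⟩ := ih (by omega)
      have h3 := hj' i (by omega)
      rw [not_or] at h3
      have h4 := hs i (by omega) h3.1 h3.2
      have h5 := nxt_OT (σ := σ) (hk i) (tl_TB (hk i) h3.1 h3.2)
      rw [← h4] at h5
      rcases h5 with ⟨h6, h7⟩ | ⟨h6, h7⟩
      · exact ⟨h1.tail h6, by rw [h7]; exact h2⟩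
      · exact ⟨by rw [h6]; exact h1, h2.tail h7⟩
  obtain ⟨h1, h2⟩ := key j le_rfl
  obtain ⟨h3, h4⟩ := far_both (hk j) hj
  exact ⟨⟨_, h3, h1⟩, ⟨_, h4, h2⟩⟩

/-- the arms depend only on the tiles of the box -/
theorem AE_congr {σ σ' : Cfg} {s : St} {r : ℤ} (h : ∀ τ ∈ TB s.1 (r + 1), σ τ.1 τ.2 = σ' τ.1 τ.2) :
    AE σ s r → AE σ' s r := by
  have key : ∀ x y, OT σ (TB s.1 (r + 1)) x y → OT σ' (TB s.1 (r + 1)) x y := by
    rintro x y (⟨h1, h2, h3⟩ | ⟨h1, h2, h3⟩ | ⟨h1, h2, h3⟩ | ⟨h1, h2, h3⟩)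
    · exact Or.inl ⟨h1, h2, by rw [← h _ h2]; exact h3⟩
    · exact Or.inr (Or.inl ⟨h1, h2, by rw [← h _ h2]; exact h3⟩)
    · exact Or.inr (Or.inr (Or.inl ⟨h1, h2, by rw [← h _ h2]; exact h3⟩))
    · exact Or.inr (Or.inr (Or.inr ⟨h1, h2, by rw [← h _ h2]; exact h3⟩))
  rintro ⟨⟨x, h1, h2⟩, ⟨y, h3, h4⟩⟩
  exact ⟨⟨x, h1, Relation.ReflTransGen.mono key _ _ h2⟩, ⟨y, h3, Relation.ReflTransGen.mono key _ _ h4⟩⟩

/-- horizontal translation -/
theorem AE_sh {σ : Cfg} {z : ℤ} (hz : ∀ j t, σ (j + z) t = σ j t) {s : St} {r : ℤ}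
    (h : AE σ s r) : AE σ (sh z s) r := by
  have key : ∀ x y : Pt, OT σ (TB s.1 (r + 1)) x y →
      OT σ (TB (sh z s).1 (r + 1)) (x.1 + z, x.2) (y.1 + z, y.2) := by
    have hT : ∀ a b : ℤ, (a, b) ∈ TB s.1 (r + 1) → (a + z, b) ∈ TB (sh z s).1 (r + 1) := by
      intro a b hab
      simp only [TB, sh, Set.mem_ofPred_eq] at hab ⊢
      omega
    rintro x y (⟨h1, h2, h3⟩ | ⟨h1, h2, h3⟩ | ⟨h1, h2, h3⟩ | ⟨h1, h2, h3⟩)
    · refine Or.inl ⟨?_, hT _ _ h2, by rw [hz]; exact h3⟩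
      rw [h1]
      ext <;> simp <;> ring
    · refine Or.inr (Or.inl ⟨?_, hT _ _ h2, by rw [hz]; exact h3⟩)
      rw [h1]
      ext <;> simp <;> ring
    · refine Or.inr (Or.inr (Or.inl ⟨?_, hT _ _ h2, by rw [hz]; exact h3⟩))
      rw [h1]
      ext <;> simp <;> ring
    · refine Or.inr (Or.inr (Or.inr ⟨?_, hT _ _ h2, by rw [hz]; exact h3⟩))
      rw [h1]
      ext <;> simp <;> ring
  obtain ⟨⟨x, h1, h2⟩, ⟨y, h3, h4⟩⟩ := h
  refine ⟨⟨(x.1 + z, x.2), ?_, ?_⟩, ⟨(y.1 + z, y.2), ?_, ?_⟩⟩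
  · unfold Far sh at *
    simpa using h1
  · exact Relation.ReflTransGen.lift (fun x : Pt => (x.1 + z, x.2)) key _ _ h2
  · unfold Far sh at *
    simpa using h3
  · exact Relation.ReflTransGen.lift (fun x : Pt => (x.1 + z, x.2)) key _ _ h4

end Pool.Agent.L5helper96.NT
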