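import Pool.Agent.L5helper96.NT.Arm
import Pool.Agent.H984R4.NP.Defs

/-!
# Two arms around a state of the walker: the probability
-/

set_option autoImplicit false

namespace Pool.Agent.L5helper96.NT
open Y994.KW Pool.Agent.Y290.KW H974

/-- the tile of an edge -/
def te (e : Edg) : Pt :=
  if e.2.2 then (e.1 + e.2.1, e.1 - e.2.1) else (e.1 + e.2.1, e.1 - e.2.1 - 1)

theorem te_inj : Function.Injective te := by
  rintro ⟨x, y, b⟩ ⟨x', y', b'⟩ h
  cases b <;> cases b' <;>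
    simp only [te, if_true, Bool.false_eq_true, if_false, Prod.mk.injEq, and_true,
      Bool.true_eq_false, and_false] at h ⊢ <;> omega

open Classical in
/-- the edges of the box -/
noncomputable def SB (r : ℤ) : Finset Edg :=
  ((Finset.Icc (-(r + 2)) (r + 2)) ×ˢ ((Finset.Icc (-(r + 2)) (r + 2)) ×ˢ
    (Finset.univ : Finset Bool))).filter (fun e => te e ∈ TB (0, 0) r)

open Classical in
theorem mem_SB {r : ℤ} {e : Edg} : e ∈ SB r ↔ te e ∈ TB (0, 0) r := by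
  unfold SB
  rw [Finset.mem_filter]
  constructor
  · exact fun h => h.2
  · intro h
    refine ⟨?_, h⟩
    obtain ⟨x, y, b⟩ := e
    rw [Finset.mem_product, Finset.mem_product, Finset.mem_Icc, Finset.mem_Icc]
    simp only [te, TB, Set.mem_ofPred_eq, Finset.mem_univ, and_true] at h ⊢
    cases b
    · simp only [Bool.false_eq_true, if_false] at h
      omega
    · simp only [if_true] at h
      omega

/-- the open edges -/
noncomputable def FO (σ : Cfg) (p : Pt) (r : ℤ) : Finset Edg :=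
  (SB r).filter (fun e => σ (p.1 + (te e).1) (p.2 + (te e).2) = !e.2.2)

/-- one step, vertices -/
theorem stepP {σ : Cfg} {p : Pt} {r : ℤ} {x y : Pt} {v : Vtx} (hx : x = (p.1 + (v.1 + v.2), p.2 + (v.1 - v.2)))
    (h : OT σ (TB p r) x y) : ∃ w : Vtx, y = (p.1 + (w.1 + w.2), p.2 + (w.1 - w.2)) ∧
      Adj (↑(FO σ p r) : Set Edg) v w := by
  have hT : ∀ a b : ℤ, (p.1 + a, p.2 + b) ∈ TB p r → ((a, b) : Pt) ∈ TB (0, 0) r := by
    intro a b hab
    simp only [TB, Set.mem_ofPred_eq] at hab ⊢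
    omega
  obtain ⟨v1, v2⟩ := v
  subst hx
  rcases h with ⟨h1, h2, h3⟩ | ⟨h1, h2, h3⟩ | ⟨h1, h2, h3⟩ | ⟨h1, h2, h3⟩
  · refine ⟨(v1 + 1, v2), ?_, (v1, v2, true), ?_, Or.inl ⟨rfl, rfl⟩⟩
    · rw [h1]
      simp only [Prod.mk_add_mk, Prod.mk.injEq]
      constructor <;> ring
    · rw [Finset.mem_coe, FO, Finset.mem_filter, mem_SB]
      exact ⟨hT _ _ h2, h3⟩
  · obtain ⟨y1, y2⟩ := y
    simp only [Prod.mk_add_mk, Prod.mk.injEq] at h1
    obtain ⟨e1, e2⟩ := h1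
    refine ⟨(v1 - 1, v2), ?_, (v1 - 1, v2, true), ?_, Or.inr ⟨rfl, ?_⟩⟩
    · simp only [Prod.mk.injEq]
      constructor <;> linarith
    · rw [Finset.mem_coe, FO, Finset.mem_filter, mem_SB]
      have e3 : y1 = p.1 + (v1 - 1 + v2) := by linarith
      have e4 : y2 = p.2 + (v1 - 1 - v2) := by linarith
      rw [e3, e4] at h2 h3
      exact ⟨hT _ _ h2, h3⟩
    · simp
  · obtain ⟨y1, y2⟩ := y
    simp only [Prod.mk_add_mk, Prod.mk.injEq] at h1
    obtain ⟨e1, e2⟩ := h1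
    refine ⟨(v1, v2 - 1), ?_, (v1, v2 - 1, false), ?_, Or.inr ⟨rfl, ?_⟩⟩
    · simp only [Prod.mk.injEq]
      constructor <;> linarith
    · rw [Finset.mem_coe, FO, Finset.mem_filter, mem_SB]
      have e3 : y1 = p.1 + (v1 + (v2 - 1)) := by linarith
      have e4 : p.2 + (v1 - v2) = p.2 + (v1 - (v2 - 1) - 1) := by ring
      simp only at h2 h3
      rw [e3, e4] at h2 h3
      exact ⟨hT _ _ h2, h3⟩
    · simp
  · obtain ⟨y1, y2⟩ := y
    simp only [Prod.mk_add_mk, Prod.mk.injEq] at h1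
    obtain ⟨e1, e2⟩ := h1
    refine ⟨(v1, v2 + 1), ?_, (v1, v2, false), ?_, Or.inl ⟨rfl, rfl⟩⟩
    · simp only [Prod.mk.injEq]
      constructor <;> linarith
    · rw [Finset.mem_coe, FO, Finset.mem_filter, mem_SB]
      have e4 : y2 = p.2 + (v1 - v2 - 1) := by linarith
      simp only at h2 h3
      rw [e4] at h2 h3
      exact ⟨hT _ _ h2, h3⟩

/-- one step, faces -/
theorem stepD {σ : Cfg} {p : Pt} {r : ℤ} {x y : Pt} {v : Vtx}
    (hx : x = (p.1 + (v.1 + v.2 + 1), p.2 + (v.1 - v.2)))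
    (h : OT σ (TB p r) x y) : ∃ w : Vtx, y = (p.1 + (w.1 + w.2 + 1), p.2 + (w.1 - w.2)) ∧
      DAdj (↑(SB r \ FO σ p r) : Set Edg) v w := by
  have hT : ∀ a b : ℤ, (p.1 + a, p.2 + b) ∈ TB p r → ((a, b) : Pt) ∈ TB (0, 0) r := by
    intro a b hab
    simp only [TB, Set.mem_ofPred_eq] at hab ⊢
    omega
  have hmem : ∀ e : Edg, te e ∈ TB (0, 0) r → σ (p.1 + (te e).1) (p.2 + (te e).2) = e.2.2 →
      e ∈ (↑(SB r \ FO σ p r) : Set Edg) := by
    intro e h1 h2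
    rw [Finset.mem_coe, Finset.mem_sdiff, FO, Finset.mem_filter, mem_SB]
    refine ⟨h1, fun h3 => ?_⟩
    rw [h2] at h3
    have := h3.2
    revert this
    cases e.2.2 <;> simp
  obtain ⟨v1, v2⟩ := v
  subst hx
  rcases h with ⟨h1, h2, h3⟩ | ⟨h1, h2, h3⟩ | ⟨h1, h2, h3⟩ | ⟨h1, h2, h3⟩
  · refine ⟨(v1 + 1, v2), ?_, (v1 + 1, v2, false), ?_, Or.inl ⟨by simp, rfl⟩⟩
    · rw [h1]
      simp only [Prod.mk_add_mk, Prod.mk.injEq]
      constructor <;> ring
    · have e3 : p.1 + (v1 + v2 + 1) = p.1 + (v1 + 1 + v2) := by ring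
      have e4 : p.2 + (v1 - v2) = p.2 + (v1 + 1 - v2 - 1) := by ring
      simp only at h2 h3
      rw [e3, e4] at h2 h3
      exact hmem _ (hT _ _ h2) h3
  · obtain ⟨y1, y2⟩ := y
    simp only [Prod.mk_add_mk, Prod.mk.injEq] at h1
    obtain ⟨e1, e2⟩ := h1
    refine ⟨(v1 - 1, v2), ?_, (v1, v2, false), ?_, Or.inr ⟨by simp, rfl⟩⟩
    · simp only [Prod.mk.injEq]
      constructor <;> linarith
    · have e3 : y1 = p.1 + (v1 + v2) := by linarith
      have e4 : y2 = p.2 + (v1 - v2 - 1) := by linarith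
      simp only at h2 h3
      rw [e3, e4] at h2 h3
      exact hmem _ (hT _ _ h2) h3
  · obtain ⟨y1, y2⟩ := y
    simp only [Prod.mk_add_mk, Prod.mk.injEq] at h1
    obtain ⟨e1, e2⟩ := h1
    refine ⟨(v1, v2 - 1), ?_, (v1, v2, true), ?_, Or.inr ⟨by simp, rfl⟩⟩
    · simp only [Prod.mk.injEq]
      constructor <;> linarith
    · have e3 : y1 = p.1 + (v1 + v2) := by linarith
      simp only at h2 h3
      rw [e3] at h2 h3
      exact hmem _ (hT _ _ h2) h3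
  · obtain ⟨y1, y2⟩ := y
    simp only [Prod.mk_add_mk, Prod.mk.injEq] at h1
    obtain ⟨e1, e2⟩ := h1
    refine ⟨(v1, v2 + 1), ?_, (v1, v2 + 1, true), ?_, Or.inl ⟨by simp, rfl⟩⟩
    · simp only [Prod.mk.injEq]
      constructor <;> linarith
    · have e3 : p.1 + (v1 + v2 + 1) = p.1 + (v1 + (v2 + 1)) := by ring
      have e4 : y2 = p.2 + (v1 - (v2 + 1)) := by linarith
      simp only at h2 h3
      rw [e3, e4] at h2 h3
      exact hmem _ (hT _ _ h2) h3

theorem pathP {σ : Cfg} {p : Pt} {r : ℤ} {x y : Pt} {v : Vtx}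
    (hx : x = (p.1 + (v.1 + v.2), p.2 + (v.1 - v.2)))
    (h : Relation.ReflTransGen (OT σ (TB p r)) x y) :
    ∃ w : Vtx, y = (p.1 + (w.1 + w.2), p.2 + (w.1 - w.2)) ∧ Reach (↑(FO σ p r) : Set Edg) v w := by
  induction h with
  | refl => exact ⟨v, hx, Relation.ReflTransGen.refl⟩
  | tail _ h2 ih =>
    obtain ⟨w, h3, h4⟩ := ih
    obtain ⟨w', h5, h6⟩ := stepP h3 h2
    exact ⟨w', h5, Relation.ReflTransGen.tail h4 h6⟩

theorem pathD {σ : Cfg} {p : Pt} {r : ℤ} {x y : Pt} {v : Vtx}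
    (hx : x = (p.1 + (v.1 + v.2 + 1), p.2 + (v.1 - v.2)))
    (h : Relation.ReflTransGen (OT σ (TB p r)) x y) :
    ∃ w : Vtx, y = (p.1 + (w.1 + w.2 + 1), p.2 + (w.1 - w.2)) ∧
      DReach (↑(SB r \ FO σ p r) : Set Edg) v w := by
  induction h with
  | refl => exact ⟨v, hx, Relation.ReflTransGen.refl⟩
  | tail _ h2 ih =>
    obtain ⟨w, h3, h4⟩ := ih
    obtain ⟨w', h5, h6⟩ := stepD h3 h2
    exact ⟨w', h5, Relation.ReflTransGen.tail h4 h6⟩

/-- the two arms in bond percolation on the square lattice -/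
theorem AE_arms {σ : Cfg} {s : St} {r : ℤ} {R : ℕ} (hs : Kd s) (hR : 2 * (R : ℤ) ≤ r)
    (h : AE σ s r) : H12S.Crs 0 0 1 R (↑(FO σ s.1 (r + 1)) : Set Edg) ∧
      H12S.DCrs 0 0 1 R (↑(SB (r + 1) \ FO σ s.1 (r + 1)) : Set Edg) := by
  obtain ⟨⟨x, h1, h2⟩, ⟨y, h3, h4⟩⟩ := h
  constructor
  · obtain ⟨w, hw, hr⟩ := pathP (v := (0, 0)) (by simp) h2
    refine ⟨(0, 0), w, ?_, ?_, hr⟩
    · unfold inR
      simp
    · unfold Far at h1
      rw [hw] at h1
      simp only [add_sub_cancel_left] at h1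
      rw [zero_sub, zero_add]
      rcases h1 with h1 | h1 <;> rcases abs_cases (w.1 + w.2) with h5 | h5 <;>
        rcases abs_cases (w.1 - w.2) with h6 | h6 <;> omega
  · obtain ⟨f, hf, hf'⟩ : ∃ f : Vtx, s.2 = (s.1.1 + (f.1 + f.2 + 1), s.1.2 + (f.1 - f.2)) ∧
        inR (0 - (1 : ℕ)) (0 + (1 : ℕ)) (0 - (1 : ℕ)) (0 + (1 : ℕ)) f := by
      unfold inR
      cases hs with
      | up q t => exact ⟨(0, 0), by simp [up], by simp⟩
      | dn q t => exact ⟨(-1, -1), by simp [dn], by simp⟩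
      | rt q t => exact ⟨(-1, 0), by simp [rt], by simp⟩
      | lf q t => exact ⟨(0, -1), by simp [lf], by simp⟩
    obtain ⟨w, hw, hr⟩ := pathD hf h4
    refine ⟨f, w, hf', ?_, hr⟩
    unfold Far at h3
    rw [hw] at h3
    simp only [add_sub_cancel_left] at h3
    rw [zero_sub, zero_add]
    rcases h3 with h1 | h1 <;> rcases abs_cases (w.1 + w.2 + 1) with h5 | h5 <;>
      rcases abs_cases (w.1 - w.2) with h6 | h6 <;> omega

end Pool.Agent.L5helper96.NT
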