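import Pool.Agent.L5helper96.NT.Armp
import Pool.Agent.Y256.KW.Crs

/-!
# Two arms around states of the walker: bounds for the probabilities on the cylinder
-/

set_option autoImplicit false

namespace Pool.Agent.L5helper96.NT
open Y994.KW Pool.Agent.Y290.KW H974

open Classical in
/-- the cells of the box -/
noncomputable def Dc (n M : ℕ) (s : St) (r : ℕ) : Set (Fin M × Fin (2 * n + 1)) :=
  if r = 0 then ∅ else {x | ∃ τ ∈ TB s.1 (r + 1), ((x.1 : ℕ) : ℤ) = τ.2 ∧ x.2 = H906K.jx (2 * n) τ.1}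

theorem dep_AE {γ : Type} (n M : ℕ) (s : St) (r : ℕ) (g : Prop → γ) :
    Dep (Dc n M s r) (fun c : Fin M → Fin (2 * n + 1) → Bool => g (AE (cfg n M c) s r)) := by
  intro c c' hc
  beta_reduce
  rcases Nat.eq_zero_or_pos r with hr | hr
  · subst hr
    congr 1
    exact propext ⟨fun _ => AE_zero _ _, fun _ => AE_zero _ _⟩
  · have key : ∀ τ ∈ TB s.1 ((r : ℤ) + 1), cfg n M c τ.1 τ.2 = cfg n M c' τ.1 τ.2 := by
      intro τ hτ
      unfold cfg
      by_cases h : 0 ≤ τ.2 ∧ τ.2 < M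
      · rw [dif_pos h, dif_pos h]
        apply hc
        unfold Dc
        rw [if_neg (by omega)]
        refine ⟨τ, hτ, ?_, rfl⟩
        show ((τ.2.toNat : ℕ) : ℤ) = τ.2
        exact Int.toNat_of_nonneg h.1
      · rw [dif_neg h, dif_neg h]
    congr 1
    exact propext ⟨AE_congr key, AE_congr (fun τ hτ => (key τ hτ).symm)⟩

theorem jx_eq {n : ℕ} {a b : ℤ} (h : H906K.jx (2 * n) a = H906K.jx (2 * n) b) :
    ∃ z : ℤ, a - b = (2 * n + 1) * z := by
  unfold H906K.jx at h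
  rw [Fin.mk.injEq] at h
  have h1 := Int.emod_nonneg a (show (((2 * n : ℕ) : ℤ) + 1) ≠ 0 by omega)
  have h2 := Int.emod_nonneg b (show (((2 * n : ℕ) : ℤ) + 1) ≠ 0 by omega)
  have h3 : a % (((2 * n : ℕ) : ℤ) + 1) = b % (((2 * n : ℕ) : ℤ) + 1) := by omega
  obtain ⟨z, hz⟩ := Int.ModEq.dvd (show b ≡ a [ZMOD (((2 * n : ℕ) : ℤ) + 1)] from h3.symm)
  exact ⟨z, by rw [hz]; push_cast; ring⟩

/-- the probability of two arms -/
theorem P_AE {C : ℝ} (hC : 0 < C) (hA : H984N.AnnUp C) (n M : ℕ) (s : St) (r : ℕ) (hs : Kd s)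
    (h : r = 0 ∨ ((r : ℤ) + 1 ≤ s.1.2 ∧ s.1.2 + (r + 1) ≤ M ∧ 2 * (r + 1) ≤ 2 * n + 1)) :
    Ea M (fun c : Fin M → Fin (2 * n + 1) → Bool => ind (AE (cfg n M c) s r)) ≤
      (2 * C + 2) * ((r : ℝ) + 1) ^ (-(1 / 4) : ℝ) := by
  have h1 : Ea M (fun c : Fin M → Fin (2 * n + 1) → Bool => ind (AE (cfg n M c) s r)) ≤ 1 := by
    rw [← Ea_const' (α := Fin (2 * n + 1) → Bool) M 1]
    exact Ea_mono' M fun c => ind_le_one _
  rcases Nat.lt_or_ge r 2 with hr | hr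
  · refine h1.trans ?_
    have h2 : (2 : ℝ) ^ (-(1 / 4) : ℝ) ≤ ((r : ℝ) + 1) ^ (-(1 / 4) : ℝ) := by
      apply Real.rpow_le_rpow_of_nonpos (by positivity) _ (by norm_num)
      have : (r : ℝ) ≤ 1 := by exact_mod_cast Nat.lt_succ_iff.1 hr
      linarith
    have h3 : (1 / 2 : ℝ) ≤ (2 : ℝ) ^ (-(1 / 4) : ℝ) := by
      have : (2 : ℝ) ^ (-1 : ℝ) ≤ (2 : ℝ) ^ (-(1 / 4) : ℝ) :=
        Real.rpow_le_rpow_of_exponent_le (by norm_num) (by norm_num)
      rw [Real.rpow_neg_one] at this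
      linarith
    nlinarith
  · rcases h with h | ⟨ha, hb, hc⟩
    · omega
    have hMp : 0 < M := by omega
    obtain ⟨R, hR⟩ : ∃ R : ℕ, R = r / 2 := ⟨_, rfl⟩
    have hR1 : 1 ≤ R := by omega
    have hR2 : 2 * (R : ℤ) ≤ (r : ℤ) := by omega
    classical
    obtain ⟨φ, hφ⟩ : ∃ φ : Edg → Fin M × Fin (2 * n + 1), φ = fun e =>
      (⟨min ((s.1.2 + (te e).2).toNat) (M - 1), by omega⟩,
        H906K.jx (2 * n) (s.1.1 + (te e).1)) := ⟨_, rfl⟩
    have hrow : ∀ e ∈ SB ((r : ℤ) + 1), 0 ≤ s.1.2 + (te e).2 ∧ s.1.2 + (te e).2 < M := by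
      intro e he
      rw [mem_SB] at he
      simp only [TB, Set.mem_ofPred_eq] at he
      omega
    have hinj : Set.InjOn φ (SB ((r : ℤ) + 1)) := by
      intro e he e' he' hee
      have g1 := hrow e he
      have g2 := hrow e' he'
      rw [hφ] at hee
      simp only [Prod.mk.injEq, Fin.mk.injEq] at hee
      obtain ⟨g3, g4⟩ := hee
      obtain ⟨z, hz⟩ := jx_eq g4
      apply te_inj
      rw [Finset.mem_coe, mem_SB] at he he'
      simp only [TB, Set.mem_ofPred_eq] at he he'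
      have g5 : (te e).2 = (te e').2 := by omega
      have g6 : z = 0 := by
        rcases lt_trichotomy z 0 with hz0 | hz0 | hz0
        · exfalso
          nlinarith
        · exact hz0
        · exfalso
          nlinarith
      rw [g6] at hz
      exact Prod.ext (by linarith) g5
    have hcfg : ∀ (c : Fin M → Fin (2 * n + 1) → Bool) (e : Edg), e ∈ SB ((r : ℤ) + 1) →
        cfg n M c (s.1.1 + (te e).1) (s.1.2 + (te e).2) = c (φ e).1 (φ e).2 := by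
      intro c e he
      have g1 := hrow e he
      unfold cfg
      rw [dif_pos g1, hφ]
      simp only
      congr 2
      omega
    have hFO : ∀ c : Fin M → Fin (2 * n + 1) → Bool, FO (cfg n M c) s.1 ((r : ℤ) + 1) =
        (SB ((r : ℤ) + 1)).filter (fun e => c (φ e).1 (φ e).2 = !e.2.2) := by
      intro c
      unfold FO
      apply Finset.filter_congr
      intro e he
      rw [hcfg c e he]
    have h2 : Ea M (fun c : Fin M → Fin (2 * n + 1) → Bool => ind (AE (cfg n M c) s r)) ≤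
        C * ((((1 : ℕ) : ℝ)) / R) ^ (1 / 4 : ℝ) := by
      refine le_trans ?_ (hA 1 R le_rfl hR1 0 0 (SB ((r : ℤ) + 1)))
      unfold Pr
      rw [← unif φ (fun e => !e.2.2) (SB ((r : ℤ) + 1)) hinj]
      refine Ea_mono' M fun c => ind_mono fun h => ?_
      have := AE_arms hs hR2 h
      rw [hFO c] at this
      exact this
    refine h2.trans ?_
    have hRp : (0 : ℝ) < R := by exact_mod_cast hR1
    have h3 : ((((1 : ℕ) : ℝ)) / R) ^ (1 / 4 : ℝ) ≤ 2 * ((r : ℝ) + 1) ^ (-(1 / 4) : ℝ) := by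
      have h4 : (((1 : ℕ) : ℝ)) / R ≤ 4 * ((r : ℝ) + 1)⁻¹ := by
        rw [Nat.cast_one, ← div_eq_mul_inv, div_le_div_iff₀ hRp (by positivity)]
        have : r + 1 ≤ 4 * R := by omega
        have : (r : ℝ) + 1 ≤ 4 * R := by exact_mod_cast this
        linarith
      have h5 : (4 : ℝ) ^ (1 / 4 : ℝ) ≤ 2 := by
        have : (4 : ℝ) ^ (1 / 4 : ℝ) ≤ (4 : ℝ) ^ (1 / 2 : ℝ) :=
          Real.rpow_le_rpow_of_exponent_le (by norm_num) (by norm_num)
        rw [← Real.sqrt_eq_rpow, show (4 : ℝ) = 2 ^ 2 by norm_num, Real.sqrt_sq (by norm_num)] at this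
        rw [show (4 : ℝ) = 2 ^ 2 by norm_num]
        exact this
      calc ((((1 : ℕ) : ℝ)) / R) ^ (1 / 4 : ℝ) ≤ (4 * ((r : ℝ) + 1)⁻¹) ^ (1 / 4 : ℝ) :=
            Real.rpow_le_rpow (by positivity) h4 (by norm_num)
        _ = 4 ^ (1 / 4 : ℝ) * ((r : ℝ) + 1) ^ (-(1 / 4) : ℝ) := by
            rw [Real.mul_rpow (by norm_num) (by positivity), Real.inv_rpow (by positivity),
              Real.rpow_neg (by positivity)]
        _ ≤ _ := mul_le_mul_of_nonneg_right h5 (by positivity)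
    have h6 : 0 < ((r : ℝ) + 1) ^ (-(1 / 4) : ℝ) := by positivity
    nlinarith

/-- disjoint boxes -/
theorem disj {n M : ℕ} {s s' : St} {r r' m : ℕ}
    (hm : 2 * (m : ℤ) ≤ |s.1.1 - s'.1.1| ∧ 2 * (m : ℤ) ≤ 2 * n + 1 - |s.1.1 - s'.1.1|)
    (hr : r = 0 ∨ r + 1 ≤ m) (hr' : r' = 0 ∨ r' + 1 ≤ m) :
    Disjoint (Dc n M s r) (Dc n M s' r') := by
  unfold Dc
  rcases Nat.eq_zero_or_pos r with h0 | h0
  · rw [if_pos h0]
    exact Set.empty_disjoint _
  rcases Nat.eq_zero_or_pos r' with h0' | h0'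
  · rw [if_pos h0']
    exact Set.disjoint_empty _
  rw [if_neg (by omega), if_neg (by omega), Set.disjoint_left]
  rintro ⟨t, j⟩ ⟨τ, h1, h2, h3⟩ ⟨τ', h1', h2', h3'⟩
  simp only at h3 h3'
  rw [h3] at h3'
  obtain ⟨z, hz⟩ := jx_eq h3'
  simp only [TB, Set.mem_ofPred_eq] at h1 h1'
  obtain ⟨m1, m2⟩ := hm
  have hr1 : (r : ℤ) + 1 ≤ m := by omega
  have hr1' : (r' : ℤ) + 1 ≤ m := by omega
  rcases lt_trichotomy z 0 with hz0 | hz0 | hz0
  · have : (2 * (n : ℤ) + 1) * z ≤ -(2 * n + 1) := by nlinarith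
    rcases abs_cases (s.1.1 - s'.1.1) with h | h <;> omega
  · rw [hz0, mul_zero] at hz
    rcases abs_cases (s.1.1 - s'.1.1) with h | h <;> omega
  · have : (2 * (n : ℤ) + 1) ≤ (2 * (n : ℤ) + 1) * z := by nlinarith
    rcases abs_cases (s.1.1 - s'.1.1) with h | h <;> omega

/-- the bound for a pair of states and an event of the other rows -/
theorem pair {C : ℝ} (hC : 0 < C) (hA : H984N.AnnUp C) {n M : ℕ} {u v : ℤ} (hu : 0 ≤ u) (hv : v ≤ M)
    {s s' : St} {r r' m : ℕ} (hk : Kd s) (hk' : Kd s')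
    (hm : 2 * (m : ℤ) ≤ |s.1.1 - s'.1.1| ∧ 2 * (m : ℤ) ≤ 2 * n + 1 - |s.1.1 - s'.1.1|)
    (hr : r = 0 ∨ (r + 1 ≤ m ∧ (r : ℤ) + 1 ≤ s.1.2 - u ∧ (r : ℤ) + 1 ≤ v - s.1.2))
    (hr' : r' = 0 ∨ (r' + 1 ≤ m ∧ (r' : ℤ) + 1 ≤ s'.1.2 - u ∧ (r' : ℤ) + 1 ≤ v - s'.1.2))
    {g : (Fin M → Fin (2 * n + 1) → Bool) → ℝ} (hg0 : ∀ c, 0 ≤ g c)
    (hg : Dep {x : Fin M × Fin (2 * n + 1) | ¬ (u ≤ ((x.1 : ℕ) : ℤ) ∧ ((x.1 : ℕ) : ℤ) < v)} g) :
    Ea M (fun c : Fin M → Fin (2 * n + 1) → Bool =>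
      ind (AE (cfg n M c) s r) * ind (AE (cfg n M c) s' r') * g c) ≤
      ((2 * C + 2) * ((r : ℝ) + 1) ^ (-(1 / 4) : ℝ)) * ((2 * C + 2) * ((r' : ℝ) + 1) ^ (-(1 / 4) : ℝ)) *
        Ea M g := by
  have hrows : ∀ (s : St) (r : ℕ), (r = 0 ∨ (r + 1 ≤ m ∧ (r : ℤ) + 1 ≤ s.1.2 - u ∧
      (r : ℤ) + 1 ≤ v - s.1.2)) → Dc n M s r ⊆
      {x : Fin M × Fin (2 * n + 1) | u ≤ ((x.1 : ℕ) : ℤ) ∧ ((x.1 : ℕ) : ℤ) < v} := by
    intro s r hr
    unfold Dc
    rcases Nat.eq_zero_or_pos r with h0 | h0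
    · rw [if_pos h0]
      exact Set.empty_subset _
    · rw [if_neg (by omega)]
      rintro ⟨t, j⟩ ⟨τ, h1, h2, h3⟩
      simp only [TB, Set.mem_ofPred_eq] at h1 h2 ⊢
      omega
  have e1 := Ea_indep (D := Dc n M s r ∪ Dc n M s' r')
    (D' := {x : Fin M × Fin (2 * n + 1) | ¬ (u ≤ ((x.1 : ℕ) : ℤ) ∧ ((x.1 : ℕ) : ℤ) < v)})
    (f := fun c : Fin M → Fin (2 * n + 1) → Bool => ind (AE (cfg n M c) s r) * ind (AE (cfg n M c) s' r'))
    (g := g) ?_ ?_ hg
  · rw [e1]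
    have e2 := Ea_indep (disj (M := M) hm (hr.imp_right fun h => h.1)
      (hr'.imp_right fun h => h.1)) (dep_AE n M s r ind) (dep_AE n M s' r' ind)
    rw [e2]
    have hEg : 0 ≤ Ea M g := by
      rw [← Ea_const' (α := Fin (2 * n + 1) → Bool) M 0]
      exact Ea_mono' M hg0
    have b1 := P_AE hC hA n M s r hk (by
      rcases hr with h | h
      · exact Or.inl h
      · right
        obtain ⟨h1, h2, h3⟩ := h
        refine ⟨by omega, by omega, ?_⟩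
        rcases abs_cases (s.1.1 - s'.1.1) with h | h <;> omega)
    have b2 := P_AE hC hA n M s' r' hk' (by
      rcases hr' with h | h
      · exact Or.inl h
      · right
        obtain ⟨h1, h2, h3⟩ := h
        refine ⟨by omega, by omega, ?_⟩
        rcases abs_cases (s.1.1 - s'.1.1) with h | h <;> omega)
    have b0 : 0 ≤ Ea M (fun c : Fin M → Fin (2 * n + 1) → Bool => ind (AE (cfg n M c) s' r')) := by
      rw [← Ea_const' (α := Fin (2 * n + 1) → Bool) M 0]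
      exact Ea_mono' M fun c => ind_nonneg _
    apply mul_le_mul_of_nonneg_right _ hEg
    exact mul_le_mul b1 b2 b0 (by positivity)
  · rw [Set.disjoint_left]
    intro x hx1 hx2
    apply hx2
    rcases hx1 with h | h
    · exact hrows s r hr h
    · exact hrows s' r' hr' h
  · intro c c' hc
    have d1 := (dep_AE n M s r ind) c c' fun t j h => hc t j (Or.inl h)
    have d2 := (dep_AE n M s' r' ind) c c' fun t j h => hc t j (Or.inr h)
    beta_reduce at d1 d2 ⊢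
    rw [d1, d2]

end Pool.Agent.L5helper96.NT
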