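import Pool.Agent.L5helper96.NT.Tail

/-!
# Natural time of the interface on long cylinders: oscillation of the positions in windows
-/

set_option autoImplicit false

namespace Pool.Agent.L5helper96.NT
open Y994.KW Pool.Agent.Y290.KW Finset
open Pool.Agent.Y941.KW (pr_le_one pr_or pr_mono pr_nonneg per_cfg bad S_T1LOC cfg_shift)

/-- the event that the walker makes a long excursion between the hits of the levels `s`, `s'` -/
def Bad (n W : ℕ) (s s' : ℕ) (x : ℝ) (c : Fin W → Fin (2 * n + 1) → Bool) : Prop :=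
  ∃ k : ℕ, len n 0 s (cfg n W c) ≤ k ∧ k ≤ len n 0 s' (cfg n W c) ∧
    (x * (2 * n + 1) ≤ |((orb n 0 (cfg n W c) k).1.1 : ℝ) - (2 * n + dsp n 0 s (cfg n W c))| ∨
     x * (2 * n + 1) ≤ |(lv (orb n 0 (cfg n W c) k) : ℝ) / 2 - s|)

/-- the probability for given parameters -/
theorem osc_m (hV : S_VAL) (hI : S_INJ) (hH : S_HIT) (hTR : S_TRAVG)
    (hMONO : S_T1MONO) (hT : S_T1LOC) {c C q : ℝ} (hc1 : c ≤ 1)
    (hc : ∀ n : ℕ, 1 ≤ n →
      c ≤ pr n (2 * n + 1) (fun ω => T1 n (cfg n (2 * n + 1) ω) 0 (2 * n + 1)))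
    (hD : ∀ (n M : ℕ) (u v ε : ℤ) (m r : ℕ), 1 ≤ n →
      1 ≤ m → 0 ≤ u → u ≤ v → v ≤ M → v - u ≤ m * (2 * n + 1) →
      pr n M (fun c => DC (2 * n + 1) u v ε r (cfg n M c)) ≤ C * m * q ^ (r / (C * m) : ℝ))
    (n W s s' : ℕ) (x : ℝ) (m r : ℕ) (hn : 1 ≤ n) (hm : 1 ≤ m) (hmx : (m : ℝ) + 1 ≤ x)
    (hr : 8 * ((r : ℝ) + 2) ≤ x) (hs : s ≤ s') (hs' : s' ≤ s + (2 * n + 1)) (hW : s' ≤ W) :
    pr n W (Bad n W s s' x) ≤
      2 * (1 - c) ^ m + 2 * (C * ((2 * m : ℕ) : ℝ) * q ^ (r / (C * ((2 * m : ℕ) : ℝ)) : ℝ)) := by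
  classical
  have hc0 : 0 ≤ 1 - c := by linarith
  obtain ⟨lo, hlo0, hlos, hlom, B1, hB1, hlo⟩ :=
    slab_lo hMONO hT hc1 hc n W s m hn (by omega)
  have hmz : (1 : ℤ) * (2 * n + 1) ≤ m * (2 * n + 1) := by
    apply mul_le_mul_of_nonneg_right _ (by positivity)
    exact_mod_cast hm
  have hsz : (s : ℤ) ≤ s' := by exact_mod_cast hs
  have hsz' : (s' : ℤ) ≤ s + (2 * n + 1) := by exact_mod_cast hs'
  have hWz : (s' : ℤ) ≤ W := by exact_mod_cast hW
  have hd1 := hD n W lo s' (0 + 1) (2 * m) r hn (by omega) hlo0 (by linarith) hWz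
    (by push_cast; linarith)
  have hmain : pr n W (Bad n W s s' x) ≤
      pr n W (fun ω => B1 ω ∨ DC (2 * n + 1) lo s' (0 + 1) r (cfg n W ω)) := by
    apply pr_mono
    rintro ω ⟨k, hk1, hk2, hk⟩
    by_contra hcon
    rw [not_or] at hcon
    obtain ⟨hb1, hdc⟩ := hcon
    have hper := per_cfg n W ω
    have Hs := hit_len hH hn hper (show (0 : ℤ) ≤ s by positivity)
    have Hs' := hit_len hH hn hper (show (0 : ℤ) ≤ s' by positivity)
    have hn0 : (0 : ℝ) < 2 * n + 1 := by positivity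
    rcases hk with hk | hk
    · apply hdc
      refine pos_err hV hI hTR hn hper hlo0 hlos hsz (hlo ω hb1) Hs Hs' hk1 hk2 ?_
      have h5 : 2 * (2 * (n : ℝ) + 1) * (r + 2) ≤ x * (2 * n + 1) := by
        have h6 : 2 * ((r : ℝ) + 2) ≤ x := by
          have : (0 : ℝ) ≤ r := by positivity
          linarith
        nlinarith
      have h6 := h5.trans hk
      exact_mod_cast h6
    · obtain ⟨h1, h2⟩ := lev_btw hV hI hn hper hlo0 hlos hsz (hlo ω hb1) Hs Hs' k hk1 hk2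
      have h3 : |(lv (orb n 0 (cfg n W ω) k) : ℝ) / 2 - s| ≤ m * (2 * n + 1) := by
        have h4 : (2 * (lo : ℝ)) ≤ lv (orb n 0 (cfg n W ω) k) := by exact_mod_cast h1
        have h5 : (lv (orb n 0 (cfg n W ω) k) : ℝ) ≤ 2 * (s' : ℕ) := by exact_mod_cast h2
        have h6 : (s : ℝ) - lo ≤ m * (2 * n + 1) := by exact_mod_cast hlom
        have h7 : ((s' : ℕ) : ℝ) ≤ s + (2 * n + 1) := by exact_mod_cast hs'
        have h8 : (1 : ℝ) * (2 * n + 1) ≤ m * (2 * n + 1) := by exact_mod_cast hmz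
        rw [abs_le]
        constructor <;> linarith
      have h4 : (m : ℝ) * (2 * n + 1) < x * (2 * n + 1) :=
        mul_lt_mul_of_pos_right (by linarith) hn0
      linarith
  refine hmain.trans ((pr_or _ _).trans ?_)
  have h10 : 0 ≤ (1 - c) ^ m := by positivity
  have h11 : 0 ≤ pr n W (fun c => DC (2 * n + 1) lo s' (0 + 1) r (cfg n W c)) := pr_nonneg _
  have h12 := h11.trans hd1
  have h13 := add_le_add hB1 hd1
  linarith

/-- the passage from the parameters to the tail -/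
theorem tail_of {c C q : ℝ} (hC : 0 < C) (hq0 : 0 < q) (hq1 : q < 1) (hc0 : 0 < c) (hc1 : c ≤ 1) :
    ∃ C' κ : ℝ, 0 < C' ∧ 0 < κ ∧ ∀ x p : ℝ, 0 ≤ x → p ≤ 1 →
      (∀ m r : ℕ, 1 ≤ m → (m : ℝ) + 1 ≤ x → 8 * ((r : ℝ) + 2) ≤ x → p ≤ 2 * (1 - c) ^ m +
        2 * (C * ((2 * m : ℕ) : ℝ) * q ^ (r / (C * ((2 * m : ℕ) : ℝ)) : ℝ))) →
      p ≤ C' * Real.exp (-κ * √x) := by
  have hlq : Real.log q < 0 := Real.log_neg hq0 hq1
  set κ1 : ℝ := -Real.log q / (128 * C) with hκ1
  have hκ1p : 0 < κ1 := div_pos (by linarith) (by positivity)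
  set κ : ℝ := min c (κ1 / 2) with hκ
  have hκp : 0 < κ := lt_min hc0 (by positivity)
  refine ⟨Real.exp (6 * κ) + (2 + 16 * C / κ1), κ, by positivity, hκp, ?_⟩
  intro x p hx hp hmr
  rcases lt_or_ge x 32 with hx16 | hx16
  · refine hp.trans ?_
    have h1 : √x ≤ 6 := by
      rw [show (6 : ℝ) = √36 by
        rw [show (36 : ℝ) = 6 ^ 2 by norm_num, Real.sqrt_sq (by norm_num)]]
      exact Real.sqrt_le_sqrt (by linarith)
    have h2 : 1 ≤ Real.exp (6 * κ) * Real.exp (-κ * √x) := by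
      rw [← Real.exp_add]
      apply Real.one_le_exp
      nlinarith
    have h3 : 0 ≤ (2 + 16 * C / κ1) * Real.exp (-κ * √x) := by positivity
    rw [add_mul]
    linarith
  · have hsx : 4 ≤ √x := by
      rw [show (4 : ℝ) = √16 by
        rw [show (16 : ℝ) = 4 ^ 2 by norm_num, Real.sqrt_sq (by norm_num)]]
      exact Real.sqrt_le_sqrt (by linarith)
    have hxx : √x * √x = x := Real.mul_self_sqrt hx
    set m : ℕ := ⌈√x⌉₊ with hm
    have hm1 : √x ≤ m := Nat.le_ceil _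
    have hm3 : (m : ℝ) < √x + 1 := Nat.ceil_lt_add_one (Real.sqrt_nonneg x)
    have hm2 : (m : ℝ) ≤ 2 * √x := by
      linarith
    have hm4 : (m : ℝ) + 1 ≤ x := by nlinarith
    have hm0 : 1 ≤ m := by
      have : (1 : ℝ) ≤ m := by linarith
      exact_mod_cast this
    set k : ℕ := ⌊x / 8⌋₊ with hk
    have hk1 : (k : ℝ) ≤ x / 8 := Nat.floor_le (by positivity)
    have hk2 : x / 8 < k + 1 := Nat.lt_floor_add_one _
    have hk3 : 2 ≤ k := by
      have : (3 : ℝ) < k + 1 := by linarith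
      have h2 : (3 : ℕ) < k + 1 := by exact_mod_cast this
      omega
    obtain ⟨r, hr⟩ := Nat.exists_eq_add_of_le' hk3
    have hr' : (k : ℝ) = r + 2 := by rw [hr]; push_cast; ring
    have hrx : x / 32 ≤ r := by linarith
    have h1 := hmr m r hm0 hm4 (by linarith)
    refine h1.trans ?_
    have hmp : (0 : ℝ) < m := by exact_mod_cast hm0
    have h2 : (1 - c) ^ m ≤ Real.exp (-κ * √x) := by
      calc (1 - c) ^ m ≤ (Real.exp (-c)) ^ m := by
            apply pow_le_pow_left₀ (by linarith)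
            have := Real.add_one_le_exp (-c)
            linarith
        _ = Real.exp (-c * m) := by rw [← Real.exp_nat_mul]; congr 1; ring
        _ ≤ Real.exp (-κ * √x) := by
            apply Real.exp_le_exp.2
            have h3 : κ ≤ c := min_le_left _ _
            nlinarith
    have h3 : q ^ (r / (C * ((2 * m : ℕ) : ℝ)) : ℝ) ≤ Real.exp (-κ1 * √x) := by
      rw [Real.rpow_def_of_pos hq0]
      apply Real.exp_le_exp.2
      have h4 : √x / (128 * C) ≤ r / (C * ((2 * m : ℕ) : ℝ)) := by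
        rw [div_le_div_iff₀ (by positivity) (by push_cast; positivity)]
        push_cast
        have h5 : √x * (C * (2 * m)) ≤ √x * (C * (2 * (2 * √x))) := by gcongr
        have h6 : √x * (C * (2 * (2 * √x))) = 4 * C * x := by
          calc _ = 4 * C * (√x * √x) := by ring
            _ = _ := by rw [hxx]
        have h7 : 4 * C * x ≤ r * (128 * C) := by nlinarith
        linarith
      have h5 : Real.log q * (r / (C * ((2 * m : ℕ) : ℝ))) ≤ Real.log q * (√x / (128 * C)) :=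
        mul_le_mul_of_nonpos_left h4 hlq.le
      refine h5.trans (le_of_eq ?_)
      rw [hκ1]
      ring
    have h4 : √x * Real.exp (-κ1 * √x) ≤ 2 / κ1 * Real.exp (-κ * √x) := by
      have h5 : κ1 / 2 * √x ≤ Real.exp (κ1 / 2 * √x) := by
        have := Real.add_one_le_exp (κ1 / 2 * √x)
        linarith
      have h6 : √x ≤ 2 / κ1 * Real.exp (κ1 / 2 * √x) := by
        have h7 : √x = 2 / κ1 * (κ1 / 2 * √x) := by field_simp
        rw [h7]
        have := mul_le_mul_of_nonneg_left h5 (by positivity : 0 ≤ 2 / κ1)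
        rw [← h7]
        rw [← h7] at this
        exact this
      calc √x * Real.exp (-κ1 * √x) ≤ (2 / κ1 * Real.exp (κ1 / 2 * √x)) * Real.exp (-κ1 * √x) :=
            mul_le_mul_of_nonneg_right h6 (by positivity)
        _ = 2 / κ1 * Real.exp (-(κ1 / 2) * √x) := by
            rw [mul_assoc, ← Real.exp_add]
            congr 2
            ring
        _ ≤ 2 / κ1 * Real.exp (-κ * √x) := by
            apply mul_le_mul_of_nonneg_left _ (by positivity)
            apply Real.exp_le_exp.2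
            have h3 : κ ≤ κ1 / 2 := min_le_right _ _
            nlinarith [Real.sqrt_nonneg x]
    have h5 : C * ((2 * m : ℕ) : ℝ) * q ^ (r / (C * ((2 * m : ℕ) : ℝ)) : ℝ) ≤
        8 * C / κ1 * Real.exp (-κ * √x) := by
      calc C * ((2 * m : ℕ) : ℝ) * q ^ (r / (C * ((2 * m : ℕ) : ℝ)) : ℝ)
          ≤ C * (2 * (2 * √x)) * Real.exp (-κ1 * √x) := by
            push_cast at h3 ⊢
            gcongr
        _ = 4 * C * (√x * Real.exp (-κ1 * √x)) := by ring
        _ ≤ 4 * C * (2 / κ1 * Real.exp (-κ * √x)) := by gcongr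
        _ = _ := by ring
    have h6 : 0 ≤ Real.exp (6 * κ) * Real.exp (-κ * √x) := by positivity
    have h7 : (Real.exp (6 * κ) + (2 + 16 * C / κ1)) * Real.exp (-κ * √x) =
        Real.exp (6 * κ) * Real.exp (-κ * √x) + 2 * Real.exp (-κ * √x) +
        2 * (8 * C / κ1 * Real.exp (-κ * √x)) := by ring
    rw [h7]
    linarith

/-- tail of the oscillation of the positions -/
theorem osct (hV : S_VAL) (hI : S_INJ) (hH : S_HIT) (hTR : S_TRAVG)
    (hMONO : S_T1MONO) (hT : S_T1LOC) (hDCP : S_DCP) (hT1P : S_T1P) :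
    ∃ C κ : ℝ, 0 < C ∧ 0 < κ ∧ ∀ (n W s s' : ℕ) (x : ℝ), 1 ≤ n → 0 ≤ x → s ≤ s' →
      s' ≤ s + (2 * n + 1) → s' ≤ W → pr n W (Bad n W s s' x) ≤ C * Real.exp (-κ * √x) := by
  obtain ⟨C, q, hC, hq0, hq1, hD⟩ := hDCP
  obtain ⟨c, hc0, hc⟩ := hT1P
  have hc1 : c ≤ 1 := (hc 1 le_rfl).trans (pr_le_one _)
  obtain ⟨C', κ, hC', hκ, h⟩ := tail_of hC hq0 hq1 hc0 hc1
  refine ⟨C', κ, hC', hκ, ?_⟩
  intro n W s s' x hn hx hs hs' hW
  exact h x _ hx (pr_le_one _) fun m r hm hmx hr =>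
    osc_m hV hI hH hTR hMONO hT hc1 hc hD n W s s' x m r hn hm hmx hr hs hs' hW

end Pool.Agent.L5helper96.NT
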