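import Pool.Agent.L5helper96.NT.Inst
import Pool.Agent.L5helper96.NT.Osc
import Pool.Agent.Y994.KW.Main
import Pool.Agent.Y286.KW.Inv
import Pool.Agent.Y475.KW.Osc

/-!
# Natural time: the assembly
-/

set_option autoImplicit false

namespace Pool.Agent.L5helper96.NT
open Y994.KW Pool.Agent.Y290.KW Finset Filter Topology MeasureTheory ProbabilityTheory
open Pool.Agent.Y941.KW (pr_le_one pr_or pr_mono pr_nonneg per_cfg bad S_T1LOC cfg_shift)

/-- the horizontal scale -/
noncomputable def hsc (n M : ℕ) : ℝ := 2 * Real.pi / (2 * n + 1) / √(2 * Real.pi * M / (2 * n + 1))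

/-- the scaled position of the walker -/
noncomputable def ps (n M : ℕ) (s : St) : ℂ :=
  ((hsc n M * (((s.1.1 + s.2.1 : ℤ) : ℝ) / 2) : ℝ) : ℂ) +
    (((((s.1.2 + s.2.2 : ℤ) : ℝ) / 2) / M : ℝ) : ℂ) * Complex.I

/-- the exploration path with its natural parametrisation -/
noncomputable def curve (n M : ℕ) (c : Fin M → Fin (2 * n + 1) → Bool) : C(unitInterval, ℂ) :=
  poly (fun k => ps n M (orb n 0 (cfg n M c) k)) (len n 0 M (cfg n M c))

theorem kd_x {s : St} (h : Kd s) : |(((s.1.1 + s.2.1 : ℤ) : ℝ) / 2) - s.1.1| ≤ 1 / 2 := by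
  rw [abs_le]
  cases h with
  | up q t => simp only [up]; push_cast; constructor <;> linarith
  | dn q t => simp only [dn]; push_cast; constructor <;> linarith
  | rt q t => simp only [rt]; push_cast; constructor <;> linarith
  | lf q t => simp only [lf]; push_cast; constructor <;> linarith

/-- more steps than levels -/
theorem len_ge (hH : S_HIT) {n : ℕ} {σ : Cfg} (hn : 1 ≤ n) (hp : Per n σ) (m : ℕ) :
    m ≤ len n 0 m σ := by
  induction m with
  | zero => exact Nat.zero_le _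
  | succ m ih =>
    have h1 := hit_len hH hn hp (show (0 : ℤ) ≤ m by positivity)
    have h2 := hit_len hH hn hp (show (0 : ℤ) ≤ ((m + 1 : ℕ) : ℤ) by positivity)
    have h3 := hit_le (by positivity) (by push_cast; linarith) h1 h2
    rcases h3.lt_or_eq with h | h
    · omega
    · exfalso
      have e1 := h1.1
      have e2 := h2.1
      rw [← h, e1] at e2
      simp only [up, Prod.mk.injEq] at e2
      push_cast at e2
      omega

section det

variable {n M : ℕ} (hn : 1 ≤ n) (hMn : 2 * n + 1 ≤ M) (c : Fin M → Fin (2 * n + 1) → Bool)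

/-- the levels of the windows -/
def wl (n M j : ℕ) : ℕ := min (j * (2 * n + 1)) M

/-- the walker is in some window -/
theorem in_window (k : ℕ) (hk : k ≤ len n 0 M (cfg n M c)) :
    ∃ j : ℕ, j ∈ Finset.range (M / (2 * n + 1) + 1) ∧ len n 0 (wl n M j) (cfg n M c) ≤ k ∧
      k ≤ len n 0 (wl n M (j + 1)) (cfg n M c) := by
  have hlast : wl n M (M / (2 * n + 1) + 1) = M := by
    unfold wl
    apply min_eq_right
    have := Nat.lt_div_mul_add (a := M) (b := 2 * n + 1) (by omega)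
    rw [Nat.succ_mul]
    omega
  have hex : ∃ j : ℕ, k ≤ len n 0 (wl n M j) (cfg n M c) := ⟨_, by rw [hlast]; exact hk⟩
  classical
  obtain ⟨j0, h0, h0'⟩ : ∃ j0 : ℕ, k ≤ len n 0 (wl n M j0) (cfg n M c) ∧
      ∀ j < j0, ¬ k ≤ len n 0 (wl n M j) (cfg n M c) :=
    ⟨Nat.find hex, Nat.find_spec hex, fun l hl => Nat.find_min hex hl⟩
  have hle : j0 ≤ M / (2 * n + 1) + 1 := by
    by_contra hh
    exact h0' (M / (2 * n + 1) + 1) (by omega) (by rw [hlast]; exact hk)
  rcases Nat.eq_zero_or_pos j0 with hz | hz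
  · subst hz
    have hw : wl n M 0 = 0 := by unfold wl; simp
    have hl0 : len n 0 ((0 : ℕ) : ℤ) (cfg n M c) = 0 := by
      have Gs : Hit n 0 ((0 : ℕ) : ℤ) (cfg n M c) 0 0 := by
        refine ⟨?_, fun k hk => absurd hk (Nat.not_lt_zero k)⟩
        rw [orb_zero, add_zero]
        rfl
      exact len_eq Gs
    rw [hw, hl0] at h0
    refine ⟨0, by simp, ?_, ?_⟩
    · rw [hw, hl0]; exact Nat.zero_le _
    · have : k = 0 := by omega
      rw [this]; exact Nat.zero_le _
  · refine ⟨j0 - 1, ?_, ?_, ?_⟩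
    · rw [Finset.mem_range]; omega
    · have := h0' (j0 - 1) (by omega)
      omega
    · rw [show j0 - 1 + 1 = j0 by omega]
      exact h0

include hn hMn in
/-- the curve is close to the graph of the winding -/
theorem det (hH : S_HIT) (hC : S_CRS) {x v ε1 ε2 ε3 δ : ℝ} (hx : 0 ≤ x) (hv : 0 < v) (hε3 : ε3 < 1)
    (h0 : ∀ j ∈ Finset.range (M / (2 * n + 1) + 1), ¬ Bad n M (wl n M j) (wl n M (j + 1)) x c)
    (h1 : ∀ s : ℕ, s ≤ M → |(len n 0 s (cfg n M c) : ℝ) / (v * M) - s / M| < ε3)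
    (h2 : ∀ s t : unitInterval, |(s : ℝ) - t| ≤ δ → |wnd n M c s - wnd n M c t| ≤ ε2)
    (hd1 : 2 * ε3 + (2 * n + 1) / M + 1 / M ≤ δ)
    (hd2 : hsc n M * ((x + 1) * (2 * n + 1)) + x * (2 * n + 1) / M ≤ ε1) :
    dist (curve n M c) (gr (wnd n M c)) ≤ ε1 + ε2 + δ := by
  obtain ⟨I, hI⟩ : ∃ I : ℕ, I = len n 0 M (cfg n M c) := ⟨_, rfl⟩
  have hper := per_cfg n M c
  have hMp : (0 : ℝ) < M := by
    have : 0 < M := by omega
    exact_mod_cast this
  have hIM : M ≤ I := by rw [hI]; exact len_ge hH hn hper M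
  have hI1 : 1 ≤ I := by omega
  have hIp : (0 : ℝ) < I := by exact_mod_cast hI1
  have hIM' : (M : ℝ) ≤ I := by exact_mod_cast hIM
  have h1I : 1 / (I : ℝ) ≤ 1 / M := one_div_le_one_div_of_le hMp hIM'
  have hvM : 0 < v * M := by positivity
  have hhs : 0 ≤ hsc n M := by unfold hsc; have := Real.pi_pos; positivity
  unfold curve
  rw [← hI]
  have hcl := close (fun k => ps n M (orb n 0 (cfg n M c) k)) I hI1 (wnd n M c) ε1 ε2
    (2 * ε3 + (2 * n + 1) / M) ?_ (fun s t hst => h2 s t (by linarith))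
  · refine hcl.trans ?_
    linarith
  intro k hk
  obtain ⟨j, hj, hj1, hj2⟩ := in_window c k (by rw [← hI]; exact hk)
  have hb := h0 j hj
  have hwM : ∀ j, wl n M j ≤ M := fun j => min_le_right _ _
  have hwj : wl n M (j + 1) ≤ wl n M j + (2 * n + 1) := by
    unfold wl
    rw [Nat.succ_mul]
    omega
  obtain ⟨s, hs⟩ : ∃ s, s = wl n M j := ⟨_, rfl⟩
  obtain ⟨s', hs'⟩ : ∃ s', s' = wl n M (j + 1) := ⟨_, rfl⟩
  have hsM : s ≤ M := by rw [hs]; exact hwM j
  have hsM' : s' ≤ M := by rw [hs']; exact hwM (j + 1)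
  have hss : s' ≤ s + (2 * n + 1) := by rw [hs, hs']; exact hwj
  rw [← hs, ← hs'] at hb
  rw [← hs] at hj1
  rw [← hs'] at hj2
  have hsR : (s : ℝ) ≤ M := by exact_mod_cast hsM
  obtain ⟨t, ht⟩ : ∃ t : unitInterval, (t : ℝ) = s / M :=
    ⟨⟨(s : ℝ) / M, by positivity, (div_le_one hMp).2 hsR⟩, rfl⟩
  refine ⟨t, ?_, ?_⟩
  · -- positions
    unfold Bad at hb
    push Not at hb
    obtain ⟨hb1, hb2⟩ := hb k hj1 hj2
    have hw : wnd n M c t = hsc n M * X n s (rst s c) := by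
      unfold wnd
      rw [Y286.KW.pth_node _ _ M s hsM (by omega) t ht, Lft_eq hC n s _ hn, rows_eq c s hsM]
      rfl
    have hX : (X n s (rst s c) : ℝ) = dsp n 0 s (cfg n M c) := by
      have h1 := Pool.Agent.Y475.KW.Xr_eq Pool.Agent.Y37.KW.loc n M s hn hsM c
      exact h1
    rw [gr_apply, hw, hX, ht]
    obtain ⟨S, hS⟩ : ∃ S : St, S = orb n 0 (cfg n M c) k := ⟨_, rfl⟩
    have hkd : Kd S := by rw [hS]; exact kd_orb n 0 _ k
    rw [← hS] at hb1 hb2 ⊢
    have e : ps n M S - (((hsc n M * dsp n 0 s (cfg n M c) : ℝ) : ℂ) +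
        (((s : ℝ) / M : ℝ) : ℂ) * Complex.I) =
        ((hsc n M * ((((S.1.1 + S.2.1 : ℤ) : ℝ) / 2) - dsp n 0 s (cfg n M c)) : ℝ) : ℂ) +
        (((((lv S : ℝ) / 2) - s) / M : ℝ) : ℂ) * Complex.I := by
      unfold ps lv
      push_cast
      ring
    rw [e]
    refine (norm_add_le _ _).trans (le_trans ?_ hd2)
    rw [norm_mul, Complex.norm_I, mul_one, Complex.norm_real, Complex.norm_real, Real.norm_eq_abs,
      Real.norm_eq_abs, abs_mul, abs_of_nonneg hhs, abs_div, abs_of_pos hMp]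
    have hx1 := kd_x hkd
    have hn0 : (0 : ℝ) ≤ n := by positivity
    have k1 : |(((S.1.1 + S.2.1 : ℤ) : ℝ) / 2) - dsp n 0 s (cfg n M c)| ≤ (x + 1) * (2 * n + 1) := by
      have e2 : (((S.1.1 + S.2.1 : ℤ) : ℝ) / 2) - dsp n 0 s (cfg n M c) =
          ((((S.1.1 + S.2.1 : ℤ) : ℝ) / 2) - S.1.1) +
          ((S.1.1 : ℝ) - (2 * n + dsp n 0 s (cfg n M c))) + 2 * n := by ring
      rw [e2]
      refine (abs_add_le _ _).trans ?_
      have h5 := abs_add_le ((((S.1.1 + S.2.1 : ℤ) : ℝ) / 2) - S.1.1)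
        ((S.1.1 : ℝ) - (2 * n + dsp n 0 s (cfg n M c)))
      rw [abs_of_nonneg (by positivity : (0 : ℝ) ≤ 2 * n)]
      linarith
    gcongr
  · -- times
    rw [ht]
    have b0 := h1 s hsM
    have b1 := h1 s' hsM'
    have bM := h1 M le_rfl
    rw [← hI, div_self hMp.ne'] at bM
    have hkI : (k : ℝ) ≤ I := by exact_mod_cast hk
    have c1 : (len n 0 s (cfg n M c) : ℝ) / (v * M) ≤ k / (v * M) := by
      gcongr
    have c2 : (k : ℝ) / (v * M) ≤ (len n 0 s' (cfg n M c) : ℝ) / (v * M) := by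
      gcongr
    have c3 : (s' : ℝ) / M ≤ s / M + (2 * n + 1) / M := by
      rw [← add_div]
      gcongr
      exact_mod_cast hss
    have c4 : |(k : ℝ) / I - k / (v * M)| ≤ ε3 := by
      have e2 : (k : ℝ) / I - k / (v * M) = (k / I) * (1 - I / (v * M)) := by
        field_simp
      rw [e2, abs_mul, abs_of_nonneg (by positivity : (0 : ℝ) ≤ k / I), abs_sub_comm]
      have h5 : (k : ℝ) / I ≤ 1 := (div_le_one hIp).2 hkI
      have h6 := abs_nonneg ((I : ℝ) / (v * M) - 1)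
      nlinarith
    rw [abs_lt] at b0 b1
    rw [abs_le] at c4 ⊢
    have h7 : 0 < (2 * (n : ℝ) + 1) / M := by positivity
    constructor <;> linarith

end det

end Pool.Agent.L5helper96.NT
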