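import Pool.Agent.H974R3.Value
import Pool.Agent.H988R3.AsymCore

/-!
# The probability of an edge on the interface in terms of alternating sign matrices
-/

set_option autoImplicit false

namespace Pool.Agent.L5helper96.NT
open Pool.Agent.H974R3 Pool.Agent.H974R3.Value Filter Topology
open scoped Nat

/-- the number of alternating sign matrices of size `L` -/
noncomputable def asmN (L : ℕ) : ℝ := ∏ k ∈ Finset.range L, ((3 * k + 1)! : ℝ) / ((L + k)! : ℝ)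

/-- the number of half-turn symmetric alternating sign matrices of size `2n+1` -/
noncomputable def htN (n : ℕ) : ℝ := ∏ i ∈ Finset.range n,
  4 / 3 * (((3 * (i + 1))! : ℝ) * ((i + 1)! : ℝ)) ^ 2 / ((2 * (i + 1))! : ℝ) ^ 4

theorem asmN_succ (L : ℕ) : asmN (L + 1) =
    asmN L * (((3 * L + 1)! : ℝ) * (L ! : ℝ) / (((2 * L)! : ℝ) * ((2 * L + 1)! : ℝ))) := by
  have h1 : (L ! : ℝ) * ∏ k ∈ Finset.range (L + 1), ((L + 1 + k)! : ℝ) =
      (∏ k ∈ Finset.range L, ((L + k)! : ℝ)) * (((2 * L)! : ℝ) * ((2 * L + 1)! : ℝ)) := by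
    have h2 : ∏ k ∈ Finset.range (L + 2), ((L + k)! : ℝ) =
        (∏ k ∈ Finset.range (L + 1), ((L + 1 + k)! : ℝ)) * (L ! : ℝ) := by
      rw [Finset.prod_range_succ']
      congr 1
      refine Finset.prod_congr rfl fun k _ => ?_
      congr 2
      ring
    have h3 : ∏ k ∈ Finset.range (L + 2), ((L + k)! : ℝ) =
        (∏ k ∈ Finset.range L, ((L + k)! : ℝ)) * (((2 * L)! : ℝ) * ((2 * L + 1)! : ℝ)) := by
      rw [Finset.prod_range_succ, Finset.prod_range_succ, mul_assoc]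
      rw [show L + L = 2 * L by ring, show L + (L + 1) = 2 * L + 1 by ring]
    rw [mul_comm, ← h2, h3]
  unfold asmN
  rw [Finset.prod_div_distrib, Finset.prod_div_distrib, Finset.prod_range_succ (fun k =>
    ((3 * k + 1)! : ℝ))]
  have p1 : (∏ k ∈ Finset.range L, ((L + k)! : ℝ)) ≠ 0 :=
    Finset.prod_ne_zero_iff.2 fun k _ => by positivity
  have p2 : (∏ k ∈ Finset.range (L + 1), ((L + 1 + k)! : ℝ)) ≠ 0 :=
    Finset.prod_ne_zero_iff.2 fun k _ => by positivity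
  have p3 : (L ! : ℝ) ≠ 0 := by positivity
  have p4 : ((2 * L)! : ℝ) ≠ 0 := by positivity
  have p5 : ((2 * L + 1)! : ℝ) ≠ 0 := by positivity
  rw [div_mul_div_comm, div_eq_div_iff p2 (mul_ne_zero p1 (mul_ne_zero p4 p5)), ← h1]
  ring

/-- the ratio of consecutive values -/
noncomputable def RR (n : ℕ) : ℝ :=
  ((6 * n + 4)! : ℝ) * ((2 * n + 1)! : ℝ) * ((6 * n + 7)! : ℝ) * ((2 * n + 2)! : ℝ) /
    (((4 * n + 2)! : ℝ) * ((4 * n + 3)! : ℝ) * ((4 * n + 4)! : ℝ) * ((4 * n + 5)! : ℝ)) *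
    (9 / 16) * ((2 * n + 2)! : ℝ) ^ 8 / (((3 * n + 3)! : ℝ) * ((n + 1)! : ℝ)) ^ 4

theorem RR_succ (n : ℕ) : RR (n + 1) = RR n * rr n := by
  have f1 : ((6 * (n + 1) + 4)! : ℝ) = (6 * n + 10) * (6 * n + 9) * (6 * n + 8) * (6 * n + 7) *
      (6 * n + 6) * (6 * n + 5) * ((6 * n + 4)! : ℝ) := by
    rw [show 6 * (n + 1) + 4 = (6 * n + 4) + 1 + 1 + 1 + 1 + 1 + 1 by ring]
    simp only [Nat.factorial_succ]
    push_cast
    ring
  have f2 : ((6 * (n + 1) + 7)! : ℝ) = (6 * n + 13) * (6 * n + 12) * (6 * n + 11) * (6 * n + 10) *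
      (6 * n + 9) * (6 * n + 8) * ((6 * n + 7)! : ℝ) := by
    rw [show 6 * (n + 1) + 7 = (6 * n + 7) + 1 + 1 + 1 + 1 + 1 + 1 by ring]
    simp only [Nat.factorial_succ]
    push_cast
    ring
  have f3 : ((2 * (n + 1) + 1)! : ℝ) = (2 * n + 3) * (2 * n + 2) * ((2 * n + 1)! : ℝ) := by
    rw [show 2 * (n + 1) + 1 = (2 * n + 1) + 1 + 1 by ring]
    simp only [Nat.factorial_succ]
    push_cast
    ring
  have f4 : ((2 * (n + 1) + 2)! : ℝ) = (2 * n + 4) * (2 * n + 3) * ((2 * n + 2)! : ℝ) := by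
    rw [show 2 * (n + 1) + 2 = (2 * n + 2) + 1 + 1 by ring]
    simp only [Nat.factorial_succ]
    push_cast
    ring
  have f5 : ((4 * (n + 1) + 2)! : ℝ) = (4 * n + 6) * (4 * n + 5) * (4 * n + 4) * (4 * n + 3) *
      ((4 * n + 2)! : ℝ) := by
    rw [show 4 * (n + 1) + 2 = (4 * n + 2) + 1 + 1 + 1 + 1 by ring]
    simp only [Nat.factorial_succ]
    push_cast
    ring
  have f6 : ((4 * (n + 1) + 3)! : ℝ) = (4 * n + 7) * (4 * n + 6) * (4 * n + 5) * (4 * n + 4) *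
      ((4 * n + 3)! : ℝ) := by
    rw [show 4 * (n + 1) + 3 = (4 * n + 3) + 1 + 1 + 1 + 1 by ring]
    simp only [Nat.factorial_succ]
    push_cast
    ring
  have f7 : ((4 * (n + 1) + 4)! : ℝ) = (4 * n + 8) * (4 * n + 7) * (4 * n + 6) * (4 * n + 5) *
      ((4 * n + 4)! : ℝ) := by
    rw [show 4 * (n + 1) + 4 = (4 * n + 4) + 1 + 1 + 1 + 1 by ring]
    simp only [Nat.factorial_succ]
    push_cast
    ring
  have f8 : ((4 * (n + 1) + 5)! : ℝ) = (4 * n + 9) * (4 * n + 8) * (4 * n + 7) * (4 * n + 6) *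
      ((4 * n + 5)! : ℝ) := by
    rw [show 4 * (n + 1) + 5 = (4 * n + 5) + 1 + 1 + 1 + 1 by ring]
    simp only [Nat.factorial_succ]
    push_cast
    ring
  have f9 : ((3 * (n + 1) + 3)! : ℝ) = (3 * n + 6) * (3 * n + 5) * (3 * n + 4) *
      ((3 * n + 3)! : ℝ) := by
    rw [show 3 * (n + 1) + 3 = (3 * n + 3) + 1 + 1 + 1 by ring]
    simp only [Nat.factorial_succ]
    push_cast
    ring
  have f10 : ((n + 1 + 1)! : ℝ) = (n + 2) * ((n + 1)! : ℝ) := by
    rw [Nat.factorial_succ (n + 1)]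
    push_cast
    ring
  unfold RR rr
  rw [f1, f2, f3, f4, f5, f6, f7, f8, f9, f10]
  have g1 : ((6 * n + 4)! : ℝ) ≠ 0 := by positivity
  have g2 : ((6 * n + 7)! : ℝ) ≠ 0 := by positivity
  have g3 : ((2 * n + 1)! : ℝ) ≠ 0 := by positivity
  have g4 : ((2 * n + 2)! : ℝ) ≠ 0 := by positivity
  have g5 : ((4 * n + 2)! : ℝ) ≠ 0 := by positivity
  have g6 : ((4 * n + 3)! : ℝ) ≠ 0 := by positivity
  have g7 : ((4 * n + 4)! : ℝ) ≠ 0 := by positivity
  have g8 : ((4 * n + 5)! : ℝ) ≠ 0 := by positivity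
  have g9 : ((3 * n + 3)! : ℝ) ≠ 0 := by positivity
  have g10 : ((n + 1)! : ℝ) ≠ 0 := by positivity
  generalize ((6 * n + 4)! : ℝ) = a1 at *
  generalize ((6 * n + 7)! : ℝ) = a2 at *
  generalize ((2 * n + 1)! : ℝ) = a3 at *
  generalize ((2 * n + 2)! : ℝ) = a4 at *
  generalize ((4 * n + 2)! : ℝ) = a5 at *
  generalize ((4 * n + 3)! : ℝ) = a6 at *
  generalize ((4 * n + 4)! : ℝ) = a7 at *
  generalize ((4 * n + 5)! : ℝ) = a8 at *
  generalize ((3 * n + 3)! : ℝ) = a9 at *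
  generalize ((n + 1)! : ℝ) = a10 at *
  have hn : (0 : ℝ) ≤ n := Nat.cast_nonneg n
  generalize (n : ℝ) = x at *
  have k1 : x + 1 ≠ 0 := by positivity
  have k2 : x + 2 ≠ 0 := by positivity
  have k3 : 2 * x + 3 ≠ 0 := by positivity
  have k4 : 3 * x + 4 ≠ 0 := by positivity
  have k5 : 3 * x + 5 ≠ 0 := by positivity
  have k6 : 4 * x + 3 ≠ 0 := by positivity
  have k7 : 4 * x + 5 ≠ 0 := by positivity
  have k8 : 4 * x + 7 ≠ 0 := by positivity
  have k9 : 4 * x + 9 ≠ 0 := by positivity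
  have e1 : 6 * x + 10 = 2 * (3 * x + 5) := by ring
  have e2 : 6 * x + 9 = 3 * (2 * x + 3) := by ring
  have e3 : 6 * x + 8 = 2 * (3 * x + 4) := by ring
  have e4 : 6 * x + 6 = 6 * (x + 1) := by ring
  have e5 : 6 * x + 12 = 6 * (x + 2) := by ring
  have e6 : 2 * x + 2 = 2 * (x + 1) := by ring
  have e7 : 2 * x + 4 = 2 * (x + 2) := by ring
  have e8 : 4 * x + 6 = 2 * (2 * x + 3) := by ring
  have e9 : 4 * x + 4 = 4 * (x + 1) := by ring
  have e10 : 4 * x + 8 = 4 * (x + 2) := by ring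
  have e11 : 3 * x + 6 = 3 * (x + 2) := by ring
  rw [e1, e2, e3, e4, e5, e6, e7, e8, e9, e10, e11]
  field_simp
  ring

theorem ee_small : rho 0 = 7 / 9 := by
  unfold rho ff ee
  simp only [Finset.prod_range_succ, Finset.prod_range_zero, one_mul, aexp]
  norm_num

theorem rho_eq (n : ℕ) : rho n = RR n := by
  induction n with
  | zero =>
    rw [ee_small]
    unfold RR
    norm_num [Nat.factorial]
  | succ n ih => rw [rho_succ, RR_succ, ih]

/-- **the value in terms of alternating sign matrices** -/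
theorem pval_asm (n : ℕ) : pval n = asmN (2 * n + 1) / htN n ^ 2 := by
  induction n with
  | zero =>
    rw [pval_zero]
    simp [asmN, htN]
  | succ n ih =>
    rw [pval_succ, ih, rho_eq]
    have e1 : asmN (2 * (n + 1) + 1) = asmN (2 * n + 1) *
        (((6 * n + 4)! : ℝ) * ((2 * n + 1)! : ℝ) / (((4 * n + 2)! : ℝ) * ((4 * n + 3)! : ℝ))) *
        (((6 * n + 7)! : ℝ) * ((2 * n + 2)! : ℝ) / (((4 * n + 4)! : ℝ) * ((4 * n + 5)! : ℝ))) := by
      rw [show 2 * (n + 1) + 1 = (2 * n + 1 + 1) + 1 by ring, asmN_succ (2 * n + 1 + 1),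
        asmN_succ (2 * n + 1)]
      rw [show 3 * (2 * n + 1) + 1 = 6 * n + 4 by ring, show 2 * (2 * n + 1) = 4 * n + 2 by ring,
        show 3 * (2 * n + 1 + 1) + 1 = 6 * n + 7 by ring,
        show 2 * (2 * n + 1 + 1) = 4 * n + 4 by ring]
    have e2 : htN (n + 1) = htN n *
        (4 / 3 * (((3 * n + 3)! : ℝ) * ((n + 1)! : ℝ)) ^ 2 / ((2 * n + 2)! : ℝ) ^ 4) := by
      unfold htN
      rw [Finset.prod_range_succ, show 3 * (n + 1) = 3 * n + 3 by ring,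
        show 2 * (n + 1) = 2 * n + 2 by ring]
    have h0 : htN n ≠ 0 := by
      unfold htN
      exact Finset.prod_ne_zero_iff.2 fun i _ => by positivity
    rw [e1, e2]
    unfold RR
    field_simp
    ring

/-- the limit of `pval n (2n+1)^(1/4)` -/
theorem pval_lim (h1 : ∀ n : ℕ, 1 ≤ pval n ^ 4 * (2 * (n : ℝ) + 1))
    (h2 : ∀ n : ℕ, pval n ≤ 1) (h3 : ∀ k, 1 ≤ tt k) : ∃ κ : ℝ, 1 ≤ κ ∧ κ ≤ 2 ∧
    Tendsto (fun n : ℕ => pval n * (2 * (n : ℝ) + 1) ^ (1 / 4 : ℝ)) atTop (𝓝 κ) := by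
  obtain ⟨f, hf⟩ : ∃ f : ℕ → ℝ, f = fun n : ℕ => pval n * (2 * (n : ℝ) + 1) ^ (1 / 4 : ℝ) := ⟨_, rfl⟩
  have hpow : ∀ n : ℕ, f n ^ 4 = Pool.Agent.H988R3.V4.ww n := by
    intro n
    rw [hf]
    unfold Pool.Agent.H988R3.V4.ww
    simp only
    rw [mul_pow, ← Real.rpow_natCast ((2 * (n : ℝ) + 1) ^ (1 / 4 : ℝ)), ← Real.rpow_mul (by positivity)]
    norm_num
  have hpos : ∀ n, 0 < f n := by
    intro n
    rw [hf]
    have := pval_pos n
    positivity
  have hmono : Monotone f := by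
    apply monotone_nat_of_le_succ
    intro n
    apply le_of_pow_le_pow_left₀ (n := 4) (by norm_num) (hpos _).le
    rw [hpow, hpow, Pool.Agent.H988R3.V4.ww_succ]
    have := Pool.Agent.H988R3.V4.ww_pos n
    have := h3 n
    nlinarith
  have hle : ∀ n, f n ≤ 2 := by
    intro n
    have h4 := (Pool.Agent.H988R3.V4.pval_bounds_of h1 h2 n).2
    rw [hf]
    simp only
    calc pval n * (2 * (n : ℝ) + 1) ^ (1 / 4 : ℝ) ≤
        (2 * (2 * (n : ℝ) + 1) ^ (-(1 / 4) : ℝ)) * (2 * (n : ℝ) + 1) ^ (1 / 4 : ℝ) := by gcongr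
      _ = 2 := by
        rw [mul_assoc, ← Real.rpow_add (by positivity)]
        norm_num
  have hge : ∀ n, 1 ≤ f n := by
    intro n
    apply le_of_pow_le_pow_left₀ (n := 4) (by norm_num) (hpos _).le
    rw [hpow, one_pow]
    exact h1 n
  have hlim := tendsto_atTop_ciSup hmono ⟨2, by rintro _ ⟨n, rfl⟩; exact hle n⟩
  refine ⟨_, ge_of_tendsto' hlim hge, le_of_tendsto' hlim hle, ?_⟩
  rw [hf] at hlim ⊢
  exact hlim

end Pool.Agent.L5helper96.NT
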