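import Pool.Agent.Y290.KW.C

/-!
# Natural time of the interface on long cylinders: the number of steps (deterministic part)
-/

set_option autoImplicit false

namespace Pool.Agent.L5helper96.NT
open Y994.KW Pool.Agent.Y290.KW

/-- the number of steps of the interface up to the first hit of the level `b` -/
noncomputable def len (n : ℕ) (a b : ℤ) (σ : Cfg) : ℕ :=
  sInf {i : ℕ | ∃ q : ℤ, orb n a σ i = up q b}

theorem hit_time {n : ℕ} {a b : ℤ} {σ : Cfg} {i i' : ℕ} {X X' : ℤ} (h : Hit n a b σ i X)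
    (h' : Hit n a b σ i' X') : i = i' := by
  rcases lt_trichotomy i i' with h1 | h1 | h1
  · exact absurd h.1 (h'.2 i h1 _)
  · exact h1
  · exact absurd h'.1 (h.2 i' h1 _)

theorem len_eq {n : ℕ} {a b : ℤ} {σ : Cfg} {i : ℕ} {X : ℤ} (h : Hit n a b σ i X) :
    len n a b σ = i := by
  have hm : i ∈ {i : ℕ | ∃ q : ℤ, orb n a σ i = up q b} := ⟨2 * n + X, h.1⟩
  unfold len
  apply le_antisymm
  · exact Nat.sInf_le hm
  · apply le_csInf ⟨i, hm⟩
    rintro k ⟨q, hq⟩
    by_contra hc
    exact h.2 k (by omega) q hq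

theorem hit_len (hH : S_HIT) {n : ℕ} {a b : ℤ} {σ : Cfg} (hn : 1 ≤ n) (hp : Per n σ)
    (hab : a ≤ b) : Hit n a b σ (len n a b σ) (dsp n a b σ) := by
  obtain ⟨i, hi⟩ := hH n a b σ hn hp hab
  rw [len_eq hi]
  exact hi

/-! ## the number of edges of a slab -/

/-- the horizontal position of the lower left end of the edge -/
def xm (s : St) : ℤ := min s.1.1 s.2.1

theorem key_eq {N : ℤ} {s s' : St} (h : Kd s) (h' : Kd s') (h1 : xm s % N = xm s' % N)
    (h2 : lv s = lv s') : ∃ z : ℤ, s' = sh (N * z) s ∨ s' = sh (N * z) (rev s) := by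
  obtain ⟨z, hz⟩ := Int.ModEq.dvd (show xm s ≡ xm s' [ZMOD N] from h1)
  refine ⟨z, ?_⟩
  cases h with
  | up q t =>
    cases h' with
    | up q' t' =>
      left
      rw [lv_up, lv_up] at h2
      have e1 : xm (up q t) = q := by simp [xm, up]
      have e2 : xm (up q' t') = q' := by simp [xm, up]
      rw [e1, e2] at hz
      rw [sh_up, ← hz]
      have : t = t' := by omega
      subst this
      congr 1; ring
    | dn q' t' =>
      right
      rw [lv_up, lv_dn] at h2
      have e1 : xm (up q t) = q := by simp [xm, up]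
      have e2 : xm (dn q' t') = q' := by simp [xm, dn]
      rw [e1, e2] at hz
      rw [rev_up, sh_dn, ← hz]
      have : t = t' := by omega
      subst this
      congr 1; ring
    | rt q' t' => rw [lv_up, lv_rt] at h2; omega
    | lf q' t' => rw [lv_up, lv_lf] at h2; omega
  | dn q t =>
    cases h' with
    | up q' t' =>
      right
      rw [lv_dn, lv_up] at h2
      have e1 : xm (dn q t) = q := by simp [xm, dn]
      have e2 : xm (up q' t') = q' := by simp [xm, up]
      rw [e1, e2] at hz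
      rw [rev_dn, sh_up, ← hz]
      have : t = t' := by omega
      subst this
      congr 1; ring
    | dn q' t' =>
      left
      rw [lv_dn, lv_dn] at h2
      have e1 : xm (dn q t) = q := by simp [xm, dn]
      have e2 : xm (dn q' t') = q' := by simp [xm, dn]
      rw [e1, e2] at hz
      rw [sh_dn, ← hz]
      have : t = t' := by omega
      subst this
      congr 1; ring
    | rt q' t' => rw [lv_dn, lv_rt] at h2; omega
    | lf q' t' => rw [lv_dn, lv_lf] at h2; omega
  | rt q t =>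
    cases h' with
    | up q' t' => rw [lv_rt, lv_up] at h2; omega
    | dn q' t' => rw [lv_rt, lv_dn] at h2; omega
    | rt q' t' =>
      left
      rw [lv_rt, lv_rt] at h2
      have e1 : xm (rt q t) = q := by simp [xm, rt]
      have e2 : xm (rt q' t') = q' := by simp [xm, rt]
      rw [e1, e2] at hz
      rw [sh_rt, ← hz]
      have : t = t' := by omega
      subst this
      congr 1; ring
    | lf q' t' =>
      right
      rw [lv_rt, lv_lf] at h2
      have e1 : xm (rt q t) = q := by simp [xm, rt]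
      have e2 : xm (lf q' t') = q' := by simp [xm, lf]
      rw [e1, e2] at hz
      rw [rev_rt, sh_lf, ← hz]
      have : t = t' := by omega
      subst this
      congr 1; ring
  | lf q t =>
    cases h' with
    | up q' t' => rw [lv_lf, lv_up] at h2; omega
    | dn q' t' => rw [lv_lf, lv_dn] at h2; omega
    | rt q' t' =>
      right
      rw [lv_lf, lv_rt] at h2
      have e1 : xm (lf q t) = q := by simp [xm, lf]
      have e2 : xm (rt q' t') = q' := by simp [xm, rt]
      rw [e1, e2] at hz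
      rw [rev_lf, sh_rt, ← hz]
      have : t = t' := by omega
      subst this
      congr 1; ring
    | lf q' t' =>
      left
      rw [lv_lf, lv_lf] at h2
      have e1 : xm (lf q t) = q := by simp [xm, lf]
      have e2 : xm (lf q' t') = q' := by simp [xm, lf]
      rw [e1, e2] at hz
      rw [sh_lf, ← hz]
      have : t = t' := by omega
      subst this
      congr 1; ring

/-- the number of steps in a slab -/
theorem count (hI : S_INJ) {n : ℕ} {a u v : ℤ} {σ : Cfg} {i0 i1 : ℕ} (hn : 1 ≤ n) (hp : Per n σ)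
    (huv : u ≤ v) (h : ∀ k, i0 ≤ k → k ≤ i1 → 2 * u ≤ lv (orb n a σ k) ∧ lv (orb n a σ k) ≤ 2 * v) :
    (i1 : ℤ) - i0 + 1 ≤ (2 * n + 1) * (2 * (v - u) + 1) := by
  have hN : (0 : ℤ) < 2 * n + 1 := by positivity
  have h1 : (Finset.Icc i0 i1).card ≤
      ((Finset.Ico (0 : ℤ) (2 * n + 1)) ×ˢ (Finset.Icc (2 * u) (2 * v))).card := by
    apply Finset.card_le_card_of_injOn
      (fun k => (xm (orb n a σ k) % (2 * n + 1), lv (orb n a σ k)))
    · intro k hk
      rw [Finset.coe_Icc, Set.mem_Icc] at hk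
      have h2 := h k hk.1 hk.2
      simp only [Finset.coe_product, Finset.coe_Ico, Finset.coe_Icc, Set.mem_prod, Set.mem_Ico,
        Set.mem_Icc]
      exact ⟨⟨Int.emod_nonneg _ hN.ne', Int.emod_lt_of_pos _ hN⟩, h2⟩
    · intro k hk l hl hkl
      simp only [Prod.mk.injEq] at hkl
      by_contra hne
      obtain ⟨z, hz | hz⟩ := key_eq (kd_orb n a σ k) (kd_orb n a σ l) hkl.1 hkl.2
      · exact (hI n a σ hn hp k l z).1 hne hz
      · exact (hI n a σ hn hp k l z).2 hz
  rw [Finset.card_product, Nat.card_Icc, Int.card_Ico, Int.card_Icc] at h1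
  have h2 : ((2 * (n : ℤ) + 1 - 0).toNat : ℤ) = 2 * n + 1 := by
    rw [Int.toNat_of_nonneg (by omega)]; ring
  have h3 : ((2 * v + 1 - 2 * u).toNat : ℤ) = 2 * (v - u) + 1 := by
    rw [Int.toNat_of_nonneg (by omega)]; ring
  have h4 : ((i1 + 1 - i0 : ℕ) : ℤ) ≤ (2 * n + 1) * (2 * (v - u) + 1) := by
    rw [← h2, ← h3]
    exact_mod_cast h1
  have h5 : (i1 : ℤ) + 1 - i0 ≤ ((i1 + 1 - i0 : ℕ) : ℤ) := by omega
  linarith

/-! ## the coupling of the times above a slab crossed by one strand -/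

theorem tail_time (hI : S_INJ) {n : ℕ} {a s hi b : ℤ} {σ : Cfg} {τh τb ηh ηb : ℕ}
    {Xh Xb Yh Yb : ℤ}
    (hn : 1 ≤ n) (hp : Per n σ) (h1 : a ≤ s) (h2 : s < hi) (h3 : hi ≤ b) (hT : T1 n σ s hi)
    (ha : Hit n a hi σ τh Xh) (hb : Hit n a b σ τb Xb)
    (ha' : Hit n s hi σ ηh Yh) (hb' : Hit n s b σ ηb Yb) : (τb : ℤ) - τh = ηb - ηh := by
  obtain ⟨j, p, a1, a2, a3⟩ := asc h1 h2 ha
  obtain ⟨j', p', b1, b2, b3⟩ := asc le_rfl h2 ha'
  have hthr : Thr σ s hi p (2 * n + Xh) := by
    refine ⟨τh - j, by omega, ?_, a3⟩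
    rw [a2 _ le_rfl, show j + (τh - j) = τh by omega, ha.1]
  have hthr' : Thr σ s hi p' (2 * n + Yh) := by
    refine ⟨ηh - j', by omega, ?_, b3⟩
    rw [b2 _ le_rfl, show j' + (ηh - j') = ηh by omega, ha'.1]
  obtain ⟨p0, _, h6⟩ := id hT
  obtain ⟨z, hz⟩ : (2 * n + 1 : ℤ) ∣ p' - p := by
    have := dvd_sub (h6 _ _ hthr') (h6 _ _ hthr)
    rwa [sub_sub_sub_cancel_right] at this
  have hpp : up p' s = sh ((2 * n + 1) * z) (up p s) := by
    rw [sh_up, ← hz]; congr 1; ring
  have hit : ∀ i, (nxt σ)^[i] (up p' s) = sh ((2 * n + 1) * z) ((nxt σ)^[i] (up p s)) := by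
    intro i
    rw [hpp, it_sh hp z (Kd.up p s)]
  have hlen : τh - j = ηh - j' := by
    rcases lt_trichotomy (τh - j) (ηh - j') with h | h | h
    · exfalso
      have h7 := (b3 (τh - j) (by omega) h).2
      change lv _ < 2 * hi at h7
      rw [hit, lv_sh, a2 _ le_rfl, show j + (τh - j) = τh by omega, ha.1, lv_up] at h7
      omega
    · exact h
    · exfalso
      have h7 := (a3 (ηh - j') (by omega) h).2
      change lv _ < 2 * hi at h7
      rw [← lv_sh ((2 * n + 1) * z), ← hit, b2 _ le_rfl, show j' + (ηh - j') = ηh by omega,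
        ha'.1, lv_up] at h7
      omega
  have hstart : orb n s σ ηh = sh ((2 * n + 1) * z) (orb n a σ τh) := by
    have h7 := b2 _ le_rfl
    rw [show j' + (ηh - j') = ηh by omega, hit, ← hlen, a2 _ le_rfl,
      show j + (τh - j) = τh by omega] at h7
    exact h7.symm
  have hst := stay hI hn hp h1 h2 hT ha
  have hst' := stay hI hn hp le_rfl h2 hT ha'
  have hall : ∀ i, orb n s σ (ηh + i) = sh ((2 * n + 1) * z) (orb n a σ (τh + i)) := by
    intro i
    induction i with
    | zero => exact hstart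
    | succ i ih =>
      have e1 := hst (τh + i) (by omega)
      have e2 := hst' (ηh + i) (by omega)
      rw [← add_assoc, ← add_assoc, orb_succ, orb_succ, wk_hi n s σ e2, wk_hi n a σ (by omega), ih,
        nxt_sh hp z (kd_orb n a σ _)]
  have hτ : τh ≤ τb := hit_le (by omega) h3 ha hb
  have hHit : Hit n s b σ (ηh + (τb - τh)) (Xb + (2 * n + 1) * z) := by
    constructor
    · rw [hall, show τh + (τb - τh) = τb by omega, hb.1, sh_up]
      congr 1
      ring
    · intro k hk q hq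
      rcases Nat.lt_or_ge k ηh with h | h
      · have h7 := lt_hit h2.le ha' k h
        rw [hq, lv_up] at h7
        omega
      · obtain ⟨i, rfl⟩ := Nat.exists_eq_add_of_le h
        have h7 := lt_hit (by omega) hb (τh + i) (by omega)
        rw [hall] at hq
        rw [← lv_sh ((2 * n + 1) * z), hq, lv_up] at h7
        omega
  have h8 := hit_time hb' hHit
  omega

/-- levels between two hits -/
theorem lev_btw (hV : S_VAL) (hI : S_INJ) {n : ℕ} {a lo s hi : ℤ} {σ : Cfg} {τ τ' : ℕ} {X X' : ℤ}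
    (hn : 1 ≤ n) (hp : Per n σ) (h1 : a ≤ lo) (h2 : lo ≤ s) (h3 : s ≤ hi)
    (hT : lo = a ∨ T1 n σ lo s) (hs : Hit n a s σ τ X) (hh : Hit n a hi σ τ' X') :
    ∀ k, τ ≤ k → k ≤ τ' → 2 * lo ≤ lv (orb n a σ k) ∧ lv (orb n a σ k) ≤ 2 * hi := by
  intro k hk hk'
  obtain ⟨v1, v2, v3, v4, v5⟩ := hV n a σ k hn hp
  constructor
  · rcases hT with h | h
    · rw [h]; unfold lv; omega
    · exact (stay hI hn hp h1 (T1_lt h2 h) h hs k hk).le
  · rcases hk'.lt_or_eq with h | h
    · exact (lt_hit (by omega) hh _ h).le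
    · rw [h, hh.1, lv_up]

/-- **the number of steps is almost additive** -/
theorem add_err (hV : S_VAL) (hI : S_INJ) (hH : S_HIT) {n : ℕ} {a lo s hi b : ℤ} {σ : Cfg}
    (hn : 1 ≤ n) (hp : Per n σ) (h1 : a ≤ lo) (h2 : lo ≤ s) (h3 : s ≤ hi) (h4 : hi ≤ b)
    (hTl : lo = a ∨ T1 n σ lo s) (hTh : hi = b ∨ T1 n σ s hi) :
    |(len n a b σ : ℤ) - len n a s σ - len n s b σ| ≤ (2 * n + 1) * (2 * (hi - lo) + 1) := by
  have Hs := hit_len hH hn hp (show a ≤ s by omega)
  have Hh := hit_len hH hn hp (show a ≤ hi by omega)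
  have Hb := hit_len hH hn hp (show a ≤ b by omega)
  have Gh := hit_len hH hn hp (show s ≤ hi by omega)
  have Gb := hit_len hH hn hp (show s ≤ b by omega)
  have Gs : Hit n s s σ 0 0 := by
    refine ⟨?_, fun k hk => absurd hk (Nat.not_lt_zero k)⟩
    rw [orb_zero, add_zero]
  have e1 : (len n a b σ : ℤ) - len n a hi σ = len n s b σ - len n s hi σ := by
    rcases hTh with h | h
    · subst h; ring
    · exact tail_time hI hn hp (by omega) (T1_lt h3 h) h4 h Hh Hb Gh Gb
  have c1 := count hI hn hp (show lo ≤ hi by omega)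
    (lev_btw hV hI hn hp h1 h2 h3 hTl Hs Hh)
  have c2 := count hI hn hp (show s ≤ hi by omega)
    (lev_btw hV hI hn hp le_rfl le_rfl h3 (Or.inl rfl) Gs Gh)
  have d1 : len n a s σ ≤ len n a hi σ := hit_le (by omega) h3 Hs Hh
  have d1' : (len n a s σ : ℤ) ≤ len n a hi σ := by exact_mod_cast d1
  have d2 : (0 : ℤ) ≤ len n s hi σ := by positivity
  have c3 : (2 * (n : ℤ) + 1) * (2 * (hi - s) + 1) ≤ (2 * n + 1) * (2 * (hi - lo) + 1) := by
    apply mul_le_mul_of_nonneg_left _ (by positivity)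
    linarith
  rw [abs_le]
  push_cast at c2
  constructor <;> linarith

/-- a short cylinder -/
theorem len_le (hV : S_VAL) (hI : S_INJ) (hH : S_HIT) {n : ℕ} {a b : ℤ} {σ : Cfg}
    (hn : 1 ≤ n) (hp : Per n σ) (h : a ≤ b) :
    (len n a b σ : ℤ) + 1 ≤ (2 * n + 1) * (2 * (b - a) + 1) := by
  have Gb := hit_len hH hn hp h
  have Gs : Hit n a a σ 0 0 := by
    refine ⟨?_, fun k hk => absurd hk (Nat.not_lt_zero k)⟩
    rw [orb_zero, add_zero]
  have c2 := count hI hn hp h
    (lev_btw hV hI hn hp le_rfl le_rfl h (Or.inl rfl) Gs Gb)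
  push_cast at c2
  linarith

/-! ## the positions of the interface between two hits -/

/-- a long horizontal displacement after the hit of the level `s` -/
theorem pos_err (hV : S_VAL) (hI : S_INJ) (hG : S_TRAVG) {n : ℕ} {a lo s hi : ℤ} {σ : Cfg}
    {τ τ' : ℕ} {X X' : ℤ} {r : ℕ} (hn : 1 ≤ n) (hp : Per n σ) (h1 : a ≤ lo) (h2 : lo ≤ s)
    (h3 : s ≤ hi) (hT : lo = a ∨ T1 n σ lo s) (hs : Hit n a s σ τ X) (hh : Hit n a hi σ τ' X')
    {k : ℕ} (hk : τ ≤ k) (hk' : k ≤ τ')
    (hr : 2 * (2 * n + 1) * (r + 2) ≤ |(orb n a σ k).1.1 - (2 * n + X)|) :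
    DC (2 * n + 1) lo hi (a + 1) r σ := by
  have hlev := lev_btw hV hI hn hp h1 h2 h3 hT hs hh
  have hst : lo = a ∨ ∀ k, τ ≤ k → 2 * lo < lv (orb n a σ k) :=
    hT.imp_right (fun h => stay hI hn hp h1 (T1_lt h2 h) h hs)
  apply hG n σ lo hi (a + 1) (fun i => orb n a σ (τ + i)) (k - τ) r hn hp
  · intro i hi'
    obtain ⟨v1, v2, v3, v4, v5⟩ := hV n a σ (τ + i) hn hp
    obtain ⟨hlo, hup⟩ := hlev (τ + i) (by omega) (by omega)
    obtain ⟨c1, c2, c3, c4⟩ := ok_bd (kd_orb n a σ (τ + i)) hlo hup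
    exact ⟨v1, c1, c2, c3, c4, v5⟩
  · intro i hi'
    change orb n a σ (τ + i + 1) = wk n lo σ (orb n a σ (τ + i))
    rw [orb_succ]
    rcases hst with h | h
    · rw [h]
    · have h5 := h (τ + i) (by omega)
      rw [wk_hi _ _ _ h5, wk_hi n a σ (by omega)]
  · rcases hst with h | h
    · right
      subst h
      refine ⟨by omega, ?_⟩
      rintro i hi' q hq ⟨z, hz⟩
      apply (hI n lo σ hn hp 0 (τ + i) z).2
      rw [orb_zero, rev_up, sh_dn]
      change orb n lo σ (τ + i) = dn q lo at hq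
      rw [hq, ← hz]
      congr 1
      ring
    · left
      intro i hi' q hq
      have h5 := h (τ + i) (by omega)
      change orb n a σ (τ + i) = dn q lo at hq
      rw [hq, lv_dn] at h5
      omega
  · intro i hi' l hl z
    exact ⟨fun h => (hI n a σ hn hp (τ + i) (τ + l) z).1 (by omega),
      (hI n a σ hn hp (τ + i) (τ + l) z).2⟩
  · show _ ≤ |(orb n a σ (τ + (k - τ))).1.1 - (orb n a σ (τ + 0)).1.1|
    rw [show τ + (k - τ) = k by omega, add_zero, hs.1]
    simp only [up]
    exact hr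

end Pool.Agent.L5helper96.NT
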