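import Pool.Agent.L5helper96.NT.Qsq
import Pool.Agent.L5helper96.NT.Len

/-!
# The number of steps is bounded by the number of states with arms
-/

set_option autoImplicit false

namespace Pool.Agent.L5helper96.NT
open Y994.KW Pool.Agent.Y290.KW H974 Finset

/-- a visited state has arms -/
theorem vis_AS {n : ℕ} {a b u v : ℤ} {σ : Cfg} {i1 k : ℕ} {X : ℤ} (hau : a ≤ u) (hvb : v ≤ b)
    (h : Hit n a b σ i1 X) (hk : k ≤ i1) (ρ : ℕ)
    (hρ : ρ = 0 ∨ ((ρ : ℤ) + 1 ≤ (orb n a σ k).1.2 - u ∧ (ρ : ℤ) + 1 ≤ v - (orb n a σ k).1.2)) :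
    AS σ (orb n a σ k) ρ := by
  intro r hr
  rcases Nat.eq_zero_or_pos r with h0 | h0
  · subst h0
    exact AE_zero _ _
  obtain ⟨h1, h2⟩ : (ρ : ℤ) + 1 ≤ (orb n a σ k).1.2 - u ∧ (ρ : ℤ) + 1 ≤ v - (orb n a σ k).1.2 := by
    rcases hρ with h | h
    · omega
    · exact h
  have hrρ : (r : ℤ) ≤ ρ := by exact_mod_cast hr
  apply arms (s := fun i => orb n a σ (k + i)) (m := i1 - k)
  · intro i
    exact kd_orb n a σ _
  · intro i hi h3 h4
    show orb n a σ (k + i + 1) = nxt σ (orb n a σ (k + i))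
    rw [orb_succ]
    apply wk_hi
    unfold Far at h3 h4
    rw [not_or, not_le, not_le, abs_lt, abs_lt] at h3 h4
    rw [Nat.add_zero] at h3 h4
    unfold lv
    omega
  · left
    unfold Far
    rw [show k + (i1 - k) = i1 by omega, Nat.add_zero, h.1]
    right
    simp only [up]
    rw [le_abs]
    left
    omega

/-- the index of a state -/
theorem idx {s : St} (hs : Kd s) (N : ℤ) (hN : 0 < N) : ∃ (x : ℕ) (k : Fin 4) (z : ℤ), (x : ℤ) < N ∧
    (x : ℤ) = s.1.1 % N ∧ s = sh (N * z) (stt x s.1.2 k) := by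
  have h1 := Int.emod_nonneg s.1.1 hN.ne'
  have h2 := Int.emod_lt_of_pos s.1.1 hN
  have h3 := Int.emod_add_mul_ediv s.1.1 N
  obtain ⟨x, hx⟩ : ∃ x : ℕ, x = (s.1.1 % N).toNat := ⟨_, rfl⟩
  have hx' : (x : ℤ) = s.1.1 % N := by rw [hx]; exact Int.toNat_of_nonneg h1
  obtain ⟨k, hk⟩ : ∃ k : Fin 4, s.2 = s.1 + dir k := by
    cases hs with
    | up q t => exact ⟨0, by simp [up, dir]⟩
    | dn q t => exact ⟨1, by simp [dn, dir]⟩
    | lf q t => exact ⟨2, by simp [lf, dir]⟩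
    | rt q t => exact ⟨3, by simp [rt, dir]⟩
  refine ⟨x, k, s.1.1 / N, by omega, hx', ?_⟩
  have e1 : (x : ℤ) + N * (s.1.1 / N) = s.1.1 := by rw [hx']; exact h3
  unfold sh stt
  apply Prod.ext
  · apply Prod.ext
    · exact e1.symm
    · rfl
  · rw [hk]
    apply Prod.ext
    · show s.1.1 + (dir k).1 = (x : ℤ) + (dir k).1 + N * (s.1.1 / N)
      linarith
    · rfl

theorem AS_sh {σ : Cfg} {n : ℕ} (hp : Per n σ) {z : ℤ} {s : St} {ρ : ℕ}
    (h : AS σ (sh ((2 * n + 1) * z) s) ρ) : AS σ s ρ := by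
  intro r hr
  have h1 := h r hr
  have hz : ∀ j t, σ (j + -((2 * n + 1) * z)) t = σ j t := by
    intro j t
    have := per_z hp (-z) j t
    rw [← this]
    congr 1
    ring
  have h2 := AE_sh hz h1
  have e : sh (-((2 * n + 1) * z)) (sh ((2 * n + 1) * z) s) = s := by
    unfold sh
    simp
  rw [e] at h2
  exact h2

/-- **counting**: the number of times at which the left corner is in the window -/
theorem cnt_win (hI : S_INJ) {n : ℕ} {a b : ℤ} {σ : Cfg} {i1 : ℕ} {X : ℤ} (hn : 1 ≤ n)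
    (hp : Per n σ) (u h : ℕ) (hau : a ≤ u) (hvb : (u : ℤ) + h ≤ b)
    (hH : Hit n a b σ i1 X) (K : Finset ℕ)
    (hK : ∀ k ∈ K, k ≤ i1 ∧ (u : ℤ) ≤ (orb n a σ k).1.2 ∧ (orb n a σ k).1.2 ≤ u + h) :
    (K.card : ℝ) ≤ Qn n u h σ := by
  classical
  have hN : (0 : ℤ) < 2 * n + 1 := by positivity
  -- the indices
  have hex : ∀ k : ℕ, ∃ p : ℕ × (ℕ × Fin 4), k ∈ K → (p.1 < 2 * n + 1 ∧ p.2.1 < h + 1 ∧
      ∃ z : ℤ, orb n a σ k = sh ((2 * n + 1) * z) (stt p.1 (u + p.2.1) p.2.2)) := by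
    intro k
    by_cases hk : k ∈ K
    · obtain ⟨h1, h2, h3⟩ := hK k hk
      obtain ⟨x, kk, z, h4, -, h6⟩ := idx (kd_orb n a σ k) (2 * n + 1) hN
      refine ⟨(x, (((orb n a σ k).1.2 - u).toNat, kk)), fun _ => ⟨by omega, ?_, z, ?_⟩⟩
      · show ((orb n a σ k).1.2 - u).toNat < h + 1
        omega
      · show orb n a σ k = sh ((2 * n + 1) * z) (stt x (u + (((orb n a σ k).1.2 - u).toNat : ℕ)) kk)
        rw [Int.toNat_of_nonneg (by omega), show (u : ℤ) + ((orb n a σ k).1.2 - u) =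
          (orb n a σ k).1.2 by ring]
        exact h6
    · exact ⟨(0, (0, 0)), fun h => absurd h hk⟩
  choose φ hφ using hex
  have hinj : Set.InjOn φ K := by
    intro k hk l hl hkl
    obtain ⟨-, -, z, hz⟩ := hφ k hk
    obtain ⟨-, -, z', hz'⟩ := hφ l hl
    by_contra hne
    apply (hI n a σ hn hp l k (z - z')).1 (Ne.symm hne)
    rw [hz, hz', hkl]
    unfold sh
    apply Prod.ext
    · apply Prod.ext
      · simp only
        ring
      · rfl
    · apply Prod.ext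
      · simp only
        ring
      · rfl
  have hmaps : ∀ k ∈ K, φ k ∈ (range (2 * n + 1)) ×ˢ ((range (h + 1)) ×ˢ (univ : Finset (Fin 4))) := by
    intro k hk
    obtain ⟨h1, h2, -⟩ := hφ k hk
    rw [mem_product, mem_product, mem_range, mem_range]
    exact ⟨h1, h2, mem_univ _⟩
  have hval : ∀ k ∈ K, (1 : ℝ) ≤ ind (AS σ (stt (φ k).1 (u + (φ k).2.1) (φ k).2.2)
      (min (φ k).2.1 (h - (φ k).2.1) - 1)) := by
    intro k hk
    obtain ⟨h1, h2, h3⟩ := hK k hk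
    obtain ⟨h4, h5, z, hz⟩ := hφ k hk
    have h6 : (orb n a σ k).1.2 = u + (φ k).2.1 := by rw [hz]; rfl
    have h7 := vis_AS hau hvb hH h1 (min (φ k).2.1 (h - (φ k).2.1) - 1) (by omega)
    rw [hz] at h7
    rw [ind_of (AS_sh hp h7)]
  calc (K.card : ℝ) = ∑ k ∈ K, (1 : ℝ) := by simp
    _ ≤ ∑ k ∈ K, ind (AS σ (stt (φ k).1 (u + (φ k).2.1) (φ k).2.2)
        (min (φ k).2.1 (h - (φ k).2.1) - 1)) := sum_le_sum hval
    _ = ∑ p ∈ K.image φ, ind (AS σ (stt p.1 (u + p.2.1) p.2.2) (min p.2.1 (h - p.2.1) - 1)) := by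
        rw [sum_image (fun a ha b hb h => hinj ha hb h)]
    _ ≤ ∑ p ∈ (range (2 * n + 1)) ×ˢ ((range (h + 1)) ×ˢ (univ : Finset (Fin 4))),
        ind (AS σ (stt p.1 (u + p.2.1) p.2.2) (min p.2.1 (h - p.2.1) - 1)) := by
        apply sum_le_sum_of_subset_of_nonneg
        · intro p hp'
          rw [mem_image] at hp'
          obtain ⟨k, hk, rfl⟩ := hp'
          exact hmaps k hk
        · intro p _ _
          exact ind_nonneg _
    _ = Qn n u h σ := by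
        rw [sum_product]
        rfl

/-- the number of steps between two times -/
theorem cnt_all (hI : S_INJ) {n : ℕ} {a b lo hi : ℤ} {σ : Cfg} {i0 i1 : ℕ} {X : ℤ} (hn : 1 ≤ n)
    (hp : Per n σ) (hH : Hit n a b σ i1 X) (J : Finset ℕ) (u h : ℕ → ℕ)
    (hsub : ∀ j ∈ J, a ≤ u j ∧ (u j : ℤ) + h j ≤ b)
    (hcov : ∀ y : ℤ, lo ≤ y → y ≤ hi → ∃ j ∈ J, (u j : ℤ) ≤ y ∧ y ≤ u j + h j)
    (hlev : ∀ k, i0 ≤ k → k ≤ i1 → 2 * lo ≤ lv (orb n a σ k) ∧ lv (orb n a σ k) ≤ 2 * hi) :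
    (i1 : ℝ) - i0 ≤ ∑ j ∈ J, Qn n (u j) (h j) σ := by
  classical
  have h1 : (Finset.Icc i0 i1) ⊆ J.biUnion (fun j => (Finset.Icc i0 i1).filter
      (fun k => (u j : ℤ) ≤ (orb n a σ k).1.2 ∧ (orb n a σ k).1.2 ≤ u j + h j)) := by
    intro k hk
    rw [mem_Icc] at hk
    obtain ⟨h2, h3⟩ := hlev k hk.1 hk.2
    obtain ⟨c1, c2, c3, c4⟩ := ok_bd (kd_orb n a σ k) h2 h3
    obtain ⟨j, hj, h4⟩ := hcov (orb n a σ k).1.2 (by omega) (by omega)
    rw [mem_biUnion]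
    exact ⟨j, hj, mem_filter.2 ⟨mem_Icc.2 hk, h4⟩⟩
  have h2 := (card_le_card h1).trans card_biUnion_le
  have h3 : ((Finset.Icc i0 i1).card : ℝ) ≤ ∑ j ∈ J, (((Finset.Icc i0 i1).filter
      (fun k => (u j : ℤ) ≤ (orb n a σ k).1.2 ∧ (orb n a σ k).1.2 ≤ u j + h j)).card : ℝ) := by
    exact_mod_cast h2
  have h4 : (i1 : ℝ) - i0 ≤ ((Finset.Icc i0 i1).card : ℝ) := by
    rw [Nat.card_Icc]
    have : (i1 : ℤ) - i0 ≤ ((i1 + 1 - i0 : ℕ) : ℤ) := by omega
    exact_mod_cast this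
  refine h4.trans (h3.trans (sum_le_sum fun j hj => ?_))
  obtain ⟨g1, g2⟩ := hsub j hj
  apply cnt_win hI hn hp (u j) (h j) g1 g2 hH
  intro k hk
  rw [mem_filter, mem_Icc] at hk
  exact ⟨hk.1.2, hk.2.1, hk.2.2⟩

/-- **the error of the additivity of the number of steps** -/
theorem err_Q (hV : S_VAL) (hI : S_INJ) (hH : S_HIT) {n : ℕ} {a lo s hi b : ℤ} {σ : Cfg}
    (hn : 1 ≤ n) (hp : Per n σ) (h1 : a ≤ lo) (h2 : lo ≤ s) (h3 : s ≤ hi) (h4 : hi ≤ b)
    (hTl : lo = a ∨ T1 n σ lo s) (hTh : hi = b ∨ T1 n σ s hi)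
    (J1 J2 : Finset ℕ) (u1 h1' u2 h2' : ℕ → ℕ)
    (hs1 : ∀ j ∈ J1, s ≤ u1 j ∧ (u1 j : ℤ) + h1' j ≤ hi)
    (hc1 : ∀ y : ℤ, s ≤ y → y ≤ hi → ∃ j ∈ J1, (u1 j : ℤ) ≤ y ∧ y ≤ u1 j + h1' j)
    (hs2 : ∀ j ∈ J2, lo ≤ u2 j ∧ (u2 j : ℤ) + h2' j ≤ s)
    (hc2 : ∀ y : ℤ, lo ≤ y → y ≤ s → ∃ j ∈ J2, (u2 j : ℤ) ≤ y ∧ y ≤ u2 j + h2' j) :
    |(len n a b σ : ℝ) - len n a s σ - len n s b σ| ≤
      ∑ j ∈ J1, Qn n (u1 j) (h1' j) σ + ∑ j ∈ J2, Qn n (u2 j) (h2' j) σ := by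
  have Hs := hit_len hH hn hp (show a ≤ s by omega)
  have Hh := hit_len hH hn hp (show a ≤ hi by omega)
  have Hb := hit_len hH hn hp (show a ≤ b by omega)
  have Gh := hit_len hH hn hp (show s ≤ hi by omega)
  have Gb := hit_len hH hn hp (show s ≤ b by omega)
  have Gs : Hit n s s σ 0 0 := by
    refine ⟨?_, fun k hk => absurd hk (Nat.not_lt_zero k)⟩
    rw [orb_zero, add_zero]
  have e1 : (len n a b σ : ℤ) - len n a hi σ = len n s b σ - len n s hi σ := by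
    rcases hTh with h | h
    · subst h; ring
    · exact tail_time hI hn hp (by omega) (T1_lt h3 h) h4 h Hh Hb Gh Gb
  have l1 := lev_btw hV hI hn hp h1 h2 h3 hTl Hs Hh
  have l2 := lev_btw hV hI hn hp le_rfl le_rfl h3 (Or.inl rfl) Gs Gh
  -- the sum over the upper windows
  have c2 := cnt_all hI hn hp Gh J1 u1 h1' (fun j hj => hs1 j hj) hc1 l2
  -- all windows
  have c1 : (len n a hi σ : ℝ) - len n a s σ ≤
      ∑ j ∈ J1, Qn n (u1 j) (h1' j) σ + ∑ j ∈ J2, Qn n (u2 j) (h2' j) σ := by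
    classical
    obtain ⟨A, hA⟩ : ∃ A : ℕ, ∀ j ∈ J1, j < A := by
      obtain ⟨A, hA⟩ := J1.exists_nat_subset_range
      exact ⟨A, fun j hj => mem_range.1 (hA hj)⟩
    have := cnt_all hI hn hp Hh (lo := lo) (hi := hi) (i0 := len n a s σ)
      (J1 ∪ J2.image (fun j => A + j))
      (fun j => if j < A then u1 j else u2 (j - A)) (fun j => if j < A then h1' j else h2' (j - A))
      ?_ ?_ l1
    · rw [sum_union] at this
      · rw [sum_image (by intro x _ y _ h; simpa using h)] at this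
        refine this.trans (le_of_eq ?_)
        congr 1
        · refine sum_congr rfl fun j hj => ?_
          rw [if_pos (hA j hj), if_pos (hA j hj)]
        · refine sum_congr rfl fun j _ => ?_
          rw [if_neg (by omega), if_neg (by omega), Nat.add_sub_cancel_left]
      · rw [disjoint_left]
        intro j hj hj'
        rw [mem_image] at hj'
        obtain ⟨i, _, hi'⟩ := hj'
        have := hA j hj
        omega
    · intro j hj
      rw [mem_union, mem_image] at hj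
      rcases hj with hj | ⟨i, hi', rfl⟩
      · rw [if_pos (hA j hj), if_pos (hA j hj)]
        obtain ⟨g1, g2⟩ := hs1 j hj
        exact ⟨by omega, g2⟩
      · rw [if_neg (by omega), if_neg (by omega), Nat.add_sub_cancel_left]
        obtain ⟨g1, g2⟩ := hs2 i hi'
        exact ⟨by omega, by omega⟩
    · intro y hy1 hy2
      rcases le_total s y with h | h
      · obtain ⟨j, hj, g⟩ := hc1 y h hy2
        refine ⟨j, mem_union_left _ hj, ?_⟩
        rw [if_pos (hA j hj), if_pos (hA j hj)]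
        exact g
      · obtain ⟨j, hj, g⟩ := hc2 y hy1 h
        refine ⟨A + j, mem_union_right _ (mem_image_of_mem _ hj), ?_⟩
        rw [if_neg (by omega), if_neg (by omega), Nat.add_sub_cancel_left]
        exact g
  have d1 : (len n a s σ : ℝ) ≤ len n a hi σ := by
    exact_mod_cast hit_le (by omega) h3 Hs Hh
  have d2 : (0 : ℝ) ≤ len n s hi σ := by positivity
  have e1' : (len n a b σ : ℝ) - len n a hi σ = len n s b σ - len n s hi σ := by
    exact_mod_cast e1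
  have d3 : 0 ≤ ∑ j ∈ J2, Qn n (u2 j) (h2' j) σ := sum_nonneg fun _ _ => Qn_nonneg _ _ _ _
  push_cast at c2
  rw [abs_le]
  constructor <;> linarith

end Pool.Agent.L5helper96.NT
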