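import Pool.Agent.L5helper96.NT.Sp6

/-!
# Speed of the interface: the exact value
-/

set_option autoImplicit false

namespace Pool.Agent.L5helper96.NT
open Y994.KW Pool.Agent.H974R3 Pool.Agent.H974R3.Value Filter Topology

theorem capd_lft {n : ℕ} (M : ℕ) (c : Fin M → Fin (2 * n + 1) → Bool) :
    lft M 1 (capd M c) = c := by
  funext i
  unfold lft capd
  rw [dif_pos (show ((Fin.castAdd 1 i : Fin (M + 1)) : ℕ) < M from i.2)]
  rfl

/-- the mean over the configurations with the row of caps -/
theorem Ea_capd {n : ℕ} (M : ℕ) (f : (Fin (M + 1) → Fin (2 * n + 1) → Bool) → ℝ)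
    (hf : ∀ c, 0 ≤ f c) : Ea M (fun c => f (capd M c)) ≤ 2 ^ (2 * n + 1) * Ea (M + 1) f := by
  classical
  have hcard : (Fintype.card (Fin (2 * n + 1) → Bool) : ℝ) = 2 ^ (2 * n + 1) := by
    rw [Fintype.card_fun, Fintype.card_bool, Fintype.card_fin]
    push_cast
    rfl
  unfold Ea
  rw [hcard, pow_succ (2 ^ (2 * n + 1)) M, mul_comm ((2 ^ (2 * n + 1)) ^ M) (2 ^ (2 * n + 1) : ℝ),
    ← mul_div_assoc, mul_div_mul_left _ _ (by positivity)]
  apply div_le_div_of_nonneg_right _ (by positivity)
  have hinj : Function.Injective (capd (n := n) M) := by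
    intro c c' h
    rw [← capd_lft M c, ← capd_lft M c', h]
  calc ∑ c, f (capd M c) = ∑ d ∈ Finset.univ.image (capd (n := n) M), f d := by
        rw [Finset.sum_image (fun c _ c' _ h => hinj h)]
    _ ≤ ∑ d, f d := Finset.sum_le_sum_of_subset_of_nonneg (Finset.subset_univ _) fun d _ _ => hf d

/-- the exact speed -/
theorem speed (hV : S_VAL) (hI : S_INJ) (hH : S_HIT) {B : ℝ} (n : ℕ) (hn : 1 ≤ n)
    (hQ : Aa (Tm n) B (2 * n + 1)) :
    ∀ M : ℕ, 2 * n + 1 ≤ M →
      √(Ea M (fun c => (Tm n M c - 2 * (2 * n + 1) * pval n * M) ^ 2)) ≤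
        27 * B * √((M : ℝ) / (2 * n + 1)) := by
  obtain ⟨v, h1, h2, h3⟩ := lln hQ
  have hv : v = 2 * (2 * n + 1) * pval n := by
    obtain ⟨C, hC⟩ := mean_capd hV hI hH n hn
    -- the difference of the means is bounded
    have hB := hQ.Bpos
    have hdiff : ∀ M : ℕ, |Ea M (fun c : Fin M → Fin (2 * n + 1) → Bool => Tm n (M + 1) (capd M c)) -
        Ea M (Tm n M)| ≤ √(2 ^ (2 * n + 1)) * B + |Tm n 1 (fun _ => capr n)| := by
      intro M
      have e1 : Ea M (fun c : Fin M → Fin (2 * n + 1) → Bool => Tm n (M + 1) (capd M c)) -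
          Ea M (Tm n M) = Ea M (fun c : Fin M → Fin (2 * n + 1) → Bool =>
            Tm n (M + 1) (capd M c) - Tm n M (lft M 1 (capd M c)) - Tm n 1 (rgt M 1 (capd M c))) +
          Ea M (fun c : Fin M → Fin (2 * n + 1) → Bool => Tm n 1 (rgt M 1 (capd M c))) := by
        rw [← Ea_add', ← Ea_sub']
        congr 1
        funext c
        rw [capd_lft]
        ring
      rw [e1]
      refine (abs_add_le _ _).trans (add_le_add ?_ ?_)
      · -- the error
        have h4 := Ea_capd M (fun c : Fin (M + 1) → Fin (2 * n + 1) → Bool =>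
          (Tm n (M + 1) c - Tm n M (lft M 1 c) - Tm n 1 (rgt M 1 c)) ^ 2) (fun c => sq_nonneg _)
        have h5 := hQ.err M 1
        have h6 := jensen M (fun c : Fin M → Fin (2 * n + 1) → Bool =>
          Tm n (M + 1) (capd M c) - Tm n M (lft M 1 (capd M c)) - Tm n 1 (rgt M 1 (capd M c)))
        have h7 : (Ea M (fun c : Fin M → Fin (2 * n + 1) → Bool =>
          Tm n (M + 1) (capd M c) - Tm n M (lft M 1 (capd M c)) - Tm n 1 (rgt M 1 (capd M c)))) ^ 2 ≤
            (√(2 ^ (2 * n + 1)) * B) ^ 2 := by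
          rw [mul_pow, Real.sq_sqrt (by positivity)]
          refine h6.trans (h4.trans ?_)
          exact mul_le_mul_of_nonneg_left h5 (by positivity)
        exact abs_le_of_sq_le_sq h7 (by positivity)
      · -- one row
        have h5 : ∀ c : Fin M → Fin (2 * n + 1) → Bool, rgt M 1 (capd M c) = fun _ => capr n := by
          intro c
          funext i
          unfold rgt capd
          rw [dif_neg]
          rw [Fin.val_natAdd]
          omega
        have h6 : Ea M (fun c : Fin M → Fin (2 * n + 1) → Bool => Tm n 1 (rgt M 1 (capd M c))) =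
            Tm n 1 (fun _ => capr n) := by
          rw [show (fun c : Fin M → Fin (2 * n + 1) → Bool => Tm n 1 (rgt M 1 (capd M c))) =
            fun _ => Tm n 1 (fun _ => capr n) from funext fun c => by rw [h5 c]]
          exact Ea_const' M _
        rw [h6]
    have hlim : Tendsto (fun M : ℕ => Ea M (Tm n M) / M) atTop (𝓝 (2 * (2 * n + 1) * pval n)) := by
      have h4 : Tendsto (fun M : ℕ => (√(2 ^ (2 * n + 1)) * B + |Tm n 1 (fun _ => capr n)| + C) / (M : ℝ)) atTop (𝓝 0) :=
        tendsto_const_div_atTop_nhds_zero_nat _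
      rw [tendsto_iff_norm_sub_tendsto_zero]
      refine squeeze_zero' (Eventually.of_forall fun M => norm_nonneg _) ?_ h4
      filter_upwards [eventually_ge_atTop 1] with M hM
      have hMp : (0 : ℝ) < M := by exact_mod_cast hM
      have e : Ea M (Tm n M) / M - 2 * (2 * n + 1) * pval n =
          (Ea M (Tm n M) - 2 * (2 * n + 1) * pval n * M) / M := by
        field_simp
      rw [e, norm_div, Real.norm_eq_abs, Real.norm_eq_abs, abs_of_pos hMp]
      apply div_le_div_of_nonneg_right _ hMp.le
      have g1 := hdiff M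
      have g2 := hC M
      have e2 : Ea M (Tm n M) - 2 * (2 * n + 1) * pval n * M =
          (Ea M (fun c : Fin M → Fin (2 * n + 1) → Bool => Tm n (M + 1) (capd M c)) -
            2 * (2 * n + 1) * pval n * M) -
          (Ea M (fun c : Fin M → Fin (2 * n + 1) → Bool => Tm n (M + 1) (capd M c)) -
            Ea M (Tm n M)) := by ring
      rw [e2]
      refine (abs_sub _ _).trans ?_
      linarith
    exact tendsto_nhds_unique h1 hlim
  rw [← hv]
  intro M hM
  have := h3 M hM
  push_cast at this
  exact this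

end Pool.Agent.L5helper96.NT
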