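import Pool.Agent.Y994.KW.All2
import Pool.Agent.L5helper96.NT.Conv
import Pool.Agent.L5helper96.NT.Sp7
import Pool.Agent.L5helper96.NT.Asmf
import Pool.Agent.H988R3.Asym

/-!
# Natural time: the theorem, given the second moment of the errors
-/

set_option autoImplicit false

namespace Pool.Agent.L5helper96.NT
open Y994.KW Pool.Agent.H974R3 Pool.Agent.H974R3.Value Filter Topology MeasureTheory ProbabilityTheory

/-- the speed -/
noncomputable def spd (n : ℕ) : ℝ := 2 * (2 * n + 1) * asmN (2 * n + 1) / htN n ^ 2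

theorem spd_eq (n : ℕ) : spd n = 2 * (2 * n + 1) * pval n := by
  unfold spd
  rw [pval_asm, mul_div_assoc]

theorem tt_ge (k : ℕ) : 1 ≤ tt k := one_le_tt Pool.Agent.H974R3.pval_ge k

theorem pv_lo (n : ℕ) : 1 ≤ pval n ^ 4 * (2 * (n : ℝ) + 1) := pval_lower Pool.Agent.H974R3.pval_ge n

theorem pv_lim : ∃ κ : ℝ, 1 ≤ κ ∧ κ ≤ 2 ∧
    Tendsto (fun n : ℕ => pval n * (2 * (n : ℝ) + 1) ^ (1 / 4 : ℝ)) atTop (𝓝 κ) :=
  pval_lim pv_lo Pool.Agent.H988R3.V4.pval_le_one tt_ge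

theorem spd_lo (n : ℕ) : 2 * (2 * (n : ℝ) + 1) ^ (3 / 4 : ℝ) ≤ spd n := by
  rw [spd_eq]
  obtain ⟨N, hN⟩ : ∃ N : ℝ, N = 2 * n + 1 := ⟨_, rfl⟩
  have hNp : 0 < N := by rw [hN]; positivity
  have h := pv_lo n
  rw [← hN] at h ⊢
  have hp := pval_pos n
  have h1 : (N ^ (-(1 / 4) : ℝ)) ≤ pval n := by
    apply le_of_pow_le_pow_left₀ (n := 4) (by norm_num) hp.le
    rw [← Real.rpow_natCast, ← Real.rpow_mul hNp.le]
    norm_num
    rw [Real.rpow_neg_one, inv_le_iff_one_le_mul₀ hNp]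
    linarith
  have h2 : N ^ (3 / 4 : ℝ) = N * N ^ (-(1 / 4) : ℝ) := by
    nth_rewrite 2 [← Real.rpow_one N]
    rw [← Real.rpow_add hNp]
    norm_num
  rw [h2]
  nlinarith

theorem spd_pos (n : ℕ) : 0 < spd n := lt_of_lt_of_le (by positivity) (spd_lo n)

theorem spd_lim : ∃ κ : ℝ, 2 ≤ κ ∧ κ ≤ 4 ∧
    Tendsto (fun n : ℕ => spd n / (2 * (n : ℝ) + 1) ^ (3 / 4 : ℝ)) atTop (𝓝 κ) := by
  obtain ⟨κ, h1, h2, h3⟩ := pv_lim
  refine ⟨2 * κ, by linarith, by linarith, ?_⟩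
  refine (h3.const_mul 2).congr fun n => ?_
  obtain ⟨N, hN⟩ : ∃ N : ℝ, N = 2 * n + 1 := ⟨_, rfl⟩
  have hNp : 0 < N := by rw [hN]; positivity
  rw [spd_eq, ← hN]
  have h4 : N = N ^ (3 / 4 : ℝ) * N ^ (1 / 4 : ℝ) := by
    rw [← Real.rpow_add hNp]
    norm_num
  have h5 : 0 < N ^ (3 / 4 : ℝ) := by positivity
  rw [eq_div_iff h5.ne']
  calc 2 * (pval n * N ^ (1 / 4 : ℝ)) * N ^ (3 / 4 : ℝ) =
      2 * pval n * (N ^ (3 / 4 : ℝ) * N ^ (1 / 4 : ℝ)) := by ring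
    _ = 2 * pval n * N := by rw [← h4]
    _ = _ := by ring

/-- the law of large numbers with the exact speed -/
theorem ll_of {β B1 : ℝ} (hQ : ∀ n : ℕ, 1 ≤ n →
    Aa (Tm n) (B1 * (2 * (n : ℝ) + 1) ^ β) (2 * n + 1)) (n : ℕ) (hn : 1 ≤ n) :
    LL n (B1 * (2 * (n : ℝ) + 1) ^ β) (spd n) := by
  intro M hM
  rw [spd_eq]
  exact speed All.VAL All.INJ All.HIT n hn (hQ n hn) M hM

/-- second moment -/
theorem mom_of {β B1 : ℝ} (hB1 : 0 < B1) (hQ : ∀ n : ℕ, 1 ≤ n →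
    Aa (Tm n) (B1 * (2 * (n : ℝ) + 1) ^ β) (2 * n + 1)) (n M : ℕ) (hn : 1 ≤ n)
    (hM : 2 * n + 1 ≤ M) :
    Ea M (fun c => (Tm n M c - spd n * M) ^ 2) ≤
      (729 * B1 ^ 2) * (2 * (n : ℝ) + 1) ^ (2 * β - 1) * M := by
  have h := ll_of hQ n hn M hM
  obtain ⟨N, hN⟩ : ∃ N : ℝ, N = 2 * n + 1 := ⟨_, rfl⟩
  have hNp : 0 < N := by rw [hN]; positivity
  rw [← hN] at h ⊢
  have h1 := Real.sqrt_le_left (x := Ea M (fun c => (Tm n M c - spd n * M) ^ 2))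
    (y := 27 * (B1 * N ^ β) * √(M / N)) (by positivity) |>.1 h
  refine h1.trans (le_of_eq ?_)
  rw [mul_pow, Real.sq_sqrt (by positivity), mul_pow, mul_pow, ← Real.rpow_natCast (N ^ β),
    ← Real.rpow_mul hNp.le, Real.rpow_sub_one hNp.ne']
  push_cast
  rw [show β * 2 = 2 * β by ring]
  field_simp
  ring

theorem fin_of {β B1 : ℝ} (hB1 : 0 < B1) (hQ : ∀ n : ℕ, 1 ≤ n →
    Aa (Tm n) (B1 * (2 * (n : ℝ) + 1) ^ β) (2 * n + 1)) :
    ∃ W : Measure Pa, Y994.KW.IsBM 1 W ∧ ∀ n M : ℕ → ℕ, (∀ i, 1 ≤ n i) → Tendsto n atTop atTop →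
      Tendsto (fun i => (M i : ℝ) / (2 * n i + 1)) atTop atTop →
      Tendsto (fun i => (2 * (n i : ℝ) + 1) ^ (2 * β - 5 / 2 : ℝ) / M i) atTop (𝓝 0) →
      (∀ ε : ℝ, 0 < ε → Tendsto (fun i => Pw (M i) (fun c : Fin (M i) → Fin (2 * n i + 1) → Bool =>
        ε ≤ |(len (n i) 0 (M i) (cfg (n i) (M i) c) : ℝ) / (spd (n i) * M i) - 1|)) atTop (𝓝 0)) ∧
      ∀ F : BoundedContinuousFunction C(unitInterval, ℂ) ℝ,
        Tendsto (fun i => Ea (M i) (fun c : Fin (M i) → Fin (2 * n i + 1) → Bool =>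
          F (curve (n i) (M i) c))) atTop (𝓝 (∫ w, F (gr (√6 • w)) ∂W)) := by
  obtain ⟨-, D, hD1, K, hD2⟩ := H906K.final
  have hOS := osct All.VAL All.INJ All.HIT All.TRAVG All.T1MONO All.T1LOC All.DCP All.T1P
  obtain ⟨W, hW, -, hW3⟩ := Y994.KW.main All.INV All.CRS All.XD All.SYM All.MOM All.DPOS All.OSC
    (D := D) (K := K) ⟨hD1, hD2⟩
  refine ⟨W, hW, fun n M hn hnt hM hB => ?_⟩
  have hL : ∀ n, 1 ≤ n → LL n (B1 * (2 * (n : ℝ) + 1) ^ β) (spd n) := fun n hn => ll_of hQ n hn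
  have hB' : Tendsto (fun i => B1 * (2 * (n i : ℝ) + 1) ^ β /
      (spd (n i) * √((2 * n i + 1) * M i))) atTop (𝓝 0) := by
    have h1 : Tendsto (fun i => B1 / 2 * √((2 * (n i : ℝ) + 1) ^ (2 * β - 5 / 2 : ℝ) / M i)) atTop
        (𝓝 0) := by
      have h2 := (Real.continuous_sqrt.tendsto 0).comp hB
      rw [Real.sqrt_zero] at h2
      simpa using h2.const_mul (B1 / 2)
    refine squeeze_zero' (Eventually.of_forall fun i => ?_) ?_ h1
    · have := spd_pos (n i)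
      positivity
    · filter_upwards [hM.eventually_ge_atTop 1] with i hi
      obtain ⟨N, hN⟩ : ∃ N : ℝ, N = 2 * n i + 1 := ⟨_, rfl⟩
      have hNp : 0 < N := by rw [hN]; positivity
      have h3 := spd_lo (n i)
      rw [← hN] at hi h3 ⊢
      rw [le_div_iff₀ hNp] at hi
      have hMp : (0 : ℝ) < M i := by linarith
      have h4 : √(N ^ (2 * β - 5 / 2 : ℝ) / M i) = N ^ (β - 3 / 4 : ℝ) / √(N * M i) := by
        rw [Real.sqrt_eq_iff_mul_self_eq (by positivity) (by positivity), div_mul_div_comm,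
          Real.mul_self_sqrt (by positivity), ← Real.rpow_add hNp]
        rw [show (2 * β - 5 / 2 : ℝ) = (β - 3 / 4 + (β - 3 / 4)) - 1 by ring, Real.rpow_sub_one hNp.ne']
        field_simp
      rw [h4]
      have h5 : N ^ β = N ^ (β - 3 / 4 : ℝ) * N ^ (3 / 4 : ℝ) := by
        rw [← Real.rpow_add hNp]
        congr 1
        ring
      have h6 : 0 < √(N * M i) := by positivity
      have h7 : 0 < spd (n i) := spd_pos _
      rw [h5]
      rw [← mul_div_assoc, div_le_div_iff₀ (by positivity) h6]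
      have h8 : 0 ≤ B1 * N ^ (β - 3 / 4 : ℝ) * √(N * M i) := by positivity
      calc B1 * (N ^ (β - 3 / 4 : ℝ) * N ^ (3 / 4 : ℝ)) * √(N * M i) =
          (B1 * N ^ (β - 3 / 4 : ℝ) * √(N * M i)) * N ^ (3 / 4 : ℝ) := by ring
        _ ≤ (B1 * N ^ (β - 3 / 4 : ℝ) * √(N * M i)) * (spd (n i) / 2) :=
            mul_le_mul_of_nonneg_left (by linarith) h8
        _ = _ := by ring
  refine ⟨fun ε hε => ?_, fun F => ?_⟩
  · have h1 := ulln All.HIT (fun n _ => spd_pos n) hL n M hn hM hB' ε hε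
    refine squeeze_zero' (Eventually.of_forall fun i => Pw_nonneg _ _) ?_ h1
    filter_upwards [hM.eventually_ge_atTop 1] with i hi
    refine Pw_mono (M i) ?_
    intro c hc
    have hN : (0 : ℝ) < 2 * (n i : ℝ) + 1 := by positivity
    rw [le_div_iff₀ hN] at hi
    have hMp : (M i : ℝ) ≠ 0 := by
      have : (0 : ℝ) < M i := by linarith
      exact this.ne'
    refine ⟨M i, le_rfl, ?_⟩
    rw [div_self hMp]
    exact hc
  · exact conv All.CRS All.XD All.SYM All.MOM All.DPOS All.OSC All.MODP All.HIT hOS ⟨hD1, hD2⟩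
      (fun n _ => spd_pos n) hL hW.1 (fun n M hn hM => (hW3 n M hn hM).1) n M hn hnt hM hB' F

end Pool.Agent.L5helper96.NT
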