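import Pool.Agent.L5helper96.NT.Slut
import Pool.Agent.H974R2.Basic

/-!
# Independence of functions of disjoint sets of cells
-/

set_option autoImplicit false

namespace Pool.Agent.L5helper96.NT
open Y994.KW H974

section

variable {β : Type} [Fintype β] [DecidableEq β] {M : ℕ}

/-- the function depends only on the cells of `D` -/
def Dep {γ : Type} (D : Set (Fin M × β)) (f : (Fin M → β → Bool) → γ) : Prop :=
  ∀ c c' : Fin M → β → Bool, (∀ t j, (t, j) ∈ D → c t j = c' t j) → f c = f c'

omit [Fintype β] [DecidableEq β] in
theorem Dep.mono {γ : Type} {D D' : Set (Fin M × β)} {f : (Fin M → β → Bool) → γ} (h : Dep D f)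
    (hD : D ⊆ D') : Dep D' f := fun c c' hc => h c c' fun t j ht => hc t j (hD ht)

open Classical in
/-- the cells of `D` from `c`, the others from `c'` -/
noncomputable def mix (D : Set (Fin M × β)) (c c' : Fin M → β → Bool) : Fin M → β → Bool :=
  fun t j => if (t, j) ∈ D then c t j else c' t j

omit [Fintype β] [DecidableEq β] in
theorem mix_mix (D : Set (Fin M × β)) (c c' : Fin M → β → Bool) :
    mix D (mix D c c') (mix D c' c) = c := by
  funext t j
  unfold mix
  by_cases h : (t, j) ∈ D
  · rw [if_pos h, if_pos h]
  · rw [if_neg h, if_neg h]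

/-- the exchange of the cells of `D` -/
noncomputable def mixE (D : Set (Fin M × β)) :
    ((Fin M → β → Bool) × (Fin M → β → Bool)) ≃ ((Fin M → β → Bool) × (Fin M → β → Bool)) where
  toFun p := (mix D p.1 p.2, mix D p.2 p.1)
  invFun p := (mix D p.1 p.2, mix D p.2 p.1)
  left_inv p := by
    apply Prod.ext
    · exact mix_mix D p.1 p.2
    · exact mix_mix D p.2 p.1
  right_inv p := by
    apply Prod.ext
    · exact mix_mix D p.1 p.2
    · exact mix_mix D p.2 p.1

/-- **independence** -/
theorem Ea_indep {D D' : Set (Fin M × β)} (hD : Disjoint D D') {f g : (Fin M → β → Bool) → ℝ}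
    (hf : Dep D f) (hg : Dep D' g) : Ea M (fun c => f c * g c) = Ea M f * Ea M g := by
  classical
  have h1 : (∑ c, f c) * (∑ c, g c) =
      (Fintype.card (Fin M → β → Bool) : ℝ) * ∑ c : Fin M → β → Bool, f c * g c := by
    have e1 : (∑ c, f c) * (∑ c, g c) =
        ∑ p : (Fin M → β → Bool) × (Fin M → β → Bool), f p.1 * g p.2 := by
      rw [Finset.sum_mul_sum, Fintype.sum_prod_type]
    have e2 : ∑ p : (Fin M → β → Bool) × (Fin M → β → Bool), f p.1 * g p.2 =
        ∑ p : (Fin M → β → Bool) × (Fin M → β → Bool), f p.1 * g p.1 := by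
      rw [← Equiv.sum_comp (mixE D) (fun p : (Fin M → β → Bool) × (Fin M → β → Bool) =>
        f p.1 * g p.1)]
      refine Finset.sum_congr rfl fun p _ => ?_
      have a1 : f (mix D p.1 p.2) = f p.1 := hf _ _ fun t j ht => by
        unfold mix
        rw [if_pos ht]
      have a2 : g (mix D p.1 p.2) = g p.2 := hg _ _ fun t j ht => by
        unfold mix
        rw [if_neg fun h => Set.disjoint_left.1 hD h ht]
      show f p.1 * g p.2 = f (mix D p.1 p.2) * g (mix D p.1 p.2)
      rw [a1, a2]
    rw [e1, e2, Fintype.sum_prod_type]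
    simp only [Finset.sum_const, Finset.card_univ, nsmul_eq_mul]
    rw [Finset.mul_sum]
  have h2 : (Fintype.card (Fin M → β → Bool) : ℝ) = (Fintype.card (β → Bool) : ℝ) ^ M := by
    rw [Fintype.card_fun (α := Fin M), Fintype.card_fin]
    push_cast
    rfl
  have hp := card_pos (α := β → Bool) M
  unfold Ea
  rw [div_mul_div_comm, h1, h2, mul_div_mul_left _ _ hp.ne']

open Classical in
/-- one cell -/
theorem Ea_cell (t : Fin M) (j : β) (b : Bool) :
    Ea M (fun c : Fin M → β → Bool => if c t j = b then (1 : ℝ) else 0) = 1 / 2 := by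
  have h1 : Ea M (fun c : Fin M → β → Bool => if c t j = b then (1 : ℝ) else 0) =
      Ea M (fun c : Fin M → β → Bool => if c t j = !b then (1 : ℝ) else 0) := by
    unfold Ea
    congr 1
    -- flipping the cell
    obtain ⟨e, he⟩ : ∃ e : (Fin M → β → Bool) ≃ (Fin M → β → Bool), ∀ c, e c t j = !(c t j) := by
      refine ⟨⟨fun c => fun t' j' => if t' = t ∧ j' = j then !(c t' j') else c t' j',
        fun c => fun t' j' => if t' = t ∧ j' = j then !(c t' j') else c t' j', ?_, ?_⟩, ?_⟩
      · intro c
        funext t' j'
        simp only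
        split_ifs <;> simp
      · intro c
        funext t' j'
        simp only
        split_ifs <;> simp
      · intro c
        simp
    rw [← Equiv.sum_comp e]
    refine Finset.sum_congr rfl fun c _ => ?_
    rw [he]
    cases h : c t j <;> cases b <;> simp [h]
  have h2 : Ea M (fun c : Fin M → β → Bool => if c t j = b then (1 : ℝ) else 0) +
      Ea M (fun c : Fin M → β → Bool => if c t j = !b then (1 : ℝ) else 0) = 1 := by
    rw [← Ea_add']
    rw [show (fun c : Fin M → β → Bool => (if c t j = b then (1 : ℝ) else 0) +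
      (if c t j = !b then (1 : ℝ) else 0)) = fun _ => (1 : ℝ) from ?_]
    · exact Ea_const' M 1
    · funext c
      cases h : c t j <;> cases b <;> simp [h]
  linarith

open Classical in
/-- a random set of cells, up to relabelling, is uniformly distributed -/
theorem unif {E : Type} [DecidableEq E] (φ : E → Fin M × β) (b : E → Bool) (S : Finset E)
    (hφ : Set.InjOn φ S) (f : Finset E → ℝ) :
    Ea M (fun c : Fin M → β → Bool => f (S.filter (fun e => c (φ e).1 (φ e).2 = b e))) =
      H974.Ex (fun _ => (1 / 2 : ℝ)) S f := by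
  induction S using Finset.induction_on generalizing f with
  | empty =>
    rw [Ex_empty]
    simp only [Finset.filter_empty]
    exact Ea_const' M _
  | insert a S ha ih =>
    have hS : Set.InjOn φ S := hφ.mono (by rw [Finset.coe_insert]; exact Set.subset_insert _ _)
    rw [Ex_insert _ ha]
    rw [← ih hS f, ← ih hS (fun F => f (insert a F))]
    have hdis : Disjoint ({φ a} : Set (Fin M × β)) (φ '' S) := by
      rw [Set.disjoint_singleton_left]
      rintro ⟨e, he, hea⟩
      have := hφ (by simp; exact Or.inr he) (by simp) hea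
      rw [this] at he
      exact ha he
    have hd1 : ∀ b' : Bool, Dep ({φ a} : Set (Fin M × β))
        (fun c : Fin M → β → Bool => if c (φ a).1 (φ a).2 = b' then (1 : ℝ) else 0) := by
      intro b' c c' hc
      have := hc (φ a).1 (φ a).2 rfl
      simp only [this]
    have hd2 : Dep (φ '' S) (fun c : Fin M → β → Bool =>
        S.filter (fun e => c (φ e).1 (φ e).2 = b e)) := by
      intro c c' hc
      apply Finset.filter_congr
      intro e he
      rw [hc (φ e).1 (φ e).2 ⟨e, he, rfl⟩]
    have hd3 : ∀ g : Finset E → ℝ, Dep (φ '' S) (fun c : Fin M → β → Bool =>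
        g (S.filter (fun e => c (φ e).1 (φ e).2 = b e))) := by
      intro g c c' hc
      have := hd2 c c' hc
      simp only at this
      simp only [this]
    have e1 : (fun c : Fin M → β → Bool =>
        f ((insert a S).filter (fun e => c (φ e).1 (φ e).2 = b e))) =
        fun c => (if c (φ a).1 (φ a).2 = b a then (1 : ℝ) else 0) *
          f (insert a (S.filter (fun e => c (φ e).1 (φ e).2 = b e))) +
          (if c (φ a).1 (φ a).2 = !(b a) then (1 : ℝ) else 0) *
          f (S.filter (fun e => c (φ e).1 (φ e).2 = b e)) := by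
      funext c
      rw [Finset.filter_insert]
      by_cases h : c (φ a).1 (φ a).2 = b a
      · rw [if_pos h, if_pos h, if_neg (by rw [h]; cases b a <;> simp)]
        ring
      · rw [if_neg h, if_neg h, if_pos (by revert h; cases c (φ a).1 (φ a).2 <;> cases b a <;> simp)]
        ring
    rw [e1, Ea_add', Ea_indep hdis (hd1 (b a)) (hd3 (fun F => f (insert a F))),
      Ea_indep hdis (hd1 (!(b a))) (hd3 f), Ea_cell, Ea_cell]
    ring

end

end Pool.Agent.L5helper96.NT
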