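import Pool.Agent.L5helper96.NT.Armq

/-!
# Second moment of the number of visited edges in a window
-/

set_option autoImplicit false

namespace Pool.Agent.L5helper96.NT
open Y994.KW Pool.Agent.Y290.KW H974 Finset

/-- the weight -/
noncomputable def gw (k : ℕ) : ℝ := ((k : ℝ) + 1) ^ (-(1 / 4) : ℝ)

theorem gw_pos (k : ℕ) : 0 < gw k := by unfold gw; positivity

theorem gw_sum (K : ℕ) : ∑ k ∈ range K, gw k ≤ 2 * (K : ℝ) ^ (3 / 4 : ℝ) := by
  induction K with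
  | zero => simp
  | succ K ih =>
    rw [sum_range_succ]
    push_cast
    have hK : (0 : ℝ) < (K : ℝ) + 1 := by positivity
    have h1 : (K : ℝ) ^ (3 / 4 : ℝ) * ((K : ℝ) + 1) ^ (1 / 4 : ℝ) ≤ K + 1 / 4 := by
      have := Real.geom_mean_le_arith_mean2_weighted (w₁ := 3 / 4) (w₂ := 1 / 4)
        (p₁ := (K : ℝ)) (p₂ := (K : ℝ) + 1) (by norm_num) (by norm_num) (by positivity)
        (by positivity) (by norm_num)
      linarith
    have h2 : gw K * ((K : ℝ) + 1) ^ (1 / 4 : ℝ) = 1 := by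
      unfold gw
      rw [← Real.rpow_add hK]
      norm_num
    have h3 : ((K : ℝ) + 1) ^ (3 / 4 : ℝ) * ((K : ℝ) + 1) ^ (1 / 4 : ℝ) = K + 1 := by
      rw [← Real.rpow_add hK]
      norm_num
    have h4 : 0 < ((K : ℝ) + 1) ^ (1 / 4 : ℝ) := by positivity
    refine le_of_mul_le_mul_right ?_ h4
    rw [add_mul, h2]
    nlinarith

theorem gw_sq (k : ℕ) : gw k ^ 2 = ((k : ℝ) + 1) ^ (-(1 / 2) : ℝ) := by
  unfold gw
  rw [← Real.rpow_natCast, ← Real.rpow_mul (by positivity)]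
  norm_num

theorem gw2_sum (K : ℕ) : ∑ k ∈ range K, gw k ^ 2 ≤ 2 * (K : ℝ) ^ (1 / 2 : ℝ) := by
  induction K with
  | zero => simp
  | succ K ih =>
    rw [sum_range_succ]
    push_cast
    have hK : (0 : ℝ) < (K : ℝ) + 1 := by positivity
    have h1 : (K : ℝ) ^ (1 / 2 : ℝ) * ((K : ℝ) + 1) ^ (1 / 2 : ℝ) ≤ K + 1 / 2 := by
      have := Real.geom_mean_le_arith_mean2_weighted (w₁ := 1 / 2) (w₂ := 1 / 2)
        (p₁ := (K : ℝ)) (p₂ := (K : ℝ) + 1) (by norm_num) (by norm_num) (by positivity)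
        (by positivity) (by norm_num)
      linarith
    have h2 : gw K ^ 2 * ((K : ℝ) + 1) ^ (1 / 2 : ℝ) = 1 := by
      rw [gw_sq, ← Real.rpow_add hK]
      norm_num
    have h3 : ((K : ℝ) + 1) ^ (1 / 2 : ℝ) * ((K : ℝ) + 1) ^ (1 / 2 : ℝ) = K + 1 := by
      rw [← Real.rpow_add hK]
      norm_num
    have h4 : 0 < ((K : ℝ) + 1) ^ (1 / 2 : ℝ) := by positivity
    refine le_of_mul_le_mul_right ?_ h4
    rw [add_mul, h2]
    nlinarith

theorem wle (r d e : ℕ) (h : d + 1 ≤ 4 * (r + 1) ∨ e + 1 ≤ 4 * (r + 1)) :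
    ((r : ℝ) + 1) ^ (-(1 / 4) : ℝ) ≤ 2 * (gw d + gw e) := by
  have key : ∀ d : ℕ, d + 1 ≤ 4 * (r + 1) → ((r : ℝ) + 1) ^ (-(1 / 4) : ℝ) ≤ 2 * gw d := by
    intro d hd
    have h1 : ((d : ℝ) + 1) / 4 ≤ (r : ℝ) + 1 := by
      have : (d : ℝ) + 1 ≤ 4 * ((r : ℝ) + 1) := by exact_mod_cast hd
      linarith
    have h2 : ((r : ℝ) + 1) ^ (-(1 / 4) : ℝ) ≤ (((d : ℝ) + 1) / 4) ^ (-(1 / 4) : ℝ) :=
      Real.rpow_le_rpow_of_nonpos (by positivity) h1 (by norm_num)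
    refine h2.trans ?_
    rw [Real.div_rpow (by positivity) (by norm_num), Real.rpow_neg (x := 4) (by norm_num), div_inv_eq_mul]
    have h5 : (4 : ℝ) ^ (1 / 4 : ℝ) ≤ 2 := by
      have : (4 : ℝ) ^ (1 / 4 : ℝ) ≤ (4 : ℝ) ^ (1 / 2 : ℝ) :=
        Real.rpow_le_rpow_of_exponent_le (by norm_num) (by norm_num)
      rw [← Real.sqrt_eq_rpow, show (4 : ℝ) = 2 ^ 2 by norm_num, Real.sqrt_sq (by norm_num)] at this
      rw [show (4 : ℝ) = 2 ^ 2 by norm_num]
      exact this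
    have h6 := gw_pos d
    unfold gw at h6 ⊢
    nlinarith
  have h1 := gw_pos d
  have h2 := gw_pos e
  rcases h with h | h
  · have := key d h
    linarith
  · have := key e h
    linarith

theorem sum_inj_le {f : ℕ → ℝ} (hf : ∀ k, 0 ≤ f k) (A : Finset ℕ) (φ : ℕ → ℕ) (K : ℕ)
    (h1 : Set.InjOn φ A) (h2 : ∀ a ∈ A, φ a < K) : ∑ a ∈ A, f (φ a) ≤ ∑ k ∈ range K, f k := by
  rw [← sum_image (f := f) (g := φ) (s := A) (fun a ha b hb h => h1 ha hb h)]
  apply sum_le_sum_of_subset_of_nonneg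
  · intro k hk
    rw [mem_image] at hk
    obtain ⟨a, ha, rfl⟩ := hk
    exact mem_range.2 (h2 a ha)
  · intro k _ _
    exact hf k

/-- the cyclic distance -/
def cyc (N x x' : ℕ) : ℕ := min ((x : ℤ) - x').natAbs (N - ((x : ℤ) - x').natAbs)

theorem cyc_sum {f : ℕ → ℝ} (hf : ∀ k, 0 ≤ f k) (N x : ℕ) (hx : x < N) :
    ∑ x' ∈ range N, f (cyc N x x') ≤ 4 * ∑ k ∈ range (N + 1), f k := by
  have h1 : ∀ x', f (cyc N x x') ≤ f (((x : ℤ) - x').natAbs) + f (N - ((x : ℤ) - x').natAbs) := by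
    intro x'
    unfold cyc
    rcases min_choice (((x : ℤ) - x').natAbs) (N - ((x : ℤ) - x').natAbs) with h | h <;> rw [h]
    · linarith [hf (N - ((x : ℤ) - x').natAbs)]
    · linarith [hf (((x : ℤ) - x').natAbs)]
  have h2 : ∀ ψ : ℕ → ℕ, (∀ a, ψ a ≤ N) → Set.InjOn ψ ((range N).filter (fun a => a ≤ x)) →
      Set.InjOn ψ ((range N).filter (fun a => ¬ a ≤ x)) →
      ∑ x' ∈ range N, f (ψ x') ≤ 2 * ∑ k ∈ range (N + 1), f k := by
    intro ψ hψ i1 i2
    rw [← sum_filter_add_sum_filter_not (range N) (fun a => a ≤ x)]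
    have a1 := sum_inj_le hf _ ψ (N + 1) i1 (fun a _ => Nat.lt_succ_of_le (hψ a))
    have a2 := sum_inj_le hf _ ψ (N + 1) i2 (fun a _ => Nat.lt_succ_of_le (hψ a))
    linarith
  refine (sum_le_sum fun x' _ => h1 x').trans ?_
  rw [sum_add_distrib]
  -- for the first sum the values are bounded only on the range
  have b1 : ∑ x' ∈ range N, f (((x : ℤ) - x').natAbs) ≤ 2 * ∑ k ∈ range (N + 1), f k := by
    have e : ∑ x' ∈ range N, f (((x : ℤ) - x').natAbs) =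
        ∑ x' ∈ range N, f (min (((x : ℤ) - x').natAbs) N) := by
      refine sum_congr rfl fun x' hx' => ?_
      rw [mem_range] at hx'
      congr 1
      omega
    rw [e]
    refine h2 (fun x' => min (((x : ℤ) - x').natAbs) N) (fun a => min_le_right _ _) ?_ ?_
    · intro a ha b hb hab
      simp only [coe_filter, mem_range, Set.mem_ofPred_eq] at ha hb hab
      omega
    · intro a ha b hb hab
      simp only [coe_filter, mem_range, Set.mem_ofPred_eq] at ha hb hab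
      omega
  have b2 : ∑ x' ∈ range N, f (N - ((x : ℤ) - x').natAbs) ≤ 2 * ∑ k ∈ range (N + 1), f k := by
    refine h2 (fun x' => N - ((x : ℤ) - x').natAbs) (fun a => Nat.sub_le _ _) ?_ ?_
    · intro a ha b hb hab
      simp only [coe_filter, mem_range, Set.mem_ofPred_eq] at ha hb hab
      omega
    · intro a ha b hb hab
      simp only [coe_filter, mem_range, Set.mem_ofPred_eq] at ha hb hab
      omega
  linarith

/-! ## the number of states with arms -/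

/-- the directions -/
def dir (k : Fin 4) : Pt := if k = 0 then (1, 0) else if k = 1 then (-1, 0) else if k = 2 then (0, 1) else (0, -1)

/-- the states -/
def stt (x y : ℤ) (k : Fin 4) : St := ((x, y), (x, y) + dir k)

theorem kd_stt (x y : ℤ) (k : Fin 4) : Kd (stt x y k) := by
  have e0 : stt x y 0 = up x y := by simp [stt, dir, up]
  have e1 : stt x y 1 = dn (x - 1) y := by
    simp [stt, dir, dn]
    try omega
  have e2 : stt x y 2 = lf x y := by simp [stt, dir, lf]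
  have e3 : stt x y 3 = rt x (y - 1) := by
    simp [stt, dir, rt]
    try omega
  fin_cases k
  · exact e0 ▸ Kd.up _ _
  · exact e1 ▸ Kd.dn _ _
  · exact e2 ▸ Kd.lf _ _
  · exact e3 ▸ Kd.rt _ _

/-- the state has arms up to distance `ρ` -/
def AS (σ : Cfg) (s : St) (ρ : ℕ) : Prop := ∀ r : ℕ, r ≤ ρ → AE σ s r

/-- the number of states of a window with arms which almost reach the boundary of the window -/
noncomputable def Qn (n u h : ℕ) (σ : Cfg) : ℝ :=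
  ∑ x ∈ range (2 * n + 1), ∑ a ∈ (range (h + 1)) ×ˢ (univ : Finset (Fin 4)),
    ind (AS σ (stt x (u + a.1) a.2) (min a.1 (h - a.1) - 1))

theorem Qn_nonneg (n u h : ℕ) (σ : Cfg) : 0 ≤ Qn n u h σ :=
  sum_nonneg fun _ _ => sum_nonneg fun _ _ => ind_nonneg _

theorem Ea_sum' {α ι : Type} [Fintype α] (M : ℕ) (T : Finset ι) (f : ι → (Fin M → α) → ℝ) :
    Ea M (fun c => ∑ i ∈ T, f i c) = ∑ i ∈ T, Ea M (f i) := by
  unfold Ea
  rw [sum_comm, sum_div]

/-- the bound for a pair of states of the window -/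
theorem pair_w {C : ℝ} (hC : 0 < C) (hA : H984N.AnnUp C) {n M u h : ℕ} (hM : u + h ≤ M)
    {x x' : ℕ} (hx : x < 2 * n + 1) (hx' : x' < 2 * n + 1) {y y' : ℕ} (hy : y < h + 1)
    (hy' : y' < h + 1) (k k' : Fin 4)
    {g : (Fin M → Fin (2 * n + 1) → Bool) → ℝ} (hg0 : ∀ c, 0 ≤ g c)
    (hg : Dep {x : Fin M × Fin (2 * n + 1) | ¬ ((u : ℤ) ≤ ((x.1 : ℕ) : ℤ) ∧
      ((x.1 : ℕ) : ℤ) < ((u + h : ℕ) : ℤ))} g) :
    Ea M (fun c : Fin M → Fin (2 * n + 1) → Bool =>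
      ind (AS (cfg n M c) (stt x (u + y) k) (min y (h - y) - 1)) *
      ind (AS (cfg n M c) (stt x' (u + y') k') (min y' (h - y') - 1)) * g c) ≤
      ((2 * C + 2) ^ 2 * 4) * ((gw (min y (h - y)) + gw (cyc (2 * n + 1) x x')) *
        (gw (min y' (h - y')) + gw (cyc (2 * n + 1) x x'))) * Ea M g := by
  obtain ⟨m, hm⟩ : ∃ m : ℕ, m = cyc (2 * n + 1) x x' / 2 := ⟨_, rfl⟩
  have hcyc : cyc (2 * n + 1) x x' = min ((x : ℤ) - x').natAbs (2 * n + 1 - ((x : ℤ) - x').natAbs) := rfl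
  obtain ⟨r, hr⟩ : ∃ r : ℕ, r = min (min y (h - y) - 1) (m - 1) := ⟨_, rfl⟩
  obtain ⟨r', hr'⟩ : ∃ r' : ℕ, r' = min (min y' (h - y') - 1) (m - 1) := ⟨_, rfl⟩
  have hEg : 0 ≤ Ea M g := by
    rw [← Ea_const' (α := Fin (2 * n + 1) → Bool) M 0]
    exact Ea_mono' M hg0
  have h1 := pair (u := u) (v := ((u + h : ℕ) : ℤ)) hC hA (by positivity) (by exact_mod_cast hM)
    (kd_stt x (u + y) k) (kd_stt x' (u + y') k') (r := r) (r' := r') (m := m) ?_ ?_ ?_ hg0 hg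
  · have h2 : Ea M (fun c : Fin M → Fin (2 * n + 1) → Bool =>
        ind (AS (cfg n M c) (stt x (u + y) k) (min y (h - y) - 1)) *
        ind (AS (cfg n M c) (stt x' (u + y') k') (min y' (h - y') - 1)) * g c) ≤
        Ea M (fun c : Fin M → Fin (2 * n + 1) → Bool =>
          ind (AE (cfg n M c) (stt x (u + y) k) r) * ind (AE (cfg n M c) (stt x' (u + y') k') r') * g c) := by
      refine Ea_mono' M fun c => ?_
      apply mul_le_mul_of_nonneg_right _ (hg0 c)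
      apply mul_le_mul
      · exact ind_mono fun h => h r (by omega)
      · exact ind_mono fun h => h r' (by omega)
      · exact ind_nonneg _
      · exact ind_nonneg _
    refine h2.trans (h1.trans ?_)
    apply mul_le_mul_of_nonneg_right _ hEg
    have w1 := wle r (min y (h - y)) (cyc (2 * n + 1) x x') (by omega)
    have w2 := wle r' (min y' (h - y')) (cyc (2 * n + 1) x x') (by omega)
    have p1 : 0 < ((r : ℝ) + 1) ^ (-(1 / 4) : ℝ) := by positivity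
    have p2 : 0 < ((r' : ℝ) + 1) ^ (-(1 / 4) : ℝ) := by positivity
    have g1 := gw_pos (min y (h - y))
    have g2 := gw_pos (min y' (h - y'))
    have g3 := gw_pos (cyc (2 * n + 1) x x')
    calc (2 * C + 2) * ((r : ℝ) + 1) ^ (-(1 / 4) : ℝ) * ((2 * C + 2) * ((r' : ℝ) + 1) ^ (-(1 / 4) : ℝ))
        = (2 * C + 2) ^ 2 * (((r : ℝ) + 1) ^ (-(1 / 4) : ℝ) * ((r' : ℝ) + 1) ^ (-(1 / 4) : ℝ)) := by ring
      _ ≤ (2 * C + 2) ^ 2 * ((2 * (gw (min y (h - y)) + gw (cyc (2 * n + 1) x x'))) *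
          (2 * (gw (min y' (h - y')) + gw (cyc (2 * n + 1) x x')))) := by
        apply mul_le_mul_of_nonneg_left _ (by positivity)
        exact mul_le_mul w1 w2 p2.le (by positivity)
      _ = _ := by ring
  · show 2 * (m : ℤ) ≤ |(x : ℤ) - x'| ∧ 2 * (m : ℤ) ≤ 2 * n + 1 - |(x : ℤ) - x'|
    rcases abs_cases ((x : ℤ) - x') with h5 | h5 <;> omega
  · show r = 0 ∨ (r + 1 ≤ m ∧ (r : ℤ) + 1 ≤ (u : ℤ) + y - u ∧ (r : ℤ) + 1 ≤ ((u + h : ℕ) : ℤ) - (u + y))
    omega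
  · show r' = 0 ∨ (r' + 1 ≤ m ∧ (r' : ℤ) + 1 ≤ (u : ℤ) + y' - u ∧
      (r' : ℤ) + 1 ≤ ((u + h : ℕ) : ℤ) - (u + y'))
    omega

end Pool.Agent.L5helper96.NT
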