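import Pool.Agent.L5helper96.NT.Qsm

/-!
# Second moment of the number of visited edges in a window: the bound
-/

set_option autoImplicit false

namespace Pool.Agent.L5helper96.NT
open Y994.KW Pool.Agent.Y290.KW H974 Finset

theorem gw_min_sum (h : ℕ) : ∑ a ∈ range (h + 1), gw (min a (h - a)) ≤
    4 * ((h : ℝ) + 1) ^ (3 / 4 : ℝ) := by
  have h1 : ∀ a ∈ range (h + 1), gw (min a (h - a)) ≤ gw a + gw (h - a) := by
    intro a _
    rcases min_choice a (h - a) with e | e <;> rw [e]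
    · linarith [gw_pos (h - a)]
    · linarith [gw_pos a]
  refine (sum_le_sum h1).trans ?_
  rw [sum_add_distrib]
  have h2 : ∑ a ∈ range (h + 1), gw (h - a) = ∑ a ∈ range (h + 1), gw a := by
    rw [← sum_range_reflect gw (h + 1)]
    refine sum_congr rfl fun a ha => ?_
    rw [mem_range] at ha
    congr 1
  have h3 := gw_sum (h + 1)
  push_cast at h3
  rw [h2]
  linarith

theorem pow_two_le (N : ℝ) (hN : 0 ≤ N) (e : ℝ) (he : e ≤ 1) :
    (2 * N) ^ e ≤ 2 * N ^ e := by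
  rw [Real.mul_rpow (by norm_num) hN]
  apply mul_le_mul_of_nonneg_right _ (by positivity)
  calc (2 : ℝ) ^ e ≤ 2 ^ (1 : ℝ) := Real.rpow_le_rpow_of_exponent_le (by norm_num) he
    _ = 2 := Real.rpow_one 2

/-- the sum over the pairs -/
theorem pairs_sum (n h : ℕ) (hh : h + 1 ≤ 2 * (2 * n + 1)) :
    ∑ x ∈ range (2 * n + 1), ∑ x' ∈ range (2 * n + 1),
      ∑ a ∈ (range (h + 1)) ×ˢ (univ : Finset (Fin 4)),
      ∑ b ∈ (range (h + 1)) ×ˢ (univ : Finset (Fin 4)),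
        (gw (min a.1 (h - a.1)) + gw (cyc (2 * n + 1) x x')) *
          (gw (min b.1 (h - b.1)) + gw (cyc (2 * n + 1) x x')) ≤
    4096 * (2 * (n : ℝ) + 1) ^ (7 / 2 : ℝ) := by
  obtain ⟨N, hN⟩ : ∃ N : ℝ, N = 2 * n + 1 := ⟨_, rfl⟩
  have hN1 : 1 ≤ N := by
    rw [hN]
    have : (0 : ℝ) ≤ n := by positivity
    linarith
  have hNp : 0 < N := by linarith
  have hNc : ((2 * n + 1 : ℕ) : ℝ) = N := by rw [hN]; push_cast; ring
  obtain ⟨G, hG⟩ : ∃ G : ℝ, G = ∑ a ∈ range (h + 1), gw (min a (h - a)) := ⟨_, rfl⟩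
  have hG0 : 0 ≤ G := by rw [hG]; exact sum_nonneg fun _ _ => (gw_pos _).le
  have hY : ((h : ℝ) + 1) ≤ 2 * N := by
    have : ((h + 1 : ℕ) : ℝ) ≤ ((2 * (2 * n + 1) : ℕ) : ℝ) := by exact_mod_cast hh
    push_cast at this
    rw [hN]
    linarith
  have hG1 : G ≤ 8 * N ^ (3 / 4 : ℝ) := by
    rw [hG]
    refine (gw_min_sum h).trans ?_
    have h1 : ((h : ℝ) + 1) ^ (3 / 4 : ℝ) ≤ (2 * N) ^ (3 / 4 : ℝ) :=
      Real.rpow_le_rpow (by positivity) hY (by norm_num)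
    have h2 := pow_two_le N hNp.le (3 / 4) (by norm_num)
    linarith
  have hin : ∀ x x' : ℕ, ∑ a ∈ (range (h + 1)) ×ˢ (univ : Finset (Fin 4)),
      ∑ b ∈ (range (h + 1)) ×ˢ (univ : Finset (Fin 4)),
        (gw (min a.1 (h - a.1)) + gw (cyc (2 * n + 1) x x')) *
          (gw (min b.1 (h - b.1)) + gw (cyc (2 * n + 1) x x')) ≤
      32 * G ^ 2 + 32 * (2 * N) ^ 2 * gw (cyc (2 * n + 1) x x') ^ 2 := by
    intro x x'
    have e1 : ∑ a ∈ (range (h + 1)) ×ˢ (univ : Finset (Fin 4)),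
        (gw (min a.1 (h - a.1)) + gw (cyc (2 * n + 1) x x')) =
        4 * G + 4 * ((h : ℝ) + 1) * gw (cyc (2 * n + 1) x x') := by
      rw [sum_product]
      simp only [sum_const, card_univ, Fintype.card_fin, nsmul_eq_mul]
      rw [← mul_sum, sum_add_distrib, ← hG, sum_const, card_range, nsmul_eq_mul]
      push_cast
      ring
    rw [← sum_mul_sum, e1]
    have g3 := gw_pos (cyc (2 * n + 1) x x')
    have g4 : 4 * ((h : ℝ) + 1) * gw (cyc (2 * n + 1) x x') ≤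
        4 * (2 * N) * gw (cyc (2 * n + 1) x x') := by
      apply mul_le_mul_of_nonneg_right _ g3.le
      linarith
    have g5 : 0 ≤ 4 * ((h : ℝ) + 1) * gw (cyc (2 * n + 1) x x') := by positivity
    nlinarith [sq_nonneg (4 * G - 4 * (2 * N) * gw (cyc (2 * n + 1) x x'))]
  have hH : ∀ x ∈ range (2 * n + 1), ∑ x' ∈ range (2 * n + 1), gw (cyc (2 * n + 1) x x') ^ 2 ≤
      16 * N ^ (1 / 2 : ℝ) := by
    intro x hx
    rw [mem_range] at hx
    have h1 := cyc_sum (f := fun k => gw k ^ 2) (fun k => by positivity) (2 * n + 1) x hx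
    have h2 := gw2_sum (2 * n + 1 + 1)
    have h3 : ((2 * n + 1 + 1 : ℕ) : ℝ) ≤ 2 * N := by
      push_cast
      rw [← hN]
      linarith
    have h4 : ((2 * n + 1 + 1 : ℕ) : ℝ) ^ (1 / 2 : ℝ) ≤ (2 * N) ^ (1 / 2 : ℝ) :=
      Real.rpow_le_rpow (by positivity) h3 (by norm_num)
    have h5 := pow_two_le N hNp.le (1 / 2) (by norm_num)
    linarith
  calc _ ≤ ∑ x ∈ range (2 * n + 1), ∑ x' ∈ range (2 * n + 1),
        (32 * G ^ 2 + 32 * (2 * N) ^ 2 * gw (cyc (2 * n + 1) x x') ^ 2) :=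
        sum_le_sum fun x _ => sum_le_sum fun x' _ => hin x x'
    _ = ∑ x ∈ range (2 * n + 1), (N * (32 * G ^ 2) +
        32 * (2 * N) ^ 2 * ∑ x' ∈ range (2 * n + 1), gw (cyc (2 * n + 1) x x') ^ 2) := by
        refine sum_congr rfl fun x _ => ?_
        rw [sum_add_distrib, sum_const, card_range, nsmul_eq_mul, hNc, mul_sum]
    _ ≤ ∑ x ∈ range (2 * n + 1), (N * (32 * G ^ 2) + 32 * (2 * N) ^ 2 * (16 * N ^ (1 / 2 : ℝ))) := by
        refine sum_le_sum fun x hx => ?_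
        have := hH x hx
        have h0 : 0 ≤ 32 * (2 * N) ^ 2 := by positivity
        nlinarith
    _ = N * (N * (32 * G ^ 2) + 32 * (2 * N) ^ 2 * (16 * N ^ (1 / 2 : ℝ))) := by
        rw [sum_const, card_range, nsmul_eq_mul, hNc]
    _ ≤ N * (N * (32 * (8 * N ^ (3 / 4 : ℝ)) ^ 2) + 32 * (2 * N) ^ 2 * (16 * N ^ (1 / 2 : ℝ))) := by
        gcongr
    _ = 4096 * N ^ (7 / 2 : ℝ) := by
        have e1 : (N ^ (3 / 4 : ℝ)) ^ 2 = N * N ^ (1 / 2 : ℝ) := by
          rw [← Real.rpow_natCast, ← Real.rpow_mul hNp.le]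
          nth_rewrite 2 [← Real.rpow_one N]
          rw [← Real.rpow_add hNp]
          norm_num
        have e2 : N ^ (7 / 2 : ℝ) = N * N * N * N ^ (1 / 2 : ℝ) := by
          rw [show (7 / 2 : ℝ) = 3 + 1 / 2 by norm_num, Real.rpow_add hNp,
            show (3 : ℝ) = ((3 : ℕ) : ℝ) by norm_num, Real.rpow_natCast]
          ring
        rw [mul_pow, e1, e2]
        ring
    _ = _ := by rw [hN]

/-- **second moment of the number of states of a window with arms** -/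
theorem Q_sq {C : ℝ} (hC : 0 < C) (hA : H984N.AnnUp C) {n M u h : ℕ} (hM : u + h ≤ M)
    (hh : h + 1 ≤ 2 * (2 * n + 1))
    {g : (Fin M → Fin (2 * n + 1) → Bool) → ℝ} (hg0 : ∀ c, 0 ≤ g c)
    (hg : Dep {x : Fin M × Fin (2 * n + 1) | ¬ ((u : ℤ) ≤ ((x.1 : ℕ) : ℤ) ∧
      ((x.1 : ℕ) : ℤ) < ((u + h : ℕ) : ℤ))} g) :
    Ea M (fun c : Fin M → Fin (2 * n + 1) → Bool => Qn n u h (cfg n M c) ^ 2 * g c) ≤
      (16384 * (2 * C + 2) ^ 2) * (2 * (n : ℝ) + 1) ^ (7 / 2 : ℝ) * Ea M g := by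
  have hEg : 0 ≤ Ea M g := by
    rw [← Ea_const' (α := Fin (2 * n + 1) → Bool) M 0]
    exact Ea_mono' M hg0
  have e1 : (fun c : Fin M → Fin (2 * n + 1) → Bool => Qn n u h (cfg n M c) ^ 2 * g c) =
      fun c => ∑ x ∈ range (2 * n + 1), ∑ x' ∈ range (2 * n + 1),
        ∑ a ∈ (range (h + 1)) ×ˢ (univ : Finset (Fin 4)),
        ∑ b ∈ (range (h + 1)) ×ˢ (univ : Finset (Fin 4)),
          ind (AS (cfg n M c) (stt x (u + a.1) a.2) (min a.1 (h - a.1) - 1)) *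
          ind (AS (cfg n M c) (stt x' (u + b.1) b.2) (min b.1 (h - b.1) - 1)) * g c := by
    funext c
    unfold Qn
    rw [sq, sum_mul_sum, sum_mul]
    refine sum_congr rfl fun x _ => ?_
    rw [sum_mul]
    refine sum_congr rfl fun x' _ => ?_
    rw [sum_mul_sum, sum_mul]
    refine sum_congr rfl fun a _ => ?_
    rw [sum_mul]
  rw [e1]
  simp only [Ea_sum']
  calc _ ≤ ∑ x ∈ range (2 * n + 1), ∑ x' ∈ range (2 * n + 1),
      ∑ a ∈ (range (h + 1)) ×ˢ (univ : Finset (Fin 4)),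
      ∑ b ∈ (range (h + 1)) ×ˢ (univ : Finset (Fin 4)),
        ((2 * C + 2) ^ 2 * 4) * ((gw (min a.1 (h - a.1)) + gw (cyc (2 * n + 1) x x')) *
          (gw (min b.1 (h - b.1)) + gw (cyc (2 * n + 1) x x'))) * Ea M g := by
        refine sum_le_sum fun x hx => sum_le_sum fun x' hx' => sum_le_sum fun a ha =>
          sum_le_sum fun b hb => ?_
        rw [mem_product, mem_range] at ha hb
        exact pair_w hC hA hM (mem_range.1 hx) (mem_range.1 hx') ha.1 hb.1 a.2 b.2 hg0 hg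
    _ = ((2 * C + 2) ^ 2 * 4) * (∑ x ∈ range (2 * n + 1), ∑ x' ∈ range (2 * n + 1),
      ∑ a ∈ (range (h + 1)) ×ˢ (univ : Finset (Fin 4)),
      ∑ b ∈ (range (h + 1)) ×ˢ (univ : Finset (Fin 4)),
        (gw (min a.1 (h - a.1)) + gw (cyc (2 * n + 1) x x')) *
          (gw (min b.1 (h - b.1)) + gw (cyc (2 * n + 1) x x'))) * Ea M g := by
        simp only [mul_sum, sum_mul]
    _ ≤ ((2 * C + 2) ^ 2 * 4) * (4096 * (2 * (n : ℝ) + 1) ^ (7 / 2 : ℝ)) * Ea M g := by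
        apply mul_le_mul_of_nonneg_right _ hEg
        apply mul_le_mul_of_nonneg_left _ (by positivity)
        exact pairs_sum n h hh
    _ = _ := by ring

end Pool.Agent.L5helper96.NT
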