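import Pool.Agent.H906R3.K6.P1

/-!
# Speed of the interface: the doubly capped cylinder and its link patterns
-/

set_option autoImplicit false

namespace Pool.Agent.L5helper96.NT
open H906K Pool.Agent.H974R3

/-- the patterns are `σ`-closed sets -/
def Cl (n : ℕ) (σ τ : Pat (2 * n + 1)) (j : Fin (2 * n + 1)) : Prop :=
  Pool.Agent.H974R3.Conn σ.1 τ.1 (some j) none

theorem Cl_none_l {n : ℕ} {σ τ : Pat (2 * n + 1)} {j : Fin (2 * n + 1)} (h : σ.1 none = some j) :
    Cl n σ τ j := by
  intro f h1 h2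
  rw [← h, h1]

theorem Cl_none_r {n : ℕ} {σ τ : Pat (2 * n + 1)} {j : Fin (2 * n + 1)} (h : τ.1 none = some j) :
    Cl n σ τ j := by
  intro f h1 h2
  rw [← h, h2]

theorem Cl_l {n : ℕ} {σ τ : Pat (2 * n + 1)} {j l : Fin (2 * n + 1)} (h : σ.1 (some j) = some l)
    (hj : Cl n σ τ j) : Cl n σ τ l := by
  intro f h1 h2
  rw [← h, h1]
  exact hj f h1 h2

theorem Cl_r {n : ℕ} {σ τ : Pat (2 * n + 1)} {j l : Fin (2 * n + 1)} (h : τ.1 (some j) = some l)
    (hj : Cl n σ τ j) : Cl n σ τ l := by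
  intro f h1 h2
  rw [← h, h2]
  exact hj f h1 h2

/-! ## translations and degrees -/

/-- translation of the edges -/
def trn (z : ℤ) : Edg → Edg
  | Edg.v j t => Edg.v (j + z) t
  | Edg.h j t => Edg.h (j + z) t

theorem jx_tr (n : ℕ) (j z : ℤ) : jx (2 * n) (j + (2 * n + 1) * z) = jx (2 * n) j := by
  rw [p1_jx_jx]
  exact ⟨z, by push_cast; ring⟩

theorem link_tr {n M : ℕ} {c : Fin M → Fin (2 * n + 1) → Bool} (z : ℤ) {x y : Edg}
    (h : Link n M c x y) : Link n M c (trn ((2 * n + 1) * z) x) (trn ((2 * n + 1) * z) y) := by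
  cases h with
  | br j t h =>
    have := Link.br (n := n) (M := M) (c := c) (j + (2 * n + 1) * z) t (by rw [jx_tr]; exact h)
    simp only [trn]
    rwa [add_right_comm] at this
  | lt j t h =>
    exact Link.lt (j + (2 * n + 1) * z) t (by rw [jx_tr]; exact h)
  | bl j t h =>
    exact Link.bl (j + (2 * n + 1) * z) t (by rw [jx_tr]; exact h)
  | rt j t h =>
    have := Link.rt (n := n) (M := M) (c := c) (j + (2 * n + 1) * z) t (by rw [jx_tr]; exact h)
    simp only [trn]
    rwa [add_right_comm] at this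
  | bot k i hi =>
    have := Link.bot (n := n) (M := M) (c := c) (k + z) i hi
    simp only [trn]
    rw [show (k + z) * (2 * (n : ℤ) + 1) + 2 * i = k * (2 * n + 1) + 2 * i + (2 * n + 1) * z by ring]
      at this
    rwa [show k * (2 * (n : ℤ) + 1) + 2 * i + (2 * n + 1) * z + 1 =
      k * (2 * n + 1) + 2 * i + 1 + (2 * n + 1) * z by ring] at this

theorem eqv_tr {n M : ℕ} {c : Fin M → Fin (2 * n + 1) → Bool} (z : ℤ) {x y : Edg}
    (h : Relation.EqvGen (Link n M c) x y) :
    Relation.EqvGen (Link n M c) (trn ((2 * n + 1) * z) x) (trn ((2 * n + 1) * z) y) := by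
  induction h with
  | rel x y h => exact Relation.EqvGen.rel _ _ (link_tr z h)
  | refl x => exact Relation.EqvGen.refl _
  | symm x y _ ih => exact Relation.EqvGen.symm _ _ ih
  | trans x y z _ _ ih1 ih2 => exact Relation.EqvGen.trans _ _ _ ih1 ih2

theorem trn_neg (z : ℤ) (x : Edg) : trn (-z) (trn z x) = x := by
  cases x <;> simp [trn]

section deg

variable {n M : ℕ} {c : Fin M → Fin (2 * n + 1) → Bool}

theorem adj_link {x y : Edg} (h : (SimpleGraph.fromRel (Link n M c)).Adj x y) :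
    Link n M c x y ∨ Link n M c y x := by
  rw [SimpleGraph.fromRel_adj] at h
  exact h.2

theorem deg_two (x y1 y2 y3 : Edg) (g1 : (SimpleGraph.fromRel (Link n M c)).Adj x y1)
    (g2 : (SimpleGraph.fromRel (Link n M c)).Adj x y2)
    (g3 : (SimpleGraph.fromRel (Link n M c)).Adj x y3) : y1 = y2 ∨ y1 = y3 ∨ y2 = y3 := by
  rcases p1_nb (adj_link g1) with g1 | g1 <;> rcases p1_nb (adj_link g2) with g2 | g2 <;>
    rcases p1_nb (adj_link g3) with g3 | g3 <;> simp [g1.1, g2.1, g3.1]

theorem deg_top (j : ℤ) (y1 y2 : Edg) (g1 : (SimpleGraph.fromRel (Link n M c)).Adj (Edg.v j M) y1)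
    (g2 : (SimpleGraph.fromRel (Link n M c)).Adj (Edg.v j M) y2) : y1 = y2 := by
  rcases p1_nb (adj_link g1) with g1 | g1
  · exact absurd rfl (g1.2 j)
  · rcases p1_nb (adj_link g2) with g2 | g2
    · exact absurd rfl (g2.2 j)
    · rw [g1.1, g2.1]

theorem link_or_tr (z : ℤ) {x y : Edg} (h : Link n M c x y ∨ Link n M c y x) :
    Link n M c (trn ((2 * n + 1) * z) x) (trn ((2 * n + 1) * z) y) ∨
    Link n M c (trn ((2 * n + 1) * z) y) (trn ((2 * n + 1) * z) x) :=
  h.imp (link_tr z) (link_tr z)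

/-- the unpaired bottom edges have no lower neighbour -/
theorem nb_bot (z : ℤ) {y : Edg}
    (h : Link n M c (Edg.v (2 * n + (2 * n + 1) * z) 0) y ∨
      Link n M c y (Edg.v (2 * n + (2 * n + 1) * z) 0)) :
    y = p1U n M c (Edg.v (2 * n + (2 * n + 1) * z) 0) ∧ 0 < M := by
  have h1 := link_or_tr (-z) h
  have e1 : trn ((2 * (n : ℤ) + 1) * -z) (Edg.v (2 * n + (2 * n + 1) * z) 0) = Edg.v (2 * n) 0 := by
    simp only [trn]
    congr 1
    ring
  rw [e1] at h1
  rcases p1_nb h1 with h2 | h2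
  · rcases p1_nb h with h3 | h3
    · refine ⟨h3.1, ?_⟩
      rcases Nat.eq_zero_or_pos M with h4 | h4
      · exfalso
        subst h4
        exact h2.2 _ rfl
      · exact h4
    · -- the neighbour is the lower one
      exfalso
      -- `y` is at level zero, but the neighbour of `v (2n) 0` through the upper tile is not
      rcases Nat.eq_zero_or_pos M with h4 | h4
      · subst h4
        exact h2.2 _ rfl
      · have e2 : ∃ q : ℤ, ∃ t : ℕ, trn ((2 * (n : ℤ) + 1) * -z) y = Edg.h q t := by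
          rw [h2.1]
          simp only [p1U]
          rw [dif_pos h4]
          split_ifs
          · exact ⟨_, _, rfl⟩
          · exact ⟨_, _, rfl⟩
        obtain ⟨q, t, e2⟩ := e2
        have e3 : ∃ q : ℤ, ∃ t : ℕ, y = Edg.v q t := by
          rw [h3.1]
          simp only [p1D]
          split_ifs
          · exact ⟨_, _, rfl⟩
          · exact ⟨_, _, rfl⟩
        obtain ⟨q', t', e3⟩ := e3
        rw [e3] at e2
        simp [trn] at e2
  · exact absurd rfl h2.2

theorem deg_bot (z : ℤ) (y1 y2 : Edg)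
    (g1 : (SimpleGraph.fromRel (Link n M c)).Adj (Edg.v (2 * n + (2 * n + 1) * z) 0) y1)
    (g2 : (SimpleGraph.fromRel (Link n M c)).Adj (Edg.v (2 * n + (2 * n + 1) * z) 0) y2) :
    y1 = y2 := by
  rw [(nb_bot z (adj_link g1)).1, (nb_bot z (adj_link g2)).1]

end deg

/-! ## patterns from below -/

/-- the first `t` rows -/
def pre {n W : ℕ} (t : ℕ) (c : Fin W → Fin (2 * n + 1) → Bool) : Fin t → Fin (2 * n + 1) → Bool :=
  fun i => if h : (i : ℕ) < W then c ⟨i, h⟩ else fun _ => false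

/-- the pattern below the level `t` and the position of the defect -/
noncomputable def rn (n W : ℕ) (c : Fin W → Fin (2 * n + 1) → Bool) (t : ℕ) :
    Pat (2 * n + 1) × ℤ := run (2 * n) t (pre t c) (start n)

theorem rn_succ {n W : ℕ} (c : Fin W → Fin (2 * n + 1) → Bool) (t : ℕ) (ht : t < W) :
    rn n W c (t + 1) = (Tc (2 * n) (c ⟨t, ht⟩) (rn n W c t).1,
      (rn n W c t).2 + dTc (2 * n) (c ⟨t, ht⟩) (rn n W c t).1) := by
  have e1 : pre (t + 1) c (Fin.last t) = c ⟨t, ht⟩ := by
    unfold pre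
    rw [dif_pos (show ((Fin.last t : Fin (t + 1)) : ℕ) < W from ht)]
    rfl
  have e2 : (fun i : Fin t => pre (t + 1) c i.castSucc) = pre t c := by
    funext i
    rfl
  unfold rn
  rw [← e1, ← e2]
  rfl

theorem low_good {n W : ℕ} {c : Fin W → Fin (2 * n + 1) → Bool} {R : Edg → Edg → Prop}
    (hR : Equivalence R) (hL : ∀ x y, Link n W c x y → R x y) (t : ℕ) (ht : t ≤ W) :
    P1Good (2 * n) R (Edg.v (2 * n) 0) (fun x => Edg.v x t) (rn n W c t).1
      (2 * n + (rn n W c t).2) := by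
  induction t with
  | zero =>
    show P1Good (2 * n) _ (Edg.v (2 * n) 0) (fun x => Edg.v x 0) (start n) (2 * n + 0)
    rw [add_zero]
    exact p1_good0 hR hL
  | succ t ih =>
    have h1 := p1_row (n := n) (c := c) ⟨t, by omega⟩ hR hL (ih (by omega))
    rw [rn_succ c t (by omega)]
    rw [← add_assoc]
    exact h1

/-- pairs with arbitrary lifts -/
theorem good_pair {n : ℕ} {R : Edg → Edg → Prop} {s : Edg} {A : ℤ → Edg} {σ : Pat (2 * n + 1)}
    {a : ℤ} (h : P1Good (2 * n) R s A σ a) {x : ℤ} {l : Fin (2 * n + 1)}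
    (hx : σ.1 (some (jx (2 * n) x)) = some l) : ∃ y : ℤ, jx (2 * n) y = l ∧ x ≠ y ∧ R (A x) (A y) := by
  have hN : (0 : ℤ) < ((2 * n : ℕ) : ℤ) + 1 := by positivity
  obtain ⟨r, hr0, hr1, hr2⟩ := p1_ex (2 * n) a (jx (2 * n) x)
  have hne : jx (2 * n) x ≠ jx (2 * n) a := by
    intro h1
    have h2 := σ.2.inv none
    rw [h.dft, ← h1, hx] at h2
    simp at h2
  have hr3 : 0 < r := by
    rcases hr0.lt_or_eq with h1 | h1
    · exact h1
    · exfalso
      apply hne
      rw [← hr2, ← h1, add_zero]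
  obtain ⟨u, hu⟩ := p1_jx_jx.1 hr2.symm
  -- `x = w + r`
  obtain ⟨w, hw⟩ : ∃ w, w = x - r := ⟨_, rfl⟩
  have hwa : jx (2 * n) w = jx (2 * n) a := by
    rw [p1_jx_jx]
    exact ⟨u, by rw [hw]; linarith⟩
  obtain ⟨r', hr0', hr1', hr2'⟩ := p1_ex (2 * n) w l
  have hr3' : 0 < r' := by
    rcases hr0'.lt_or_eq with h1 | h1
    · exact h1
    · exfalso
      rw [← h1, add_zero, hwa] at hr2'
      have h2 := σ.2.inv none
      rw [h.dft, hr2'] at h2
      have h3 := σ.2.inv (some (jx (2 * n) x))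
      rw [hx, h2] at h3
      simp at h3
  have hxw : x = w + r := by rw [hw]; ring
  refine ⟨w + r', hr2', ?_, ?_⟩
  · intro h1
    rw [h1, hr2'] at hx
    exact σ.2.nofix _ hx
  · rw [hxw]
    refine h.prs w r r' hwa hr3 hr1 hr3' hr1' ?_
    rw [← hxw, hx, hr2']

/-- **exactness of the patterns** -/
theorem exact_low {n t : ℕ} {c : Fin t → Fin (2 * n + 1) → Bool} {x y : ℤ} (hxy : x ≠ y)
    (h : Relation.EqvGen (Link n t c) (Edg.v x t) (Edg.v y t)) :
    (rn n t c t).1.1 (some (jx (2 * n) x)) = some (jx (2 * n) y) := by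
  have hg := low_good (Relation.EqvGen.is_equivalence (Link n t c))
    (fun x y h => Relation.EqvGen.rel _ _ h) t le_rfl
  obtain ⟨a, ha⟩ : ∃ a, a = 2 * (n : ℤ) + (rn n t c t).2 := ⟨_, rfl⟩
  rw [← ha] at hg
  rcases hσ : (rn n t c t).1.1 (some (jx (2 * n) x)) with _ | l
  · exfalso
    have h1 := p1_none _ hg.dft hσ
    rw [p1_jx_jx] at h1
    obtain ⟨z, hz⟩ := h1
    have h2 := eqv_tr z hg.str
    have e1 : trn ((2 * (n : ℤ) + 1) * z) (Edg.v (2 * n) 0) = Edg.v (2 * n + (2 * n + 1) * z) 0 := rfl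
    have e2 : trn ((2 * (n : ℤ) + 1) * z) (Edg.v a t) = Edg.v x t := by
      simp only [trn]
      congr 1
      push_cast at hz
      linarith
    rw [e1, e2] at h2
    rcases Nat.eq_zero_or_pos t with h0 | h0
    · -- no row
      subst h0
      have ha0 : a = 2 * n := by
        rw [ha]
        show 2 * (n : ℤ) + 0 = 2 * n
        ring
      have hx : x = 2 * n + (2 * n + 1) * z := by
        rw [ha0] at hz
        push_cast at hz
        linarith
      have hno : ∀ y, ¬ (SimpleGraph.fromRel (Link n 0 c)).Adj (Edg.v x 0) y := by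
        intro y g
        rw [hx] at g
        have := (nb_bot z (adj_link g)).2
        omega
      obtain ⟨p⟩ := p1_reach h
      generalize hy : Edg.v y 0 = y' at p
      cases p with
      | nil =>
        simp only [Edg.v.injEq] at hy
        exact hxy hy.1.symm
      | cons g _ => exact hno _ g
    · have h3 := p1_deg (deg_two (c := c)) (p1_reach h) (p1_reach h2).symm (deg_top x) (deg_top y)
        (deg_bot z) (by intro h4; simp only [Edg.v.injEq] at h4; exact hxy h4.1)
        (by intro h4; simp only [Edg.v.injEq] at h4; omega)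
      simp only [Edg.v.injEq] at h3
      omega
  · obtain ⟨y', hy1, hy2, hy3⟩ := good_pair hg hσ
    have h3 := p1_deg (deg_two (c := c)) (p1_reach h) (p1_reach hy3) (deg_top x) (deg_top y)
      (deg_top y') (by intro h4; simp only [Edg.v.injEq] at h4; exact hxy h4.1)
      (by intro h4; simp only [Edg.v.injEq] at h4; exact hy2 h4.1)
    simp only [Edg.v.injEq] at h3
    rw [h3.1, hy1]

end Pool.Agent.L5helper96.NT
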