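import Pool.Agent.L5helper96.NT.Sp1

/-!
# Speed of the interface: the class of the interface on every level
-/

set_option autoImplicit false

namespace Pool.Agent.L5helper96.NT
open H906K Pool.Agent.H974R3

/-- links of the cylinder with caps on both sides -/
def LC (n W : ℕ) (c : Fin W → Fin (2 * n + 1) → Bool) (x y : Edg) : Prop :=
  Link n W c x y ∨ ∃ (k : ℤ) (i : ℕ), i < n ∧ x = Edg.v (k * (2 * n + 1) + 2 * i) W ∧
    y = Edg.v (k * (2 * n + 1) + 2 * i + 1) W

/-- reflection of the edges -/
def rf (W : ℕ) : Edg → Edg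
  | Edg.v j t => Edg.v j (W - t)
  | Edg.h j t => Edg.h j (W - 1 - t)

/-- reflection of the configurations -/
def rc {n W : ℕ} (c : Fin W → Fin (2 * n + 1) → Bool) : Fin W → Fin (2 * n + 1) → Bool :=
  fun s j => !c (Fin.rev s) j

theorem rc_rc {n W : ℕ} (c : Fin W → Fin (2 * n + 1) → Bool) : rc (rc c) = c := by
  funext s j
  simp [rc]

/-- the links of the reflected configuration -/
theorem rf_link {n W : ℕ} {c : Fin W → Fin (2 * n + 1) → Bool} {x y : Edg}
    (h : Link n W (rc c) x y) : LC n W c (rf W x) (rf W y) ∨ LC n W c (rf W y) (rf W x) := by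
  have hrev : ∀ t : Fin W, ((Fin.rev t : Fin W) : ℕ) = W - 1 - t := by
    intro t
    rw [Fin.val_rev]
    omega
  have hrev1 : ∀ t : Fin W, ((Fin.rev t : Fin W) : ℕ) + 1 = W - t := by
    intro t
    rw [Fin.val_rev]
    omega
  have hrev2 : ∀ t : Fin W, ((Fin.rev t : Fin W) : ℕ) = W - (t + 1) := by
    intro t
    rw [Fin.val_rev]
  cases h with
  | br j t h =>
    right
    left
    have h' : c (Fin.rev t) (jx (2 * n) j) = true := by simpa [rc] using h
    have := Link.rt (n := n) (M := W) (c := c) j (Fin.rev t) h'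
    simp only [rf]
    rwa [hrev1, hrev] at this
  | lt j t h =>
    right
    left
    have h' : c (Fin.rev t) (jx (2 * n) j) = true := by simpa [rc] using h
    have := Link.bl (n := n) (M := W) (c := c) j (Fin.rev t) h'
    simp only [rf]
    rw [← hrev, ← hrev2]
    exact this
  | bl j t h =>
    right
    left
    have h' : c (Fin.rev t) (jx (2 * n) j) = false := by simpa [rc] using h
    have := Link.lt (n := n) (M := W) (c := c) j (Fin.rev t) h'
    simp only [rf]
    rw [← hrev, ← hrev1]
    exact this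
  | rt j t h =>
    right
    left
    have h' : c (Fin.rev t) (jx (2 * n) j) = false := by simpa [rc] using h
    have := Link.br (n := n) (M := W) (c := c) j (Fin.rev t) h'
    simp only [rf]
    rw [← hrev, ← hrev2]
    exact this
  | bot k i hi =>
    left
    right
    exact ⟨k, i, hi, by simp [rf], by simp [rf]⟩

/-- the pattern above the level `t` -/
noncomputable def up' (n W : ℕ) (c : Fin W → Fin (2 * n + 1) → Bool) (t : ℕ) :
    Pat (2 * n + 1) := (rn n W (rc c) (W - t)).1

/-! ## restriction to the rows below `t` -/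

theorem pre_link {n W t : ℕ} (ht : t ≤ W) {c : Fin W → Fin (2 * n + 1) → Bool} :
    (∀ (j : ℤ) (s : ℕ) (hs : s < t), c ⟨s, by omega⟩ (jx (2 * n) j) = false →
      Link n t (pre t c) (Edg.v j s) (Edg.h (j + 1) s) ∧
      Link n t (pre t c) (Edg.h j s) (Edg.v j (s + 1))) ∧
    (∀ (j : ℤ) (s : ℕ) (hs : s < t), c ⟨s, by omega⟩ (jx (2 * n) j) = true →
      Link n t (pre t c) (Edg.v j s) (Edg.h j s) ∧
      Link n t (pre t c) (Edg.h (j + 1) s) (Edg.v j (s + 1))) := by
  have hpre : ∀ (s : ℕ) (hs : s < t), pre t c ⟨s, hs⟩ = c ⟨s, by omega⟩ := by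
    intro s hs
    unfold pre
    rw [dif_pos (show ((⟨s, hs⟩ : Fin t) : ℕ) < W by simp only; omega)]
  constructor
  · intro j s hs h
    rw [← hpre s hs] at h
    exact ⟨Link.br j ⟨s, hs⟩ h, Link.lt j ⟨s, hs⟩ h⟩
  · intro j s hs h
    rw [← hpre s hs] at h
    exact ⟨Link.bl j ⟨s, hs⟩ h, Link.rt j ⟨s, hs⟩ h⟩

theorem rn_pre {n W t : ℕ} (ht : t ≤ W) (c : Fin W → Fin (2 * n + 1) → Bool) :
    rn n t (pre t c) t = rn n W c t := by
  unfold rn
  congr 1
  funext i
  unfold pre
  rw [dif_pos i.2]

section level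

variable {n W : ℕ} (c : Fin W → Fin (2 * n + 1) → Bool) (t : ℕ)

/-- connected below the level `t` to a closed edge -/
def lowC (e : Edg) : Prop := ∃ x : ℤ, Relation.EqvGen (Link n t (pre t c)) e (Edg.v x t) ∧
  Cl n (rn n W c t).1 (up' n W c t) (jx (2 * n) x)

/-- connected above the level `t` to a closed edge -/
def uppC (e : Edg) : Prop := ∃ x : ℤ,
  Relation.EqvGen (Link n (W - t) (pre (W - t) (rc c))) (rf W e) (Edg.v x (W - t)) ∧
  Cl n (rn n W c t).1 (up' n W c t) (jx (2 * n) x)

variable {c t}

theorem lowC_lev (ht : t ≤ W) (x : ℤ) : lowC c t (Edg.v x t) ↔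
    Cl n (rn n W c t).1 (up' n W c t) (jx (2 * n) x) := by
  constructor
  · rintro ⟨y, h1, h2⟩
    rcases eq_or_ne x y with h | h
    · rwa [h]
    · have h3 := exact_low h h1
      rw [rn_pre ht] at h3
      have h4 := (rn n W c t).1.2.inv (some (jx (2 * n) x))
      rw [h3] at h4
      exact Cl_l h4 h2
  · intro h
    exact ⟨x, Relation.EqvGen.refl _, h⟩

theorem uppC_lev (ht : t ≤ W) (x : ℤ) : uppC c t (Edg.v x t) ↔
    Cl n (rn n W c t).1 (up' n W c t) (jx (2 * n) x) := by
  constructor
  · rintro ⟨y, h1, h2⟩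
    simp only [rf] at h1
    rcases eq_or_ne x y with h | h
    · rwa [h]
    · have h3 := exact_low h h1
      rw [rn_pre (Nat.sub_le _ _)] at h3
      change (up' n W c t).1 _ = _ at h3
      have h4 := (up' n W c t).2.inv (some (jx (2 * n) x))
      rw [h3] at h4
      exact Cl_r h4 h2
  · intro h
    exact ⟨x, Relation.EqvGen.refl _, h⟩

theorem lowC_link {e e' : Edg} (h : Link n t (pre t c) e e') : lowC c t e ↔ lowC c t e' := by
  constructor
  · rintro ⟨x, h1, h2⟩
    exact ⟨x, Relation.EqvGen.trans _ _ _ (Relation.EqvGen.symm _ _ (Relation.EqvGen.rel _ _ h)) h1, h2⟩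
  · rintro ⟨x, h1, h2⟩
    exact ⟨x, Relation.EqvGen.trans _ _ _ (Relation.EqvGen.rel _ _ h) h1, h2⟩

theorem uppC_link {e e' : Edg} (h : Link n (W - t) (pre (W - t) (rc c)) (rf W e) (rf W e')) :
    uppC c t e ↔ uppC c t e' := by
  constructor
  · rintro ⟨x, h1, h2⟩
    exact ⟨x, Relation.EqvGen.trans _ _ _ (Relation.EqvGen.symm _ _ (Relation.EqvGen.rel _ _ h)) h1, h2⟩
  · rintro ⟨x, h1, h2⟩
    exact ⟨x, Relation.EqvGen.trans _ _ _ (Relation.EqvGen.rel _ _ h) h1, h2⟩

/-- the invariant colouring -/
def chi (c : Fin W → Fin (2 * n + 1) → Bool) (t : ℕ) : Edg → Prop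
  | Edg.v x s => if s ≤ t then lowC c t (Edg.v x s) else uppC c t (Edg.v x s)
  | Edg.h x s => if s < t then lowC c t (Edg.h x s) else uppC c t (Edg.h x s)

theorem chi_v_up (ht : t ≤ W) (x : ℤ) (s : ℕ) (hs : t ≤ s) :
    chi c t (Edg.v x s) ↔ uppC c t (Edg.v x s) := by
  show (if s ≤ t then lowC c t (Edg.v x s) else uppC c t (Edg.v x s)) ↔ _
  rcases hs.lt_or_eq with h | h
  · rw [if_neg (by omega)]
  · subst h
    rw [if_pos le_rfl, lowC_lev ht, uppC_lev ht]

theorem chi_v_low (x : ℤ) (s : ℕ) (hs : s ≤ t) :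
    chi c t (Edg.v x s) ↔ lowC c t (Edg.v x s) := by
  show (if s ≤ t then lowC c t (Edg.v x s) else uppC c t (Edg.v x s)) ↔ _
  rw [if_pos hs]

theorem chi_inv (ht : t < W) {e e' : Edg} (h : LC n W c e e') : chi c t e ↔ chi c t e' := by
  -- links above the level `t`
  have hup := pre_link (n := n) (W := W) (t := W - t) (Nat.sub_le _ _) (c := rc c)
  have hlow := pre_link (n := n) (W := W) (t := t) ht.le (c := c)
  have hrcv : ∀ (s : Fin W) (hs' : W - 1 - (s : ℕ) < W) (j : Fin (2 * n + 1)),
      rc c ⟨W - 1 - s, hs'⟩ j = !c s j := by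
    intro s hs' j
    unfold rc
    congr 2
    ext
    rw [Fin.val_rev]
    simp only
    omega
  rcases h with h | ⟨k, i, hi, rfl, rfl⟩
  · cases h with
    | br j s h =>
      rcases Nat.lt_or_ge s t with h1 | h1
      · rw [chi_v_low _ _ h1.le]
        show _ ↔ (if (s : ℕ) < t then lowC c t (Edg.h (j + 1) s) else uppC c t (Edg.h (j + 1) s))
        rw [if_pos h1]
        exact lowC_link (hlow.1 j s h1 h).1
      · rw [chi_v_up ht.le _ _ h1]
        show _ ↔ (if (s : ℕ) < t then lowC c t (Edg.h (j + 1) s) else uppC c t (Edg.h (j + 1) s))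
        rw [if_neg (by omega)]
        refine (uppC_link ?_).symm
        have hs := s.2
        have h2 := (hup.2 j (W - 1 - s) (by omega) (by rw [hrcv s]; simp [h])).2
        simp only [rf]
        rw [show W - (s : ℕ) = W - 1 - s + 1 by omega]
        exact h2
    | lt j s h =>
      rcases Nat.lt_or_ge s t with h1 | h1
      · rw [chi_v_low _ _ (by omega)]
        show (if (s : ℕ) < t then lowC c t (Edg.h j s) else uppC c t (Edg.h j s)) ↔ _
        rw [if_pos h1]
        exact lowC_link (hlow.1 j s h1 h).2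
      · rw [chi_v_up ht.le _ _ (by omega)]
        show (if (s : ℕ) < t then lowC c t (Edg.h j s) else uppC c t (Edg.h j s)) ↔ _
        rw [if_neg (by omega)]
        refine (uppC_link ?_).symm
        have hs := s.2
        have h2 := (hup.2 j (W - 1 - s) (by omega) (by rw [hrcv s]; simp [h])).1
        simp only [rf]
        rw [show W - ((s : ℕ) + 1) = W - 1 - s by omega]
        exact h2
    | bl j s h =>
      rcases Nat.lt_or_ge s t with h1 | h1
      · rw [chi_v_low _ _ h1.le]
        show _ ↔ (if (s : ℕ) < t then lowC c t (Edg.h j s) else uppC c t (Edg.h j s))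
        rw [if_pos h1]
        exact lowC_link (hlow.2 j s h1 h).1
      · rw [chi_v_up ht.le _ _ h1]
        show _ ↔ (if (s : ℕ) < t then lowC c t (Edg.h j s) else uppC c t (Edg.h j s))
        rw [if_neg (by omega)]
        refine (uppC_link ?_).symm
        have hs := s.2
        have h2 := (hup.1 j (W - 1 - s) (by omega) (by rw [hrcv s]; simp [h])).2
        simp only [rf]
        rw [show W - (s : ℕ) = W - 1 - s + 1 by omega]
        exact h2
    | rt j s h =>
      rcases Nat.lt_or_ge s t with h1 | h1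
      · rw [chi_v_low _ _ (by omega)]
        show (if (s : ℕ) < t then lowC c t (Edg.h (j + 1) s) else uppC c t (Edg.h (j + 1) s)) ↔ _
        rw [if_pos h1]
        exact lowC_link (hlow.2 j s h1 h).2
      · rw [chi_v_up ht.le _ _ (by omega)]
        show (if (s : ℕ) < t then lowC c t (Edg.h (j + 1) s) else uppC c t (Edg.h (j + 1) s)) ↔ _
        rw [if_neg (by omega)]
        refine (uppC_link ?_).symm
        have hs := s.2
        have h2 := (hup.1 j (W - 1 - s) (by omega) (by rw [hrcv s]; simp [h])).1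
        simp only [rf]
        rw [show W - ((s : ℕ) + 1) = W - 1 - s by omega]
        exact h2
    | bot k i hi =>
      rw [chi_v_low _ _ (Nat.zero_le _), chi_v_low _ _ (Nat.zero_le _)]
      exact lowC_link (Link.bot k i hi)
  · rw [chi_v_up ht.le _ _ ht.le, chi_v_up ht.le _ _ ht.le]
    apply uppC_link
    simp only [rf, Nat.sub_self]
    exact Link.bot k i hi

theorem chi_eqv (ht : t < W) {e e' : Edg} (h : Relation.EqvGen (LC n W c) e e') :
    chi c t e ↔ chi c t e' := by
  induction h with
  | rel x y h => exact chi_inv ht h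
  | refl x => exact Iff.rfl
  | symm x y _ ih => exact ih.symm
  | trans x y z _ _ ih1 ih2 => exact ih1.trans ih2

/-- the edges of the interface are closed -/
theorem class_sub (ht : t < W) {x : ℤ}
    (h : Relation.EqvGen (LC n W c) (Edg.v (2 * n) 0) (Edg.v x t)) :
    Cl n (rn n W c t).1 (up' n W c t) (jx (2 * n) x) := by
  have h1 := (chi_eqv ht h).1 ?_
  · rwa [chi_v_low _ _ le_rfl, lowC_lev ht.le] at h1
  · rw [chi_v_low _ _ (Nat.zero_le _)]
    have hg := low_good (W := t) (c := pre t c) (Relation.EqvGen.is_equivalence (Link n t (pre t c)))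
      (fun x y h => Relation.EqvGen.rel _ _ h) t le_rfl
    rw [rn_pre ht.le] at hg
    exact ⟨_, hg.str, Cl_none_l hg.dft⟩

/-! ## all closed edges are on the interface -/

theorem eqv_tr_LC (z : ℤ) {x y : Edg} (h : Relation.EqvGen (LC n W c) x y) :
    Relation.EqvGen (LC n W c) (trn ((2 * n + 1) * z) x) (trn ((2 * n + 1) * z) y) := by
  induction h with
  | rel x y h =>
    apply Relation.EqvGen.rel
    rcases h with h | ⟨k, i, hi, rfl, rfl⟩
    · exact Or.inl (link_tr z h)
    · right
      refine ⟨k + z, i, hi, ?_, ?_⟩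
      · simp only [trn]
        congr 1
        ring
      · simp only [trn]
        congr 1
        ring
  | refl x => exact Relation.EqvGen.refl _
  | symm x y _ ih => exact Relation.EqvGen.symm _ _ ih
  | trans x y z _ _ ih1 ih2 => exact Relation.EqvGen.trans _ _ _ ih1 ih2

/-- the residues of the edges of the interface -/
def Vis (c : Fin W → Fin (2 * n + 1) → Bool) (t : ℕ) (j : Fin (2 * n + 1)) : Prop :=
  ∃ x : ℤ, jx (2 * n) x = j ∧ Relation.EqvGen (LC n W c) (Edg.v (2 * n) 0) (Edg.v x t)

open Classical in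
/-- parity: an involution without fixed points -/
theorem even_card {n : ℕ} (σ : Pat (2 * n + 1)) (S : Finset (Fin (2 * n + 1)))
    (h : ∀ j ∈ S, ∃ l ∈ S, σ.1 (some j) = some l) : Even S.card := by
  have h2 : ∀ j ∈ S, σ.1 (some j) ≠ none := by
    intro j hj h3
    obtain ⟨l, _, hl⟩ := h j hj
    rw [h3] at hl
    simp at hl
  have h3 : (∑ j ∈ S, (1 : ZMod 2)) = 0 := by
    refine Finset.sum_involution (fun j hj => (σ.1 (some j)).getD 0) ?_ ?_ ?_ ?_
    · intro j hj
      decide
    · intro j hj _
      obtain ⟨l, hl, hl'⟩ := h j hj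
      simp only [hl', Option.getD_some]
      intro h4
      rw [h4] at hl'
      exact σ.2.nofix _ hl'
    · intro j hj
      obtain ⟨l, hl, hl'⟩ := h j hj
      simp only [hl', Option.getD_some]
      exact hl
    · intro j hj
      obtain ⟨l, hl, hl'⟩ := h j hj
      have h4 := σ.2.inv (some j)
      rw [hl'] at h4
      simp only [hl', Option.getD_some, h4]
  rw [Finset.sum_const, nsmul_eq_mul, mul_one] at h3
  rw [ZMod.natCast_eq_zero_iff] at h3
  exact even_iff_two_dvd.2 h3

theorem class_sup (ht : t < W) (j : Fin (2 * n + 1))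
    (h : Cl n (rn n W c t).1 (up' n W c t) j) : Vis c t j := by
  classical
  have hE := Relation.EqvGen.is_equivalence (LC n W c)
  have hlow := low_good (W := W) (c := c) hE
    (fun x y h => Relation.EqvGen.rel _ _ (Or.inl h)) t ht.le
  have hR' : Equivalence (fun x y => Relation.EqvGen (LC n W c) (rf W x) (rf W y)) :=
    ⟨fun x => hE.refl _, fun h => hE.symm h, fun h1 h2 => hE.trans h1 h2⟩
  have hupp := low_good (W := W) (c := rc c) hR'
    (fun x y h => by
      rcases rf_link h with h1 | h1
      · exact Relation.EqvGen.rel _ _ h1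
      · exact Relation.EqvGen.symm _ _ (Relation.EqvGen.rel _ _ h1)) (W - t) (Nat.sub_le _ _)
  change P1Good (2 * n) _ _ _ (up' n W c t) _ at hupp
  -- pairs
  have hl : ∀ j l : Fin (2 * n + 1), (rn n W c t).1.1 (some j) = some l → Vis c t j → Vis c t l := by
    rintro j l h1 ⟨x, rfl, h2⟩
    obtain ⟨y, hy1, hy2, hy3⟩ := good_pair hlow h1
    exact ⟨y, hy1, hE.trans h2 hy3⟩
  have hu : ∀ j l : Fin (2 * n + 1), (up' n W c t).1 (some j) = some l → Vis c t j → Vis c t l := by
    rintro j l h1 ⟨x, rfl, h2⟩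
    obtain ⟨y, hy1, hy2, hy3⟩ := good_pair hupp h1
    simp only [rf] at hy3
    rw [show W - (W - t) = t by omega] at hy3
    exact ⟨y, hy1, hE.trans h2 hy3⟩
  -- the lower defect
  have hd : Vis c t (jx (2 * n) (2 * n + (rn n W c t).2)) := ⟨_, rfl, hlow.str⟩
  obtain ⟨a, ha⟩ : ∃ a, a = jx (2 * n) (2 * n + (rn n W c t).2) := ⟨_, rfl⟩
  rw [← ha] at hd
  have hda : (rn n W c t).1.1 none = some a := by rw [ha]; exact hlow.dft
  obtain ⟨b, hb⟩ : ∃ b, (up' n W c t).1 none = some b := ⟨_, hupp.dft⟩
  -- the upper defect, by parity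
  have hvb : Vis c t b := by
    by_contra hcon
    obtain ⟨S, hS⟩ : ∃ S : Finset (Fin (2 * n + 1)), ∀ j, j ∈ S ↔ Vis c t j :=
      ⟨Finset.univ.filter (fun j => Vis c t j), fun j => by simp⟩
    have h1 : Even S.card := by
      apply even_card (up' n W c t)
      intro j hj
      rcases h2 : (up' n W c t).1 (some j) with _ | l
      · exfalso
        have h3 := p1_none _ hb h2
        rw [hS, h3] at hj
        exact hcon hj
      · exact ⟨l, (hS l).2 (hu j l h2 ((hS j).1 hj)), rfl⟩
    have h4 : Even (S.erase a).card := by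
      apply even_card (rn n W c t).1
      intro j hj
      rw [Finset.mem_erase] at hj
      rcases h2 : (rn n W c t).1.1 (some j) with _ | l
      · exact absurd (p1_none _ hda h2) hj.1
      · refine ⟨l, ?_, rfl⟩
        rw [Finset.mem_erase]
        refine ⟨?_, (hS l).2 (hl j l h2 ((hS j).1 hj.2))⟩
        rintro rfl
        have h5 := (rn n W c t).1.2.inv (some j)
        have h6 := (rn n W c t).1.2.inv none
        rw [h2] at h5
        rw [hda, h5] at h6
        simp at h6
    have haS : a ∈ S := (hS a).2 hd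
    rw [Finset.card_erase_of_mem haS] at h4
    have hpos : 0 < S.card := Finset.card_pos.2 ⟨a, haS⟩
    rw [Nat.even_iff] at h1 h4
    omega
  -- the invariant function
  have hfin := h (fun v => match v with
    | none => true
    | some j => decide (Vis c t j)) ?_ ?_
  · simpa using hfin
  · intro v
    rcases v with _ | j
    · rw [hda]
      simpa using hd
    · rcases h2 : (rn n W c t).1.1 (some j) with _ | l
      · have h3 := p1_none _ hda h2
        rw [h3]
        simpa using hd
      · have h5 := (rn n W c t).1.2.inv (some j)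
        rw [h2] at h5
        simp only [decide_eq_decide]
        exact ⟨hl l j h5, hl j l h2⟩
  · intro v
    rcases v with _ | j
    · rw [hb]
      simpa using hvb
    · rcases h2 : (up' n W c t).1 (some j) with _ | l
      · have h3 := p1_none _ hb h2
        rw [h3]
        simpa using hvb
      · have h5 := (up' n W c t).2.inv (some j)
        rw [h2] at h5
        simp only [decide_eq_decide]
        exact ⟨hu l j h5, hu j l h2⟩

/-- **the edges of the interface on a level** -/
theorem vis_iff (ht : t < W) (j : Fin (2 * n + 1)) :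
    Vis c t j ↔ Cl n (rn n W c t).1 (up' n W c t) j := by
  constructor
  · rintro ⟨x, rfl, h⟩
    exact class_sub ht h
  · exact class_sup ht j

end level

end Pool.Agent.L5helper96.NT
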