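import Pool.Agent.L5helper96.NT.Sp2
import Pool.Agent.L5helper96.NT.Inst
import Pool.Agent.Y37.KW.XD

/-!
# Speed of the interface: the edges of the interface are the edges crossed by the walker
-/

set_option autoImplicit false

namespace Pool.Agent.L5helper96.NT
open Y994.KW H906K Pool.Agent.H974R3
open Pool.Agent.Y37.KW (edg edg_up edg_dn edg_lf edg_rt Bd bd_orb cfg_at lf rt wk_up wk_dn wk_lf wk_rt
  wk_cap nxt_up nxt_dn nxt_lf nxt_rt)
open Pool.Agent.Y290.KW (Kd kd_orb lv lv_up lv_dn lv_rt lv_lf orb_zero orb_succ lt_hit)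
open Pool.Agent.Y941.KW (per_cfg)

/-- the walker looks up or to the right -/
def UR (s : St) : Prop := ∃ q t : ℤ, s = up q t ∨ s = rt q t

/-- the walker looks down or to the left -/
def DL (s : St) : Prop := ∃ q t : ℤ, s = dn q t ∨ s = lf q t

theorem jx_val2 (n : ℕ) (x : ℤ) : (((jx (2 * n) x).val : ℕ) : ℤ) = x % (2 * n + 1) := by
  have := p1_jx_val (2 * n) x
  push_cast at this
  exact this

/-- one step of the walker in terms of the neighbours -/
theorem step_nb {n W : ℕ} (c : Fin W → Fin (2 * n + 1) → Bool) {s : St} (hb : Bd 0 W s)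
    (hu : ∀ q, s ≠ up q W) (hd : ∀ q : ℤ, s = dn q 0 → q % (2 * n + 1) ≠ 2 * n) :
    (Link n W c (edg s) (edg (wk n 0 (cfg n W c) s)) ∨
      Link n W c (edg (wk n 0 (cfg n W c) s)) (edg s)) ∧
    (UR s → edg (wk n 0 (cfg n W c) s) = p1U n W c (edg s)) ∧
    (DL s → edg (wk n 0 (cfg n W c) s) = p1D n W c (edg s)) ∧
    (UR (wk n 0 (cfg n W c) s) → edg s = p1D n W c (edg (wk n 0 (cfg n W c) s))) ∧
    (DL (wk n 0 (cfg n W c) s) → edg s = p1U n W c (edg (wk n 0 (cfg n W c) s))) := by
  have nUd : ∀ q t : ℤ, ¬ UR (dn q t) := by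
    rintro q t ⟨q', t', h | h⟩
    · simp only [dn, up, Prod.mk.injEq] at h; omega
    · simp only [dn, rt, Prod.mk.injEq] at h; omega
  have nUl : ∀ q t : ℤ, ¬ UR (lf q t) := by
    rintro q t ⟨q', t', h | h⟩
    · simp only [lf, up, Prod.mk.injEq] at h; omega
    · simp only [lf, rt, Prod.mk.injEq] at h; omega
  have nDu : ∀ q t : ℤ, ¬ DL (up q t) := by
    rintro q t ⟨q', t', h | h⟩
    · simp only [dn, up, Prod.mk.injEq] at h; omega
    · simp only [up, lf, Prod.mk.injEq] at h; omega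
  have nDr : ∀ q t : ℤ, ¬ DL (rt q t) := by
    rintro q t ⟨q', t', h | h⟩
    · simp only [rt, dn, Prod.mk.injEq] at h; omega
    · simp only [lf, rt, Prod.mk.injEq] at h; omega
  obtain ⟨q, t, ⟨rfl, h1, h2⟩ | ⟨rfl, h1, h2⟩ | ⟨rfl, h1, h2⟩ | ⟨rfl, h1, h2⟩⟩ := hb
  · -- up
    have h3 : t ≠ W := by
      rintro rfl
      exact hu q rfl
    obtain ⟨t, rfl⟩ := Int.eq_ofNat_of_zero_le h1
    have ht : t < W := by omega
    have hc := cfg_at c q ⟨t, ht⟩
    change cfg n W c q (t : ℤ) = _ at hc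
    rw [wk_up, nxt_up, hc]
    split_ifs with h4
    · rw [edg_up, edg_rt]
      refine ⟨Or.inl (Link.br q ⟨t, ht⟩ h4), fun _ => ?_, fun h => absurd h (nDu _ _), fun _ => ?_,
        fun h => absurd h (nDr _ _)⟩
      · simp only [p1U]; rw [dif_pos ht, if_pos h4]
      · simp only [p1D]; rw [dif_pos ht, add_sub_cancel_right, if_pos h4]
    · rw [edg_up, edg_lf]
      refine ⟨Or.inl (Link.bl q ⟨t, ht⟩ (by simpa using h4)), fun _ => ?_,
        fun h => absurd h (nDu _ _), fun h => absurd h (nUl _ _), fun _ => ?_⟩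
      · simp only [p1U]; rw [dif_pos ht, if_neg h4]
      · simp only [p1U]; rw [dif_pos ht, if_neg h4]
  · -- dn
    rcases eq_or_ne t 0 with rfl | h3
    · have hq := hd q rfl
      rw [wk_cap]
      have hN : (0 : ℤ) < 2 * n + 1 := by omega
      have hm1 := Int.emod_nonneg q (show (2 * n + 1 : ℤ) ≠ 0 by omega)
      have hm2 := Int.emod_lt_of_pos q hN
      have hm3 := Int.emod_add_mul_ediv q (2 * n + 1)
      have hjv := jx_val2 n q
      split_ifs with h5
      · obtain ⟨r, hr⟩ : ∃ r : ℕ, q % (2 * n + 1) = 2 * r :=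
          ⟨(q % (2 * n + 1) / 2).toNat, by omega⟩
        have e1 := edg_dn q 0
        have e2 := edg_up (q + 1) 0
        rw [show ((0 : ℕ) : ℤ) = 0 from rfl] at e1 e2
        rw [e1, e2]
        have h6 := H906K.Link.bot (M := W) (c := c) (q / (2 * n + 1)) r (by omega)
        have e3 : q / (2 * n + 1) * (2 * n + 1) + 2 * r = q := by linarith
        rw [e3] at h6
        have hjv2 := (p1_bot_val (n := n) (q / (2 * n + 1)) (i := r) (by omega))
        rw [e3] at hjv2
        refine ⟨Or.inl h6, fun h => absurd h (nUd _ _), fun _ => ?_, fun _ => ?_,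
          fun h => absurd h (nDu _ _)⟩
        · simp only [p1D]; rw [if_pos (by omega)]
        · simp only [p1D]; rw [if_neg (by omega), add_sub_cancel_right]
      · obtain ⟨r, hr⟩ : ∃ r : ℕ, q % (2 * n + 1) = 2 * r + 1 :=
          ⟨(q % (2 * n + 1) / 2).toNat, by omega⟩
        have e1 := edg_dn q 0
        have e2 := edg_up (q - 1) 0
        rw [show ((0 : ℕ) : ℤ) = 0 from rfl] at e1 e2
        rw [e1, e2]
        have h6 := H906K.Link.bot (M := W) (c := c) (q / (2 * n + 1)) r (by omega)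
        have e3 : q / (2 * n + 1) * (2 * n + 1) + 2 * r = q - 1 := by linarith
        rw [e3, sub_add_cancel] at h6
        have hjv2 := (p1_bot_val (n := n) (q / (2 * n + 1)) (i := r) (by omega))
        rw [e3, sub_add_cancel] at hjv2
        refine ⟨Or.inr h6, fun h => absurd h (nUd _ _), fun _ => ?_, fun _ => ?_,
          fun h => absurd h (nDu _ _)⟩
        · simp only [p1D]; rw [if_neg (by omega)]
        · simp only [p1D]; rw [if_pos (by omega), sub_add_cancel]
    · obtain ⟨t', ht'⟩ := Int.eq_ofNat_of_zero_le (show 0 ≤ t - 1 by omega)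
      obtain rfl : t = ((t' + 1 : ℕ) : ℤ) := by push_cast; omega
      have ht : t' < W := by omega
      have hc := cfg_at c q ⟨t', ht⟩
      change cfg n W c q (t' : ℤ) = _ at hc
      rw [wk_dn _ _ _ _ _ h3, nxt_dn, ht', hc, edg_dn]
      split_ifs with h4
      · rw [edg_lf]
        refine ⟨Or.inr (Link.lt q ⟨t', ht⟩ h4), fun h => absurd h (nUd _ _), fun _ => ?_,
          fun h => absurd h (nUl _ _), fun _ => ?_⟩
        · simp only [p1D]; rw [dif_pos ht, if_pos h4]
        · simp only [p1U]; rw [dif_pos ht, if_pos h4]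
      · rw [edg_rt]
        refine ⟨Or.inr (Link.rt q ⟨t', ht⟩ (by simpa using h4)), fun h => absurd h (nUd _ _),
          fun _ => ?_, fun _ => ?_, fun h => absurd h (nDr _ _)⟩
        · simp only [p1D]; rw [dif_pos ht, if_neg h4]
        · simp only [p1D]; rw [dif_pos ht, add_sub_cancel_right, if_neg h4]
  · -- lf
    obtain ⟨t, rfl⟩ := Int.eq_ofNat_of_zero_le h1
    have ht : t < W := by omega
    have hc := cfg_at c (q - 1) ⟨t, ht⟩
    change cfg n W c (q - 1) (t : ℤ) = _ at hc
    rw [wk_lf, nxt_lf, hc, edg_lf]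
    split_ifs with h4
    · have e := edg_up (q - 1) (t + 1)
      rw [show ((t + 1 : ℕ) : ℤ) = (t : ℤ) + 1 by push_cast; ring] at e
      rw [e]
      have h6 := H906K.Link.rt (q - 1) ⟨t, ht⟩ h4
      rw [sub_add_cancel] at h6
      refine ⟨Or.inl h6, fun h => absurd h (nUl _ _), fun _ => ?_, fun _ => ?_,
        fun h => absurd h (nDu _ _)⟩
      · simp only [p1D]; rw [dif_pos ht, if_neg (by simp [h4])]
      · simp only [p1D]; rw [dif_pos ht, if_neg (by simp [h4]), sub_add_cancel]
    · rw [edg_dn]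
      have h6 := H906K.Link.br (q - 1) ⟨t, ht⟩ (by simpa using h4)
      rw [sub_add_cancel] at h6
      have h4' : c ⟨t, ht⟩ (jx (2 * n) (q - 1)) = false := by simpa using h4
      refine ⟨Or.inr h6, fun h => absurd h (nUl _ _), fun _ => ?_, fun h => absurd h (nUd _ _),
        fun _ => ?_⟩
      · simp only [p1D]; rw [dif_pos ht, if_pos h4']
      · simp only [p1U]; rw [dif_pos ht, if_pos h4', sub_add_cancel]
  · -- rt
    obtain ⟨t, rfl⟩ := Int.eq_ofNat_of_zero_le h1
    have ht : t < W := by omega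
    have hc := cfg_at c q ⟨t, ht⟩
    change cfg n W c q (t : ℤ) = _ at hc
    rw [wk_rt, nxt_rt, hc, edg_rt]
    split_ifs with h4
    · rw [edg_dn]
      refine ⟨Or.inr (Link.bl q ⟨t, ht⟩ h4), fun _ => ?_, fun h => absurd h (nDr _ _),
        fun h => absurd h (nUd _ _), fun _ => ?_⟩
      · simp only [p1U]; rw [dif_pos ht, if_neg (by simp [h4])]
      · simp only [p1U]; rw [dif_pos ht, if_neg (by simp [h4])]
    · have e := edg_up q (t + 1)
      rw [show ((t + 1 : ℕ) : ℤ) = (t : ℤ) + 1 by push_cast; ring] at e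
      rw [e]
      have h4' : c ⟨t, ht⟩ (jx (2 * n) q) = false := by simpa using h4
      refine ⟨Or.inl (Link.lt q ⟨t, ht⟩ h4'), fun _ => ?_, fun h => absurd h (nDr _ _),
        fun _ => ?_, fun h => absurd h (nDu _ _)⟩
      · simp only [p1U]; rw [dif_pos ht, if_pos h4']
      · simp only [p1D]; rw [dif_pos ht, if_pos h4']

section trace

variable {n W : ℕ} (c : Fin W → Fin (2 * n + 1) → Bool)

/-- the edges crossed by the walker before and at the first hit of the level `W` -/
def Tr (e : Edg) : Prop := ∃ k : ℕ, k ≤ len n 0 W (cfg n W c) ∧ edg (orb n 0 (cfg n W c) k) = e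

variable {c}

theorem ur_or_dl {s : St} (h : Kd s) : UR s ∨ DL s := by
  cases h with
  | up q t => exact Or.inl ⟨q, t, Or.inl rfl⟩
  | dn q t => exact Or.inr ⟨q, t, Or.inl rfl⟩
  | rt q t => exact Or.inl ⟨q, t, Or.inr rfl⟩
  | lf q t => exact Or.inr ⟨q, t, Or.inr rfl⟩

/-- the step lemma along the orbit -/
theorem orb_nb (hI : S_INJ) (hH : S_HIT) (hn : 1 ≤ n) (k : ℕ) (hk : k < len n 0 W (cfg n W c)) :
    (Link n W c (edg (orb n 0 (cfg n W c) k)) (edg (orb n 0 (cfg n W c) (k + 1))) ∨
      Link n W c (edg (orb n 0 (cfg n W c) (k + 1))) (edg (orb n 0 (cfg n W c) k))) ∧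
    (UR (orb n 0 (cfg n W c) k) →
      edg (orb n 0 (cfg n W c) (k + 1)) = p1U n W c (edg (orb n 0 (cfg n W c) k))) ∧
    (DL (orb n 0 (cfg n W c) k) →
      edg (orb n 0 (cfg n W c) (k + 1)) = p1D n W c (edg (orb n 0 (cfg n W c) k))) ∧
    (UR (orb n 0 (cfg n W c) (k + 1)) →
      edg (orb n 0 (cfg n W c) k) = p1D n W c (edg (orb n 0 (cfg n W c) (k + 1)))) ∧
    (DL (orb n 0 (cfg n W c) (k + 1)) →
      edg (orb n 0 (cfg n W c) k) = p1U n W c (edg (orb n 0 (cfg n W c) (k + 1)))) := by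
  have hper := per_cfg n W c
  have Hb := hit_len hH hn hper (show (0 : ℤ) ≤ W by positivity)
  have hb : Bd 0 W (orb n 0 (cfg n W c) k) :=
    bd_orb (by positivity) k fun k' hk' => Hb.2 k' (by omega)
  rw [orb_succ]
  refine step_nb c hb (Hb.2 k hk) ?_
  intro q hq h4
  have hm3 := Int.emod_add_mul_ediv q (2 * n + 1)
  apply (hI n 0 (cfg n W c) hn hper 0 k (q / (2 * n + 1))).2
  rw [orb_zero, hq]
  simp only [dn, sh, rev, up, Prod.mk.injEq, and_true]
  constructor <;> linarith

theorem edg_zero (n W : ℕ) (c : Fin W → Fin (2 * n + 1) → Bool) :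
    edg (orb n 0 (cfg n W c) 0) = Edg.v (2 * n) 0 := by
  rw [orb_zero]
  have h1 := edg_up (2 * n) 0
  rw [show ((0 : ℕ) : ℤ) = 0 from rfl] at h1
  rw [h1]

/-- the trace is connected to the start -/
theorem tr_conn (hI : S_INJ) (hH : S_HIT) (hn : 1 ≤ n) {e : Edg} (h : Tr c e) :
    Relation.EqvGen (Link n W c) (Edg.v (2 * n) 0) e := by
  obtain ⟨k, hk, rfl⟩ := h
  induction k with
  | zero => rw [edg_zero]; exact Relation.EqvGen.refl _
  | succ k ih =>
    refine Relation.EqvGen.trans _ _ _ (ih (by omega)) ?_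
    rcases (orb_nb (c := c) hI hH hn k (by omega)).1 with h | h
    · exact Relation.EqvGen.rel _ _ h
    · exact Relation.EqvGen.symm _ _ (Relation.EqvGen.rel _ _ h)

/-- the trace is closed under links -/
theorem tr_closed (hI : S_INJ) (hH : S_HIT) (hn : 1 ≤ n) {e e' : Edg} (h : Tr c e)
    (hL : Link n W c e e' ∨ Link n W c e' e) : Tr c e' := by
  obtain ⟨k, hk, rfl⟩ := h
  have hper := per_cfg n W c
  have Hb := hit_len hH hn hper (show (0 : ℤ) ≤ W by positivity)
  have hend : ∀ k, k = len n 0 W (cfg n W c) → edg (orb n 0 (cfg n W c) k) =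
      Edg.v (2 * n + dsp n 0 W (cfg n W c)) W := by
    rintro k rfl
    rw [Hb.1, edg_up]
  have hne : ∀ k, k = len n 0 W (cfg n W c) → UR (orb n 0 (cfg n W c) k) := by
    rintro k rfl
    rw [Hb.1]
    exact ⟨_, _, Or.inl rfl⟩
  rcases p1_nb hL with ⟨h1, h2⟩ | ⟨h1, h2⟩
  · -- the upper neighbour
    rcases ur_or_dl (kd_orb n 0 (cfg n W c) k) with h3 | h3
    · have hk' : k < len n 0 W (cfg n W c) := by
        rcases hk.lt_or_eq with h | h
        · exact h
        · exact absurd (hend k h) (h2 _)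
      refine ⟨k + 1, hk', ?_⟩
      rw [h1]
      exact (orb_nb hI hH hn k hk').2.1 h3
    · rcases Nat.eq_zero_or_pos k with h0 | h0
      · exfalso
        subst h0
        rw [orb_zero] at h3
        obtain ⟨q, t, h | h⟩ := h3
        · simp only [up, dn, Prod.mk.injEq] at h; omega
        · simp only [up, lf, Prod.mk.injEq] at h; omega
      · obtain ⟨k, rfl⟩ := Nat.exists_eq_succ_of_ne_zero h0.ne'
        refine ⟨k, by omega, ?_⟩
        rw [h1]
        exact (orb_nb hI hH hn k (by omega)).2.2.2.2 h3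
  · -- the lower neighbour
    rcases ur_or_dl (kd_orb n 0 (cfg n W c) k) with h3 | h3
    · rcases Nat.eq_zero_or_pos k with h0 | h0
      · exfalso
        subst h0
        rw [edg_zero] at h2
        exact h2 rfl
      · obtain ⟨k, rfl⟩ := Nat.exists_eq_succ_of_ne_zero h0.ne'
        refine ⟨k, by omega, ?_⟩
        rw [h1]
        exact (orb_nb hI hH hn k (by omega)).2.2.2.1 h3
    · have hk' : k < len n 0 W (cfg n W c) := by
        rcases hk.lt_or_eq with h | h
        · exact h
        · exfalso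
          obtain ⟨q, t, h4 | h4⟩ := h3 <;> obtain ⟨q', t', h5 | h5⟩ := hne k h
          · rw [h4] at h5; simp only [up, dn, Prod.mk.injEq] at h5; omega
          · rw [h4] at h5; simp only [dn, rt, Prod.mk.injEq] at h5; omega
          · rw [h4] at h5; simp only [up, lf, Prod.mk.injEq] at h5; omega
          · rw [h4] at h5; simp only [lf, rt, Prod.mk.injEq] at h5; omega
      refine ⟨k + 1, hk', ?_⟩
      rw [h1]
      exact (orb_nb hI hH hn k hk').2.2.1 h3

/-- the only edge of the top in the trace -/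
theorem tr_top (hH : S_HIT) (hn : 1 ≤ n) {x : ℤ} (h : Tr c (Edg.v x W)) :
    x = 2 * n + dsp n 0 W (cfg n W c) := by
  obtain ⟨k, hk, h⟩ := h
  have hper := per_cfg n W c
  have Hb := hit_len hH hn hper (show (0 : ℤ) ≤ W by positivity)
  rcases hk.lt_or_eq with h1 | h1
  · exfalso
    have h2 := lt_hit (by positivity) Hb k h1
    have hb : Bd 0 W (orb n 0 (cfg n W c) k) :=
      bd_orb (by positivity) k fun k' hk' => Hb.2 k' (by omega)
    obtain ⟨q, t, ⟨h3, h4, h5⟩ | ⟨h3, h4, h5⟩ | ⟨h3, h4, h5⟩ | ⟨h3, h4, h5⟩⟩ := hb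
    · obtain ⟨t, rfl⟩ := Int.eq_ofNat_of_zero_le h4
      rw [h3, lv_up] at h2
      rw [h3, edg_up] at h
      simp only [Edg.v.injEq] at h
      omega
    · obtain ⟨t, rfl⟩ := Int.eq_ofNat_of_zero_le h4
      rw [h3, lv_dn] at h2
      rw [h3, edg_dn] at h
      simp only [Edg.v.injEq] at h
      omega
    · obtain ⟨t, rfl⟩ := Int.eq_ofNat_of_zero_le h4
      rw [h3, edg_lf] at h
      simp at h
    · obtain ⟨t, rfl⟩ := Int.eq_ofNat_of_zero_le h4
      rw [h3, edg_rt] at h
      simp at h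
  · rw [h1, Hb.1, edg_up] at h
    simp only [Edg.v.injEq] at h
    exact h.1.symm

/-- if the interface leaves at the unpaired edge, the trace is closed under the upper caps -/
theorem tr_closed_LC (hI : S_INJ) (hH : S_HIT) (hn : 1 ≤ n)
    (hW : (rn n W c W).1.1 none = some (Fin.last (2 * n))) {e e' : Edg} (h : Tr c e)
    (hL : LC n W c e e' ∨ LC n W c e' e) : Tr c e' := by
  -- the defect
  have hg := low_good (W := W) (c := c) (Relation.EqvGen.is_equivalence (Link n W c))
    (fun x y h => Relation.EqvGen.rel _ _ h) W le_rfl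
  obtain ⟨a, ha⟩ : ∃ a, a = 2 * (n : ℤ) + (rn n W c W).2 := ⟨_, rfl⟩
  rw [← ha] at hg
  have h0 : Tr c (Edg.v (2 * n) 0) := ⟨0, Nat.zero_le _, edg_zero n W c⟩
  have hcl : ∀ x y, Relation.EqvGen (Link n W c) x y → (Tr c x ↔ Tr c y) := by
    intro x y h
    induction h with
    | rel x y h => exact ⟨fun g => tr_closed hI hH hn g (Or.inl h), fun g => tr_closed hI hH hn g (Or.inr h)⟩
    | refl x => exact Iff.rfl
    | symm x y _ ih => exact ih.symm
    | trans x y z _ _ ih1 ih2 => exact ih1.trans ih2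
  have h1 := (hcl _ _ hg.str).1 h0
  have h2 := tr_top hH hn h1
  have h3 : jx (2 * n) a = Fin.last (2 * n) := by
    have := hg.dft
    rw [hW] at this
    exact (Option.some.inj this).symm
  have hres : ∀ x : ℤ, Tr c (Edg.v x W) → ((jx (2 * n) x).val : ℕ) = 2 * n := by
    intro x hx
    rw [tr_top hH hn hx, ← h2, h3]
    rfl
  rcases hL with (hL | ⟨k, i, hi, rfl, rfl⟩) | (hL | ⟨k, i, hi, rfl, rfl⟩)
  · exact tr_closed hI hH hn h (Or.inl hL)
  · exfalso
    have := hres _ h
    have := (p1_bot_val (n := n) k hi).1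
    omega
  · exact tr_closed hI hH hn h (Or.inr hL)
  · exfalso
    have := hres _ h
    have := (p1_bot_val (n := n) k hi).2
    omega

/-- **the walker and the interface** -/
theorem tr_iff (hI : S_INJ) (hH : S_HIT) (hn : 1 ≤ n)
    (hW : (rn n W c W).1.1 none = some (Fin.last (2 * n))) (e : Edg) :
    Tr c e ↔ Relation.EqvGen (LC n W c) (Edg.v (2 * n) 0) e := by
  constructor
  · intro h
    exact Relation.EqvGen.mono (fun _ _ h => Or.inl h) _ _ (tr_conn hI hH hn h)
  · intro h
    have h0 : Tr c (Edg.v (2 * n) 0) := ⟨0, Nat.zero_le _, edg_zero n W c⟩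
    have hcl : ∀ x y, Relation.EqvGen (LC n W c) x y → (Tr c x ↔ Tr c y) := by
      intro x y h
      induction h with
      | rel x y h => exact ⟨fun g => tr_closed_LC hI hH hn hW g (Or.inl h),
          fun g => tr_closed_LC hI hH hn hW g (Or.inr h)⟩
      | refl x => exact Iff.rfl
      | symm x y _ ih => exact ih.symm
      | trans x y z _ _ ih1 ih2 => exact ih1.trans ih2
    exact (hcl _ _ h).1 h0

end trace

end Pool.Agent.L5helper96.NT
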