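import Pool.Agent.L5helper96.NT.Sp3

/-!
# Speed of the interface: the row of caps, and the number of steps
-/

set_option autoImplicit false

namespace Pool.Agent.L5helper96.NT
open Y994.KW H906K Pool.Agent.H974R3
open Pool.Agent.Y37.KW (edg edg_up edg_dn edg_lf edg_rt Bd bd_orb cfg_at)
open Pool.Agent.Y290.KW (Kd kd_orb lv lv_up lv_dn lv_rt lv_lf orb_zero orb_succ lt_hit)
open Pool.Agent.Y941.KW (per_cfg)

/-- the row of caps -/
def capr (n : ℕ) : Fin (2 * n + 1) → Bool := fun j => decide (j.val % 2 = 0 ∧ j.val < 2 * n)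

/-- the edges connected to the paired top edges of the row of caps -/
def capU (n : ℕ) : Edg → Prop
  | Edg.v j t => t = 1 ∧ j % (2 * n + 1) ≠ 2 * n
  | Edg.h j t => t = 0 ∧ (j % (2 * n + 1)) % 2 = 1

theorem res_succ (n : ℕ) (j : ℤ) : ((j + 1) % (2 * n + 1) = j % (2 * n + 1) + 1 ∧
    j % (2 * n + 1) < 2 * n) ∨ ((j + 1) % (2 * (n : ℤ) + 1) = 0 ∧ j % (2 * n + 1) = 2 * n) := by
  have hN : (0 : ℤ) < 2 * n + 1 := by positivity
  have h1 := Int.emod_nonneg j hN.ne'
  have h2 := Int.emod_lt_of_pos j hN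
  have h3 : (j + 1) % (2 * (n : ℤ) + 1) = (j % (2 * n + 1) + 1) % (2 * n + 1) := by
    rw [Int.emod_add_emod]
  rcases eq_or_ne (j % (2 * (n : ℤ) + 1)) (2 * n) with h | h
  · right
    refine ⟨?_, h⟩
    rw [h3, h]
    exact Int.emod_self
  · left
    refine ⟨?_, by omega⟩
    rw [h3]
    exact Int.emod_eq_of_lt (by omega) (by omega)

theorem capr_true {n : ℕ} {j : ℤ} : capr n (jx (2 * n) j) = true ↔
    (j % (2 * n + 1)) % 2 = 0 ∧ j % (2 * n + 1) < 2 * n := by
  have h := jx_val2 n j
  unfold capr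
  rw [decide_eq_true_iff]
  omega

theorem capr_false {n : ℕ} {j : ℤ} : capr n (jx (2 * n) j) = false ↔
    ((j % (2 * n + 1)) % 2 = 1 ∨ j % (2 * n + 1) = 2 * n) := by
  rw [← Bool.not_eq_true, capr_true]
  have hN : (0 : ℤ) < 2 * n + 1 := by positivity
  have h1 := Int.emod_nonneg j hN.ne'
  have h2 := Int.emod_lt_of_pos j hN
  omega

theorem capU_link {n : ℕ} {x y : Edg} (h : Link n 1 (fun _ => capr n) x y) :
    capU n x ↔ capU n y := by
  have hN : (0 : ℤ) < 2 * n + 1 := by positivity
  cases h with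
  | br j t h =>
    have ht : (t : ℕ) = 0 := by omega
    have h1 := res_succ n j
    have g1 := Int.emod_nonneg j hN.ne'
    have g2 := Int.emod_lt_of_pos j hN
    rw [capr_false] at h
    simp only [capU, ht, true_and]
    omega
  | lt j t h =>
    have ht : (t : ℕ) = 0 := by omega
    have h1 := res_succ n j
    have g1 := Int.emod_nonneg j hN.ne'
    have g2 := Int.emod_lt_of_pos j hN
    rw [capr_false] at h
    simp only [capU, ht, true_and]
    omega
  | bl j t h =>
    have ht : (t : ℕ) = 0 := by omega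
    have h1 := res_succ n j
    have g1 := Int.emod_nonneg j hN.ne'
    have g2 := Int.emod_lt_of_pos j hN
    rw [capr_true] at h
    simp only [capU, ht, true_and]
    omega
  | rt j t h =>
    have ht : (t : ℕ) = 0 := by omega
    have h1 := res_succ n j
    have g1 := Int.emod_nonneg j hN.ne'
    have g2 := Int.emod_lt_of_pos j hN
    rw [capr_true] at h
    simp only [capU, ht, true_and]
    omega
  | bot k i hi => simp [capU]

/-- the defect after the row of caps -/
theorem capr_defect (n : ℕ) (σ : Pat (2 * n + 1)) :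
    (Tc (2 * n) (capr n) σ).1 none = some (Fin.last (2 * n)) := by
  obtain ⟨p, hp⟩ : ∃ p, σ.1 none = some p := by
    rcases h : σ.1 none with _ | p
    · exact absurd h (σ.2.nofix none)
    · exact ⟨p, rfl⟩
  obtain ⟨a, -, -, ha⟩ := p1_ex (2 * n) 0 p
  rw [zero_add] at ha
  have hR : Equivalence (fun x y : Edg => capU n x ↔ capU n y) :=
    ⟨fun _ => Iff.rfl, fun h => h.symm, fun h1 h2 => h1.trans h2⟩
  have hv : ∀ x y : ℤ, (capU n (Edg.v x ((0 : Fin 1) : ℕ)) ↔ capU n (Edg.v y ((0 : Fin 1) : ℕ))) := by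
    intro x y
    simp [capU]
  have hg : P1Good (2 * n) (fun x y : Edg => capU n x ↔ capU n y) (Edg.v 0 0)
      (fun x => Edg.v x ((0 : Fin 1) : ℕ)) σ a :=
    ⟨by rw [hp, ha], by simpa using hv 0 a, fun w r r' _ _ _ _ _ _ => hv _ _⟩
  have h1 := p1_row (n := n) (M := 1) (c := fun _ => capr n) 0 hR (fun x y h => capU_link h) hg
  have h2 := h1.str
  simp only [Fin.val_zero, zero_add] at h2
  have h3 : ¬ capU n (Edg.v 0 0) := by simp [capU]
  have h4 := (not_congr h2).1 h3
  simp only [capU, true_and, ne_eq, Decidable.not_not] at h4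
  rw [h1.dft]
  congr 1
  have h5 := jx_val2 n (a + dTc (2 * n) ((fun _ : Fin 1 => capr n) 0) σ)
  rw [h4] at h5
  ext
  rw [Fin.val_last]
  exact_mod_cast h5

/-! ## the number of steps -/

section count

variable {n W : ℕ} {c : Fin W → Fin (2 * n + 1) → Bool}

/-- the times on the level `t` -/
noncomputable def tms (n W : ℕ) (c : Fin W → Fin (2 * n + 1) → Bool) (t : ℕ) : Finset ℕ :=
  (Finset.range (len n 0 W (cfg n W c) + 1)).filter (fun k => lv (orb n 0 (cfg n W c) k) = 2 * t)

theorem xm_up (q t : ℤ) : xm (up q t) = q := by simp [xm, up]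
theorem xm_dn (q t : ℤ) : xm (dn q t) = q := by simp [xm, dn]

theorem lev_v {s : St} (h : Kd s) {t : ℕ} (hl : lv s = 2 * t) :
    s = up (xm s) t ∨ s = dn (xm s) t := by
  cases h with
  | up q t' =>
    rw [lv_up] at hl
    left
    rw [xm_up]
    congr 1
    omega
  | dn q t' =>
    rw [lv_dn] at hl
    right
    rw [xm_dn]
    congr 1
    omega
  | rt q t' => rw [lv_rt] at hl; omega
  | lf q t' => rw [lv_lf] at hl; omega

open Classical in
/-- the number of times on a level -/
theorem card_tms (hV : S_VAL) (hI : S_INJ) (hn : 1 ≤ n) (t : ℕ) :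
    (tms n W c t).card = (Finset.univ.filter (fun j : Fin (2 * n + 1) =>
      ∃ x : ℤ, jx (2 * n) x = j ∧ Tr c (Edg.v x t))).card := by
  have hper := per_cfg n W c
  apply Finset.card_bij (fun k _ => jx (2 * n) (xm (orb n 0 (cfg n W c) k)))
  · intro k hk
    unfold tms at hk
    rw [Finset.mem_filter, Finset.mem_range] at hk
    rw [Finset.mem_filter]
    refine ⟨Finset.mem_univ _, _, rfl, k, by omega, ?_⟩
    rcases lev_v (kd_orb n 0 (cfg n W c) k) hk.2 with h | h
    · conv_lhs => rw [h]
      exact edg_up _ _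
    · conv_lhs => rw [h]
      exact edg_dn _ _
  · intro k hk k' hk' h
    unfold tms at hk hk'
    rw [Finset.mem_filter] at hk hk'
    rw [p1_jx_jx] at h
    have h1 : xm (orb n 0 (cfg n W c) k) % (2 * (n : ℤ) + 1) =
        xm (orb n 0 (cfg n W c) k') % (2 * n + 1) := by
      rw [Int.emod_eq_emod_iff_emod_sub_eq_zero]
      apply Int.emod_eq_zero_of_dvd
      push_cast at h
      exact h
    by_contra hne
    obtain ⟨z, hz | hz⟩ := key_eq (kd_orb n 0 (cfg n W c) k) (kd_orb n 0 (cfg n W c) k') h1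
      (by rw [hk.2, hk'.2])
    · exact (hI n 0 (cfg n W c) hn hper k k' z).1 hne hz
    · exact (hI n 0 (cfg n W c) hn hper k k' z).2 hz
  · intro j hj
    rw [Finset.mem_filter] at hj
    obtain ⟨-, x, hx, k, hk, he⟩ := hj
    have hkd := kd_orb n 0 (cfg n W c) k
    have hva := (hV n 0 (cfg n W c) k hn hper)
    obtain ⟨-, v1, v2, -, -⟩ := hva
    generalize horb : orb n 0 (cfg n W c) k = s at hkd v1 v2 he
    have key : lv s = 2 * t ∧ xm s = x := by
      cases hkd with
      | up q t' =>
        simp only [up] at v1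
        obtain ⟨t', rfl⟩ := Int.eq_ofNat_of_zero_le v1
        rw [edg_up] at he
        simp only [Edg.v.injEq] at he
        rw [lv_up, xm_up]
        omega
      | dn q t' =>
        simp only [dn] at v1
        obtain ⟨t', rfl⟩ := Int.eq_ofNat_of_zero_le v1
        rw [edg_dn] at he
        simp only [Edg.v.injEq] at he
        rw [lv_dn, xm_dn]
        omega
      | rt q t' =>
        exfalso
        simp only [Pool.Agent.Y290.KW.rt] at v2
        obtain ⟨t', rfl⟩ := Int.eq_ofNat_of_zero_le v2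
        have h1 := edg_rt q t'
        change edg (Pool.Agent.Y290.KW.rt q t') = _ at h1
        rw [h1] at he
        simp at he
      | lf q t' =>
        exfalso
        simp only [Pool.Agent.Y290.KW.lf] at v1
        obtain ⟨t', rfl⟩ := Int.eq_ofNat_of_zero_le v1
        have h1 := edg_lf q t'
        change edg (Pool.Agent.Y290.KW.lf q t') = _ at h1
        rw [h1] at he
        simp at he
    refine ⟨k, ?_, ?_⟩
    · unfold tms
      rw [Finset.mem_filter, Finset.mem_range]
      exact ⟨by omega, by rw [horb]; exact key.1⟩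
    · rw [horb, key.2, hx]

/-- parity of the levels along the walk -/
theorem lv_step (n : ℕ) (σ : Cfg) (k : ℕ) :
    (lv (orb n 0 σ k) % 2 = 1 → lv (orb n 0 σ (k + 1)) % 2 = 0) ∧
    (lv (orb n 0 σ k) % 2 = 0 → lv (orb n 0 σ (k + 1)) % 2 = 0 → lv (orb n 0 σ (k + 1)) = 0) := by
  rw [orb_succ]
  have hkd := kd_orb n 0 σ k
  generalize orb n 0 σ k = s at hkd
  cases hkd with
  | up q t =>
    rw [lv_up, Pool.Agent.Y37.KW.wk_up, Pool.Agent.Y290.KW.nxt_up]
    split_ifs
    · rw [lv_rt]; omega
    · rw [lv_lf]; omega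
  | dn q t =>
    rw [lv_dn]
    rcases eq_or_ne t 0 with rfl | h
    · rw [Pool.Agent.Y37.KW.wk_cap]
      split_ifs
      · rw [lv_up]; omega
      · rw [lv_up]; omega
    · rw [Pool.Agent.Y37.KW.wk_dn _ _ _ _ _ h, Pool.Agent.Y290.KW.nxt_dn]
      split_ifs
      · rw [lv_lf]; omega
      · rw [lv_rt]; omega
  | rt q t =>
    have h1 := Pool.Agent.Y37.KW.wk_rt n 0 σ q t
    change wk n 0 σ (Pool.Agent.Y290.KW.rt q t) = nxt σ (Pool.Agent.Y290.KW.rt q t) at h1
    rw [lv_rt, h1, Pool.Agent.Y290.KW.nxt_rt]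
    split_ifs
    · rw [lv_dn]; omega
    · rw [lv_up]; omega
  | lf q t =>
    have h1 := Pool.Agent.Y37.KW.wk_lf n 0 σ q t
    change wk n 0 σ (Pool.Agent.Y290.KW.lf q t) = nxt σ (Pool.Agent.Y290.KW.lf q t) at h1
    rw [lv_lf, h1, Pool.Agent.Y290.KW.nxt_lf]
    split_ifs
    · rw [lv_up]; omega
    · rw [lv_dn]; omega

theorem card_tms_le (hV : S_VAL) (hI : S_INJ) (hn : 1 ≤ n) (t : ℕ) : (tms n W c t).card ≤ 2 * n + 1 := by
  classical
  rw [card_tms hV hI hn t]
  refine (Finset.card_le_univ _).trans ?_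
  simp

/-- **the number of steps from the numbers of edges on the levels** -/
theorem steps (hV : S_VAL) (hI : S_INJ) (hH : S_HIT) (hn : 1 ≤ n) :
    (len n 0 W (cfg n W c) : ℤ) + 1 ≤ 2 * ∑ t ∈ Finset.range (W + 1), ((tms n W c t).card : ℤ) ∧
    2 * ∑ t ∈ Finset.range (W + 1), ((tms n W c t).card : ℤ) ≤
      (len n 0 W (cfg n W c) : ℤ) + 1 + (2 * n + 2) := by
  classical
  have hper := per_cfg n W c
  have Hb := hit_len hH hn hper (show (0 : ℤ) ≤ W by positivity)
  obtain ⟨L, hL⟩ : ∃ L, L = len n 0 W (cfg n W c) := ⟨_, rfl⟩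
  rw [← hL] at Hb
  obtain ⟨A, hA⟩ : ∃ A : Finset ℕ, A = (Finset.range (L + 1)).filter
    (fun k => lv (orb n 0 (cfg n W c) k) % 2 = 0) := ⟨_, rfl⟩
  obtain ⟨B, hB⟩ : ∃ B : Finset ℕ, B = (Finset.range (L + 1)).filter
    (fun k => ¬ lv (orb n 0 (cfg n W c) k) % 2 = 0) := ⟨_, rfl⟩
  have hAB : A.card + B.card = L + 1 := by
    rw [hA, hB, Finset.card_filter_add_card_filter_not]
    simp
  -- the even times
  have hAsum : A.card = ∑ t ∈ Finset.range (W + 1), (tms n W c t).card := by
    rw [← Finset.card_biUnion]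
    · congr 1
      ext k
      rw [hA, Finset.mem_filter, Finset.mem_biUnion]
      constructor
      · rintro ⟨h1, h2⟩
        have hv := (hV n 0 (cfg n W c) k hn hper)
        obtain ⟨-, v1, v2, -, -⟩ := hv
        have h3 : lv (orb n 0 (cfg n W c) k) ≤ 2 * W := by
          rw [Finset.mem_range] at h1
          rcases (show k ≤ L by omega).lt_or_eq with h | h
          · exact (lt_hit (by positivity) Hb k h).le
          · rw [h, Hb.1, lv_up]
        have h4 : 0 ≤ lv (orb n 0 (cfg n W c) k) := by unfold lv; omega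
        refine ⟨(lv (orb n 0 (cfg n W c) k) / 2).toNat, ?_, ?_⟩
        · rw [Finset.mem_range]; omega
        · unfold tms
          rw [Finset.mem_filter, ← hL]
          exact ⟨h1, by omega⟩
      · rintro ⟨t, _, h2⟩
        unfold tms at h2
        rw [Finset.mem_filter, ← hL] at h2
        exact ⟨h2.1, by omega⟩
    · intro t _ t' _ htt
      rw [Function.onFun, Finset.disjoint_left]
      intro k hk hk'
      unfold tms at hk hk'
      rw [Finset.mem_filter] at hk hk'
      omega
  have hlast : lv (orb n 0 (cfg n W c) L) % 2 = 0 := by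
    rw [Hb.1, lv_up]; omega
  -- `B` injects into `A`
  have hBA : B.card ≤ A.card := by
    apply Finset.card_le_card_of_injOn (fun k => k + 1)
    · intro k hk
      rw [hB, Finset.coe_filter, Set.mem_ofPred_eq, Finset.mem_range] at hk
      rw [hA, Finset.coe_filter, Set.mem_ofPred_eq, Finset.mem_range]
      show k + 1 < L + 1 ∧ lv (orb n 0 (cfg n W c) (k + 1)) % 2 = 0
      have hkL : k ≠ L := by
        rintro rfl
        exact hk.2 hlast
      exact ⟨by omega, (lv_step n _ k).1 (by omega)⟩
    · intro k _ k' _ h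
      simpa using h
  -- `A` without `0` and the times on the level zero injects into `B`
  have hAB' : A.card ≤ B.card + (1 + (2 * n + 1)) := by
    have h1 : A ⊆ (B.image (fun k => k + 1)) ∪ ({0} ∪ tms n W c 0) := by
      intro k hk
      rw [hA, Finset.mem_filter, Finset.mem_range] at hk
      rw [Finset.mem_union, Finset.mem_union, Finset.mem_image, Finset.mem_singleton]
      rcases Nat.eq_zero_or_pos k with h0 | h0
      · exact Or.inr (Or.inl h0)
      · obtain ⟨k, rfl⟩ := Nat.exists_eq_succ_of_ne_zero h0.ne'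
        by_cases h2 : lv (orb n 0 (cfg n W c) k) % 2 = 0
        · right; right
          unfold tms
          rw [Finset.mem_filter, ← hL, Finset.mem_range]
          have := (lv_step n (cfg n W c) k).2 h2 hk.2
          exact ⟨by omega, by simpa using this⟩
        · left
          refine ⟨k, ?_, rfl⟩
          rw [hB, Finset.mem_filter, Finset.mem_range]
          exact ⟨by omega, h2⟩
    refine (Finset.card_le_card h1).trans ((Finset.card_union_le _ _).trans ?_)
    have h2 : (B.image (fun k => k + 1)).card ≤ B.card := Finset.card_image_le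
    have h3 : (({0} : Finset ℕ) ∪ tms n W c 0).card ≤ 1 + (2 * n + 1) := by
      refine (Finset.card_union_le _ _).trans ?_
      have := card_tms_le (W := W) (c := c) hV hI hn 0
      simp only [Finset.card_singleton]
      omega
    omega
  have hs : (∑ t ∈ Finset.range (W + 1), ((tms n W c t).card : ℤ)) = A.card := by
    rw [hAsum]
    push_cast
    rfl
  rw [hs, ← hL]
  constructor
  · omega
  · push_cast
    omega

end count

end Pool.Agent.L5helper96.NT
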