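import Pool.Agent.L5helper96.NT.Sp4
import Pool.Agent.H906R3.K6.P2a
import Pool.Agent.H974R3.Homog

/-!
# Speed of the interface: convergence of the pattern chain
-/

set_option autoImplicit false

namespace Pool.Agent.L5helper96.NT
open Y994.KW H906K Pool.Agent.H974R3

/-- total variation -/
noncomputable def Dv {n : ℕ} (u : Pat (2 * n + 1) → ℝ) : ℝ := ∑ σ, |u σ|

theorem Dv_nonneg {n : ℕ} (u : Pat (2 * n + 1) → ℝ) : 0 ≤ Dv u :=
  Finset.sum_nonneg fun _ _ => abs_nonneg _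

theorem Dv_TL {n : ℕ} (u : Pat (2 * n + 1) → ℝ) : Dv (MK.TL (2 * n) u) ≤ 2 ^ (2 * n + 1) * Dv u := by
  unfold Dv
  rw [← MK.sum_TL]
  refine Finset.sum_le_sum fun σ _ => ?_
  rw [MK.TL_apply, MK.TL_apply]
  refine (Finset.abs_sum_le_sum_abs _ _).trans (Finset.sum_le_sum fun c _ => ?_)
  simp only [push]
  refine (Finset.abs_sum_le_sum_abs _ _).trans (Finset.sum_le_sum fun x _ => ?_)
  split_ifs <;> simp

theorem sum_TL_iter {n : ℕ} (K : ℕ) (u : Pat (2 * n + 1) → ℝ) :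
    ∑ σ, ((MK.TL (2 * n))^[K] u) σ = (2 ^ (2 * n + 1)) ^ K * ∑ σ, u σ := by
  induction K with
  | zero => simp
  | succ K ih => rw [Function.iterate_succ_apply', MK.sum_TL, ih, pow_succ]; ring

/-- contraction -/
theorem Dv_contr (n : ℕ) : ∃ K : ℕ, 1 ≤ K ∧ ∀ u : Pat (2 * n + 1) → ℝ, ∑ σ, u σ = 0 →
    Dv ((MK.TL (2 * n))^[K] u) ≤ ((2 ^ (2 * n + 1)) ^ K - 1) * Dv u := by
  classical
  obtain ⟨K0, w0, hw0, hbase0⟩ := exists_word n
  -- one more row to have `1 ≤ K`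
  obtain ⟨K, w, hw, hK, b, hbase⟩ : ∃ K w, IsWord (2 * n) K w ∧ 1 ≤ K ∧ ∃ b : Pat (2 * n + 1),
      ∀ σ, w σ = b := by
    refine ⟨K0 + 1, _, IsWord.step (fun _ => false) w0 K0 hw0, by omega,
      Tc (2 * n) (fun _ => false) (base n), fun σ => ?_⟩
    rw [Function.comp_apply, hbase0]
  refine ⟨K, hK, fun u hu => ?_⟩
  obtain ⟨p, hp⟩ : ∃ p : Pat (2 * n + 1) → ℝ, p = fun σ => max (u σ) 0 := ⟨_, rfl⟩
  obtain ⟨q, hq⟩ : ∃ q : Pat (2 * n + 1) → ℝ, q = fun σ => max (-u σ) 0 := ⟨_, rfl⟩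
  have hp0 : ∀ σ, 0 ≤ p σ := fun σ => by rw [hp]; exact le_max_right _ _
  have hq0 : ∀ σ, 0 ≤ q σ := fun σ => by rw [hq]; exact le_max_right _ _
  have hupq : u = p - q := by
    funext σ
    rw [Pi.sub_apply, hp, hq]
    simp only
    rcases le_total 0 (u σ) with h | h
    · rw [max_eq_left h, max_eq_right (by linarith)]; ring
    · rw [max_eq_right h, max_eq_left (by linarith)]; ring
  have habs : ∀ σ, |u σ| = p σ + q σ := by
    intro σ
    rw [hp, hq]
    simp only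
    rcases le_total 0 (u σ) with h | h
    · rw [max_eq_left h, max_eq_right (by linarith), abs_of_nonneg h]; ring
    · rw [max_eq_right h, max_eq_left (by linarith), abs_of_nonpos h]; ring
  have hsum : ∑ σ, p σ = ∑ σ, q σ := by
    have h1 : ∑ σ, (p σ - q σ) = 0 := by
      rw [← hu, hupq]
      rfl
    rw [Finset.sum_sub_distrib] at h1
    linarith
  have hD : Dv u = ∑ σ, p σ + ∑ σ, q σ := by
    unfold Dv
    rw [← Finset.sum_add_distrib]
    exact Finset.sum_congr rfl fun σ _ => habs σ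
  obtain ⟨a1, a2⟩ := MK.TL_iter_ge (2 * n) K w hw p hp0
  obtain ⟨b1, b2⟩ := MK.TL_iter_ge (2 * n) K w hw q hq0
  have hpush : ∀ v : Pat (2 * n + 1) → ℝ, push w v b = ∑ σ, v σ := by
    intro v
    unfold push
    exact Finset.sum_congr rfl fun σ _ => if_pos (hbase σ)
  have a3 := a2 b
  have b3 := b2 b
  rw [hpush] at a3 b3
  have hiter : (MK.TL (2 * n))^[K] u = (MK.TL (2 * n))^[K] p - (MK.TL (2 * n))^[K] q := by
    rw [hupq, iterate_map_sub]
  obtain ⟨A, hA⟩ : ∃ A, A = (MK.TL (2 * n))^[K] p := ⟨_, rfl⟩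
  obtain ⟨B, hB⟩ : ∃ B, B = (MK.TL (2 * n))^[K] q := ⟨_, rfl⟩
  rw [← hA] at hiter a1 a3
  rw [← hB] at hiter b1 b3
  have hAs : ∑ σ, A σ = (2 ^ (2 * n + 1)) ^ K * ∑ σ, p σ := by rw [hA, sum_TL_iter]
  have hBs : ∑ σ, B σ = (2 ^ (2 * n + 1)) ^ K * ∑ σ, q σ := by rw [hB, sum_TL_iter]
  have hle : Dv ((MK.TL (2 * n))^[K] u) ≤
      ∑ σ, ((A σ + B σ) - (if σ = b then ∑ σ, p σ + ∑ σ, q σ else 0)) := by
    rw [hiter]
    unfold Dv
    refine Finset.sum_le_sum fun σ _ => ?_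
    rw [Pi.sub_apply]
    split_ifs with h
    · subst h
      rw [abs_le]
      constructor <;> linarith
    · rw [sub_zero, abs_le]
      have := a1 σ
      have := b1 σ
      constructor <;> linarith
  refine hle.trans (le_of_eq ?_)
  rw [Finset.sum_sub_distrib, Finset.sum_add_distrib, hAs, hBs, Finset.sum_ite_eq' Finset.univ b,
    if_pos (Finset.mem_univ _), hD]
  ring

/-- the law of the pattern after `s` rows -/
noncomputable def pl (n : ℕ) (ρ : Pat (2 * n + 1)) (s : ℕ) (σ : Pat (2 * n + 1)) : ℝ :=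
  Ea s (fun c : Fin s → Fin (2 * n + 1) → Bool => if (run (2 * n) s c ρ).1 = σ then (1 : ℝ) else 0)

theorem pl_succ (n : ℕ) (ρ : Pat (2 * n + 1)) (s : ℕ) :
    MK.TL (2 * n) (pl n ρ s) = fun σ => 2 ^ (2 * n + 1) * pl n ρ (s + 1) σ := by
  classical
  funext σ
  have hcard : (Fintype.card (Fin (2 * n + 1) → Bool) : ℝ) = 2 ^ (2 * n + 1) := by
    rw [Fintype.card_fun, Fintype.card_bool, Fintype.card_fin]
    push_cast
    rfl
  obtain ⟨T, hT⟩ : ∃ T : ℝ, T = 2 ^ (2 * n + 1) := ⟨_, rfl⟩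
  have hT0 : T ≠ 0 := by rw [hT]; positivity
  have e1 : pl n ρ (s + 1) σ = (∑ c : Fin s → Fin (2 * n + 1) → Bool,
      ∑ r : Fin (2 * n + 1) → Bool, if Tc (2 * n) r (run (2 * n) s c ρ).1 = σ then (1 : ℝ) else 0) /
      T ^ (s + 1) := by
    unfold pl Ea
    rw [hcard, ← hT, p2_snoc (α := Fin (2 * n + 1) → Bool) s]
    simp only [p2_run]
  have e2 : ∀ r : Fin (2 * n + 1) → Bool, push (Tc (2 * n) r) (pl n ρ s) σ =
      (∑ c : Fin s → Fin (2 * n + 1) → Bool,
        if Tc (2 * n) r (run (2 * n) s c ρ).1 = σ then (1 : ℝ) else 0) / T ^ s := by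
    intro r
    unfold push pl Ea
    rw [hcard, ← hT]
    have e3 : ∀ x : Pat (2 * n + 1), (if Tc (2 * n) r x = σ then
        (∑ c : Fin s → Fin (2 * n + 1) → Bool, if (run (2 * n) s c ρ).1 = x then (1 : ℝ) else 0) /
          T ^ s else 0) = ∑ c : Fin s → Fin (2 * n + 1) → Bool,
        (if (run (2 * n) s c ρ).1 = x then (if Tc (2 * n) r x = σ then (1 : ℝ) else 0) else 0) /
          T ^ s := by
      intro x
      rw [← Finset.sum_div]
      split_ifs
      · rfl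
      · simp
    rw [Finset.sum_congr rfl fun x _ => e3 x, Finset.sum_comm, Finset.sum_div]
    refine Finset.sum_congr rfl fun c _ => ?_
    rw [← Finset.sum_div]
    congr 1
    simp
  rw [MK.TL_apply, e1, Finset.sum_congr rfl fun r _ => e2 r, ← Finset.sum_div, Finset.sum_comm, ← hT,
    pow_succ, div_eq_iff (pow_ne_zero _ hT0)]
  field_simp

theorem pl_sum (n : ℕ) (ρ : Pat (2 * n + 1)) (s : ℕ) : ∑ σ, pl n ρ s σ = 1 := by
  classical
  unfold pl Ea
  rw [← Finset.sum_div, Finset.sum_comm]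
  simp only [Finset.sum_ite_eq, Finset.mem_univ, if_true]
  rw [Finset.sum_const, Finset.card_univ, Fintype.card_fun, Fintype.card_fin, nsmul_eq_mul, mul_one]
  push_cast
  rw [div_self]
  have : 0 < Fintype.card (Fin (2 * n + 1) → Bool) := Fintype.card_pos
  positivity

theorem pl_nonneg (n : ℕ) (ρ : Pat (2 * n + 1)) (s : ℕ) (σ : Pat (2 * n + 1)) : 0 ≤ pl n ρ s σ := by
  have h := Ea_mono' (α := Fin (2 * n + 1) → Bool) s (f := fun _ => 0)
    (g := fun c => if (run (2 * n) s c ρ).1 = σ then (1 : ℝ) else 0)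
    (fun c => by split_ifs <;> norm_num)
  rw [Ea_const'] at h
  exact h

/-- the distance to the stationary law is summable -/
theorem pl_conv (n : ℕ) (μ : Pat (2 * n + 1) → ℝ) (hμ : ∑ σ, μ σ = 1)
    (hst : ∀ σ, ∑ c : Fin (2 * n + 1) → Bool, push (Tc (2 * n) c) μ σ
      = 2 ^ (2 * n + 1) * μ σ) : ∃ C : ℝ, 0 ≤ C ∧ ∀ (ρ : Pat (2 * n + 1)) (S : ℕ),
      ∑ s ∈ Finset.range S, Dv (fun σ => pl n ρ s σ - μ σ) ≤ C := by
  obtain ⟨K, hK, hcon⟩ := Dv_contr n
  obtain ⟨T, hT⟩ : ∃ T : ℝ, T = 2 ^ (2 * n + 1) := ⟨_, rfl⟩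
  have hT1 : 1 ≤ T := by rw [hT]; exact one_le_pow₀ (by norm_num)
  have hT0 : 0 < T := by linarith
  have hTK : 0 < T ^ K := by positivity
  obtain ⟨D0, hD0⟩ : ∃ D0 : ℝ, D0 = 1 + ∑ σ, |μ σ| := ⟨_, rfl⟩
  have hD0n : 0 ≤ D0 := by rw [hD0]; positivity
  refine ⟨K * D0 * T ^ K, by positivity, fun ρ S => ?_⟩
  obtain ⟨u, hu⟩ : ∃ u : ℕ → Pat (2 * n + 1) → ℝ, u = fun s σ => pl n ρ s σ - μ σ := ⟨_, rfl⟩
  have hus : ∀ s, ∑ σ, u s σ = 0 := by
    intro s
    rw [hu]
    simp only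
    rw [Finset.sum_sub_distrib, pl_sum, hμ, sub_self]
  have hstep : ∀ s, MK.TL (2 * n) (u s) = T • u (s + 1) := by
    intro s
    have e : u s = pl n ρ s - μ := by rw [hu]; rfl
    rw [e, map_sub, pl_succ]
    funext σ
    have h1 : MK.TL (2 * n) μ σ = 2 ^ (2 * n + 1) * μ σ := by rw [MK.TL_apply]; exact hst σ
    simp only [Pi.sub_apply, Pi.smul_apply, smul_eq_mul, h1, ← hT]
    rw [hu]
    ring
  have hiter : ∀ k s, (MK.TL (2 * n))^[k] (u s) = T ^ k • u (s + k) := by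
    intro k
    induction k with
    | zero => intro s; simp
    | succ k ih =>
      intro s
      rw [Function.iterate_succ_apply', ih, map_smul, hstep, smul_smul, pow_succ, add_assoc]
  have hDsmul : ∀ (r : ℝ) (v : Pat (2 * n + 1) → ℝ), 0 ≤ r → Dv (r • v) = r * Dv v := by
    intro r v hr
    unfold Dv
    rw [Finset.mul_sum]
    refine Finset.sum_congr rfl fun σ _ => ?_
    rw [Pi.smul_apply, smul_eq_mul, abs_mul, abs_of_nonneg hr]
  have hcon' : ∀ s, Dv (u (s + K)) ≤ (1 - 1 / T ^ K) * Dv (u s) := by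
    intro s
    have h1 := hcon (u s) (hus s)
    rw [hiter, hDsmul _ _ hTK.le, ← hT] at h1
    have h2 : (1 - 1 / T ^ K) * Dv (u s) = (T ^ K - 1) * Dv (u s) / T ^ K := by field_simp
    rw [h2, le_div_iff₀ hTK]
    linarith
  have hD : ∀ s, Dv (u s) ≤ D0 := by
    intro s
    unfold Dv
    calc ∑ σ, |u s σ| ≤ ∑ σ, (|pl n ρ s σ| + |μ σ|) := by
          refine Finset.sum_le_sum fun σ _ => ?_
          rw [hu]
          exact abs_sub _ _
      _ = D0 := by
          rw [Finset.sum_add_distrib, hD0]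
          congr 1
          rw [← pl_sum n ρ s]
          exact Finset.sum_congr rfl fun σ _ => abs_of_nonneg (pl_nonneg n ρ s σ)
  have hmain : ∀ S, ∑ s ∈ Finset.range (K + S), Dv (u s) ≤ K * D0 * T ^ K := by
    intro S
    have h1 : ∑ s ∈ Finset.range (K + S), Dv (u s) =
        ∑ s ∈ Finset.range K, Dv (u s) + ∑ s ∈ Finset.range S, Dv (u (s + K)) := by
      rw [Finset.sum_range_add]
      congr 1
      exact Finset.sum_congr rfl fun s _ => by rw [add_comm]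
    have h2 : ∑ s ∈ Finset.range K, Dv (u s) ≤ K * D0 := by
      refine (Finset.sum_le_sum fun s _ => hD s).trans ?_
      rw [Finset.sum_const, Finset.card_range, nsmul_eq_mul]
    have h3 : ∑ s ∈ Finset.range S, Dv (u (s + K)) ≤
        (1 - 1 / T ^ K) * ∑ s ∈ Finset.range (K + S), Dv (u s) := by
      have h4 : ∑ s ∈ Finset.range S, Dv (u (s + K)) ≤
          (1 - 1 / T ^ K) * ∑ s ∈ Finset.range S, Dv (u s) := by
        rw [Finset.mul_sum]
        exact Finset.sum_le_sum fun s _ => hcon' s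
      refine h4.trans ?_
      apply mul_le_mul_of_nonneg_left
      · apply Finset.sum_le_sum_of_subset_of_nonneg
        · exact Finset.range_mono (by omega)
        · intro i _ _
          exact Dv_nonneg _
      · have : 1 / T ^ K ≤ 1 := by
          rw [div_le_one hTK]
          exact one_le_pow₀ hT1
        linarith
    obtain ⟨Z, hZ⟩ : ∃ Z, Z = ∑ s ∈ Finset.range (K + S), Dv (u s) := ⟨_, rfl⟩
    rw [← hZ] at h1 h3 ⊢
    have h5 : 1 / T ^ K * Z ≤ K * D0 := by nlinarith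
    rw [one_div, inv_mul_le_iff₀ hTK] at h5
    linarith
  rw [hu] at hmain
  refine le_trans ?_ (hmain S)
  apply Finset.sum_le_sum_of_subset_of_nonneg
  · exact Finset.range_mono (by omega)
  · intro i _ _
    exact Dv_nonneg _

end Pool.Agent.L5helper96.NT
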