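import Pool.Agent.L5helper96.NT.Sp5

/-!
# Speed of the interface: expectations
-/

set_option autoImplicit false

namespace Pool.Agent.L5helper96.NT
open Y994.KW H906K Pool.Agent.H974R3 Pool.Agent.H974R3.Value Filter Topology

/-- running a chain from the other side -/
theorem run_cons (m s : ℕ) (d : Fin (s + 1) → Fin (m + 1) → Bool) (ρ : Pat (m + 1)) :
    (run m (s + 1) d ρ).1 = (run m s (fun i => d i.succ) (Tc m (d 0) ρ)).1 := by
  induction s with
  | zero => rfl
  | succ s ih =>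
    have h1 : (run m (s + 1 + 1) d ρ).1 =
        Tc m (d (Fin.last (s + 1))) (run m (s + 1) (fun i => d i.castSucc) ρ).1 := rfl
    have h2 : (run m (s + 1) (fun i => d i.succ) (Tc m (d 0) ρ)).1 =
        Tc m (d (Fin.last s).succ) (run m s (fun i => d i.castSucc.succ) (Tc m (d 0) ρ)).1 := rfl
    rw [h1, h2, ih (fun i => d i.castSucc)]
    rfl

/-- the rows with the row of caps at the top -/
def capd {n : ℕ} (M : ℕ) (c : Fin M → Fin (2 * n + 1) → Bool) : Fin (M + 1) → Fin (2 * n + 1) → Bool :=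
  fun t => if h : (t : ℕ) < M then c ⟨t, h⟩ else capr n

/-- the upper start -/
noncomputable def rho0 (n : ℕ) : Pat (2 * n + 1) := Tc (2 * n) (fun j => !capr n j) (start n)

theorem low_pat {n : ℕ} (t s : ℕ) (c : Fin (t + s) → Fin (2 * n + 1) → Bool) :
    (rn n (t + s + 1) (capd (t + s) c) t).1 = (run (2 * n) t (lft t s c) (start n)).1 := by
  unfold rn
  congr 2
  funext i
  unfold pre capd lft
  rw [dif_pos (show (i : ℕ) < t + s + 1 by omega),
    dif_pos (show ((⟨(i : ℕ), by omega⟩ : Fin (t + s + 1)) : ℕ) < t + s by simp only; omega)]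
  rfl

theorem upp_pat {n : ℕ} (t s : ℕ) (c : Fin (t + s) → Fin (2 * n + 1) → Bool) :
    up' n (t + s + 1) (capd (t + s) c) t = (run (2 * n) s (rc (rgt t s c)) (rho0 n)).1 := by
  unfold up' rn
  rw [show t + s + 1 - t = s + 1 by omega, run_cons]
  congr 2
  · funext i
    have hi := i.2
    unfold pre
    rw [dif_pos (show ((i.succ : Fin (s + 1)) : ℕ) < t + s + 1 by rw [Fin.val_succ]; omega)]
    funext j
    unfold rc capd rgt
    congr 1
    have e1 : ((Fin.rev (⟨((i.succ : Fin (s + 1)) : ℕ), by rw [Fin.val_succ]; omega⟩ :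
        Fin (t + s + 1)) : Fin (t + s + 1)) : ℕ) = t + s - 1 - i := by
      rw [Fin.val_rev]
      simp only [Fin.val_succ]
      omega
    rw [dif_pos (by rw [e1]; omega)]
    congr 1
    ext
    rw [Fin.val_natAdd]
    simp only [Fin.val_rev, Fin.val_succ]
    omega
  · unfold rho0
    congr 1
    unfold pre
    rw [dif_pos (show ((0 : Fin (s + 1)) : ℕ) < t + s + 1 by simp)]
    funext j
    unfold rc capd
    congr 1
    rw [dif_neg]
    rw [Fin.val_rev]
    simp only [Fin.val_zero]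
    omega

/-- reflection of the rows preserves the average -/
theorem Ea_rc {n : ℕ} (s : ℕ) (f : (Fin s → Fin (2 * n + 1) → Bool) → ℝ) :
    Ea s (fun c => f (rc c)) = Ea s f := by
  unfold Ea
  congr 1
  let e : (Fin s → Fin (2 * n + 1) → Bool) ≃ (Fin s → Fin (2 * n + 1) → Bool) :=
    ⟨rc, rc, rc_rc, rc_rc⟩
  exact e.sum_comp f

open Classical in
/-- the indicator of the closed edges -/
noncomputable def gi (n : ℕ) (σ τ : Pat (2 * n + 1)) (j : Fin (2 * n + 1)) : ℝ :=
  if Cl n σ τ j then 1 else 0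

theorem gi_pr (n : ℕ) (σ τ : Pat (2 * n + 1)) (j : Fin (2 * n + 1)) :
    gi n σ τ j = (Pool.Agent.H974R3.pr j σ τ).re := by
  unfold gi Pool.Agent.H974R3.pr Cl
  split_ifs <;> simp

theorem gi_01 (n : ℕ) (σ τ : Pat (2 * n + 1)) (j : Fin (2 * n + 1)) :
    0 ≤ gi n σ τ j ∧ gi n σ τ j ≤ 1 := by
  unfold gi
  split_ifs <;> norm_num

/-- the mean number of closed edges on the level `t` -/
theorem mean_level {n : ℕ} (t s : ℕ) (j : Fin (2 * n + 1)) :
    Ea (t + s) (fun c : Fin (t + s) → Fin (2 * n + 1) → Bool =>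
      gi n (rn n (t + s + 1) (capd (t + s) c) t).1 (up' n (t + s + 1) (capd (t + s) c) t) j) =
    ∑ σ, ∑ τ, gi n σ τ j * pl n (start n) t σ * pl n (rho0 n) s τ := by
  classical
  have e1 : ∀ c : Fin (t + s) → Fin (2 * n + 1) → Bool,
      gi n (rn n (t + s + 1) (capd (t + s) c) t).1 (up' n (t + s + 1) (capd (t + s) c) t) j =
      ∑ σ, ∑ τ, gi n σ τ j * ((fun c' => if (run (2 * n) t c' (start n)).1 = σ then (1 : ℝ) else 0)
        (lft t s c) * (fun c' => if (run (2 * n) s (rc c') (rho0 n)).1 = τ then (1 : ℝ) else 0)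
        (rgt t s c)) := by
    intro c
    rw [low_pat, upp_pat]
    rw [Finset.sum_eq_single (run (2 * n) t (lft t s c) (start n)).1]
    · rw [Finset.sum_eq_single (run (2 * n) s (rc (rgt t s c)) (rho0 n)).1]
      · simp
      · intro τ _ h
        simp only
        rw [if_neg (Ne.symm h)]
        ring
      · intro h; exact absurd (Finset.mem_univ _) h
    · intro σ _ h
      apply Finset.sum_eq_zero
      intro τ _
      simp only
      rw [if_neg (Ne.symm h)]
      ring
    · intro h; exact absurd (Finset.mem_univ _) h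
  have e2 : ∀ (ι : Type) [Fintype ι] (f : ι → (Fin (t + s) → Fin (2 * n + 1) → Bool) → ℝ),
      Ea (t + s) (fun c => ∑ i, f i c) = ∑ i, Ea (t + s) (f i) := by
    intro ι _ f
    unfold Ea
    rw [Finset.sum_comm, Finset.sum_div]
  rw [show (fun c : Fin (t + s) → Fin (2 * n + 1) → Bool => gi n (rn n (t + s + 1)
    (capd (t + s) c) t).1 (up' n (t + s + 1) (capd (t + s) c) t) j) = _ from funext e1, e2]
  refine Finset.sum_congr rfl fun σ _ => ?_
  rw [e2]
  refine Finset.sum_congr rfl fun τ _ => ?_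
  rw [Ea_mul']
  have h := Pool.Agent.Y484.KW.Ea_prod t s
    (fun c' : Fin t → Fin (2 * n + 1) → Bool =>
      if (run (2 * n) t c' (start n)).1 = σ then (1 : ℝ) else 0)
    (fun c' : Fin s → Fin (2 * n + 1) → Bool =>
      if (run (2 * n) s (rc c') (rho0 n)).1 = τ then (1 : ℝ) else 0)
  refine (congrArg (fun z => gi n σ τ j * z) h).trans ?_
  rw [mul_assoc]
  congr 2
  exact Ea_rc s (fun c' => if (run (2 * n) s c' (rho0 n)).1 = τ then (1 : ℝ) else 0)

/-- comparison with the stationary law -/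
theorem level_dist {n : ℕ} (μ : Pat (2 * n + 1) → ℝ) (hμ0 : ∀ σ, 0 ≤ μ σ) (hμ : ∑ σ, μ σ = 1)
    (t s : ℕ) (j : Fin (2 * n + 1)) :
    |∑ σ, ∑ τ, gi n σ τ j * pl n (start n) t σ * pl n (rho0 n) s τ -
      ∑ σ, ∑ τ, gi n σ τ j * μ σ * μ τ| ≤
    Dv (fun σ => pl n (start n) t σ - μ σ) + Dv (fun σ => pl n (rho0 n) s σ - μ σ) := by
  rw [← Finset.sum_sub_distrib]
  have e1 : ∀ σ, ∑ τ, gi n σ τ j * pl n (start n) t σ * pl n (rho0 n) s τ -
      ∑ τ, gi n σ τ j * μ σ * μ τ =
      (∑ τ, gi n σ τ j * pl n (rho0 n) s τ) * (pl n (start n) t σ - μ σ) +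
        μ σ * ∑ τ, gi n σ τ j * (pl n (rho0 n) s τ - μ τ) := by
    intro σ
    rw [Finset.sum_mul, Finset.mul_sum, ← Finset.sum_sub_distrib, ← Finset.sum_add_distrib]
    refine Finset.sum_congr rfl fun τ _ => ?_
    ring
  rw [Finset.sum_congr rfl fun σ _ => e1 σ, Finset.sum_add_distrib]
  refine (abs_add_le _ _).trans (add_le_add ?_ ?_)
  · unfold Dv
    refine (Finset.abs_sum_le_sum_abs _ _).trans (Finset.sum_le_sum fun σ _ => ?_)
    rw [abs_mul]
    have h1 : |∑ τ, gi n σ τ j * pl n (rho0 n) s τ| ≤ 1 := by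
      rw [abs_of_nonneg (Finset.sum_nonneg fun τ _ => mul_nonneg (gi_01 n σ τ j).1
        (pl_nonneg n _ s τ)), ← pl_sum n (rho0 n) s]
      refine Finset.sum_le_sum fun τ _ => ?_
      exact mul_le_of_le_one_left (pl_nonneg n _ s τ) (gi_01 n σ τ j).2
    exact mul_le_of_le_one_left (abs_nonneg _) h1
  · refine (Finset.abs_sum_le_sum_abs _ _).trans ?_
    calc ∑ σ, |μ σ * ∑ τ, gi n σ τ j * (pl n (rho0 n) s τ - μ τ)|
        ≤ ∑ σ, μ σ * Dv (fun σ => pl n (rho0 n) s σ - μ σ) := by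
          refine Finset.sum_le_sum fun σ _ => ?_
          rw [abs_mul, abs_of_nonneg (hμ0 σ)]
          apply mul_le_mul_of_nonneg_left _ (hμ0 σ)
          refine (Finset.abs_sum_le_sum_abs _ _).trans (Finset.sum_le_sum fun τ _ => ?_)
          rw [abs_mul, abs_of_nonneg (gi_01 n σ τ j).1]
          exact mul_le_of_le_one_left (abs_nonneg _) (gi_01 n σ τ j).2
      _ = _ := by rw [← Finset.sum_mul, hμ, one_mul]

/-- the mean number of steps in the cylinder with the row of caps -/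
theorem mean_capd (hV : S_VAL) (hI : S_INJ) (hH : S_HIT) (n : ℕ) (hn : 1 ≤ n) : ∃ C : ℝ,
    ∀ M : ℕ, |Ea M (fun c : Fin M → Fin (2 * n + 1) → Bool => Tm n (M + 1) (capd M c)) -
      2 * (2 * n + 1) * pval n * M| ≤ C := by
  classical
  obtain ⟨μ, hμ0, hμ1, hμ2, -, -⟩ := markov_exists n
  obtain ⟨C, hC, hconv⟩ := pl_conv n μ hμ1 hμ2
  have hval := pairing_value n μ hμ1 hμ2
  obtain ⟨N, hN⟩ : ∃ N : ℝ, N = 2 * n + 1 := ⟨_, rfl⟩
  have hN1 : 1 ≤ N := by
    rw [hN]
    have : (0 : ℝ) ≤ n := by positivity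
    linarith
  have hp1 : pval n ≤ 1 := by
    have h1 := hval 0
    rw [← h1]
    calc ∑ σ, ∑ τ, (Pool.Agent.H974R3.pr 0 σ τ).re * μ σ * μ τ ≤ ∑ σ, ∑ τ, μ σ * μ τ := by
          refine Finset.sum_le_sum fun σ _ => Finset.sum_le_sum fun τ _ => ?_
          rw [← gi_pr, mul_assoc]
          exact mul_le_of_le_one_left (mul_nonneg (hμ0 σ) (hμ0 τ)) (gi_01 n σ τ 0).2
      _ = 1 := by rw [← Finset.sum_mul_sum, hμ1]; norm_num
  refine ⟨2 * (N * (2 * C)) + 10 * N, fun M => ?_⟩
  -- the numbers of edges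
  have hcard : ∀ (c : Fin M → Fin (2 * n + 1) → Bool) (t : ℕ), t < M + 1 →
      ((tms n (M + 1) (capd M c) t).card : ℝ) =
      ∑ j : Fin (2 * n + 1), gi n (rn n (M + 1) (capd M c) t).1 (up' n (M + 1) (capd M c) t) j := by
    intro c t ht
    have hW : (rn n (M + 1) (capd M c) (M + 1)).1.1 none = some (Fin.last (2 * n)) := by
      rw [rn_succ (capd M c) M (by omega)]
      have e : capd M c ⟨M, by omega⟩ = capr n := by
        unfold capd
        rw [dif_neg (by simp)]
      rw [e]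
      exact capr_defect n _
    rw [card_tms hV hI hn t]
    unfold gi
    rw [Finset.sum_ite, Finset.sum_const_zero, add_zero, Finset.sum_const, nsmul_eq_mul, mul_one]
    congr 2
    ext j
    rw [Finset.mem_filter, Finset.mem_filter]
    simp only [Finset.mem_univ, true_and]
    rw [← vis_iff ht j]
    unfold Vis
    constructor
    · rintro ⟨x, h1, h2⟩
      exact ⟨x, h1, (tr_iff hI hH hn hW _).1 h2⟩
    · rintro ⟨x, h1, h2⟩
      exact ⟨x, h1, (tr_iff hI hH hn hW _).2 h2⟩
  -- the sum over the levels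
  obtain ⟨S, hS⟩ : ∃ S : (Fin M → Fin (2 * n + 1) → Bool) → ℝ, S = fun c =>
    ∑ t ∈ Finset.range (M + 1), ∑ j : Fin (2 * n + 1),
      gi n (rn n (M + 1) (capd M c) t).1 (up' n (M + 1) (capd M c) t) j := ⟨_, rfl⟩
  have hlen : ∀ c, |Tm n (M + 1) (capd M c) - 2 * S c| ≤ 4 * N := by
    intro c
    obtain ⟨h1, h2⟩ := steps (W := M + 1) (c := capd M c) hV hI hH hn
    rw [Finset.sum_range_succ] at h1 h2
    have h3 := card_tms_le (W := M + 1) (c := capd M c) hV hI hn (M + 1)
    have h4 : (0 : ℤ) ≤ ((tms n (M + 1) (capd M c) (M + 1)).card : ℤ) := by positivity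
    have h3' : ((tms n (M + 1) (capd M c) (M + 1)).card : ℤ) ≤ 2 * n + 1 := by exact_mod_cast h3
    have hSc : S c = ((∑ t ∈ Finset.range (M + 1), ((tms n (M + 1) (capd M c) t).card : ℤ) : ℤ) : ℝ) := by
      rw [hS]
      push_cast
      refine Finset.sum_congr rfl fun t ht => ?_
      rw [Finset.mem_range] at ht
      exact (hcard c t ht).symm
    obtain ⟨Z, hZ⟩ : ∃ Z : ℤ, Z = ∑ t ∈ Finset.range (M + 1),
      ((tms n (M + 1) (capd M c) t).card : ℤ) := ⟨_, rfl⟩
    rw [← hZ] at h1 h2 hSc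
    rw [hSc]
    unfold Tm
    have g1 : (len n 0 ((M + 1 : ℕ) : ℤ) (cfg n (M + 1) (capd M c)) : ℤ) - 2 * Z ≤ 4 * n + 1 := by
      omega
    have g2 : -(4 * (n : ℤ) + 4) ≤ (len n 0 ((M + 1 : ℕ) : ℤ) (cfg n (M + 1) (capd M c)) : ℤ) - 2 * Z := by
      omega
    have g1' : (len n 0 ((M + 1 : ℕ) : ℤ) (cfg n (M + 1) (capd M c)) : ℝ) - 2 * Z ≤ 4 * n + 1 := by
      exact_mod_cast g1
    have g2' : -(4 * (n : ℝ) + 4) ≤ (len n 0 ((M + 1 : ℕ) : ℤ) (cfg n (M + 1) (capd M c)) : ℝ) - 2 * Z := by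
      exact_mod_cast g2
    have hn0 : (0 : ℝ) ≤ n := by positivity
    rw [abs_le, hN]
    constructor <;> linarith
  have hES : |Ea M S - N * pval n * (M + 1)| ≤ N * (2 * C) := by
    have e1 : Ea M S = ∑ t ∈ Finset.range (M + 1), ∑ j : Fin (2 * n + 1),
        ∑ σ, ∑ τ, gi n σ τ j * pl n (start n) t σ * pl n (rho0 n) (M - t) τ := by
      rw [hS]
      have e2 : Ea M (fun c => ∑ t ∈ Finset.range (M + 1), ∑ j : Fin (2 * n + 1),
          gi n (rn n (M + 1) (capd M c) t).1 (up' n (M + 1) (capd M c) t) j) =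
          ∑ t ∈ Finset.range (M + 1), ∑ j : Fin (2 * n + 1), Ea M (fun c =>
          gi n (rn n (M + 1) (capd M c) t).1 (up' n (M + 1) (capd M c) t) j) := by
        unfold Ea
        rw [Finset.sum_comm, Finset.sum_div]
        refine Finset.sum_congr rfl fun t _ => ?_
        rw [Finset.sum_comm, Finset.sum_div]
      rw [e2]
      refine Finset.sum_congr rfl fun t ht => Finset.sum_congr rfl fun j _ => ?_
      rw [Finset.mem_range] at ht
      obtain ⟨s, rfl⟩ := Nat.exists_eq_add_of_le (show t ≤ M by omega)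
      rw [show t + s - t = s by omega]
      exact mean_level t s j
    have e3 : N * pval n * (M + 1) = ∑ t ∈ Finset.range (M + 1), ∑ j : Fin (2 * n + 1),
        ∑ σ, ∑ τ, gi n σ τ j * μ σ * μ τ := by
      have e4 : ∀ j : Fin (2 * n + 1), ∑ σ, ∑ τ, gi n σ τ j * μ σ * μ τ = pval n := by
        intro j
        rw [← hval j]
        refine Finset.sum_congr rfl fun σ _ => Finset.sum_congr rfl fun τ _ => ?_
        rw [gi_pr]
      rw [Finset.sum_congr rfl fun t _ => Finset.sum_congr rfl fun j _ => e4 j]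
      rw [Finset.sum_const, Finset.sum_const, Finset.card_univ, Fintype.card_fin, Finset.card_range,
        nsmul_eq_mul, nsmul_eq_mul, hN]
      push_cast
      ring
    rw [e1, e3, ← Finset.sum_sub_distrib]
    refine (Finset.abs_sum_le_sum_abs _ _).trans ?_
    calc ∑ t ∈ Finset.range (M + 1), |∑ j : Fin (2 * n + 1),
          ∑ σ, ∑ τ, gi n σ τ j * pl n (start n) t σ * pl n (rho0 n) (M - t) τ -
          ∑ j : Fin (2 * n + 1), ∑ σ, ∑ τ, gi n σ τ j * μ σ * μ τ|
        ≤ ∑ t ∈ Finset.range (M + 1), N * (Dv (fun σ => pl n (start n) t σ - μ σ) +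
            Dv (fun σ => pl n (rho0 n) (M - t) σ - μ σ)) := by
          refine Finset.sum_le_sum fun t _ => ?_
          rw [← Finset.sum_sub_distrib]
          refine (Finset.abs_sum_le_sum_abs _ _).trans ?_
          refine (Finset.sum_le_sum fun j _ => level_dist μ hμ0 hμ1 t (M - t) j).trans ?_
          rw [Finset.sum_const, Finset.card_univ, Fintype.card_fin, nsmul_eq_mul, hN]
          push_cast
          exact le_rfl
      _ = N * (∑ t ∈ Finset.range (M + 1), Dv (fun σ => pl n (start n) t σ - μ σ) +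
            ∑ t ∈ Finset.range (M + 1), Dv (fun σ => pl n (rho0 n) (M - t) σ - μ σ)) := by
          rw [← Finset.mul_sum, Finset.sum_add_distrib]
      _ ≤ N * (C + C) := by
          apply mul_le_mul_of_nonneg_left _ (by linarith)
          apply add_le_add (hconv _ _)
          have h1 := Finset.sum_range_reflect (fun t => Dv (fun σ => pl n (rho0 n) t σ - μ σ)) (M + 1)
          simp only [Nat.add_sub_cancel] at h1
          rw [h1]
          exact hconv _ _
      _ = N * (2 * C) := by ring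
  have hET : |Ea M (fun c => Tm n (M + 1) (capd M c)) - 2 * Ea M S| ≤ 4 * N := by
    rw [← Ea_mul', ← Ea_sub']
    refine (Ea_abs_le _ _).trans ?_
    refine (Ea_mono' M hlen).trans (le_of_eq ?_)
    exact Ea_const' M _
  have hfin : Ea M (fun c => Tm n (M + 1) (capd M c)) - 2 * (2 * n + 1) * pval n * M =
      (Ea M (fun c => Tm n (M + 1) (capd M c)) - 2 * Ea M S) +
      2 * (Ea M S - N * pval n * (M + 1)) + 2 * N * pval n := by
    rw [hN]
    ring
  rw [hfin]
  refine (abs_add_le _ _).trans ?_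
  have h5 := abs_add_le (Ea M (fun c => Tm n (M + 1) (capd M c)) - 2 * Ea M S)
    (2 * (Ea M S - N * pval n * (M + 1)))
  rw [abs_mul, abs_of_pos (show (0 : ℝ) < 2 by norm_num)] at h5
  have h6 : |2 * N * pval n| ≤ 2 * N := by
    rw [abs_of_nonneg (by have := pval_pos n; positivity)]
    have : 2 * N * pval n ≤ 2 * N * 1 := by gcongr
    linarith
  linarith

end Pool.Agent.L5helper96.NT
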