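import Pool.Agent.L5helper96.NT.Len
import Pool.Agent.Y941.KW.Tail
import Pool.Agent.Y949.KW.Mom
import Pool.Agent.Y37.KW.Bas

/-!
# Natural time of the interface on long cylinders: tails
-/

set_option autoImplicit false

namespace Pool.Agent.L5helper96.NT
open Y994.KW Pool.Agent.Y290.KW Finset
open Pool.Agent.Y941.KW (pr_le_one pr_or pr_mono pr_nonneg per_cfg bad S_T1LOC cfg_shift)

/-- the number of steps in `M` rows -/
noncomputable def Tm (n M : ℕ) (c : Fin M → Fin (2 * n + 1) → Bool) : ℝ := (len n 0 M (cfg n M c) : ℝ)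

theorem len_loc (hH : S_HIT) {n : ℕ} {a b h : ℤ} {σ σ' : Cfg} (hn : 1 ≤ n) (hp : Per n σ)
    (hab : a ≤ b) (hσ : ∀ j t : ℤ, a ≤ t → t < b → σ' j (t + h) = σ j t) :
    len n (a + h) (b + h) σ' = len n a b σ :=
  len_eq (Pool.Agent.Y37.KW.hit_vs hab hσ (hit_len hH hn hp hab))

/-- a slab crossed by one strand below the level `s` -/
theorem slab_lo (hMONO : S_T1MONO) (hT : S_T1LOC) {c : ℝ} (hc1 : c ≤ 1)
    (hc : ∀ n : ℕ, 1 ≤ n →
      c ≤ pr n (2 * n + 1) (fun ω => T1 n (cfg n (2 * n + 1) ω) 0 (2 * n + 1)))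
    (n W s m : ℕ) (hn : 1 ≤ n) (hs : s ≤ W) :
    ∃ lo : ℤ, 0 ≤ lo ∧ lo ≤ s ∧ (s : ℤ) - lo ≤ m * (2 * n + 1) ∧
      ∃ B : (Fin W → Fin (2 * n + 1) → Bool) → Prop, pr n W B ≤ (1 - c) ^ m ∧
      ∀ ω, ¬ B ω → (lo = 0 ∨ T1 n (cfg n W ω) lo s) := by
  have hc0 : 0 ≤ 1 - c := by linarith
  rcases Nat.lt_or_ge s (m * (2 * n + 1)) with h1 | h1
  · refine ⟨0, le_rfl, by positivity, ?_, fun _ => False, ?_, fun _ _ => Or.inl rfl⟩
    · have : ((s : ℕ) : ℤ) ≤ ((m * (2 * n + 1) : ℕ) : ℤ) := by exact_mod_cast h1.le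
      push_cast at this
      linarith
    · have h2 : pr n W (fun _ => False) = 0 := by
        rw [Pool.Agent.Y941.KW.pr_eq]
        simp
      rw [h2]
      positivity
  · obtain ⟨u, hu⟩ := Nat.exists_eq_add_of_le' h1
    refine ⟨(u : ℤ), by positivity, by rw [hu]; push_cast; nlinarith, ?_,
      fun ω => ∀ i : Fin m, ¬ T1 n (cfg n W ω) (((u + i * (2 * n + 1) : ℕ)) : ℤ)
        (((u + i * (2 * n + 1) : ℕ) : ℤ) + (2 * n + 1)), ?_, ?_⟩
    · rw [hu]; push_cast; linarith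
    · exact bad hT hc n W m u hn (by omega)
    · intro ω hω
      push Not at hω
      obtain ⟨i, hi⟩ := hω
      right
      refine hMONO n _ u _ _ s hn (per_cfg n _ ω) ?_ ?_ ?_ hi
      · push_cast; nlinarith [Nat.zero_le (i : ℕ)]
      · linarith
      · have h2 := Nat.mul_le_mul_right (2 * n + 1) (Nat.succ_le_of_lt i.2)
        rw [Nat.succ_mul] at h2
        have h3 : (u + i * (2 * n + 1) + (2 * n + 1) : ℕ) ≤ s := by omega
        have h4 : ((u + i * (2 * n + 1) + (2 * n + 1) : ℕ) : ℤ) ≤ s := by exact_mod_cast h3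
        push_cast at h4 ⊢
        linarith

/-- a slab crossed by one strand above the level `s` -/
theorem slab_hi (hMONO : S_T1MONO) (hT : S_T1LOC) {c : ℝ} (hc1 : c ≤ 1)
    (hc : ∀ n : ℕ, 1 ≤ n →
      c ≤ pr n (2 * n + 1) (fun ω => T1 n (cfg n (2 * n + 1) ω) 0 (2 * n + 1)))
    (n W s m : ℕ) (hn : 1 ≤ n) (hs : s ≤ W) :
    ∃ hi : ℤ, (s : ℤ) ≤ hi ∧ hi ≤ W ∧ hi - s ≤ m * (2 * n + 1) ∧
      ∃ B : (Fin W → Fin (2 * n + 1) → Bool) → Prop, pr n W B ≤ (1 - c) ^ m ∧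
      ∀ ω, ¬ B ω → (hi = W ∨ T1 n (cfg n W ω) s hi) := by
  have hc0 : 0 ≤ 1 - c := by linarith
  obtain ⟨M', rfl⟩ := Nat.exists_eq_add_of_le hs
  rcases Nat.lt_or_ge M' (m * (2 * n + 1)) with h1 | h1
  · refine ⟨((s + M' : ℕ) : ℤ), by push_cast; linarith [Int.natCast_nonneg M'], le_rfl, ?_,
      fun _ => False, ?_, fun _ _ => Or.inl rfl⟩
    · have : ((M' : ℕ) : ℤ) ≤ ((m * (2 * n + 1) : ℕ) : ℤ) := by exact_mod_cast h1.le
      push_cast at this ⊢
      linarith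
    · have h2 : pr n (s + M') (fun _ => False) = 0 := by
        rw [Pool.Agent.Y941.KW.pr_eq]
        simp
      rw [h2]
      positivity
  · refine ⟨((s + m * (2 * n + 1) : ℕ) : ℤ), by push_cast; nlinarith, ?_, ?_,
      fun ω => ∀ i : Fin m, ¬ T1 n (cfg n (s + M') ω) (((s + i * (2 * n + 1) : ℕ)) : ℤ)
        (((s + i * (2 * n + 1) : ℕ) : ℤ) + (2 * n + 1)), ?_, ?_⟩
    · exact_mod_cast Nat.add_le_add_left h1 s
    · push_cast; linarith
    · exact bad hT hc n (s + M') m s hn (by omega)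
    · intro ω hω
      push Not at hω
      obtain ⟨i, hi⟩ := hω
      right
      refine hMONO n _ s _ _ _ hn (per_cfg n _ ω) ?_ ?_ ?_ hi
      · push_cast; nlinarith [Nat.zero_le (i : ℕ)]
      · linarith
      · have h2 := Nat.mul_le_mul_right (2 * n + 1) (Nat.succ_le_of_lt i.2)
        rw [Nat.succ_mul] at h2
        have h3 : (s + i * (2 * n + 1) + (2 * n + 1) : ℕ) ≤ s + m * (2 * n + 1) := by omega
        have h4 : ((s + i * (2 * n + 1) + (2 * n + 1) : ℕ) : ℤ) ≤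
          ((s + m * (2 * n + 1) : ℕ) : ℤ) := by exact_mod_cast h3
        push_cast at h4 ⊢
        linarith

/-! ## the number of steps is almost additive -/

theorem len_parts (hH : S_HIT) {n : ℕ} (hn : 1 ≤ n) (M M' : ℕ)
    (ω : Fin (M + M') → Fin (2 * n + 1) → Bool) :
    Tm n (M + M') ω = (len n 0 ((M + M' : ℕ) : ℤ) (cfg n (M + M') ω) : ℝ) ∧
    Tm n M (lft M M' ω) = (len n 0 M (cfg n (M + M') ω) : ℝ) ∧
    Tm n M' (rgt M M' ω) = (len n M ((M + M' : ℕ) : ℤ) (cfg n (M + M') ω) : ℝ) := by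
  refine ⟨rfl, ?_, ?_⟩
  · have h1 := len_loc hH (n := n) (a := 0) (b := M) (h := 0) (σ := cfg n M (lft M M' ω))
      (σ' := cfg n (M + M') ω) hn (per_cfg n _ _) (by positivity)
      (fun j t h0 h1 => cfg_shift n (M + M') M 0 ω (lft M M' ω) (by omega)
        (fun t => congrArg ω (Fin.ext (by simp))) j t h0 h1)
    rw [add_zero, add_zero] at h1
    unfold Tm
    rw [h1]
  · have h1 := len_loc hH (n := n) (a := 0) (b := M') (h := M) (σ := cfg n M' (rgt M M' ω))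
      (σ' := cfg n (M + M') ω) hn (per_cfg n _ _) (by positivity)
      (fun j t h0 h1 => cfg_shift n (M + M') M' M ω (rgt M M' ω) le_rfl
        (fun t => rfl) j t h0 h1)
    rw [zero_add, add_comm (M' : ℤ)] at h1
    unfold Tm
    push_cast
    rw [h1]

/-- tail of the error, for given parameters -/
theorem ltail_m (hV : S_VAL) (hI : S_INJ) (hH : S_HIT) (hMONO : S_T1MONO) (hT : S_T1LOC)
    {c : ℝ} (hc1 : c ≤ 1)
    (hc : ∀ n : ℕ, 1 ≤ n →
      c ≤ pr n (2 * n + 1) (fun ω => T1 n (cfg n (2 * n + 1) ω) 0 (2 * n + 1)))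
    (n M M' : ℕ) (x : ℝ) (m : ℕ) (hn : 1 ≤ n) (hm : 1 ≤ m) (hx : 5 * (m : ℝ) < x) :
    pr n (M + M') (fun c => x * (2 * n + 1) ^ 2 ≤
      |Tm n (M + M') c - Tm n M (lft M M' c) - Tm n M' (rgt M M' c)|) ≤ 2 * (1 - c) ^ m := by
  obtain ⟨lo, hlo0, hloM, hlom, B1, hB1, hlo⟩ :=
    slab_lo hMONO hT hc1 hc n (M + M') M m hn (by omega)
  obtain ⟨hi, hhiM, hhiW, hhim, B2, hB2, hhi⟩ :=
    slab_hi hMONO hT hc1 hc n (M + M') M m hn (by omega)
  have hmain : pr n (M + M') (fun c => x * (2 * n + 1) ^ 2 ≤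
      |Tm n (M + M') c - Tm n M (lft M M' c) - Tm n M' (rgt M M' c)|) ≤
      pr n (M + M') (fun ω => B1 ω ∨ B2 ω) := by
    apply pr_mono
    intro ω hω
    by_contra hcon
    rw [not_or] at hcon
    obtain ⟨e1, e2, e3⟩ := len_parts hH hn M M' ω
    have h1 := add_err hV hI hH hn (per_cfg n _ ω) hlo0 hloM hhiM hhiW (hlo ω hcon.1)
      (hhi ω hcon.2)
    rw [e1, e2, e3] at hω
    have h2 : (|(len n 0 ((M + M' : ℕ) : ℤ) (cfg n (M + M') ω) : ℝ) -
        len n 0 M (cfg n (M + M') ω) - len n M ((M + M' : ℕ) : ℤ) (cfg n (M + M') ω)|) ≤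
        (2 * n + 1) * (2 * (hi - lo) + 1) := by exact_mod_cast h1
    have h3 : (hi : ℝ) - lo ≤ 2 * m * (2 * n + 1) := by
      have : hi - lo ≤ 2 * m * (2 * n + 1) := by linarith
      exact_mod_cast this
    have hn0 : (1 : ℝ) ≤ 2 * n + 1 := by
      have : (0 : ℝ) ≤ n := by positivity
      linarith
    have hm' : (1 : ℝ) ≤ m := by exact_mod_cast hm
    have h4 : (2 * (n : ℝ) + 1) * (2 * (hi - lo) + 1) ≤ 5 * m * (2 * n + 1) ^ 2 := by
      have h5 : 2 * ((hi : ℝ) - lo) + 1 ≤ 5 * m * (2 * n + 1) := by nlinarith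
      calc _ ≤ (2 * (n : ℝ) + 1) * (5 * m * (2 * n + 1)) := by gcongr
        _ = _ := by ring
    have h5 : 5 * (m : ℝ) * (2 * n + 1) ^ 2 < x * (2 * n + 1) ^ 2 := by
      apply mul_lt_mul_of_pos_right hx (by positivity)
    linarith
  refine hmain.trans ((pr_or _ _).trans ?_)
  linarith

/-- tail of the error -/
theorem ltail (hV : S_VAL) (hI : S_INJ) (hH : S_HIT) (hMONO : S_T1MONO) (hT : S_T1LOC)
    (hT1P : S_T1P) : ∃ C κ : ℝ, 0 < C ∧ 0 < κ ∧ ∀ (n M M' : ℕ) (x : ℝ), 1 ≤ n → 0 ≤ x →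
    pr n (M + M') (fun c => x * (2 * n + 1) ^ 2 ≤
      |Tm n (M + M') c - Tm n M (lft M M' c) - Tm n M' (rgt M M' c)|) ≤
      C * Real.exp (-κ * √x) := by
  obtain ⟨c, hc0, hc⟩ := hT1P
  have hc1 : c ≤ 1 := (hc 1 le_rfl).trans (pr_le_one _)
  refine ⟨2 * Real.exp (4 * c), c / 6, by positivity, by positivity, ?_⟩
  intro n M M' x hn hx
  rcases lt_or_ge x 12 with h12 | h12
  · refine (pr_le_one _).trans ?_
    have h1 : √x ≤ 4 := by
      rw [show (4 : ℝ) = √16 by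
        rw [show (16 : ℝ) = 4 ^ 2 by norm_num, Real.sqrt_sq (by norm_num)]]
      exact Real.sqrt_le_sqrt (by linarith)
    rw [mul_assoc, ← Real.exp_add]
    have h2 : (1 : ℝ) ≤ Real.exp (4 * c + -(c / 6) * √x) := by
      apply Real.one_le_exp
      nlinarith
    linarith
  · set m : ℕ := ⌊x / 6⌋₊ with hm
    have hm1 : (m : ℝ) ≤ x / 6 := Nat.floor_le (by positivity)
    have hm2 : x / 6 < m + 1 := Nat.lt_floor_add_one _
    have hm0 : 1 ≤ m := by
      have : (1 : ℝ) < m + 1 := by linarith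
      have h2 : (1 : ℕ) < m + 1 := by exact_mod_cast this
      omega
    refine (ltail_m hV hI hH hMONO hT hc1 hc n M M' x m hn hm0 (by linarith)).trans ?_
    have h2 : (1 - c) ^ m ≤ Real.exp (-c * m) := by
      calc (1 - c) ^ m ≤ (Real.exp (-c)) ^ m := by
            apply pow_le_pow_left₀ (by linarith)
            have := Real.add_one_le_exp (-c)
            linarith
        _ = Real.exp (-c * m) := by rw [← Real.exp_nat_mul]; congr 1; ring
    have h3 : Real.exp (-c * m) ≤ Real.exp (4 * c) * Real.exp (-(c / 6) * √x) := by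
      rw [← Real.exp_add]
      apply Real.exp_le_exp.2
      have h4 : √x ≤ x := by
        rw [Real.sqrt_le_left (by linarith)]
        nlinarith
      nlinarith
    calc _ ≤ 2 * Real.exp (-c * m) := by linarith
      _ ≤ 2 * (Real.exp (4 * c) * Real.exp (-(c / 6) * √x)) := by linarith
      _ = _ := by ring

end Pool.Agent.L5helper96.NT
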